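import Pool.Agent.H442R2.KF.Inc

/-!
# Counting with a tent function and additive characters
-/

set_option autoImplicit false

namespace Pool.Agent.K4H50.HL

open Finset

/-- the number of the pairs `(i, j)`, `i, j < L`, with `i - j = u` modulo `q` -/
def tent (q L : ℕ) (u : ZMod q) : ℕ :=
  ((range L ×ˢ range L).filter (fun p : ℕ × ℕ => ((p.1 : ZMod q) - (p.2 : ZMod q)) = u)).card

/-- geometric sum -/
noncomputable def GG (q L : ℕ) [NeZero q] (k : ZMod q) : ℂ :=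
  ∑ i ∈ range L, ZMod.stdAddChar (k * (i : ZMod q))

theorem tent_eq (q L : ℕ) [NeZero q] (u : ZMod q) :
    (q : ℂ) * (tent q L u : ℂ) = ∑ k : ZMod q, GG q L k * GG q L (-k) * ZMod.stdAddChar (-(k * u)) := by
  have h1 : ∀ k : ZMod q, GG q L k * GG q L (-k) * ZMod.stdAddChar (-(k * u)) =
      ∑ p ∈ range L ×ˢ range L, ZMod.stdAddChar (k * ((p.1 : ZMod q) - (p.2 : ZMod q) - u)) := by
    intro k
    unfold GG
    rw [sum_mul_sum, ← sum_product', sum_mul]
    apply sum_congr rfl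
    rintro ⟨i, j⟩ _
    rw [← AddChar.map_add_eq_mul, ← AddChar.map_add_eq_mul]
    congr 1
    ring
  rw [sum_congr rfl (fun k _ => h1 k), sum_comm]
  have h2 : ∀ p ∈ range L ×ˢ range L, ∑ k : ZMod q,
      ZMod.stdAddChar (k * ((p.1 : ZMod q) - (p.2 : ZMod q) - u)) =
      if ((p.1 : ZMod q) - (p.2 : ZMod q)) = u then (q : ℂ) else 0 := by
    intro p _
    rw [AddChar.sum_mulShift _ (ZMod.isPrimitive_stdAddChar q), ZMod.card]
    simp only [sub_eq_zero]
    split_ifs <;> simp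
  rw [sum_congr rfl h2, ← sum_filter, sum_const, nsmul_eq_mul, mul_comm]
  rfl

theorem norm_GG_neg (q L : ℕ) [NeZero q] (k : ZMod q) : ‖GG q L (-k)‖ = ‖GG q L k‖ := by
  have : GG q L (-k) = (starRingEnd ℂ) (GG q L k) := by
    unfold GG
    rw [map_sum]
    apply sum_congr rfl
    intro i _
    rw [← AddChar.map_neg_eq_conj]
    congr 1
    ring
  rw [this, Complex.norm_conj]

theorem GG_zero (q L : ℕ) [NeZero q] : GG q L 0 = L := by
  unfold GG
  simp

theorem norm_GG_le (q L : ℕ) [NeZero q] (k : ZMod q) : ‖GG q L k‖ ≤ L := by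
  unfold GG
  refine (norm_sum_le _ _).trans ?_
  simp

theorem tent_sum {ι : Type*} (S : Finset ι) (q L : ℕ) [NeZero q] (w : ι → ZMod q) :
    |(q : ℝ) * ∑ s ∈ S, (tent q L (w s) : ℝ) - (L : ℝ) ^ 2 * S.card| ≤
      ∑ k ∈ univ.erase (0 : ZMod q), ‖GG q L k‖ ^ 2 * ‖∑ s ∈ S, ZMod.stdAddChar (-(k * w s))‖ := by
  have h1 : (((q : ℝ) * ∑ s ∈ S, (tent q L (w s) : ℝ) - (L : ℝ) ^ 2 * S.card : ℝ) : ℂ) =
      ∑ k ∈ univ.erase (0 : ZMod q), GG q L k * GG q L (-k) * ∑ s ∈ S, ZMod.stdAddChar (-(k * w s)) := by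
    have h2 : ((q : ℂ) * ∑ s ∈ S, (tent q L (w s) : ℂ)) =
        ∑ k : ZMod q, GG q L k * GG q L (-k) * ∑ s ∈ S, ZMod.stdAddChar (-(k * w s)) := by
      rw [mul_sum, sum_congr rfl (fun s _ => tent_eq q L (w s)), sum_comm]
      apply sum_congr rfl
      intro k _
      rw [mul_sum]
    rw [← add_sum_erase univ _ (mem_univ (0 : ZMod q))] at h2
    push_cast
    rw [h2, neg_zero, GG_zero]
    simp only [zero_mul, neg_zero, AddChar.map_zero_eq_one, sum_const, nsmul_eq_mul, mul_one]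
    ring
  rw [← Real.norm_eq_abs, ← Complex.norm_real, h1]
  refine (norm_sum_le _ _).trans (sum_le_sum fun k _ => ?_)
  rw [norm_mul, norm_mul, norm_GG_neg, sq]

/-- `∑_{K < v < q} 1 / v^2 ≤ 1 / K` -/
theorem sum_inv_sq (K q : ℕ) (hK : 1 ≤ K) : ∑ v ∈ (Ico 1 q).filter (fun v => K < v), 1 / (v : ℝ) ^ 2 ≤ 1 / (K : ℝ) := by
  have h1 : ∀ n : ℕ, ∑ v ∈ Ioc K (K + n), 1 / (v : ℝ) ^ 2 ≤ 1 / (K : ℝ) - 1 / ((K + n : ℕ) : ℝ) := by
    intro n
    induction n with
    | zero => simp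
    | succ n ih =>
      rw [← add_assoc, sum_Ioc_succ_top (by omega : K ≤ K + n)]
      have hk : (0 : ℝ) < ((K + n : ℕ) : ℝ) := by exact_mod_cast (by omega : 0 < K + n)
      have h2 : 1 / ((K + n + 1 : ℕ) : ℝ) ^ 2 ≤ 1 / ((K + n : ℕ) : ℝ) - 1 / ((K + n + 1 : ℕ) : ℝ) := by
        push_cast at hk ⊢
        rw [div_sub_div _ _ (by positivity) (by positivity), div_le_div_iff₀ (by positivity) (by positivity)]
        nlinarith
      linarith
  refine le_trans ?_ ((h1 q).trans (sub_le_self _ (by positivity)))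
  apply sum_le_sum_of_subset_of_nonneg
  · intro v hv
    rw [mem_filter, mem_Ico] at hv
    rw [mem_Ioc]
    omega
  · intro v _ _
    positivity

/-- the bound of the sum over the nonzero frequencies -/
theorem freq_bound (q L K : ℕ) [NeZero q] (hK : 1 ≤ K) (T : ZMod q → ℝ) (B N : ℝ) (hB : 0 ≤ B) (hN : 0 ≤ N)
    (hT0 : ∀ k, 0 ≤ T k) (hTN : ∀ k, T k ≤ N)
    (hTB : ∀ m : ℤ, m ≠ 0 → T (m : ZMod q) ≤ |(m : ℝ)| * B) :
    ∑ k ∈ univ.erase (0 : ZMod q), ‖GG q L k‖ ^ 2 * T k ≤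
      4 * (L : ℝ) ^ 2 * B * (K : ℝ) ^ 2 + 2 * (q : ℝ) ^ 2 * N / K := by
  have hq0 : 0 < q := Nat.pos_of_ne_zero (NeZero.ne q)
  have hq : (0 : ℝ) < q := by exact_mod_cast hq0
  have hKr : (1 : ℝ) ≤ K := by exact_mod_cast hK
  -- reindex by `v = k.val`
  have h1 : ∑ k ∈ univ.erase (0 : ZMod q), ‖GG q L k‖ ^ 2 * T k =
      ∑ v ∈ Ico 1 q, ‖GG q L (v : ZMod q)‖ ^ 2 * T (v : ZMod q) := by
    refine sum_bij' (fun (k : ZMod q) _ => k.val) (fun (v : ℕ) _ => (v : ZMod q)) ?_ ?_ ?_ ?_ ?_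
    · intro k hk
      rw [mem_Ico]
      refine ⟨?_, ZMod.val_lt k⟩
      rcases Nat.eq_zero_or_pos k.val with h | h
      · exact absurd ((ZMod.val_eq_zero k).1 h) (mem_erase.1 hk).1
      · exact h
    · intro v hv
      rw [mem_Ico] at hv
      refine mem_erase.2 ⟨?_, mem_univ _⟩
      intro h0
      have := ZMod.val_natCast_of_lt hv.2
      rw [h0, ZMod.val_zero] at this
      omega
    · intro k _
      exact ZMod.natCast_zmod_val k
    · intro v hv
      rw [mem_Ico] at hv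
      exact ZMod.val_natCast_of_lt hv.2
    · intro k _
      rw [ZMod.natCast_zmod_val]
  rw [h1]
  have hterm : ∀ v ∈ Ico 1 q, ‖GG q L (v : ZMod q)‖ ^ 2 * T (v : ZMod q) ≤
      (if v ≤ K then (L : ℝ) ^ 2 * (K * B) else 0) + (if q - v ≤ K then (L : ℝ) ^ 2 * (K * B) else 0) +
      (if K < v then (q : ℝ) ^ 2 * N * (1 / (v : ℝ) ^ 2) else 0) +
      (if K < q - v then (q : ℝ) ^ 2 * N * (1 / ((q - v : ℕ) : ℝ) ^ 2) else 0) := by
    intro v hv
    rw [mem_Ico] at hv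
    have hv0 : (0 : ℝ) < v := by exact_mod_cast hv.1
    have hvq : (v : ℝ) < q := by exact_mod_cast hv.2
    have hqv : (0 : ℝ) < ((q - v : ℕ) : ℝ) := by exact_mod_cast Nat.sub_pos_of_lt hv.2
    have hGL := norm_GG_le q L (v : ZMod q)
    have hG0 := norm_nonneg (GG q L (v : ZMod q))
    have hT0v := hT0 (v : ZMod q)
    have hTNv := hTN (v : ZMod q)
    have p1 : 0 ≤ (L : ℝ) ^ 2 * (K * B) := by positivity
    have p2 : 0 ≤ (q : ℝ) ^ 2 * N * (1 / (v : ℝ) ^ 2) := by positivity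
    have p3 : 0 ≤ (q : ℝ) ^ 2 * N * (1 / ((q - v : ℕ) : ℝ) ^ 2) := by positivity
    by_cases hv1 : v ≤ K
    · have h2 : T (v : ZMod q) ≤ K * B := by
        have := hTB (v : ℤ) (by exact_mod_cast (by omega : v ≠ 0))
        rw [Int.cast_natCast] at this
        refine this.trans ?_
        rw [Int.cast_natCast, abs_of_pos hv0]
        exact mul_le_mul_of_nonneg_right (by exact_mod_cast hv1) hB
      have h3 : ‖GG q L (v : ZMod q)‖ ^ 2 * T (v : ZMod q) ≤ (L : ℝ) ^ 2 * (K * B) :=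
        mul_le_mul (pow_le_pow_left₀ hG0 hGL 2) h2 hT0v (by positivity)
      rw [if_pos hv1]
      split_ifs <;> linarith
    · by_cases hv2 : q - v ≤ K
      · have h2 : T (v : ZMod q) ≤ K * B := by
          have := hTB (-((q - v : ℕ) : ℤ)) (by
            have : 0 < q - v := Nat.sub_pos_of_lt hv.2
            omega)
          have e : ((-((q - v : ℕ) : ℤ) : ℤ) : ZMod q) = (v : ZMod q) := by
            have h4 : (((q - v : ℕ) : ℤ)) = (q : ℤ) - v := by
              rw [Nat.cast_sub hv.2.le]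
            rw [h4]
            push_cast
            simp
          rw [e] at this
          refine this.trans ?_
          have h5 : |((-((q - v : ℕ) : ℤ) : ℤ) : ℝ)| = ((q - v : ℕ) : ℝ) := by
            rw [Int.cast_neg, abs_neg, Int.cast_natCast, abs_of_pos hqv]
          rw [h5]
          exact mul_le_mul_of_nonneg_right (by exact_mod_cast hv2) hB
        have h3 : ‖GG q L (v : ZMod q)‖ ^ 2 * T (v : ZMod q) ≤ (L : ℝ) ^ 2 * (K * B) :=
          mul_le_mul (pow_le_pow_left₀ hG0 hGL 2) h2 hT0v (by positivity)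
        rw [if_pos hv2]
        split_ifs <;> linarith
      · push Not at hv1 hv2
        have hne : (v : ZMod q) ≠ 0 := by
          intro h0
          have := ZMod.val_natCast_of_lt hv.2
          rw [h0, ZMod.val_zero] at this
          omega
        have hg := Pool.Agent.H442R2.KF.Inc.geom q (v : ZMod q) hne L
        rw [ZMod.val_natCast_of_lt hv.2] at hg
        have e2 : (q : ℝ) - v = ((q - v : ℕ) : ℝ) := by rw [Nat.cast_sub hv.2.le]
        rw [e2] at hg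
        obtain ⟨x, hx⟩ : ∃ x : ℝ, x = 1 / (v : ℝ) := ⟨_, rfl⟩
        obtain ⟨y, hy⟩ : ∃ y : ℝ, y = 1 / ((q - v : ℕ) : ℝ) := ⟨_, rfl⟩
        have hx0 : 0 < x := by rw [hx]; positivity
        have hy0 : 0 < y := by rw [hy]; positivity
        rw [← hx, ← hy] at hg
        have hgg : ‖GG q L (v : ZMod q)‖ ^ 2 ≤ (q : ℝ) ^ 2 * (x ^ 2 + y ^ 2) := by
          calc ‖GG q L (v : ZMod q)‖ ^ 2 ≤ ((q : ℝ) / 2 * (x + y)) ^ 2 := pow_le_pow_left₀ hG0 hg 2
            _ ≤ (q : ℝ) ^ 2 * (x ^ 2 + y ^ 2) := by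
                have : ((q : ℝ) / 2 * (x + y)) ^ 2 = (q : ℝ) ^ 2 * ((x + y) ^ 2 / 4) := by ring
                rw [this]
                apply mul_le_mul_of_nonneg_left _ (by positivity)
                nlinarith [sq_nonneg (x - y), sq_nonneg x, sq_nonneg y]
        have h3 : ‖GG q L (v : ZMod q)‖ ^ 2 * T (v : ZMod q) ≤
            (q : ℝ) ^ 2 * N * x ^ 2 + (q : ℝ) ^ 2 * N * y ^ 2 := by
          calc _ ≤ ((q : ℝ) ^ 2 * (x ^ 2 + y ^ 2)) * N := mul_le_mul hgg hTNv hT0v (by positivity)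
            _ = _ := by ring
        have e3 : x ^ 2 = 1 / (v : ℝ) ^ 2 := by rw [hx]; ring
        have e4 : y ^ 2 = 1 / ((q - v : ℕ) : ℝ) ^ 2 := by rw [hy]; ring
        rw [e3, e4] at h3
        rw [if_neg (by omega), if_neg (by omega), if_pos hv1, if_pos hv2]
        linarith
  refine (sum_le_sum hterm).trans ?_
  rw [sum_add_distrib, sum_add_distrib, sum_add_distrib]
  have b1 : ∑ v ∈ Ico 1 q, (if v ≤ K then (L : ℝ) ^ 2 * (K * B) else 0) ≤ (L : ℝ) ^ 2 * B * (K : ℝ) ^ 2 := by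
    rw [← sum_filter, sum_const, nsmul_eq_mul]
    have : ((Ico 1 q).filter (fun v => v ≤ K)).card ≤ K := by
      calc _ ≤ (Icc 1 K).card := card_le_card (by
            intro v hv
            rw [mem_filter, mem_Ico] at hv
            rw [mem_Icc]
            omega)
        _ = K := by simp
    have h2 : (((Ico 1 q).filter (fun v => v ≤ K)).card : ℝ) ≤ K := by exact_mod_cast this
    calc _ ≤ (K : ℝ) * ((L : ℝ) ^ 2 * (K * B)) := mul_le_mul_of_nonneg_right h2 (by positivity)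
      _ = _ := by ring
  have b2 : ∑ v ∈ Ico 1 q, (if q - v ≤ K then (L : ℝ) ^ 2 * (K * B) else 0) ≤ (L : ℝ) ^ 2 * B * (K : ℝ) ^ 2 := by
    rw [← sum_filter, sum_const, nsmul_eq_mul]
    have : ((Ico 1 q).filter (fun v => q - v ≤ K)).card ≤ K := by
      calc _ ≤ (Ico (q - K) q).card := card_le_card (by
            intro v hv
            rw [mem_filter, mem_Ico] at hv
            rw [mem_Ico]
            omega)
        _ ≤ K := by rw [Nat.card_Ico]; omega
    have h2 : (((Ico 1 q).filter (fun v => q - v ≤ K)).card : ℝ) ≤ K := by exact_mod_cast this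
    calc _ ≤ (K : ℝ) * ((L : ℝ) ^ 2 * (K * B)) := mul_le_mul_of_nonneg_right h2 (by positivity)
      _ = _ := by ring
  have b3 : ∑ v ∈ Ico 1 q, (if K < v then (q : ℝ) ^ 2 * N * (1 / (v : ℝ) ^ 2) else 0) ≤ (q : ℝ) ^ 2 * N / K := by
    rw [← sum_filter, ← mul_sum]
    calc _ ≤ (q : ℝ) ^ 2 * N * (1 / K) := mul_le_mul_of_nonneg_left (sum_inv_sq K q hK) (by positivity)
      _ = _ := by ring
  have b4 : ∑ v ∈ Ico 1 q, (if K < q - v then (q : ℝ) ^ 2 * N * (1 / ((q - v : ℕ) : ℝ) ^ 2) else 0) ≤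
      (q : ℝ) ^ 2 * N / K := by
    have e : ∑ v ∈ Ico 1 q, (if K < q - v then (q : ℝ) ^ 2 * N * (1 / ((q - v : ℕ) : ℝ) ^ 2) else 0) =
        ∑ v ∈ Ico 1 q, (if K < v then (q : ℝ) ^ 2 * N * (1 / (v : ℝ) ^ 2) else 0) := by
      refine sum_bij' (fun (v : ℕ) _ => q - v) (fun (v : ℕ) _ => q - v) ?_ ?_ ?_ ?_ ?_
      · intro v hv; rw [mem_Ico] at hv ⊢; omega
      · intro v hv; rw [mem_Ico] at hv ⊢; omega
      · intro v hv; rw [mem_Ico] at hv; omega
      · intro v hv; rw [mem_Ico] at hv; omega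
      · intro v hv; rfl
    rw [e]
    exact b3
  have : 2 * (q : ℝ) ^ 2 * N / K = (q : ℝ) ^ 2 * N / K + (q : ℝ) ^ 2 * N / K := by ring
  rw [this]
  have : 0 ≤ (L : ℝ) ^ 2 * B * (K : ℝ) ^ 2 := by positivity
  linarith

end Pool.Agent.K4H50.HL
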