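import Pool.Agent.K4H50.HL.A1
import Pool.Agent.W591.GM.Kl

/-!
# The Kloosterman bound for the inverses modulo `a`, glued with a class modulo `e`
-/

set_option autoImplicit false

namespace Pool.Agent.K4H50.HL

open Finset

open Classical in
/-- an integer `v` with `v c = -1` modulo `a` and `v = ρ` modulo `e` -/
noncomputable def vv (a e : ℕ) (ρ c : ℤ) : ℤ :=
  if h : ∃ v : ℤ, (a : ℤ) ∣ v * c + 1 ∧ v ≡ ρ [ZMOD e] then h.choose else 0

theorem vv_spec (a e : ℕ) (hae : Nat.Coprime a e) (ρ c : ℤ) (hc : Int.gcd c a = 1) :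
    (a : ℤ) ∣ vv a e ρ c * c + 1 ∧ vv a e ρ c ≡ ρ [ZMOD e] := by
  have h : ∃ v : ℤ, (a : ℤ) ∣ v * c + 1 ∧ v ≡ ρ [ZMOD e] := by
    obtain ⟨x, y, hxy⟩ := Int.isCoprime_iff_gcd_eq_one.2 hc
    obtain ⟨v, h1, h2⟩ := Pool.Agent.W591.GM.crt_int a e hae (-x) ρ
    refine ⟨v, ?_, h2⟩
    have h3 := h1.dvd
    have h4 : v * c + 1 = -((-x - v) * c) + (1 - x * c) := by ring
    have h5 : 1 - x * c = (a : ℤ) * y := by linarith
    rw [h4, h5]
    exact dvd_add ((dvd_mul_of_dvd_left h3 c).neg_right) (dvd_mul_right _ _)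
  unfold vv
  rw [dif_pos h]
  exact h.choose_spec

theorem char_split (q1 E : ℕ) [NeZero q1] [NeZero E] [NeZero (q1 * E)] (u v : ℤ)
    (h : u * E + v * q1 = 1) (x : ℤ) :
    ZMod.stdAddChar ((x : ℤ) : ZMod (q1 * E)) =
      ZMod.stdAddChar ((x * u : ℤ) : ZMod q1) * ZMod.stdAddChar ((x * v : ℤ) : ZMod E) := by
  rw [ZMod.stdAddChar_coe, ZMod.stdAddChar_coe, ZMod.stdAddChar_coe, ← Complex.exp_add]
  congr 1
  have h1 : ((q1 : ℕ) : ℂ) ≠ 0 := by exact_mod_cast NeZero.ne q1
  have h2 : ((E : ℕ) : ℂ) ≠ 0 := by exact_mod_cast NeZero.ne E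
  have h3 : (u : ℂ) * E + v * q1 = 1 := by exact_mod_cast h
  push_cast
  field_simp
  linear_combination (-(x : ℂ)) * h3

/-- the set of the `c`, `|c| ≤ C`, prime to `a` -/
noncomputable def SS (a : ℕ) (C : ℕ) : Finset ℤ := (Icc (-(C : ℤ)) C).filter (fun c : ℤ => Int.gcd c a = 1)

/-- the error term -/
noncomputable def BK (g q1 C : ℕ) : ℝ :=
  g * (2 ^ q1.primeFactors.card * Real.sqrt q1 * (2 * C / (g * q1) + 2 + Real.log q1))

theorem klo (g q1 e : ℕ) (hg : 0 < g) (hq1 : 0 < q1) (he : 0 < e) (hsq : Squarefree q1)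
    (hgq : Nat.Coprime q1 g) (hae : Nat.Coprime (g * q1) e) [NeZero (g * q1 * e)] (ρ : ℤ) (C : ℕ) (k : ℤ)
    (hk : k ≠ 0) :
    ‖∑ c ∈ SS (g * q1) C, ZMod.stdAddChar ((k * vv (g * q1) e ρ c : ℤ) : ZMod (g * q1 * e))‖ ≤
      |(k : ℝ)| * BK g q1 C := by
  haveI : NeZero q1 := ⟨hq1.ne'⟩
  have hge0 : g * e ≠ 0 := by positivity
  haveI : NeZero (g * e) := ⟨hge0⟩
  haveI : NeZero (q1 * (g * e)) := ⟨by positivity⟩
  have hQ : g * q1 * e = q1 * (g * e) := by ring
  have hgz : (0 : ℤ) < g := by exact_mod_cast hg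
  have hge : Nat.Coprime g e := Nat.Coprime.coprime_mul_right hae
  have hqe : Nat.Coprime q1 e := Nat.Coprime.coprime_mul_left hae
  have hqge : Nat.Coprime q1 (g * e) := Nat.Coprime.mul_right hgq hqe
  obtain ⟨u, v, huv⟩ : ∃ u v : ℤ, u * ((g * e : ℕ) : ℤ) + v * (q1 : ℤ) = 1 := by
    have : IsCoprime ((g * e : ℕ) : ℤ) (q1 : ℤ) := Nat.isCoprime_iff_coprime.2 hqge.symm
    obtain ⟨a, b, hab⟩ := this
    exact ⟨a, b, hab⟩
  -- the summand
  have hspec := fun (c : ℤ) (hc : Int.gcd c ((g * q1 : ℕ) : ℤ) = 1) => vv_spec (g * q1) e hae ρ c hc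
  have hF : ∀ c : ℤ, ZMod.stdAddChar ((k * vv (g * q1) e ρ c : ℤ) : ZMod (g * q1 * e)) =
      ZMod.stdAddChar ((k * vv (g * q1) e ρ c * u : ℤ) : ZMod q1) *
        ZMod.stdAddChar ((k * vv (g * q1) e ρ c * v : ℤ) : ZMod (g * e)) := by
    intro c
    rw [← char_split q1 (g * e) u v huv]
    rw [ZMod.stdAddChar_coe, ZMod.stdAddChar_coe, hQ]
  -- split into classes modulo g
  have hsplit : ∑ c ∈ SS (g * q1) C, ZMod.stdAddChar ((k * vv (g * q1) e ρ c : ℤ) : ZMod (g * q1 * e)) =
      ∑ α ∈ range g, ∑ c ∈ (SS (g * q1) C).filter (fun c => (c % (g : ℤ)).toNat = α),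
        ZMod.stdAddChar ((k * vv (g * q1) e ρ c : ℤ) : ZMod (g * q1 * e)) := by
    rw [sum_fiberwise_of_maps_to]
    intro c _
    rw [mem_range]
    have h1 := Int.emod_lt_of_pos c hgz
    have h2 := Int.emod_nonneg c hgz.ne'
    omega
  rw [hsplit]
  refine (norm_sum_le _ _).trans ?_
  have hcls : ∀ α ∈ range g, ‖∑ c ∈ (SS (g * q1) C).filter (fun c => (c % (g : ℤ)).toNat = α),
        ZMod.stdAddChar ((k * vv (g * q1) e ρ c : ℤ) : ZMod (g * q1 * e))‖ ≤
      2 ^ q1.primeFactors.card * Real.sqrt q1 * (|(k : ℝ)| * (2 * C / (g * q1) + 2 + Real.log q1)) := by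
    intro α hα
    rw [mem_range] at hα
    by_cases hcop : Int.gcd (α : ℤ) (g : ℤ) = 1
    · have hset : (SS (g * q1) C).filter (fun c => (c % (g : ℤ)).toNat = α) =
          (Icc (-(C : ℤ)) C).filter (fun c : ℤ => c ≡ (α : ℤ) [ZMOD g] ∧ Int.gcd c q1 = 1) := by
        unfold SS
        rw [filter_filter]
        apply filter_congr
        intro c _
        have hmod : (c % (g : ℤ)).toNat = α ↔ c ≡ (α : ℤ) [ZMOD g] := by
          have h2 := Int.emod_nonneg c hgz.ne'
          have h3 : (α : ℤ) % g = α := Int.emod_eq_of_lt (by positivity) (by exact_mod_cast hα)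
          unfold Int.ModEq
          rw [h3]
          omega
        rw [hmod]
        constructor
        · rintro ⟨h1, h2⟩
          refine ⟨h2, ?_⟩
          have h3 : IsCoprime c ((g * q1 : ℕ) : ℤ) := Int.isCoprime_iff_gcd_eq_one.2 h1
          push_cast at h3
          exact Int.isCoprime_iff_gcd_eq_one.1 (IsCoprime.of_mul_right_right h3)
        · rintro ⟨h1, h2⟩
          refine ⟨?_, h1⟩
          apply Int.isCoprime_iff_gcd_eq_one.1
          push_cast
          apply IsCoprime.mul_right _ (Int.isCoprime_iff_gcd_eq_one.2 h2)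
          obtain ⟨t, ht⟩ := h1.dvd
          have h3 : IsCoprime (α : ℤ) (g : ℤ) := Int.isCoprime_iff_gcd_eq_one.2 hcop
          have h4 : c = (α : ℤ) + g * (-t) := by linarith
          rw [h4]
          exact h3.add_mul_left_left _
      rw [hset]
      -- the constant factor
      by_cases hne : ((Icc (-(C : ℤ)) C).filter (fun c : ℤ => c ≡ (α : ℤ) [ZMOD g] ∧ Int.gcd c q1 = 1)).Nonempty
      · obtain ⟨c0, hc0⟩ := hne
        have hgcd : ∀ c ∈ (Icc (-(C : ℤ)) C).filter (fun c : ℤ => c ≡ (α : ℤ) [ZMOD g] ∧ Int.gcd c q1 = 1),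
            Int.gcd c ((g * q1 : ℕ) : ℤ) = 1 ∧ c ≡ (α : ℤ) [ZMOD g] := by
          intro c hc
          rw [← hset] at hc
          have h1 := (mem_filter.1 (mem_filter.1 hc).1).2
          rw [hset] at hc
          exact ⟨h1, (mem_filter.1 hc).2.1⟩
        have hconst : ∀ c ∈ (Icc (-(C : ℤ)) C).filter (fun c : ℤ => c ≡ (α : ℤ) [ZMOD g] ∧ Int.gcd c q1 = 1),
            ZMod.stdAddChar ((k * vv (g * q1) e ρ c : ℤ) : ZMod (g * q1 * e)) =
            ZMod.stdAddChar ((k : ZMod q1) * (((-u : ℤ) : ZMod q1) * (((c : ZMod q1))⁻¹ - 0))) *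
              ZMod.stdAddChar ((k * vv (g * q1) e ρ c0 * v : ℤ) : ZMod (g * e)) := by
          intro c hc
          obtain ⟨h1, h2⟩ := hgcd c hc
          obtain ⟨h3, h4⟩ := hgcd c0 hc0
          obtain ⟨s1, s2⟩ := hspec c h1
          obtain ⟨s3, s4⟩ := hspec c0 h3
          rw [hF c]
          congr 1
          · congr 1
            have hd : (q1 : ℤ) ∣ vv (g * q1) e ρ c * c + 1 := dvd_trans (by push_cast; exact dvd_mul_left _ _) s1
            have h5 : (c : ZMod q1) * ((-(vv (g * q1) e ρ c) : ℤ) : ZMod q1) = 1 := by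
              have h6 : ((vv (g * q1) e ρ c * c + 1 : ℤ) : ZMod q1) = 0 :=
                (ZMod.intCast_zmod_eq_zero_iff_dvd _ q1).2 hd
              push_cast at h6 ⊢
              linear_combination -h6
            have h7 : ((c : ZMod q1))⁻¹ = ((-(vv (g * q1) e ρ c) : ℤ) : ZMod q1) :=
              ZMod.inv_eq_of_mul_eq_one q1 _ _ h5
            rw [h7]
            push_cast
            ring
          · congr 1
            have hmod : vv (g * q1) e ρ c ≡ vv (g * q1) e ρ c0 [ZMOD (g * e : ℕ)] := by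
              have hcop2 : IsCoprime (g : ℤ) (e : ℤ) := Nat.isCoprime_iff_coprime.2 hge
              have hg1 : (g : ℤ) ∣ vv (g * q1) e ρ c * c + 1 := dvd_trans (by push_cast; exact dvd_mul_right _ _) s1
              have hg2 : (g : ℤ) ∣ vv (g * q1) e ρ c0 * c0 + 1 := dvd_trans (by push_cast; exact dvd_mul_right _ _) s3
              have hcc : (g : ℤ) ∣ c0 - c := (h2.trans h4.symm).dvd
              have hgc : IsCoprime (g : ℤ) c := by
                have := Int.isCoprime_iff_gcd_eq_one.2 h1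
                push_cast at this
                exact (IsCoprime.of_mul_right_left this).symm
              have h8 : (g : ℤ) ∣ (vv (g * q1) e ρ c0 - vv (g * q1) e ρ c) * c := by
                have : (vv (g * q1) e ρ c0 - vv (g * q1) e ρ c) * c =
                  (vv (g * q1) e ρ c0 * c0 + 1) - (vv (g * q1) e ρ c * c + 1) -
                    vv (g * q1) e ρ c0 * (c0 - c) := by ring
                rw [this]
                exact dvd_sub (dvd_sub hg2 hg1) (dvd_mul_of_dvd_right hcc _)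
              have h9 : (g : ℤ) ∣ vv (g * q1) e ρ c0 - vv (g * q1) e ρ c := hgc.dvd_of_dvd_mul_right h8
              have h10 : (e : ℤ) ∣ vv (g * q1) e ρ c0 - vv (g * q1) e ρ c := (s2.trans s4.symm).dvd
              rw [Int.modEq_iff_dvd]
              push_cast
              exact hcop2.mul_dvd h9 h10
            rw [ZMod.intCast_eq_intCast_iff]
            exact (hmod.mul_left k).mul_right v
        rw [sum_congr rfl hconst, ← sum_mul, norm_mul, AddChar.norm_apply, mul_one]
        have hub : Int.gcd (-u) q1 = 1 := by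
          apply Int.isCoprime_iff_gcd_eq_one.1
          exact ⟨-((g * e : ℕ) : ℤ), v, by linarith⟩
        have := Pool.Agent.W591.GM.kl_bound q1 g hsq hq1 hg hgq (C : ℤ) (by positivity) (α : ℤ) (-u) hub 0 k hk
        rw [Int.cast_natCast] at this
        exact this
      · rw [not_nonempty_iff_eq_empty] at hne
        rw [hne, sum_empty, norm_zero]
        have : 0 ≤ Real.log q1 := Real.log_natCast_nonneg q1
        positivity
    · have hemp : (SS (g * q1) C).filter (fun c => (c % (g : ℤ)).toNat = α) = ∅ := by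
        apply eq_empty_of_forall_notMem
        intro c hc
        obtain ⟨h1, h2⟩ := mem_filter.1 hc
        have h3 := (mem_filter.1 h1).2
        apply hcop
        apply Int.isCoprime_iff_gcd_eq_one.1
        have h4 := Int.isCoprime_iff_gcd_eq_one.2 h3
        push_cast at h4
        have h5 : IsCoprime c (g : ℤ) := IsCoprime.of_mul_right_left h4
        have h6 := Int.emod_nonneg c hgz.ne'
        have h7 : (α : ℤ) = c % g := by omega
        have h8 : (α : ℤ) = c + g * (-(c / g)) := by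
          rw [h7, Int.emod_def]
          ring
        rw [h8]
        exact h5.add_mul_left_left _
      rw [hemp, sum_empty, norm_zero]
      have : 0 ≤ Real.log q1 := Real.log_natCast_nonneg q1
      positivity
  refine (sum_le_sum hcls).trans ?_
  rw [sum_const, card_range, nsmul_eq_mul]
  unfold BK
  apply le_of_eq
  ring

end Pool.Agent.K4H50.HL
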