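import Pool.Agent.K4H50.HL.A2

/-!
# The number of the solutions of `b c = -1` modulo `a`, `b = ρ` modulo `e`, with a tent weight for `b`
-/

set_option autoImplicit false

namespace Pool.Agent.K4H50.HL

open Finset

theorem tent_klo (g q1 e : ℕ) (hg : 0 < g) (hq1 : 0 < q1) (he : 0 < e) (hsq : Squarefree q1)
    (hgq : Nat.Coprime q1 g) (hae : Nat.Coprime (g * q1) e) (ρ : ℤ) (C K : ℕ) (hK : 1 ≤ K) :
    |1 / (2 * ((g * q1 : ℕ) : ℝ)) * ∑ c ∈ SS (g * q1) C,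
        (tent (g * q1 * e) (2 * (g * q1)) ((vv (g * q1) e ρ c : ℤ) : ZMod (g * q1 * e)) : ℝ) -
      2 * ((SS (g * q1) C).card : ℝ) * (1 / (e : ℝ))| ≤
      8 * BK g q1 C * (K : ℝ) ^ 2 + e * (SS (g * q1) C).card / K := by
  have hQ0 : 0 < g * q1 * e := by positivity
  haveI : NeZero (g * q1 * e) := ⟨hQ0.ne'⟩
  obtain ⟨a, ha⟩ : ∃ a, a = g * q1 := ⟨_, rfl⟩
  have ha0 : 0 < a := by rw [ha]; positivity
  have hlog : 0 ≤ Real.log q1 := Real.log_natCast_nonneg q1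
  have hBK : 0 ≤ BK g q1 C := by unfold BK; positivity
  have h1 := tent_sum (SS (g * q1) C) (g * q1 * e) (2 * (g * q1))
    (fun c => ((vv (g * q1) e ρ c : ℤ) : ZMod (g * q1 * e)))
  have h2 := freq_bound (g * q1 * e) (2 * (g * q1)) K hK
    (fun k => ‖∑ c ∈ SS (g * q1) C, ZMod.stdAddChar (-(k * ((vv (g * q1) e ρ c : ℤ) : ZMod (g * q1 * e))))‖)
    (BK g q1 C) ((SS (g * q1) C).card) hBK (Nat.cast_nonneg _) (fun k => norm_nonneg _)
    (fun k => by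
      refine (norm_sum_le _ _).trans ?_
      simp)
    (fun m hm => by
      have h3 := klo g q1 e hg hq1 he hsq hgq hae ρ C (-m) (neg_ne_zero.2 hm)
      rw [Int.cast_neg, abs_neg] at h3
      refine le_trans (le_of_eq ?_) h3
      congr 1
      apply sum_congr rfl
      intro c _
      congr 1
      push_cast
      ring)
  have h3 := h1.trans h2
  rw [← ha] at h3 ⊢
  obtain ⟨s, hs⟩ : ∃ s : ℝ, s = ((SS a C).card : ℝ) := ⟨_, rfl⟩
  obtain ⟨t, ht⟩ : ∃ t : ℝ, t = ∑ c ∈ SS a C, (tent (a * e) (2 * a) ((vv a e ρ c : ℤ) : ZMod (a * e)) : ℝ) := ⟨_, rfl⟩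
  obtain ⟨B, hB⟩ : ∃ B : ℝ, B = BK g q1 C := ⟨_, rfl⟩
  have h4 : |((a * e : ℕ) : ℝ) * t - ((2 * a : ℕ) : ℝ) ^ 2 * s| ≤
      4 * ((2 * a : ℕ) : ℝ) ^ 2 * B * (K : ℝ) ^ 2 + 2 * ((a * e : ℕ) : ℝ) ^ 2 * s / K := by
    rw [ht, hs, hB]
    exact h3
  rw [← ht, ← hs, ← hB]
  have har : (0 : ℝ) < a := by exact_mod_cast ha0
  have her : (1 : ℝ) ≤ e := by exact_mod_cast he
  have her0 : (0 : ℝ) < e := by linarith
  have hKr : (1 : ℝ) ≤ K := by exact_mod_cast hK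
  have hB0 : 0 ≤ B := by rw [hB]; exact hBK
  have hs0 : 0 ≤ s := by rw [hs]; positivity
  push_cast at h4
  have h5 : 1 / (2 * (a : ℝ)) * t - 2 * s * (1 / (e : ℝ)) =
      ((a : ℝ) * e * t - (2 * a) ^ 2 * s) / (2 * (a : ℝ) ^ 2 * e) := by
    field_simp
  rw [h5, abs_div, abs_of_pos (show (0 : ℝ) < 2 * (a : ℝ) ^ 2 * e by positivity), div_le_iff₀ (by positivity)]
  refine h4.trans ?_
  have h6 : (8 * B * (K : ℝ) ^ 2 + e * s / K) * (2 * (a : ℝ) ^ 2 * e) =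
      16 * (a : ℝ) ^ 2 * B * (K : ℝ) ^ 2 * e + 2 * ((a : ℝ) * e) ^ 2 * s / K := by
    field_simp
    ring
  rw [h6]
  have h7 : 4 * (2 * (a : ℝ)) ^ 2 * B * (K : ℝ) ^ 2 ≤ 16 * (a : ℝ) ^ 2 * B * (K : ℝ) ^ 2 * e := by
    have h8 : 4 * (2 * (a : ℝ)) ^ 2 * B * (K : ℝ) ^ 2 = 16 * (a : ℝ) ^ 2 * B * (K : ℝ) ^ 2 := by ring
    rw [h8]
    exact le_mul_of_one_le_right (by positivity) her
  linarith

/-- the tent counts pairs -/
theorem tent_count (a e L : ℕ) (ha : 0 < a) (he : 0 < e) (hae : Nat.Coprime a e) (ρ c : ℤ)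
    (hc : Int.gcd c a = 1) :
    tent (a * e) L ((vv a e ρ c : ℤ) : ZMod (a * e)) =
      ((range L ×ˢ range L).filter (fun p : ℕ × ℕ => (a : ℤ) ∣ ((p.1 : ℤ) - p.2) * c + 1 ∧
        ((p.1 : ℤ) - p.2) ≡ ρ [ZMOD e])).card := by
  unfold tent
  congr 1
  apply filter_congr
  rintro ⟨i, j⟩ _
  obtain ⟨s1, s2⟩ := vv_spec a e hae ρ c hc
  have hcop : IsCoprime (a : ℤ) (e : ℤ) := Nat.isCoprime_iff_coprime.2 hae
  have hac : IsCoprime (a : ℤ) c := (Int.isCoprime_iff_gcd_eq_one.2 hc).symm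
  have h1 : (((i : ℕ) : ZMod (a * e)) - ((j : ℕ) : ZMod (a * e)) = ((vv a e ρ c : ℤ) : ZMod (a * e))) ↔
      ((a * e : ℕ) : ℤ) ∣ (vv a e ρ c) - ((i : ℤ) - j) := by
    rw [← Int.modEq_iff_dvd, ← ZMod.intCast_eq_intCast_iff]
    push_cast
    rfl
  show (((i : ℕ) : ZMod (a * e)) - ((j : ℕ) : ZMod (a * e)) = ((vv a e ρ c : ℤ) : ZMod (a * e))) ↔ _
  rw [h1]
  push_cast
  constructor
  · intro h
    have ha1 : (a : ℤ) ∣ vv a e ρ c - ((i : ℤ) - j) := dvd_trans (dvd_mul_right _ _) h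
    have he1 : (e : ℤ) ∣ vv a e ρ c - ((i : ℤ) - j) := dvd_trans (dvd_mul_left _ _) h
    constructor
    · have : ((i : ℤ) - j) * c + 1 = (vv a e ρ c * c + 1) - (vv a e ρ c - ((i : ℤ) - j)) * c := by ring
      rw [this]
      exact dvd_sub s1 (dvd_mul_of_dvd_left ha1 c)
    · exact (Int.modEq_iff_dvd.2 he1).trans s2
  · rintro ⟨h2, h3⟩
    apply hcop.mul_dvd
    · have h4 : (a : ℤ) ∣ (vv a e ρ c - ((i : ℤ) - j)) * c := by
        have : (vv a e ρ c - ((i : ℤ) - j)) * c = (vv a e ρ c * c + 1) - (((i : ℤ) - j) * c + 1) := by ring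
        rw [this]
        exact dvd_sub s1 h2
      exact hac.dvd_of_dvd_mul_right h4
    · exact (h3.trans s2.symm).dvd

end Pool.Agent.K4H50.HL
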