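import Pool.Agent.K4H50.HL.A3
import Pool.Agent.TH423.SH.FLLP

/-!
# The sieve for one modulus `a`
-/

set_option autoImplicit false

namespace Pool.Agent.K4H50.HL

open Finset

/-- the residues `x` modulo `p` with `p ∣ a ^ 2 + x ^ 2`, if `p` does not divide `a` -/
def Om (a p : ℕ) : Finset ℕ := if p ∣ a then ∅ else (range p).filter (fun x => p ∣ a ^ 2 + x ^ 2)

/-- the number of the roots of `x ^ 2 + 1` modulo `p` -/
def rh (p : ℕ) : ℕ := ((range p).filter (fun x => p ∣ x ^ 2 + 1)).card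

theorem mem_Om {a p x : ℕ} (hx : x ∈ Om a p) : ¬ p ∣ a ∧ x < p ∧ p ∣ a ^ 2 + x ^ 2 := by
  unfold Om at hx
  split_ifs at hx with h
  · exact absurd hx (notMem_empty _)
  · rw [mem_filter, mem_range] at hx
    exact ⟨h, hx.1, hx.2⟩

theorem Om_card_le (a p : ℕ) (hp : p.Prime) : (Om a p).card ≤ 2 := by
  rcases (Om a p).eq_empty_or_nonempty with h | ⟨x0, hx0⟩
  · rw [h]; simp
  · obtain ⟨h1, h2, h3⟩ := mem_Om hx0
    have hsub : Om a p ⊆ {x0, p - x0} := by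
      intro y hy
      obtain ⟨-, h5, h6⟩ := mem_Om hy
      have h7 : (p : ℤ) ∣ ((y : ℤ) - x0) * ((y : ℤ) + x0) := by
        have e : ((y : ℤ) - x0) * ((y : ℤ) + x0) = ((a ^ 2 + y ^ 2 : ℕ) : ℤ) - ((a ^ 2 + x0 ^ 2 : ℕ) : ℤ) := by
          push_cast; ring
        rw [e]
        exact dvd_sub (Int.natCast_dvd_natCast.2 h6) (Int.natCast_dvd_natCast.2 h3)
      rw [mem_insert, mem_singleton]
      rcases (Nat.prime_iff_prime_int.1 hp).dvd_or_dvd h7 with h8 | h8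
      · left
        have := Int.eq_zero_of_abs_lt_dvd h8 (by rw [abs_lt]; omega)
        omega
      · right
        have h9 : p ∣ y + x0 := by exact_mod_cast h8
        obtain ⟨k, hk⟩ := h9
        have hx0' : 0 < x0 := by
          rcases Nat.eq_zero_or_pos x0 with h | h
          · subst h
            exact absurd (hp.dvd_of_dvd_pow (by simpa using h3)) h1
          · exact h
        have hk1 : k = 1 := by
          rcases k with _ | _ | k
          · omega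
          · rfl
          · exfalso
            have : p * (k + 1 + 1) = p * k + p + p := by ring
            nlinarith [Nat.zero_le (p * k)]
        subst hk1
        omega
    exact (card_le_card hsub).trans card_le_two

theorem rh_le (p : ℕ) (hp : p.Prime) : rh p ≤ 2 := by
  have h := Om_card_le 1 p hp
  have e : Om 1 p = (range p).filter (fun x => p ∣ x ^ 2 + 1) := by
    unfold Om
    rw [if_neg (by rw [Nat.dvd_one]; exact hp.one_lt.ne')]
    apply filter_congr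
    intro x _
    rw [one_pow, add_comm]
  rw [e] at h
  exact h

theorem rh_le_Om (a p : ℕ) (hp : p.Prime) (hpa : ¬ p ∣ a) : rh p ≤ (Om a p).card := by
  unfold rh Om
  rw [if_neg hpa]
  apply card_le_card_of_injOn (fun x => (a * x) % p)
  · intro x hx
    rw [mem_coe, mem_filter, mem_range] at hx
    rw [mem_coe, mem_filter, mem_range]
    refine ⟨Nat.mod_lt _ hp.pos, ?_⟩
    have h1 : a ^ 2 + ((a * x) % p) ^ 2 ≡ a ^ 2 + (a * x) ^ 2 [MOD p] :=
      Nat.ModEq.add_left _ ((Nat.mod_modEq _ _).pow 2)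
    have h2 : p ∣ a ^ 2 + (a * x) ^ 2 := by
      have : a ^ 2 + (a * x) ^ 2 = a ^ 2 * (x ^ 2 + 1) := by ring
      rw [this]
      exact dvd_mul_of_dvd_right hx.2 _
    exact (h1.dvd_iff (dvd_refl p)).2 h2
  · intro x hx y hy hxy
    rw [mem_coe, mem_filter, mem_range] at hx hy
    have h1 : a * x ≡ a * y [MOD p] := hxy
    have h2 : x ≡ y [MOD p] := Nat.ModEq.cancel_left_of_coprime
      ((Nat.Prime.coprime_iff_not_dvd hp).2 hpa) h1
    rw [Nat.ModEq, Nat.mod_eq_of_lt hx.1, Nat.mod_eq_of_lt hy.1] at h2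
    exact h2

/-- the weight of `n` -/
noncomputable def wt (a C N0 n : ℕ) : ℝ :=
  1 / (2 * (a : ℝ)) * ∑ c ∈ SS a C, (((range (2 * a) ×ˢ range (2 * a)).filter (fun p : ℕ × ℕ =>
    (a : ℤ) ∣ ((p.1 : ℤ) - p.2) * c + 1 ∧ p.1 + (N0 - p.2) = n)).card : ℝ)

theorem wt_sum (a C N0 : ℕ) (cond : ℕ → Prop) [DecidablePred cond] :
    ∑ n ∈ (range (N0 + 2 * a)).filter cond, wt a C N0 n =
      1 / (2 * (a : ℝ)) * ∑ c ∈ SS a C, (((range (2 * a) ×ˢ range (2 * a)).filter (fun p : ℕ × ℕ =>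
        (a : ℤ) ∣ ((p.1 : ℤ) - p.2) * c + 1 ∧ cond (p.1 + (N0 - p.2)))).card : ℝ) := by
  unfold wt
  rw [← mul_sum, sum_comm]
  congr 1
  apply sum_congr rfl
  intro c _
  have h1 := card_eq_sum_card_fiberwise (f := fun p : ℕ × ℕ => p.1 + (N0 - p.2))
    (s := (range (2 * a) ×ˢ range (2 * a)).filter (fun p : ℕ × ℕ =>
        (a : ℤ) ∣ ((p.1 : ℤ) - p.2) * c + 1 ∧ cond (p.1 + (N0 - p.2))))
    (t := (range (N0 + 2 * a)).filter cond) (by
      intro p hp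
      rw [mem_coe, mem_filter, mem_product, mem_range, mem_range] at hp
      rw [mem_coe, mem_filter, mem_range]
      refine ⟨?_, hp.2.2⟩
      show p.1 + (N0 - p.2) < N0 + 2 * a
      omega)
  rw [h1]
  push_cast
  apply sum_congr rfl
  intro n hn
  rw [mem_filter] at hn
  congr 2
  rw [filter_filter]
  apply filter_congr
  intro p _
  constructor
  · rintro ⟨h2, h3⟩
    exact ⟨⟨h2, by rw [h3]; exact hn.2⟩, h3⟩
  · rintro ⟨⟨h2, -⟩, h3⟩
    exact ⟨h2, h3⟩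

/-- the pairs with `a ^ 2 + b ^ 2` free of the primes in `P` -/
noncomputable def PB (a C : ℕ) (P : Finset ℕ) : ℕ :=
  ((Icc (-(a : ℤ)) a ×ˢ SS a C).filter (fun x : ℤ × ℤ => (a : ℤ) ∣ x.1 * x.2 + 1 ∧
    ∀ p ∈ P, ¬ (p : ℤ) ∣ (a : ℤ) ^ 2 + x.1 ^ 2)).card

theorem mod_iff (N0 i j p x : ℕ) (hp : p ∣ N0) (hj : j ≤ N0) (hx : x < p) :
    (i + (N0 - j)) % p = x ↔ ((i : ℤ) - j) ≡ x [ZMOD p] := by
  have h1 : (i + (N0 - j)) % p = x ↔ i + (N0 - j) ≡ x [MOD p] := by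
    unfold Nat.ModEq
    rw [Nat.mod_eq_of_lt hx]
  rw [h1, ← Int.natCast_modEq_iff]
  have h2 : (((i + (N0 - j) : ℕ)) : ℤ) = ((i : ℤ) - j) + N0 := by
    push_cast [Nat.cast_sub hj]
    ring
  rw [h2]
  have h3 : ((i : ℤ) - j) + N0 ≡ ((i : ℤ) - j) [ZMOD p] := by
    rw [Int.modEq_iff_dvd]
    have : (i : ℤ) - j - ((i : ℤ) - j + N0) = -(N0 : ℤ) := by ring
    rw [this]
    exact (Int.natCast_dvd_natCast.2 hp).neg_right
  constructor
  · intro h; exact h3.symm.trans h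
  · intro h; exact h3.trans h

theorem PB_le (a C N0 : ℕ) (P : Finset ℕ) (ha : 0 < a) (hN0 : 2 * a ≤ N0) (hP : ∀ p ∈ P, p.Prime ∧ p ∣ N0) :
    (PB a C P : ℝ) ≤ 2 * ∑ n ∈ (range (N0 + 2 * a)).filter (fun n => ∀ p ∈ P, n % p ∉ Om a p), wt a C N0 n := by
  have har : (0 : ℝ) < a := by exact_mod_cast ha
  rw [wt_sum]
  have key : a * PB a C P ≤ ∑ c ∈ SS a C, ((range (2 * a) ×ˢ range (2 * a)).filter (fun p : ℕ × ℕ =>
        (a : ℤ) ∣ ((p.1 : ℤ) - p.2) * c + 1 ∧ ∀ q ∈ P, (p.1 + (N0 - p.2)) % q ∉ Om a q)).card := by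
    rw [← card_sigma]
    unfold PB
    rw [mul_comm, ← card_range a, ← card_product, card_range]
    apply card_le_card_of_injOn (fun x : (ℤ × ℤ) × ℕ =>
      (⟨x.1.2, (x.2 + x.1.1.toNat, x.2 + (-x.1.1).toNat)⟩ : (_ : ℤ) × ℕ × ℕ))
    · rintro ⟨⟨b, c⟩, t⟩ hx
      rw [mem_coe, mem_product, mem_filter, mem_product, mem_Icc, mem_range] at hx
      obtain ⟨⟨⟨⟨hb1, hb2⟩, hc⟩, hdvd, hP2⟩, ht⟩ := hx
      simp only at hb1 hb2 hc hdvd hP2 ht
      rw [mem_coe, mem_sigma, mem_filter, mem_product, mem_range, mem_range]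
      refine ⟨hc, ⟨?_, ?_⟩, ?_, ?_⟩
      · show t + b.toNat < 2 * a
        omega
      · show t + (-b).toNat < 2 * a
        omega
      · show (a : ℤ) ∣ (((t + b.toNat : ℕ) : ℤ) - ((t + (-b).toNat : ℕ) : ℤ)) * c + 1
        have e : (((t + b.toNat : ℕ) : ℤ) - ((t + (-b).toNat : ℕ) : ℤ)) = b := by omega
        rw [e]
        exact hdvd
      · intro q hq hmem
        obtain ⟨hqp, hqN⟩ := hP q hq
        obtain ⟨-, h5, h6⟩ := mem_Om hmem
        have h7 := (mod_iff N0 (t + b.toNat) (t + (-b).toNat) q _ hqN (by omega) h5).1 rfl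
        have e : (((t + b.toNat : ℕ) : ℤ) - ((t + (-b).toNat : ℕ) : ℤ)) = b := by omega
        rw [e] at h7
        apply hP2 q hq
        have h8 : (a : ℤ) ^ 2 + b ^ 2 ≡ (a : ℤ) ^ 2 +
          (((t + b.toNat + (N0 - (t + (-b).toNat))) % q : ℕ) : ℤ) ^ 2 [ZMOD q] :=
          Int.ModEq.add_left _ (h7.pow 2)
        rw [h8.dvd_iff]
        exact_mod_cast h6
    · rintro ⟨⟨b, c⟩, t⟩ hx ⟨⟨b', c'⟩, t'⟩ hx' h
      simp only [Sigma.mk.injEq, heq_eq_eq, Prod.mk.injEq] at h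
      obtain ⟨h1, h2, h3⟩ := h
      have hb : b = b' := by omega
      have ht : t = t' := by
        subst hb
        omega
      subst h1 hb ht
      rfl
  have key2 : (a : ℝ) * PB a C P ≤ ∑ c ∈ SS a C, (((range (2 * a) ×ˢ range (2 * a)).filter (fun p : ℕ × ℕ =>
        (a : ℤ) ∣ ((p.1 : ℤ) - p.2) * c + 1 ∧ ∀ q ∈ P, (p.1 + (N0 - p.2)) % q ∉ Om a q)).card : ℝ) := by
    exact_mod_cast key
  obtain ⟨s, hs⟩ : ∃ s, s = ∑ c ∈ SS a C, (((range (2 * a) ×ˢ range (2 * a)).filter (fun p : ℕ × ℕ =>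
        (a : ℤ) ∣ ((p.1 : ℤ) - p.2) * c + 1 ∧ ∀ q ∈ P, (p.1 + (N0 - p.2)) % q ∉ Om a q)).card : ℝ) := ⟨_, rfl⟩
  rw [← hs] at key2 ⊢
  have e : 2 * (1 / (2 * (a : ℝ)) * s) = s / a := by field_simp
  rw [e, le_div_iff₀ har]
  linarith

end Pool.Agent.K4H50.HL
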