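import Pool.Agent.K4H50.HL.A4

/-!
# The sieve for one modulus `a`: the bound
-/

set_option autoImplicit false

namespace Pool.Agent.K4H50.HL

open Finset

theorem prod_dvd_int (T : Finset ℕ) (hT : ∀ p ∈ T, p.Prime) (x : ℤ) :
    ((∏ p ∈ T, p : ℕ) : ℤ) ∣ x ↔ ∀ p ∈ T, (p : ℤ) ∣ x := by
  constructor
  · intro h p hp
    exact (Int.natCast_dvd_natCast.2 (dvd_prod_of_mem _ hp)).trans h
  · intro h
    rw [Int.natCast_dvd]
    apply Finset.prod_primes_dvd
    · intro p hp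
      exact (hT p hp).prime
    · intro p hp
      exact Int.natCast_dvd.1 (h p hp)

theorem crt_fin (T : Finset ℕ) (hT : ∀ p ∈ T, p.Prime) (c : ℕ → ℕ) :
    ∃ ρ : ℕ, ∀ p ∈ T, ρ ≡ c p [MOD p] := by
  obtain ⟨k, hk⟩ := Nat.chineseRemainderOfFinset c (fun p => p) T (fun p hp => (hT p hp).ne_zero) (by
    intro p hp q hq hpq
    exact (Nat.coprime_primes (hT p hp) (hT q hq)).2 hpq)
  exact ⟨k, hk⟩

theorem sieve_a : ∃ C0 : ℕ, 1 ≤ C0 ∧ ∀ (b J z0 : ℕ) (P : Finset ℕ), C0 * 3 ≤ b → C0 * 3 ≤ z0 →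
    (∀ p ∈ P, p.Prime ∧ z0 < p ∧ p ≤ 2 ^ 2 ^ J) →
    ∀ (g q1 C K : ℕ), 0 < g → 0 < q1 → Squarefree q1 → Nat.Coprime q1 g → 1 ≤ K →
    (PB (g * q1) C P : ℝ) ≤ 2 * ((1 + (1 / 2 : ℝ) ^ b) * (2 * ((SS (g * q1) C).card : ℝ) *
        ∏ p ∈ P, (1 - ((Om (g * q1) p).card : ℝ) * (1 / (p : ℝ)))) +
      ((J : ℝ) + 2) * ((((2 ^ 2 ^ J) ^ (C0 * b) : ℕ) : ℝ) ^ 2 * (8 * BK g q1 C * (K : ℝ) ^ 2 +
        (((2 ^ 2 ^ J) ^ (C0 * b) : ℕ) : ℝ) * (SS (g * q1) C).card / K))) := by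
  obtain ⟨C0, hC0, H⟩ := Pool.Agent.TH423.SH.fll
  refine ⟨C0, hC0, ?_⟩
  intro b J z0 P hb hz hP g q1 C K hg hq1 hsq hgq hK
  obtain ⟨a, ha⟩ : ∃ a, a = g * q1 := ⟨_, rfl⟩
  have ha0 : 0 < a := by rw [ha]; positivity
  have har : (0 : ℝ) < a := by exact_mod_cast ha0
  obtain ⟨N0, hN0⟩ : ∃ N0, N0 = 2 * a * ∏ p ∈ P, p := ⟨_, rfl⟩
  have hprodpos : 0 < ∏ p ∈ P, p := prod_pos fun p hp => (hP p hp).1.pos
  have hN0a : 2 * a ≤ N0 := by rw [hN0]; exact Nat.le_mul_of_pos_right _ hprodpos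
  have hN0p : ∀ p ∈ P, p ∣ N0 := fun p hp => by
    rw [hN0]; exact dvd_mul_of_dvd_right (dvd_prod_of_mem _ hp) _
  have hlog : 0 ≤ Real.log q1 := Real.log_natCast_nonneg q1
  have hBK : 0 ≤ BK g q1 C := by unfold BK; positivity
  have h1 := PB_le a C N0 P ha0 hN0a (fun p hp => ⟨(hP p hp).1, hN0p p hp⟩)
  obtain ⟨s, hs⟩ : ∃ s : ℝ, s = ((SS a C).card : ℝ) := ⟨_, rfl⟩
  have hs0 : 0 ≤ s := by rw [hs]; positivity
  obtain ⟨err, herr⟩ : ∃ err : ℕ → ℝ, err = fun m : ℕ => 8 * BK g q1 C * (K : ℝ) ^ 2 + (m : ℝ) * s / K := ⟨_, rfl⟩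
  have hKr : (1 : ℝ) ≤ K := by exact_mod_cast hK
  have herr0 : ∀ m, 0 ≤ err m := by intro m; rw [herr]; positivity
  have hmain := H 2 b J z0 P (fun p => 1 / (p : ℝ)) (fun p => Om a p) hb hz hP
    (fun p hp => Om_card_le a p (hP p hp).1)
    (fun p hp => by
      have h2 : (1 : ℝ) < p := by exact_mod_cast (hP p hp).1.one_lt
      refine ⟨by positivity, ?_⟩
      apply one_div_le_one_div_of_le (by linarith) (by linarith))
    (range (N0 + 2 * a)) (wt a C N0) (2 * s) err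
    (fun n _ => by unfold wt; positivity) (by positivity) herr0 (by
      intro T hTP _ c hc
      have hTp : ∀ p ∈ T, p.Prime := fun p hp => (hP p (hTP hp)).1
      obtain ⟨e, he⟩ : ∃ e, e = ∏ p ∈ T, p := ⟨_, rfl⟩
      have he0 : 0 < e := by rw [he]; exact prod_pos fun p hp => (hTp p hp).pos
      have hcop : Nat.Coprime a e := by
        rw [he]
        apply Nat.Coprime.prod_right
        intro p hp
        exact ((Nat.Prime.coprime_iff_not_dvd (hTp p hp)).2 (mem_Om (hc p hp)).1).symm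
      obtain ⟨ρ, hρ⟩ := crt_fin T hTp c
      have hg1 : ∏ p ∈ T, (1 / (p : ℝ)) = 1 / (e : ℝ) := by
        rw [he]
        push_cast
        rw [prod_div_distrib, prod_const_one]
      rw [hg1, ← he, wt_sum a C N0 (fun n => ∀ p ∈ T, n % p = c p)]
      have hcard : ∀ x ∈ SS a C, ((range (2 * a) ×ˢ range (2 * a)).filter (fun p : ℕ × ℕ =>
          (a : ℤ) ∣ ((p.1 : ℤ) - p.2) * x + 1 ∧ ∀ q ∈ T, (p.1 + (N0 - p.2)) % q = c q)).card =
          tent (a * e) (2 * a) ((vv a e ρ x : ℤ) : ZMod (a * e)) := by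
        intro x hx
        unfold SS at hx
        rw [tent_count a e (2 * a) ha0 he0 hcop ρ x (mem_filter.1 hx).2]
        congr 1
        apply filter_congr
        rintro ⟨i, j⟩ hij
        rw [mem_product, mem_range, mem_range] at hij
        apply and_congr_right
        intro _
        have hiff : ∀ q ∈ T, ((i + (N0 - j)) % q = c q ↔ ((i : ℤ) - j) ≡ (ρ : ℤ) [ZMOD q]) := by
          intro q hq
          rw [mod_iff N0 i j q (c q) (hN0p q (hTP hq)) (by omega) (mem_Om (hc q hq)).2.1]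
          have h3 := hρ q hq
          rw [← Int.natCast_modEq_iff] at h3
          constructor
          · intro h4; exact h4.trans h3.symm
          · intro h4; exact h4.trans h3
        show (∀ q ∈ T, (i + (N0 - j)) % q = c q) ↔ ((i : ℤ) - j) ≡ (ρ : ℤ) [ZMOD e]
        rw [Int.modEq_iff_dvd, he, prod_dvd_int T hTp]
        constructor
        · intro h4 q hq
          exact ((hiff q hq).1 (h4 q hq)).dvd
        · intro h4 q hq
          exact (hiff q hq).2 (Int.modEq_iff_dvd.2 (h4 q hq))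
      rw [sum_congr rfl (fun x hx => by rw [hcard x hx])]
      have h5 := tent_klo g q1 e hg hq1 he0 hsq hgq (by rw [← ha]; exact hcop) ρ C K hK
      rw [← ha, ← hs] at h5
      rw [herr]
      exact h5)
  have h2 := (abs_le.1 hmain).2
  -- the sum of the errors
  obtain ⟨Z, hZ⟩ : ∃ Z : ℕ, Z = (2 ^ 2 ^ J) ^ (C0 * b) := ⟨_, rfl⟩
  have hZ1 : 1 ≤ Z := by rw [hZ]; exact Nat.one_le_pow _ _ (by positivity)
  have hZr : (1 : ℝ) ≤ Z := by exact_mod_cast hZ1
  have herrs : ∑ T ∈ P.powerset.filter (fun T : Finset ℕ => ∏ p ∈ T, p ≤ (2 ^ 2 ^ J) ^ (C0 * b)),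
            ((2 : ℕ) : ℝ) ^ T.card * err (∏ p ∈ T, p) ≤ (Z : ℝ) ^ 2 * err Z := by
    have hEZ : 0 ≤ err Z := herr0 Z
    have hterm : ∀ T ∈ P.powerset.filter (fun T : Finset ℕ => ∏ p ∈ T, p ≤ (2 ^ 2 ^ J) ^ (C0 * b)),
        ((2 : ℕ) : ℝ) ^ T.card * err (∏ p ∈ T, p) ≤ Z * err Z := by
      intro T hT
      rw [mem_filter, mem_powerset, ← hZ] at hT
      have h3 : 2 ^ T.card ≤ ∏ p ∈ T, p := by
        rw [← prod_const]
        exact prod_le_prod' fun p hp => (hP p (hT.1 hp)).1.two_le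
      have h4 : ((2 : ℕ) : ℝ) ^ T.card ≤ Z := by exact_mod_cast h3.trans hT.2
      have h5 : err (∏ p ∈ T, p) ≤ err Z := by
        rw [herr]
        have : ((∏ p ∈ T, p : ℕ) : ℝ) ≤ Z := by exact_mod_cast hT.2
        have h6 : ((∏ p ∈ T, p : ℕ) : ℝ) * s / K ≤ Z * s / K := by gcongr
        linarith
      exact mul_le_mul h4 h5 (herr0 _) (by positivity)
    have hcardT : (P.powerset.filter (fun T : Finset ℕ => ∏ p ∈ T, p ≤ (2 ^ 2 ^ J) ^ (C0 * b))).card ≤ Z := by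
      calc _ ≤ (Icc 1 Z).card := by
            apply card_le_card_of_injOn (fun T => ∏ p ∈ T, p)
            · intro T hT
              rw [mem_coe, mem_filter, mem_powerset, ← hZ] at hT
              rw [mem_coe, mem_Icc]
              exact ⟨prod_pos fun p hp => (hP p (hT.1 hp)).1.pos, hT.2⟩
            · intro T hT T' hT' h
              rw [mem_coe, mem_filter, mem_powerset] at hT hT'
              have e1 : ∀ U : Finset ℕ, U ⊆ P → (∏ p ∈ U, p).primeFactors = U := by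
                intro U hU
                exact Nat.primeFactors_prod fun p hp => (hP p (hU hp)).1
              have h' : ∏ p ∈ T, p = ∏ p ∈ T', p := h
              rw [← e1 T hT.1, ← e1 T' hT'.1, h']
        _ = Z := by simp
    refine (sum_le_sum hterm).trans ?_
    rw [sum_const, nsmul_eq_mul]
    calc _ ≤ (Z : ℝ) * (Z * err Z) := mul_le_mul_of_nonneg_right (by exact_mod_cast hcardT) (by positivity)
      _ = _ := by ring
  rw [← ha, ← hZ]
  rw [← hs]
  have hprod0 : 0 ≤ ∏ p ∈ P, (1 - ((Om a p).card : ℝ) * (1 / (p : ℝ))) := by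
    apply prod_nonneg
    intro p hp
    have h3 : ((Om a p).card : ℝ) ≤ 2 := by exact_mod_cast Om_card_le a p (hP p hp).1
    have h4 : (2 : ℝ) ≤ p := by exact_mod_cast (hP p hp).1.two_le
    have h5 : ((Om a p).card : ℝ) * (1 / (p : ℝ)) ≤ 1 := by
      rw [mul_one_div, div_le_one (by linarith)]
      linarith
    linarith
  have hJ : (0 : ℝ) ≤ (J : ℝ) + 2 := by positivity
  have h6 := mul_le_mul_of_nonneg_left herrs hJ
  rw [herr] at h6
  simp only at h6
  refine h1.trans ?_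
  apply mul_le_mul_of_nonneg_left _ (by norm_num : (0 : ℝ) ≤ 2)
  rw [herr] at h2
  simp only at h2
  linarith

end Pool.Agent.K4H50.HL
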