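import Pool.Agent.K4H50.HL.A5
import Pool.Agent.H474R2.GE.FA
import Pool.Agent.K4H8.DP.Mom0
import Pool.Agent.W591.GM.Sum

/-!
# The products over the primes, and the sum over the moduli `a`
-/

set_option autoImplicit false

namespace Pool.Agent.K4H50.HL

open Finset Polynomial

/-- the sieving primes -/
def PZ (z0 J : ℕ) : Finset ℕ := (Icc 1 (2 ^ 2 ^ J)).filter (fun p => p.Prime ∧ z0 < p)

theorem rho_rh (p : ℕ) : Pool.Agent.H474R2.PG.rho (X ^ 2 + 1 : ℤ[X]) p = rh p := by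
  unfold Pool.Agent.H474R2.PG.rho rh
  congr 1
  apply filter_congr
  intro x _
  simp only [eval_add, eval_pow, eval_X, eval_one]
  exact_mod_cast Iff.rfl

theorem irr_sq : Irreducible (X ^ 2 + 1 : ℤ[X]) := by
  have h : (X ^ 2 + 1 : ℤ[X]) = cyclotomic 4 ℤ := by
    have : (4 : ℕ) = 2 ^ (1 + 1) := by norm_num
    rw [this, cyclotomic_prime_pow_eq_geom_sum Nat.prime_two]
    simp [Finset.sum_range_succ]
    ring
  rw [h]
  exact cyclotomic.irreducible (by norm_num)

theorem deg_sq : (X ^ 2 + 1 : ℤ[X]).natDegree = 2 := by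
  compute_degree!

theorem V_le : ∃ C : ℝ, 0 < C ∧ ∀ z0 J : ℕ, 1 ≤ J →
    ∏ p ∈ PZ z0 J, (1 - (rh p : ℝ) / p) ≤ Real.exp (C + z0) / 2 ^ J := by
  obtain ⟨C, hC0, hC⟩ := Pool.Agent.H474R2.GE.mertens_rho (X ^ 2 + 1 : ℤ[X]) irr_sq (by rw [deg_sq]; norm_num)
  refine ⟨C + 1, by positivity, ?_⟩
  intro z0 J hJ
  obtain ⟨w, hw⟩ : ∃ w : ℕ, w = 2 ^ 2 ^ J := ⟨_, rfl⟩
  have hw4 : 4 ≤ w := by
    rw [hw]
    calc 4 = 2 ^ 2 ^ 1 := by norm_num
      _ ≤ 2 ^ 2 ^ J := Nat.pow_le_pow_right (by norm_num) (Nat.pow_le_pow_right (by norm_num) hJ)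
  have h1 := (abs_le.1 (hC (w : ℝ) (by exact_mod_cast (by omega : 3 ≤ w)))).1
  have hlog : Real.log (w : ℝ) = 2 ^ J * Real.log 2 := by
    rw [hw]; push_cast; rw [Real.log_pow]; push_cast; ring
  have hl2 : 0 < Real.log 2 := Real.log_pos (by norm_num)
  have hl2' : Real.exp (-1) ≤ Real.log 2 := by
    have h2 := Real.exp_neg_one_lt_half
    have h3 := Real.log_two_gt_d9
    linarith
  have hexp : ∏ p ∈ PZ z0 J, (1 - (rh p : ℝ) / p) ≤ Real.exp (-∑ p ∈ PZ z0 J, (rh p : ℝ) / p) := by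
    rw [← sum_neg_distrib, Real.exp_sum]
    apply prod_le_prod
    · intro p hp
      unfold PZ at hp
      have hpp := (mem_filter.1 hp).2.1
      have h3 : (rh p : ℝ) ≤ 2 := by exact_mod_cast rh_le p hpp
      have h4 : (2 : ℝ) ≤ p := by exact_mod_cast hpp.two_le
      have : (rh p : ℝ) / p ≤ 1 := by rw [div_le_one (by linarith)]; linarith
      linarith
    · intro p _
      have := Real.add_one_le_exp (-((rh p : ℝ) / p))
      linarith
  have hsum : Pool.Agent.H474R2.PG.Sg (Pool.Agent.H474R2.PG.rho (X ^ 2 + 1 : ℤ[X])) w ≤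
      ∑ p ∈ PZ z0 J, (rh p : ℝ) / p + z0 := by
    unfold Pool.Agent.H474R2.PG.Sg Pool.Agent.H474R2.PG.PR
    rw [Nat.floor_natCast, ← sum_filter_add_sum_filter_not ((Icc 1 w).filter Nat.Prime) (fun p => z0 < p)]
    apply add_le_add
    · apply le_of_eq
      rw [filter_filter]
      unfold PZ
      rw [hw]
      apply sum_congr rfl
      intro p _
      rw [rho_rh]
    · calc ∑ p ∈ ((Icc 1 w).filter Nat.Prime).filter (fun p => ¬ z0 < p),
            (Pool.Agent.H474R2.PG.rho (X ^ 2 + 1 : ℤ[X]) p : ℝ) / p ≤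
          ∑ p ∈ ((Icc 1 w).filter Nat.Prime).filter (fun p => ¬ z0 < p), (1 : ℝ) := by
            apply sum_le_sum
            intro p hp
            have hpp := (mem_filter.1 (mem_filter.1 hp).1).2
            have h4 : (2 : ℝ) ≤ p := by exact_mod_cast hpp.two_le
            have h3 : (rh p : ℝ) ≤ 2 := by exact_mod_cast rh_le p hpp
            rw [rho_rh, div_le_one (by linarith)]
            linarith
        _ = ((((Icc 1 w).filter Nat.Prime).filter (fun p => ¬ z0 < p)).card : ℝ) := by simp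
        _ ≤ z0 := by
            have : (((Icc 1 w).filter Nat.Prime).filter (fun p => ¬ z0 < p)).card ≤ (Icc 1 z0).card := by
              apply card_le_card
              intro p hp
              rw [mem_filter, mem_filter, mem_Icc] at hp
              rw [mem_Icc]
              omega
            rw [Nat.card_Icc, Nat.add_sub_cancel] at this
            exact_mod_cast this
  refine hexp.trans ?_
  have h5 : Real.log (2 ^ J * Real.log 2) = Real.log (2 ^ J) + Real.log (Real.log 2) :=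
    Real.log_mul (by positivity) hl2.ne'
  have h6 : (-1 : ℝ) ≤ Real.log (Real.log 2) := by
    rw [Real.le_log_iff_exp_le hl2]
    exact hl2'
  have h7 : Real.exp (-∑ p ∈ PZ z0 J, (rh p : ℝ) / p) ≤ Real.exp (C + 1 + z0 - Real.log (2 ^ J)) := by
    apply Real.exp_le_exp.2
    rw [hlog, h5] at h1
    linarith
  refine h7.trans ?_
  rw [Real.exp_sub, Real.exp_log (by positivity)]

theorem prod_Om (a z0 J : ℕ) (ha : 0 < a) (hz0 : 3 ≤ z0) :
    ∏ p ∈ PZ z0 J, (1 - ((Om a p).card : ℝ) * (1 / (p : ℝ))) ≤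
      (∏ p ∈ PZ z0 J, (1 - (rh p : ℝ) / p)) * ∏ p ∈ a.primeFactors, (1 + 4 / (p : ℝ)) := by
  have h1 : ∏ p ∈ (PZ z0 J).filter (fun p => p ∣ a), (1 + 4 / (p : ℝ)) ≤ ∏ p ∈ a.primeFactors, (1 + 4 / (p : ℝ)) := by
    have hsub : (PZ z0 J).filter (fun p => p ∣ a) ⊆ a.primeFactors := by
      intro p hp
      unfold PZ at hp
      rw [mem_filter, mem_filter] at hp
      rw [Nat.mem_primeFactors]
      exact ⟨hp.1.2.1, hp.2, ha.ne'⟩
    rw [← prod_sdiff hsub]
    have hge : ∀ T : Finset ℕ, 1 ≤ ∏ p ∈ T, (1 + 4 / (p : ℝ)) := by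
      intro T
      apply prod_induction (fun p : ℕ => 1 + 4 / (p : ℝ)) (fun x => 1 ≤ x)
      · intro x y hx hy
        nlinarith
      · exact le_rfl
      · intro p _
        have : 0 ≤ 4 / (p : ℝ) := by positivity
        linarith
    exact le_mul_of_one_le_left (by linarith [hge ((PZ z0 J).filter (fun p => p ∣ a))]) (hge _)
  have hpos : ∀ p ∈ PZ z0 J, 0 ≤ 1 - (rh p : ℝ) / p := by
    intro p hp
    unfold PZ at hp
    have hpp := (mem_filter.1 hp).2.1
    have h3 : (rh p : ℝ) ≤ 2 := by exact_mod_cast rh_le p hpp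
    have h4 : (2 : ℝ) ≤ p := by exact_mod_cast hpp.two_le
    have : (rh p : ℝ) / p ≤ 1 := by rw [div_le_one (by linarith)]; linarith
    linarith
  refine le_trans ?_ (mul_le_mul_of_nonneg_left h1 (prod_nonneg hpos))
  rw [prod_filter, ← prod_mul_distrib]
  apply prod_le_prod
  · intro p hp
    unfold PZ at hp
    have hpp := (mem_filter.1 hp).2.1
    have h3 : ((Om a p).card : ℝ) ≤ 2 := by exact_mod_cast Om_card_le a p hpp
    have h4 : (2 : ℝ) ≤ p := by exact_mod_cast hpp.two_le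
    have : ((Om a p).card : ℝ) * (1 / p) ≤ 1 := by
      rw [mul_one_div, div_le_one (by linarith)]; linarith
    linarith
  · intro p hp
    unfold PZ at hp
    have hpp := (mem_filter.1 hp).2.1
    have hpz := (mem_filter.1 hp).2.2
    have h3 : (rh p : ℝ) ≤ 2 := by exact_mod_cast rh_le p hpp
    have h4 : (4 : ℝ) ≤ p := by exact_mod_cast (by omega : 4 ≤ p)
    by_cases hpa : p ∣ a
    · rw [if_pos hpa]
      have h5 : Om a p = ∅ := by unfold Om; rw [if_pos hpa]
      rw [h5, card_empty, Nat.cast_zero, zero_mul, sub_zero]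
      have h6 : (rh p : ℝ) / p ≤ 2 / p := by gcongr
      have h7 : (1 - 2 / (p : ℝ)) * (1 + 4 / p) ≤ (1 - (rh p : ℝ) / p) * (1 + 4 / p) := by
        apply mul_le_mul_of_nonneg_right _ (by positivity)
        linarith
      refine le_trans ?_ h7
      have h8 : (1 - 2 / (p : ℝ)) * (1 + 4 / p) = 1 + 2 * ((p : ℝ) - 4) / p ^ 2 := by
        field_simp
        ring
      rw [h8]
      have : 0 ≤ 2 * ((p : ℝ) - 4) / p ^ 2 := by
        apply div_nonneg _ (by positivity)
        linarith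
      linarith
    · rw [if_neg hpa, mul_one]
      have h5 : (rh p : ℝ) ≤ ((Om a p).card : ℝ) := by exact_mod_cast rh_le_Om a p hpp hpa
      have h6 : (rh p : ℝ) / p ≤ ((Om a p).card : ℝ) * (1 / p) := by
        rw [mul_one_div]
        gcongr
      linarith

theorem sum_pf (A : ℕ) : ∑ a ∈ Icc 1 A, ∏ p ∈ a.primeFactors, (1 + 4 / (p : ℝ)) ≤ Real.exp 8 * A := by
  have h1 := Pool.Agent.K4H8.DP.moment_gen A (fun p => 4 / (p : ℝ)) (fun p => by positivity)
  refine h1.trans ?_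
  rw [mul_comm]
  apply mul_le_mul_of_nonneg_right _ (Nat.cast_nonneg _)
  have h2 : ∏ p ∈ (Ioc 0 A).filter Nat.Prime, (1 + 4 / (p : ℝ) / p) ≤
      Real.exp (∑ p ∈ (Ioc 0 A).filter Nat.Prime, 4 / (p : ℝ) ^ 2) := by
    rw [Real.exp_sum]
    apply prod_le_prod
    · intro p _; positivity
    · intro p _
      have := Real.add_one_le_exp (4 / (p : ℝ) ^ 2)
      have e : 4 / (p : ℝ) / p = 4 / (p : ℝ) ^ 2 := by rw [div_div, sq]
      rw [e]
      linarith
  refine h2.trans (Real.exp_le_exp.2 ?_)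
  have h3 : ∑ p ∈ (Ioc 0 A).filter Nat.Prime, 4 / (p : ℝ) ^ 2 ≤ 4 * ∑ v ∈ (Ico 1 (A + 1)).filter (fun v => 1 < v), 1 / (v : ℝ) ^ 2 := by
    rw [mul_sum]
    have e5 : ∑ p ∈ (Ioc 0 A).filter Nat.Prime, 4 / (p : ℝ) ^ 2 =
        ∑ p ∈ (Ioc 0 A).filter Nat.Prime, 4 * (1 / (p : ℝ) ^ 2) := sum_congr rfl (fun p _ => by ring)
    rw [e5]
    apply sum_le_sum_of_subset_of_nonneg
    · intro p hp
      rw [mem_filter, mem_Ioc] at hp
      rw [mem_filter, mem_Ico]
      have := hp.2.two_le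
      omega
    · intro v _ _; positivity
  have h4 := sum_inv_sq 1 (A + 1) le_rfl
  rw [Nat.cast_one, div_one] at h4
  linarith

end Pool.Agent.K4H50.HL
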