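import Pool.Agent.K4H50.HL.A6

/-!
# The bound for one modulus and the sum over the moduli
-/

set_option autoImplicit false

namespace Pool.Agent.K4H50.HL

open Finset

theorem card_SS (a C : ℕ) : ((SS a C).card : ℝ) ≤ 2 * C + 1 := by
  unfold SS
  have h1 : ((Icc (-(C : ℤ)) C).filter (fun c : ℤ => Int.gcd c a = 1)).card ≤ (Icc (-(C : ℤ)) C).card :=
    card_filter_le _ _
  rw [Int.card_Icc] at h1
  have h2 : ((C : ℤ) + 1 - -(C : ℤ)).toNat = 2 * C + 1 := by omega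
  rw [h2] at h1
  exact_mod_cast h1

/-- the trivial bound -/
theorem PB_triv (a C : ℕ) (P : Finset ℕ) (ha : 0 < a) : (PB a C P : ℝ) ≤ 3 * (2 * C + 1) := by
  have har : (0 : ℝ) < a := by exact_mod_cast ha
  have h1 : PB a C P ≤ ∑ c ∈ SS a C, ((Icc (-(a : ℤ)) a).filter (fun b => (a : ℤ) ∣ b * c + 1)).card := by
    unfold PB
    rw [← card_sigma]
    apply card_le_card_of_injOn (fun x : ℤ × ℤ => (⟨x.2, x.1⟩ : (_ : ℤ) × ℤ))
    · rintro ⟨b, c⟩ hx
      rw [mem_coe, mem_filter, mem_product] at hx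
      rw [mem_coe, mem_sigma, mem_filter]
      exact ⟨hx.1.2, hx.1.1, hx.2.1⟩
    · rintro ⟨b, c⟩ _ ⟨b', c'⟩ _ h
      simp only [Sigma.mk.injEq, heq_eq_eq] at h
      exact Prod.ext h.2 h.1
  have h2 : ∀ c ∈ SS a C, (((Icc (-(a : ℤ)) a).filter (fun b => (a : ℤ) ∣ b * c + 1)).card : ℝ) ≤ 3 := by
    intro c hc
    unfold SS at hc
    have hgc := (mem_filter.1 hc).2
    rcases ((Icc (-(a : ℤ)) a).filter (fun b => (a : ℤ) ∣ b * c + 1)).eq_empty_or_nonempty with h | ⟨b0, hb0⟩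
    · rw [h]; simp
    · have hb := (mem_filter.1 hb0).2
      have h3 : (Icc (-(a : ℤ)) a).filter (fun b => (a : ℤ) ∣ b * c + 1) ⊆
          (Icc (-(a : ℤ)) a).filter (fun b => b ≡ b0 [ZMOD a]) := by
        intro b hb'
        rw [mem_filter] at hb' ⊢
        refine ⟨hb'.1, ?_⟩
        apply Int.ModEq.symm
        rw [Int.modEq_iff_dvd]
        have h4 : (a : ℤ) ∣ (b - b0) * c := by
          have : (b - b0) * c = (b * c + 1) - (b0 * c + 1) := by ring
          rw [this]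
          exact dvd_sub hb'.2 hb
        exact (Int.isCoprime_iff_gcd_eq_one.2 hgc).symm.dvd_of_dvd_mul_right h4
      have h4 : (((Icc (-(a : ℤ)) a).filter (fun b => (a : ℤ) ∣ b * c + 1)).card : ℝ) ≤
          (((Icc (-(a : ℤ)) a).filter (fun b => b ≡ b0 [ZMOD a])).card : ℝ) := by
        exact_mod_cast card_le_card h3
      have h5 := Pool.Agent.W591.GM.card_prog a ha b0 (-(a : ℤ)) a (by omega)
      refine h4.trans (h5.trans ?_)
      push_cast
      have : ((a : ℝ) - -(a : ℝ)) / a = 2 := by field_simp; norm_num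
      rw [this]
      norm_num
  calc (PB a C P : ℝ) ≤ ∑ c ∈ SS a C, (((Icc (-(a : ℤ)) a).filter (fun b => (a : ℤ) ∣ b * c + 1)).card : ℝ) := by
        exact_mod_cast h1
    _ ≤ ∑ c ∈ SS a C, (3 : ℝ) := sum_le_sum h2
    _ = 3 * ((SS a C).card : ℝ) := by rw [sum_const, nsmul_eq_mul]; ring
    _ ≤ _ := mul_le_mul_of_nonneg_left (card_SS a C) (by norm_num)

open scoped Classical in
/-- the sum over the moduli -/
theorem sum_PB : ∃ C0 : ℕ, 1 ≤ C0 ∧ ∃ C1 : ℝ, 0 < C1 ∧ ∀ (b J z0 : ℕ), C0 * 3 ≤ b → C0 * 3 ≤ z0 → 1 ≤ J →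
    ∀ (A A1 C K E0 : ℕ), 1 ≤ A1 → 1 ≤ K → 1 ≤ E0 →
    ∑ a ∈ (Icc 1 A).filter (fun a => A1 ≤ a), (PB a C (PZ z0 J) : ℝ) ≤
      6 * (2 * C + 1) * (Real.exp (C1 + z0) / 2 ^ J) * (Real.exp 8 * A) +
      A * (2 * ((J + 2) * ((((2 ^ 2 ^ J) ^ (C0 * b) : ℕ) : ℝ) ^ 2 *
        (24 * (E0 : ℝ) ^ 3 * (A : ℝ) ^ (9 / 10 : ℝ) * (2 * C / A1 + 2 + Real.log A) * (K : ℝ) ^ 2 +
        (((2 ^ 2 ^ J) ^ (C0 * b) : ℕ) : ℝ) * (2 * C + 1) / K)))) +
      A / E0 * (3 * (2 * C + 1)) := by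
  obtain ⟨C0, hC0, H⟩ := sieve_a
  obtain ⟨C1, hC1, HV⟩ := V_le
  refine ⟨C0, hC0, C1, hC1, ?_⟩
  intro b J z0 hb hz hJ A A1 C K E0 hA1 hK hE0
  obtain ⟨Z, hZ⟩ : ∃ Z : ℕ, Z = (2 ^ 2 ^ J) ^ (C0 * b) := ⟨_, rfl⟩
  have hz3 : 3 ≤ z0 := by omega
  have hA1r : (1 : ℝ) ≤ A1 := by exact_mod_cast hA1
  have hKr : (1 : ℝ) ≤ K := by exact_mod_cast hK
  have hE0r : (1 : ℝ) ≤ E0 := by exact_mod_cast hE0
  have hlogA : 0 ≤ Real.log A := Real.log_natCast_nonneg A
  obtain ⟨V, hV⟩ : ∃ V : ℝ, V = Real.exp (C1 + z0) / 2 ^ J := ⟨_, rfl⟩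
  have hV0 : 0 < V := by rw [hV]; positivity
  obtain ⟨Er, hEr⟩ : ∃ Er : ℝ, Er = 2 * ((J + 2) * ((Z : ℝ) ^ 2 *
        (24 * (E0 : ℝ) ^ 3 * (A : ℝ) ^ (9 / 10 : ℝ) * (2 * C / A1 + 2 + Real.log A) * (K : ℝ) ^ 2 +
        (Z : ℝ) * (2 * C + 1) / K))) := ⟨_, rfl⟩
  have hEr0 : 0 ≤ Er := by rw [hEr]; positivity
  have hPZ : ∀ p ∈ PZ z0 J, p.Prime ∧ z0 < p ∧ p ≤ 2 ^ 2 ^ J := by
    intro p hp
    unfold PZ at hp
    rw [mem_filter, mem_Icc] at hp
    exact ⟨hp.2.1, hp.2.2, hp.1.2⟩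
  have hterm : ∀ a ∈ (Icc 1 A).filter (fun a => A1 ≤ a), (PB a C (PZ z0 J) : ℝ) ≤
      6 * (2 * C + 1) * V * (∏ p ∈ a.primeFactors, (1 + 4 / (p : ℝ))) + Er +
      (if ∃ e : ℕ, E0 < e ∧ e ^ 2 ∣ a then 3 * (2 * (C : ℝ) + 1) else 0) := by
    intro a ha
    rw [mem_filter, mem_Icc] at ha
    obtain ⟨⟨ha1, haA⟩, haA1⟩ := ha
    have har : (0 : ℝ) < a := by exact_mod_cast ha1
    have haA1r : (A1 : ℝ) ≤ a := by exact_mod_cast haA1
    have haAr : (a : ℝ) ≤ A := by exact_mod_cast haA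
    have hpf0 : 0 ≤ ∏ p ∈ a.primeFactors, (1 + 4 / (p : ℝ)) := prod_nonneg fun p _ => by positivity
    have hm0 : 0 ≤ 6 * (2 * (C : ℝ) + 1) * V * (∏ p ∈ a.primeFactors, (1 + 4 / (p : ℝ))) := by positivity
    by_cases hbad : ∃ e : ℕ, E0 < e ∧ e ^ 2 ∣ a
    · rw [if_pos hbad]
      have := PB_triv a C (PZ z0 J) ha1
      linarith
    · rw [if_neg hbad, add_zero]
      obtain ⟨g, q, e, hgq, hsq, hq, hg, hcop, hge, hed, he⟩ := Pool.Agent.W591.GM.decomp a 1 ha1 one_pos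
      have heE : e ≤ E0 := by
        by_contra h
        exact hbad ⟨e, by omega, hed⟩
      rw [mul_one] at hcop hge
      have h1 := H b J z0 (PZ z0 J) hb hz hPZ g q C K hg hq hsq hcop hK
      rw [← hgq, ← hZ] at h1
      have hss := card_SS a C
      have hss0 : (0 : ℝ) ≤ ((SS a C).card : ℝ) := by positivity
      have hC0r : (0 : ℝ) ≤ 2 * (C : ℝ) + 1 := by positivity
      -- the main term
      have hp1 := prod_Om a z0 J ha1 hz3
      have hp2 : ∏ p ∈ PZ z0 J, (1 - ((Om a p).card : ℝ) * (1 / (p : ℝ))) ≤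
          V * ∏ p ∈ a.primeFactors, (1 + 4 / (p : ℝ)) := by
        refine hp1.trans (mul_le_mul_of_nonneg_right ?_ hpf0)
        rw [hV]
        exact HV z0 J hJ
      have hb1 : (1 + (1 / 2 : ℝ) ^ b) ≤ 3 / 2 := by
        have : (1 / 2 : ℝ) ^ b ≤ (1 / 2 : ℝ) ^ 1 := pow_le_pow_of_le_one (by norm_num) (by norm_num) (by omega)
        linarith
      have hmain : (1 + (1 / 2 : ℝ) ^ b) * (2 * ((SS a C).card : ℝ) *
          ∏ p ∈ PZ z0 J, (1 - ((Om a p).card : ℝ) * (1 / (p : ℝ)))) ≤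
          3 * (2 * C + 1) * V * ∏ p ∈ a.primeFactors, (1 + 4 / (p : ℝ)) := by
        calc _ ≤ (3 / 2) * (2 * (2 * (C : ℝ) + 1) * (V * ∏ p ∈ a.primeFactors, (1 + 4 / (p : ℝ)))) := by
              apply mul_le_mul hb1 _ _ (by norm_num)
              · calc 2 * ((SS a C).card : ℝ) * ∏ p ∈ PZ z0 J, (1 - ((Om a p).card : ℝ) * (1 / (p : ℝ))) ≤
                    2 * ((SS a C).card : ℝ) * (V * ∏ p ∈ a.primeFactors, (1 + 4 / (p : ℝ))) :=
                      mul_le_mul_of_nonneg_left hp2 (by positivity)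
                  _ ≤ _ := by
                      apply mul_le_mul_of_nonneg_right _ (by positivity)
                      linarith
              · apply mul_nonneg (by positivity)
                apply prod_nonneg
                intro p hp
                have h3 : ((Om a p).card : ℝ) ≤ 2 := by exact_mod_cast Om_card_le a p (hPZ p hp).1
                have h4 : (2 : ℝ) ≤ p := by exact_mod_cast (hPZ p hp).1.two_le
                have : ((Om a p).card : ℝ) * (1 / p) ≤ 1 := by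
                  rw [mul_one_div, div_le_one (by linarith)]; linarith
                linarith
          _ = _ := by ring
      -- the error term
      have hqa : q ≤ a := by rw [hgq]; exact Nat.le_mul_of_pos_left _ hg
      have hqr : (0 : ℝ) < q := by exact_mod_cast hq
      have hqar : (q : ℝ) ≤ A := by exact_mod_cast hqa.trans haA
      have hlogq0 : 0 ≤ Real.log q := Real.log_natCast_nonneg q
      have hlogqA : Real.log q ≤ Real.log A := Real.log_le_log hqr hqar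
      have hBK : BK g q C ≤ 3 * (E0 : ℝ) ^ 3 * (A : ℝ) ^ (9 / 10 : ℝ) * (2 * C / A1 + 2 + Real.log A) := by
        unfold BK
        have h2 := Pool.Agent.W591.GM.two_pow_omega q hsq
        have h3 : (q : ℝ) ^ (9 / 10 : ℝ) ≤ (A : ℝ) ^ (9 / 10 : ℝ) :=
          Real.rpow_le_rpow hqr.le hqar (by norm_num)
        have h4 : (g : ℝ) ≤ (E0 : ℝ) ^ 3 := by
          have : g ≤ E0 ^ 3 := hge.trans (Nat.pow_le_pow_left heE 3)
          exact_mod_cast this
        have h5 : 2 * (C : ℝ) / ((g : ℝ) * q) ≤ 2 * C / A1 := by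
          have : (g : ℝ) * q = a := by rw [hgq]; push_cast; ring
          rw [this]
          gcongr
        have h6 : 2 * (C : ℝ) / ((g : ℝ) * q) + 2 + Real.log q ≤ 2 * C / A1 + 2 + Real.log A := by linarith
        have h7 : 0 ≤ 2 * (C : ℝ) / ((g : ℝ) * q) + 2 + Real.log q := by positivity
        calc (g : ℝ) * (2 ^ q.primeFactors.card * Real.sqrt q * (2 * C / (g * q) + 2 + Real.log q)) ≤
            (E0 : ℝ) ^ 3 * ((3 * (A : ℝ) ^ (9 / 10 : ℝ)) * (2 * C / A1 + 2 + Real.log A)) := by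
              apply mul_le_mul h4 _ (by positivity) (by positivity)
              apply mul_le_mul _ h6 h7 (by positivity)
              linarith
          _ = _ := by ring
      have herr : (8 * BK g q C * (K : ℝ) ^ 2 + (Z : ℝ) * (SS a C).card / K) ≤
          24 * (E0 : ℝ) ^ 3 * (A : ℝ) ^ (9 / 10 : ℝ) * (2 * C / A1 + 2 + Real.log A) * (K : ℝ) ^ 2 +
            (Z : ℝ) * (2 * C + 1) / K := by
        have h2 : 8 * BK g q C * (K : ℝ) ^ 2 ≤
            24 * (E0 : ℝ) ^ 3 * (A : ℝ) ^ (9 / 10 : ℝ) * (2 * C / A1 + 2 + Real.log A) * (K : ℝ) ^ 2 := by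
          apply mul_le_mul_of_nonneg_right _ (by positivity)
          linarith
        have h3 : (Z : ℝ) * (SS a C).card / K ≤ (Z : ℝ) * (2 * C + 1) / K := by gcongr
        linarith
      have herr2 : (J + 2 : ℝ) * ((Z : ℝ) ^ 2 * (8 * BK g q C * (K : ℝ) ^ 2 + (Z : ℝ) * (SS a C).card / K)) ≤
          Er / 2 := by
        rw [hEr]
        have : (J + 2 : ℝ) * ((Z : ℝ) ^ 2 * (8 * BK g q C * (K : ℝ) ^ 2 + (Z : ℝ) * (SS a C).card / K)) ≤
          (J + 2 : ℝ) * ((Z : ℝ) ^ 2 * (24 * (E0 : ℝ) ^ 3 * (A : ℝ) ^ (9 / 10 : ℝ) * (2 * C / A1 + 2 + Real.log A) * (K : ℝ) ^ 2 +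
            (Z : ℝ) * (2 * C + 1) / K)) := by
          apply mul_le_mul_of_nonneg_left _ (by positivity)
          exact mul_le_mul_of_nonneg_left herr (by positivity)
        linarith
      linarith
  have hcardA : (((Icc 1 A).filter (fun a => A1 ≤ a)).card : ℝ) ≤ A := by
    have : ((Icc 1 A).filter (fun a => A1 ≤ a)).card ≤ (Icc 1 A).card := card_filter_le _ _
    rw [Nat.card_Icc, Nat.add_sub_cancel] at this
    exact_mod_cast this
  refine (sum_le_sum hterm).trans ?_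
  rw [sum_add_distrib, sum_add_distrib, ← mul_sum]
  rw [← hZ, ← hEr, ← hV]
  have hC0r : (0 : ℝ) ≤ 2 * (C : ℝ) + 1 := by positivity
  apply add_le_add
  · apply add_le_add
    · apply mul_le_mul_of_nonneg_left _ (by positivity)
      refine le_trans (sum_le_sum_of_subset_of_nonneg (filter_subset _ _) fun a _ _ => ?_) (sum_pf A)
      exact prod_nonneg fun p _ => by positivity
    · rw [sum_const, nsmul_eq_mul]
      exact mul_le_mul_of_nonneg_right hcardA hEr0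
  · rw [← sum_filter, sum_const, nsmul_eq_mul]
    apply mul_le_mul_of_nonneg_right _ (by positivity)
    have h1 := Pool.Agent.W591.GM.card_bad A E0 hE0
    refine le_trans ?_ h1
    norm_cast
    apply card_le_card
    intro a ha
    rw [mem_filter, mem_filter] at ha
    rw [mem_filter]
    exact ⟨ha.1.1, ha.2⟩

end Pool.Agent.K4H50.HL
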