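import Pool.Agent.K4H50.HL.A7

/-!
# The choice of the parameters
-/

set_option autoImplicit false

namespace Pool.Agent.K4H50.HL

open Finset Filter

theorem log_small (M : ℝ) : ∀ᶠ X : ℕ in atTop, M ≤ Real.log X ∧
    10000 * Real.log X ^ 3 ≤ (X : ℝ) ^ (1 / 1000 : ℝ) := by
  have h1 : ∀ᶠ X : ℕ in atTop, M ≤ Real.log X :=
    (Real.tendsto_log_atTop.comp tendsto_natCast_atTop_atTop).eventually_ge_atTop M
  have h2 := (isLittleO_log_rpow_rpow_atTop (s := 1 / 1000) (3 : ℝ) (by norm_num)).bound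
    (show (0 : ℝ) < 1 / 10000 by norm_num)
  have h3 := tendsto_natCast_atTop_atTop.eventually (h2.and (eventually_ge_atTop (1 : ℝ)))
  filter_upwards [h1, h3] with X hX hX3
  refine ⟨hX, ?_⟩
  obtain ⟨h4, h5⟩ := hX3
  have h6 : 0 ≤ Real.log (X : ℝ) := Real.log_nonneg h5
  rw [Real.norm_of_nonneg (by positivity), Real.norm_of_nonneg (by positivity)] at h4
  have h7 : Real.log (X : ℝ) ^ (3 : ℝ) = Real.log X ^ 3 := by
    rw [← Real.rpow_natCast]; norm_num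
  rw [h7] at h4
  linarith

theorem hooley_a : ∃ B : ℝ, 0 < B ∧ ∀ᶠ X : ℕ in atTop, ∃ P : Finset ℕ, (∀ p ∈ P, p.Prime ∧ p ≤ X) ∧
    ∀ Y : ℕ, X ≤ Y → (Y : ℝ) ≤ (X : ℝ) ^ (101 / 100 : ℝ) → ∀ A A1 C : ℕ, 1 ≤ A1 →
    A ^ 2 ≤ 2 * Y → Y ≤ 2 * A1 ^ 2 → C ^ 2 * Y ≤ X ^ 2 + 1 →
    ∑ a ∈ (Icc 1 A).filter (fun a => A1 ≤ a), (PB a C P : ℝ) ≤ B * X / Real.log X := by
  obtain ⟨C0, hC0, C1, hC1, H⟩ := sum_PB
  obtain ⟨b, hb⟩ : ∃ b, b = C0 * 3 := ⟨_, rfl⟩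
  have hb1 : 1 ≤ b := by omega
  have hC0r : (1 : ℝ) ≤ C0 := by exact_mod_cast hC0
  have hbr : (1 : ℝ) ≤ b := by exact_mod_cast hb1
  obtain ⟨D, hD⟩ : ∃ D : ℝ, D = 1000 * (C0 * b) := ⟨_, rfl⟩
  have hCb : (1 : ℝ) ≤ (C0 : ℝ) * b := by nlinarith
  have hD1 : 1000 ≤ D := by rw [hD]; linarith
  refine ⟨30 * Real.exp 8 * Real.exp (C1 + b) * (4 * D) + 3, by positivity, ?_⟩
  filter_upwards [log_small (4 * D), eventually_ge_atTop 3] with X hX hX3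
  obtain ⟨hL, hXL⟩ := hX
  have hXr : (3 : ℝ) ≤ X := by exact_mod_cast hX3
  have hX0 : (0 : ℝ) < X := by linarith
  obtain ⟨L, hLdef⟩ : ∃ L : ℝ, L = Real.log X := ⟨_, rfl⟩
  obtain ⟨t, ht⟩ : ∃ t : ℝ, t = (X : ℝ) ^ (1 / 1000 : ℝ) := ⟨_, rfl⟩
  rw [← hLdef] at hL hXL
  rw [← ht] at hXL
  have hL7 : 7 ≤ L := by linarith
  have hL0 : 0 < L := by linarith
  have ht1 : 1 ≤ t := by rw [ht]; exact Real.one_le_rpow (by linarith) (by norm_num)
  have hL3 : L ≤ L ^ 3 := by nlinarith [sq_nonneg L, pow_pos hL0 2, pow_pos hL0 3]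
  have hL2 : L ^ 2 ≤ L ^ 3 := by nlinarith [pow_pos hL0 2]
  have ht2 : 2 ≤ t := by nlinarith
  have hXt : (X : ℝ) = t ^ 1000 := by
    rw [ht, ← Real.rpow_natCast, ← Real.rpow_mul hX0.le]
    norm_num
  have hXt2 : (X : ℝ) ^ (101 / 100 : ℝ) = t ^ 1010 := by
    rw [ht, ← Real.rpow_natCast, ← Real.rpow_mul hX0.le]
    norm_num
  -- the parameter `J`
  obtain ⟨m, hm⟩ : ∃ m : ℕ, m = ⌊L / D⌋₊ := ⟨_, rfl⟩
  have hmle : (m : ℝ) ≤ L / D := by rw [hm]; exact Nat.floor_le (by positivity)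
  have hmge : L / D - 1 < m := by
    have := Nat.lt_floor_add_one (L / D)
    rw [← hm] at this
    linarith
  have hLD : 4 ≤ L / D := by rw [le_div_iff₀ (by linarith)]; linarith
  have hm2 : 2 ≤ m := by
    have : (2 : ℝ) < m := by linarith
    exact_mod_cast this.le
  obtain ⟨J, hJ⟩ : ∃ J : ℕ, J = Nat.log 2 m := ⟨_, rfl⟩
  have hJ1 : 1 ≤ J := by
    rw [hJ]
    exact (Nat.le_log_iff_pow_le (by norm_num) (by omega)).2 (by omega)
  have hJm : 2 ^ J ≤ m := by rw [hJ]; exact Nat.pow_log_le_self 2 (by omega)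
  have hJm2 : m < 2 ^ (J + 1) := by rw [hJ]; exact Nat.lt_pow_succ_log_self (by norm_num) m
  have hJmr : (2 : ℝ) ^ J ≤ m := by exact_mod_cast hJm
  have h2J : L / (4 * D) ≤ (2 : ℝ) ^ J := by
    have h1 : (m : ℝ) < 2 ^ (J + 1) := by exact_mod_cast hJm2
    have h2 : L / (4 * D) = (L / D) / 4 := by field_simp
    rw [h2]
    rw [pow_succ] at h1
    linarith
  have hJL : (J : ℝ) + 2 ≤ L := by
    have h1 : J < 2 ^ J := Nat.lt_two_pow_self
    have h2 : (J : ℝ) < 2 ^ J := by exact_mod_cast h1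
    have h3 : L / D ≤ L / 1000 := by gcongr
    linarith
  -- `Z ≤ t`
  obtain ⟨Z, hZ⟩ : ∃ Z : ℕ, Z = (2 ^ 2 ^ J) ^ (C0 * b) := ⟨_, rfl⟩
  have hZ1 : 1 ≤ Z := by rw [hZ]; exact Nat.one_le_pow _ _ (by positivity)
  have hZr : (1 : ℝ) ≤ Z := by exact_mod_cast hZ1
  have hZt : (Z : ℝ) ≤ t := by
    have h1 : Real.log Z ≤ Real.log t := by
      have e1 : Real.log Z = (C0 * b) * (2 ^ J * Real.log 2) := by
        rw [hZ]; push_cast; rw [Real.log_pow, Real.log_pow]; push_cast; ring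
      have e2 : Real.log t = L / 1000 := by
        rw [ht, Real.log_rpow hX0, ← hLdef]; ring
      rw [e1, e2]
      have h2 : Real.log 2 ≤ 1 := by have := Real.log_two_lt_d9; linarith
      have h3 : (2 : ℝ) ^ J * Real.log 2 ≤ L / D := by
        calc (2 : ℝ) ^ J * Real.log 2 ≤ (2 : ℝ) ^ J * 1 := mul_le_mul_of_nonneg_left h2 (by positivity)
          _ ≤ L / D := by linarith
      calc ((C0 : ℝ) * b) * (2 ^ J * Real.log 2) ≤ ((C0 : ℝ) * b) * (L / D) :=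
            mul_le_mul_of_nonneg_left h3 (by positivity)
        _ = L / 1000 := by rw [hD]; field_simp
    exact (Real.log_le_log_iff (by linarith) (by linarith)).1 h1
  refine ⟨PZ b J, ?_, ?_⟩
  · intro p hp
    unfold PZ at hp
    rw [mem_filter, mem_Icc] at hp
    refine ⟨hp.2.1, ?_⟩
    have h1 : 2 ^ 2 ^ J ≤ Z := by
      rw [hZ]
      exact Nat.le_self_pow (by positivity) _
    have h2 : (Z : ℝ) ≤ X := by
      rw [hXt]
      exact hZt.trans (le_self_pow₀ ht1 (by norm_num))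
    have h3 : Z ≤ X := by exact_mod_cast h2
    omega
  intro Y hXY hY A A1 C hA1 hA hYA hC
  have hXYr : (X : ℝ) ≤ Y := by exact_mod_cast hXY
  have hA1r : (1 : ℝ) ≤ A1 := by exact_mod_cast hA1
  have hAr : (A : ℝ) ^ 2 ≤ 2 * Y := by exact_mod_cast hA
  have hYAr : (Y : ℝ) ≤ 2 * (A1 : ℝ) ^ 2 := by exact_mod_cast hYA
  have hCr : (C : ℝ) ^ 2 * Y ≤ (X : ℝ) ^ 2 + 1 := by exact_mod_cast hC
  have hA0 : (0 : ℝ) ≤ A := Nat.cast_nonneg A
  have hCn : (0 : ℝ) ≤ C := Nat.cast_nonneg C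
  have hAt : (A : ℝ) ≤ 2 * t ^ 505 := by
    apply le_of_sq_le_sq _ (by positivity)
    calc (A : ℝ) ^ 2 ≤ 2 * Y := hAr
      _ ≤ 2 * t ^ 1010 := by rw [← hXt2]; linarith
      _ ≤ (2 * t ^ 505) ^ 2 := by
          have : (2 * t ^ 505) ^ 2 = 4 * t ^ 1010 := by ring
          rw [this]
          have : 0 ≤ t ^ 1010 := by positivity
          linarith
  have hC2 : (C : ℝ) ^ 2 ≤ 4 * X := by
    have h1 : (C : ℝ) ^ 2 * X ≤ (C : ℝ) ^ 2 * Y := mul_le_mul_of_nonneg_left hXYr (by positivity)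
    have h2 : (C : ℝ) ^ 2 * X ≤ 4 * X * X := by nlinarith
    exact le_of_mul_le_mul_right h2 hX0
  have hCA1 : (C : ℝ) ≤ 2 * A1 * 2 := by
    apply le_of_sq_le_sq _ (by positivity)
    have : (2 * (A1 : ℝ) * 2) ^ 2 = 8 * (2 * A1 ^ 2) := by ring
    rw [this]
    linarith
  have hAC : (A : ℝ) * C ≤ 2 * X := by
    apply le_of_sq_le_sq _ (by positivity)
    have h1 : (A : ℝ) ^ 2 * C ^ 2 ≤ 2 * Y * C ^ 2 := mul_le_mul_of_nonneg_right hAr (by positivity)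
    nlinarith
  have hAX : (A : ℝ) ≤ X := by
    refine hAt.trans ?_
    rw [hXt]
    calc 2 * t ^ 505 ≤ t * t ^ 505 := mul_le_mul_of_nonneg_right ht2 (by positivity)
      _ = t ^ 506 := by ring
      _ ≤ t ^ 1000 := pow_le_pow_right₀ ht1 (by norm_num)
  have hCA : (2 * (C : ℝ) + 1) * A ≤ 5 * X := by nlinarith
  rcases Nat.eq_zero_or_pos A with hAz | hApos
  · subst hAz
    have : (Icc 1 0).filter (fun a => A1 ≤ a) = ∅ := by simp
    rw [this, sum_empty]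
    positivity
  have hApos' : (0 : ℝ) < A := by exact_mod_cast hApos
  have hlogA : Real.log A ≤ L := by rw [hLdef]; exact Real.log_le_log hApos' hAX
  have hlogA0 : 0 ≤ Real.log A := Real.log_natCast_nonneg A
  have hA9 : (A : ℝ) ^ (9 / 10 : ℝ) ≤ 2 * t ^ 455 := by
    have h1 : (A : ℝ) ^ (9 / 10 : ℝ) = ((A : ℝ) ^ 9) ^ (1 / 10 : ℝ) := by
      rw [← Real.rpow_natCast, ← Real.rpow_mul hA0]
      norm_num
    have h2 : (A : ℝ) ^ 9 ≤ (2 * t ^ 455) ^ 10 := by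
      calc (A : ℝ) ^ 9 ≤ (2 * t ^ 505) ^ 9 := pow_le_pow_left₀ hA0 hAt 9
        _ = 512 * t ^ 4545 := by ring
        _ ≤ 1024 * t ^ 4550 := by
            apply mul_le_mul (by norm_num) (pow_le_pow_right₀ ht1 (by norm_num)) (by positivity) (by norm_num)
        _ = _ := by ring
    have h3 : ((2 * t ^ 455) ^ 10) ^ (1 / 10 : ℝ) = 2 * t ^ 455 := by
      rw [← Real.rpow_natCast (2 * t ^ 455) 10, ← Real.rpow_mul (by positivity)]
      norm_num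
    rw [h1, ← h3]
    exact Real.rpow_le_rpow (by positivity) h2 (by norm_num)
  obtain ⟨E0, hE0⟩ : ∃ E0 : ℕ, E0 = ⌊t⌋₊ := ⟨_, rfl⟩
  have hE0le : (E0 : ℝ) ≤ t := by rw [hE0]; exact Nat.floor_le (by linarith)
  have hE0ge : t / 2 ≤ E0 := by
    have := Nat.lt_floor_add_one t
    rw [← hE0] at this
    linarith
  have hE01 : 1 ≤ E0 := by
    have : (1 : ℝ) ≤ E0 := by linarith
    exact_mod_cast this
  obtain ⟨K, hK⟩ : ∃ K : ℕ, K = ⌈t ^ 4⌉₊ := ⟨_, rfl⟩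
  have hKge : t ^ 4 ≤ K := by rw [hK]; exact Nat.le_ceil _
  have ht4 : 1 ≤ t ^ 4 := one_le_pow₀ ht1
  have hKle : (K : ℝ) ≤ 2 * t ^ 4 := by
    have := Nat.ceil_lt_add_one (show (0 : ℝ) ≤ t ^ 4 by positivity)
    rw [← hK] at this
    linarith
  have hK1 : 1 ≤ K := by
    have : (1 : ℝ) ≤ K := by linarith
    exact_mod_cast this
  have h := H b J b (by omega) (by omega) hJ1 A A1 C K E0 hA1 hK1 hE01
  rw [← hZ] at h
  refine h.trans ?_
  rw [← hLdef]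
  have hKr : (0 : ℝ) < K := by linarith
  have hE0r : (0 : ℝ) < E0 := by linarith
  have ht0 : 0 < t := by linarith
  -- first term
  have T1 : 6 * (2 * (C : ℝ) + 1) * (Real.exp (C1 + b) / 2 ^ J) * (Real.exp 8 * A) ≤
      30 * Real.exp 8 * Real.exp (C1 + b) * (4 * D) * X / L := by
    have h2Jpos : (0 : ℝ) < L / (4 * D) := by positivity
    calc 6 * (2 * (C : ℝ) + 1) * (Real.exp (C1 + b) / 2 ^ J) * (Real.exp 8 * A) =
          6 * Real.exp 8 * Real.exp (C1 + b) * ((2 * (C : ℝ) + 1) * A) / 2 ^ J := by ring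
      _ ≤ 6 * Real.exp 8 * Real.exp (C1 + b) * (5 * X) / (L / (4 * D)) := by gcongr
      _ = _ := by field_simp; ring
  have T3 : (A : ℝ) / E0 * (3 * (2 * C + 1)) ≤ X / L := by
    calc (A : ℝ) / E0 * (3 * (2 * C + 1)) = 3 * ((2 * (C : ℝ) + 1) * A) / E0 := by ring
      _ ≤ 3 * (5 * X) / (t / 2) := by gcongr
      _ = 30 * X / t := by field_simp; ring
      _ ≤ X / L := by
          rw [div_le_div_iff₀ ht0 hL0]
          have : 30 * L ≤ t := by linarith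
          nlinarith
  have T2b : (A : ℝ) * (2 * (((J : ℝ) + 2) * ((Z : ℝ) ^ 2 * ((Z : ℝ) * (2 * C + 1) / K)))) ≤ X / L := by
    calc (A : ℝ) * (2 * (((J : ℝ) + 2) * ((Z : ℝ) ^ 2 * ((Z : ℝ) * (2 * C + 1) / K)))) =
          2 * ((J : ℝ) + 2) * (Z : ℝ) ^ 3 * ((2 * (C : ℝ) + 1) * A) / K := by ring
      _ ≤ 2 * L * t ^ 3 * (5 * X) / t ^ 4 := by gcongr
      _ = 10 * L * X / t := by field_simp; ring
      _ ≤ X / L := by
          rw [div_le_div_iff₀ ht0 hL0]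
          have : 10 * L * L ≤ t := by nlinarith
          nlinarith
  have T2a : (A : ℝ) * (2 * (((J : ℝ) + 2) * ((Z : ℝ) ^ 2 *
      (24 * (E0 : ℝ) ^ 3 * (A : ℝ) ^ (9 / 10 : ℝ) * (2 * C / A1 + 2 + Real.log A) * (K : ℝ) ^ 2)))) ≤ X / L := by
    have h1 : 2 * (C : ℝ) / A1 ≤ 8 := by
      rw [div_le_iff₀ (by linarith)]
      linarith
    have h2 : 2 * (C : ℝ) / A1 + 2 + Real.log A ≤ 3 * L := by linarith
    have h3 : 0 ≤ 2 * (C : ℝ) / A1 + 2 + Real.log A := by positivity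
    calc (A : ℝ) * (2 * (((J : ℝ) + 2) * ((Z : ℝ) ^ 2 *
      (24 * (E0 : ℝ) ^ 3 * (A : ℝ) ^ (9 / 10 : ℝ) * (2 * C / A1 + 2 + Real.log A) * (K : ℝ) ^ 2)))) ≤
        (2 * t ^ 505) * (2 * (L * (t ^ 2 * (24 * t ^ 3 * (2 * t ^ 455) * (3 * L) * (2 * t ^ 4) ^ 2)))) := by
          gcongr
      _ = 2304 * L ^ 2 * t ^ 973 := by ring
      _ ≤ t ^ 974 / L := by
          rw [le_div_iff₀ hL0]
          have h4 : 2304 * L ^ 3 ≤ t := by
            have : 0 ≤ L ^ 3 := by positivity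
            linarith
          calc 2304 * L ^ 2 * t ^ 973 * L = (2304 * L ^ 3) * t ^ 973 := by ring
            _ ≤ t * t ^ 973 := mul_le_mul_of_nonneg_right h4 (by positivity)
            _ = t ^ 974 := by ring
      _ ≤ X / L := by
          rw [hXt]
          exact div_le_div_of_nonneg_right (pow_le_pow_right₀ ht1 (by norm_num)) hL0.le
  have hsplit : (A : ℝ) * (2 * (((J : ℝ) + 2) * ((Z : ℝ) ^ 2 *
      (24 * (E0 : ℝ) ^ 3 * (A : ℝ) ^ (9 / 10 : ℝ) * (2 * C / A1 + 2 + Real.log A) * (K : ℝ) ^ 2 +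
        (Z : ℝ) * (2 * C + 1) / K)))) =
      (A : ℝ) * (2 * (((J : ℝ) + 2) * ((Z : ℝ) ^ 2 *
      (24 * (E0 : ℝ) ^ 3 * (A : ℝ) ^ (9 / 10 : ℝ) * (2 * C / A1 + 2 + Real.log A) * (K : ℝ) ^ 2)))) +
      (A : ℝ) * (2 * (((J : ℝ) + 2) * ((Z : ℝ) ^ 2 * ((Z : ℝ) * (2 * C + 1) / K)))) := by ring
  rw [hsplit]
  have hfin : (30 * Real.exp 8 * Real.exp (C1 + b) * (4 * D) + 3) * X / L =
      30 * Real.exp 8 * Real.exp (C1 + b) * (4 * D) * X / L + 3 * (X / L) := by ring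
  rw [hfin]
  linarith

end Pool.Agent.K4H50.HL
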