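import Pool.Agent.K4H50.HL.A8
import Pool.Agent.W368.EC.Scnt

/-!
# The prime factors of `n ^ 2 + 1` slightly beyond `X`
-/

set_option autoImplicit false

namespace Pool.Agent.K4H50.HL

open Finset Filter

/-- the number of the pairs `(n, p)`, `n ≤ X`, `Y < p ≤ 2 Y`, `p ∣ n ^ 2 + 1` -/
def NP (X Y : ℕ) : ℕ := ((Icc 1 X ×ˢ Ioc Y (2 * Y)).filter (fun x : ℕ × ℕ => x.2.Prime ∧ x.2 ∣ x.1 ^ 2 + 1)).card

theorem NP_le (X Y : ℕ) (hY : 1 ≤ Y) (P : Finset ℕ) (hP : ∀ p ∈ P, p.Prime ∧ p ≤ Y) :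
    (NP X Y : ℝ) ≤ ∑ a ∈ (Icc 1 (Nat.sqrt (2 * Y))).filter (fun a => Nat.sqrt (Y / 2) + 1 ≤ a),
      (PB a (Nat.sqrt ((X ^ 2 + 1) / Y)) P : ℝ) := by
  classical
  obtain ⟨C, hC⟩ : ∃ C, C = Nat.sqrt ((X ^ 2 + 1) / Y) := ⟨_, rfl⟩
  rw [← hC]
  have key : NP X Y ≤ ∑ a ∈ (Icc 1 (Nat.sqrt (2 * Y))).filter (fun a => Nat.sqrt (Y / 2) + 1 ≤ a), PB a C P := by
    unfold PB
    rw [← card_sigma]
    unfold NP
    have hex : ∀ x : ℕ × ℕ, x ∈ ((Icc 1 X ×ˢ Ioc Y (2 * Y)).filter (fun x : ℕ × ℕ => x.2.Prime ∧ x.2 ∣ x.1 ^ 2 + 1)) →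
        ∃ y : (_ : ℕ) × ℤ × ℤ, y ∈ ((Icc 1 (Nat.sqrt (2 * Y))).filter (fun a => Nat.sqrt (Y / 2) + 1 ≤ a)).sigma
          (fun a => (Icc (-(a : ℤ)) a ×ˢ SS a C).filter (fun x : ℤ × ℤ => (a : ℤ) ∣ x.1 * x.2 + 1 ∧
            ∀ p ∈ P, ¬ (p : ℤ) ∣ (a : ℤ) ^ 2 + x.1 ^ 2)) ∧
          ((y.1 : ℤ) ^ 2 + y.2.1 ^ 2 = x.2) ∧
          (((x.1 : ℤ) ^ 2 + 1) * (y.1 : ℤ) ^ 2 = x.2 * ((y.2.2) ^ 2 * (y.1 : ℤ) ^ 2 + (1 + y.2.1 * y.2.2) ^ 2)) := by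
      rintro ⟨n, p⟩ hx
      rw [mem_filter, mem_product, mem_Icc, mem_Ioc] at hx
      obtain ⟨⟨⟨hn1, hnX⟩, hp1, hp2⟩, hpp, hdvd⟩ := hx
      simp only at hn1 hnX hp1 hp2 hpp hdvd
      obtain ⟨d', hd'⟩ := hdvd
      obtain ⟨a, b, c, e, h1, h2, h3, h4, h5⟩ := Pool.Agent.W368.EC.rep' hd'.symm
      obtain ⟨a', rfl⟩ := Int.eq_ofNat_of_zero_le h4.le
      have ha0 : 0 < a' := by exact_mod_cast h4
      have hb2 : b ^ 2 ≤ (a' : ℤ) ^ 2 := sq_le_sq' (by linarith [(abs_le.1 h5).1]) (abs_le.1 h5).2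
      have hYp : (Y : ℤ) < p := by exact_mod_cast hp1
      have hp2' : (p : ℤ) ≤ 2 * Y := by exact_mod_cast hp2
      have ha2 : (Y : ℤ) + 1 ≤ 2 * (a' : ℤ) ^ 2 := by linarith
      have ha3 : (a' : ℤ) ^ 2 ≤ 2 * Y := by nlinarith [sq_nonneg b]
      have hc2 : (c : ℤ) ^ 2 * Y ≤ X ^ 2 + 1 := by
        have e1 : (c : ℤ) ^ 2 ≤ d' := by nlinarith [sq_nonneg e]
        have e2 : (p : ℤ) * d' = n ^ 2 + 1 := by exact_mod_cast hd'.symm
        have e3 : (n : ℤ) ^ 2 ≤ X ^ 2 := by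
          have : (n : ℤ) ≤ X := by exact_mod_cast hnX
          have : (0 : ℤ) ≤ n := by positivity
          nlinarith
        have e4 : (c : ℤ) ^ 2 * Y ≤ d' * p := by
          apply mul_le_mul e1 hYp.le (by positivity) (by positivity)
        linarith
      have hcC : c ^ 2 ≤ (C : ℤ) ^ 2 + 2 * C := by
        have e1 : c.natAbs ^ 2 * Y ≤ X ^ 2 + 1 := by
          have : ((c.natAbs : ℤ)) ^ 2 = c ^ 2 := Int.natAbs_sq c
          have h6 : ((c.natAbs ^ 2 * Y : ℕ) : ℤ) ≤ ((X ^ 2 + 1 : ℕ) : ℤ) := by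
            push_cast
            rw [sq_abs]
            exact hc2
          exact_mod_cast h6
        have e2 : c.natAbs ^ 2 ≤ (X ^ 2 + 1) / Y := (Nat.le_div_iff_mul_le hY).2 e1
        have e3 : c.natAbs ≤ C := by
          rw [hC, Nat.le_sqrt]
          nlinarith
        have e4 : (c.natAbs : ℤ) ≤ C := by exact_mod_cast e3
        have e5 : ((c.natAbs : ℤ)) ^ 2 = c ^ 2 := Int.natAbs_sq c
        nlinarith
      have hcabs : |c| ≤ C := by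
        by_contra hcon
        push Not at hcon
        have : ((C : ℤ) + 1) ^ 2 ≤ c ^ 2 := by
          rw [← sq_abs c]
          apply pow_le_pow_left₀ (by positivity)
          omega
        nlinarith
      have hgcd : Int.gcd c (a' : ℤ) = 1 := by
        apply Int.isCoprime_iff_gcd_eq_one.1
        exact ⟨-b, e, by linarith⟩
      refine ⟨⟨a', b, c⟩, ?_, h1, ?_⟩
      · rw [mem_sigma, mem_filter, mem_filter, mem_product, mem_Icc, mem_Icc]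
        refine ⟨⟨⟨ha0, ?_⟩, ?_⟩, ⟨⟨(abs_le.1 h5).1, (abs_le.1 h5).2⟩, ?_⟩, ?_, ?_⟩
        · rw [Nat.le_sqrt]
          have : ((a' * a' : ℕ) : ℤ) ≤ ((2 * Y : ℕ) : ℤ) := by push_cast; nlinarith
          exact_mod_cast this
        · show Nat.sqrt (Y / 2) < a'
          rw [Nat.sqrt_lt]
          have : ((Y + 1 : ℕ) : ℤ) ≤ ((2 * (a' * a') : ℕ) : ℤ) := by push_cast; nlinarith
          have h7 : Y + 1 ≤ 2 * (a' * a') := by exact_mod_cast this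
          omega
        · unfold SS
          rw [mem_filter, mem_Icc]
          exact ⟨⟨(abs_le.1 hcabs).1, (abs_le.1 hcabs).2⟩, hgcd⟩
        · exact ⟨e, by linarith⟩
        · intro q hq hdq
          obtain ⟨hqp, hqY⟩ := hP q hq
          rw [h1] at hdq
          have h8 : q ∣ p := by exact_mod_cast hdq
          have h9 := (Nat.prime_dvd_prime_iff_eq hqp hpp).1 h8
          omega
      · have h6 : (1 : ℤ) + b * c = a' * e := by linarith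
        have h7 : (n : ℤ) ^ 2 + 1 = p * d' := by exact_mod_cast hd'
        show ((n : ℤ) ^ 2 + 1) * (a' : ℤ) ^ 2 = p * (c ^ 2 * (a' : ℤ) ^ 2 + (1 + b * c) ^ 2)
        rw [h6, h7, ← h2]
        ring
    choose! φ hφ1 hφ2 hφ3 using hex
    apply card_le_card_of_injOn φ
    · intro x hx
      exact hφ1 x hx
    · intro x hx y hy hxy
      rw [mem_coe] at hx hy
      have h2 : (x.2 : ℤ) = y.2 := by rw [← hφ2 x hx, ← hφ2 y hy, hxy]
      have h3x := hφ3 x hx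
      have h3y := hφ3 y hy
      rw [hxy, h2] at h3x
      have h4 : ((x.1 : ℤ) ^ 2 + 1) * ((φ y).1 : ℤ) ^ 2 = ((y.1 : ℤ) ^ 2 + 1) * ((φ y).1 : ℤ) ^ 2 := h3x.trans h3y.symm
      have h5 := hφ1 y hy
      rw [mem_sigma, mem_filter, mem_Icc] at h5
      have h6 : (((φ y).1 : ℕ) : ℤ) ^ 2 ≠ 0 := by
        have : ((φ y).1 : ℤ) ≠ 0 := by exact_mod_cast (by omega : (φ y).1 ≠ 0)
        positivity
      have h7 : (x.1 : ℤ) ^ 2 + 1 = (y.1 : ℤ) ^ 2 + 1 := mul_right_cancel₀ h6 h4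
      have h8 : x.1 ^ 2 = y.1 ^ 2 := by
        have : (x.1 : ℤ) ^ 2 = (y.1 : ℤ) ^ 2 := by linarith
        exact_mod_cast this
      have h9 : x.1 = y.1 := Nat.pow_left_injective (by norm_num : 2 ≠ 0) h8
      exact Prod.ext h9 (by exact_mod_cast h2)
  exact_mod_cast key

/-- **Hooley's range.** -/
theorem hooley : ∃ B : ℝ, 0 < B ∧ ∀ᶠ X : ℕ in atTop, ∀ Y : ℕ, X ≤ Y → (Y : ℝ) ≤ (X : ℝ) ^ (101 / 100 : ℝ) →
    (NP X Y : ℝ) ≤ B * X / Real.log X := by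
  obtain ⟨B, hB, h⟩ := hooley_a
  refine ⟨B, hB, ?_⟩
  filter_upwards [h, eventually_ge_atTop 1] with X hX hX1 Y hXY hY
  obtain ⟨P, hP, hs⟩ := hX
  have hY1 : 1 ≤ Y := hX1.trans hXY
  refine (NP_le X Y hY1 P (fun p hp => ⟨(hP p hp).1, (hP p hp).2.trans hXY⟩)).trans ?_
  apply hs Y hXY hY _ _ _ (by omega)
  · have := Nat.sqrt_le' (2 * Y)
    exact this
  · have h2 := Nat.lt_succ_sqrt' (Y / 2)
    rw [Nat.succ_eq_add_one] at h2
    omega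
  · have h1 := Nat.sqrt_le' ((X ^ 2 + 1) / Y)
    calc (Nat.sqrt ((X ^ 2 + 1) / Y)) ^ 2 * Y ≤ (X ^ 2 + 1) / Y * Y := Nat.mul_le_mul_right _ h1
      _ ≤ X ^ 2 + 1 := Nat.div_mul_le_self _ _

end Pool.Agent.K4H50.HL
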