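import Mathlib

/-!
# The character modulo `4`: Mertens
-/

set_option autoImplicit false

namespace Pool.Agent.K4H50.HL

open Finset Filter Topology

/-- the character modulo `4` -/
noncomputable def cc (n : ℕ) : ℝ := ((ZMod.χ₄ (n : ZMod 4) : ℤ) : ℝ)

theorem cc_mul (m n : ℕ) : cc (m * n) = cc m * cc n := by
  unfold cc
  push_cast
  rw [map_mul]
  push_cast
  ring

theorem cc_even {n : ℕ} (h : n % 2 = 0) : cc n = 0 := by
  unfold cc
  rw [ZMod.χ₄_nat_eq_if_mod_four, if_pos h, Int.cast_zero]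

theorem cc_odd (i : ℕ) : cc (2 * i + 1) = (-1) ^ i := by
  unfold cc
  rw [ZMod.χ₄_eq_neg_one_pow (by omega)]
  have : (2 * i + 1) / 2 = i := by omega
  rw [this]
  push_cast
  rfl

theorem abs_cc (n : ℕ) : |cc n| ≤ 1 := by
  rcases Nat.even_or_odd' n with ⟨k, rfl | rfl⟩
  · rw [cc_even (by omega)]; simp
  · rw [cc_odd]; simp

theorem sum_cc (F : ℕ → ℝ) (X : ℕ) : ∑ n ∈ Icc 1 X, cc n * F n =
    ∑ i ∈ range ((X + 1) / 2), (-1) ^ i * F (2 * i + 1) := by
  induction X with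
  | zero => simp
  | succ X ih =>
    rw [sum_Icc_succ_top (by omega), ih]
    rcases Nat.even_or_odd' X with ⟨k, rfl | rfl⟩
    · have e1 : (2 * k + 1) / 2 = k := by omega
      have e2 : (2 * k + 1 + 1) / 2 = k + 1 := by omega
      rw [e1, e2, sum_range_succ, cc_odd]
    · have e1 : (2 * k + 1 + 1) / 2 = k + 1 := by omega
      have e2 : (2 * k + 1 + 1 + 1) / 2 = k + 1 := by omega
      rw [e1, e2, cc_even (by omega)]
      ring

/-- alternating sums -/
theorem alt_bound (n : ℕ) : ∀ g : ℕ → ℝ, Antitone g → (∀ i, 0 ≤ g i) →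
    0 ≤ ∑ i ∈ range n, (-1) ^ i * g i ∧ ∑ i ∈ range n, (-1) ^ i * g i ≤ g 0 := by
  induction n with
  | zero => intro g _ h0; simpa using h0 0
  | succ n ih =>
    intro g hg h0
    obtain ⟨h1, h2⟩ := ih (fun i => g (i + 1)) (fun i j h => hg (by omega)) (fun i => h0 _)
    rw [sum_range_succ']
    have e : ∑ i ∈ range n, (-1) ^ (i + 1) * g (i + 1) = -∑ i ∈ range n, (-1) ^ i * g (i + 1) := by
      rw [← sum_neg_distrib]
      apply sum_congr rfl
      intro i _
      rw [pow_succ]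
      ring
    rw [e]
    have h3 := hg (Nat.zero_le 1)
    simp only [Nat.zero_add] at h1 h2
    constructor
    · simp only [pow_zero, one_mul]; linarith
    · simp only [pow_zero, one_mul]; linarith

/-- the partial sums of `L(1, χ)` -/
noncomputable def SL (y : ℕ) : ℝ := ∑ n ∈ Icc 1 y, cc n * (1 / (n : ℝ))

theorem SL_bound (y : ℕ) : |SL y - Real.pi / 4| ≤ 1 / ((y : ℝ) + 1) := by
  obtain ⟨k, hk⟩ : ∃ k, k = (y + 1) / 2 := ⟨_, rfl⟩
  have h1 : SL y = ∑ i ∈ range k, (-1) ^ i * (1 / (((2 * i + 1 : ℕ)) : ℝ)) := by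
    unfold SL
    rw [sum_cc, hk]
  obtain ⟨f, hf⟩ : ∃ f : ℕ → ℝ, f = fun i => 1 / (((2 * i + 1 : ℕ)) : ℝ) := ⟨_, rfl⟩
  have hanti : Antitone f := by
    intro i j hij
    rw [hf]
    apply one_div_le_one_div_of_le (by positivity)
    exact_mod_cast (by omega : 2 * i + 1 ≤ 2 * j + 1)
  have htends : Tendsto (fun n => ∑ i ∈ range n, (-1) ^ i * f i) atTop (𝓝 (Real.pi / 4)) := by
    refine Real.tendsto_sum_pi_div_four.congr fun n => ?_
    apply sum_congr rfl
    intro i _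
    rw [hf]
    push_cast
    ring
  have h2 : |∑ i ∈ range k, (-1) ^ i * f i - Real.pi / 4| ≤ f k := by
    rcases Nat.even_or_odd' k with ⟨j, hj | hj⟩
    · have a1 := hanti.alternating_series_le_tendsto htends j
      have a2 := hanti.tendsto_le_alternating_series htends j
      rw [← hj] at a1
      rw [sum_range_succ, ← hj] at a2
      have e : ((-1 : ℝ)) ^ k = 1 := by rw [hj]; simp
      rw [e, one_mul] at a2
      rw [abs_le]
      constructor <;> linarith
    · have a1 := hanti.alternating_series_le_tendsto htends (j + 1)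
      have a2 := hanti.tendsto_le_alternating_series htends j
      have e1 : 2 * (j + 1) = k + 1 := by omega
      rw [e1, sum_range_succ] at a1
      rw [← hj] at a2
      have e : ((-1 : ℝ)) ^ k = -1 := by rw [hj]; simp [pow_succ]
      rw [e] at a1
      rw [abs_le]
      constructor <;> linarith
  rw [h1]
  rw [hf] at h2
  refine h2.trans ?_
  apply one_div_le_one_div_of_le (by positivity)
  have : y + 1 ≤ 2 * k + 1 := by omega
  exact_mod_cast this

theorem log_sum_bound (X : ℕ) : |∑ n ∈ Icc 1 X, cc n * (Real.log n / n)| ≤ 2 := by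
  rw [sum_cc]
  rcases Nat.eq_zero_or_pos ((X + 1) / 2) with h | h
  · rw [h]; simp
  obtain ⟨m, hm⟩ : ∃ m, (X + 1) / 2 = m + 1 := ⟨(X + 1) / 2 - 1, by omega⟩
  rw [hm, sum_range_succ']
  have hg : Antitone (fun i : ℕ => Real.log (((2 * (i + 1) + 1 : ℕ)) : ℝ) / (((2 * (i + 1) + 1 : ℕ)) : ℝ)) := by
    intro i j hij
    have e := Real.exp_one_lt_three
    apply Real.log_div_self_antitoneOn
    · show Real.exp 1 ≤ _
      have : (3 : ℝ) ≤ ((2 * (i + 1) + 1 : ℕ) : ℝ) := by exact_mod_cast (by omega : 3 ≤ 2 * (i + 1) + 1)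
      linarith
    · show Real.exp 1 ≤ _
      have : (3 : ℝ) ≤ ((2 * (j + 1) + 1 : ℕ) : ℝ) := by exact_mod_cast (by omega : 3 ≤ 2 * (j + 1) + 1)
      linarith
    · exact_mod_cast (by omega : 2 * (i + 1) + 1 ≤ 2 * (j + 1) + 1)
  obtain ⟨h1, h2⟩ := alt_bound m _ hg (fun i => div_nonneg (Real.log_natCast_nonneg _) (Nat.cast_nonneg _))
  have e : ∑ i ∈ range m, (-1) ^ (i + 1) * (Real.log (((2 * (i + 1) + 1 : ℕ)) : ℝ) / (((2 * (i + 1) + 1 : ℕ)) : ℝ)) =
      -∑ i ∈ range m, (-1) ^ i * (Real.log (((2 * (i + 1) + 1 : ℕ)) : ℝ) / (((2 * (i + 1) + 1 : ℕ)) : ℝ)) := by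
    rw [← sum_neg_distrib]
    apply sum_congr rfl
    intro i _
    rw [pow_succ]
    ring
  rw [e]
  have h3 : Real.log (((2 * (0 + 1) + 1 : ℕ)) : ℝ) / (((2 * (0 + 1) + 1 : ℕ)) : ℝ) ≤ 1 := by
    have h4 : Real.log (3 : ℝ) ≤ 3 - 1 := Real.log_le_sub_one_of_pos (by norm_num)
    norm_num
    rw [div_le_one (by norm_num)]
    linarith
  have h5 : (-1 : ℝ) ^ 0 * (Real.log (((2 * 0 + 1 : ℕ)) : ℝ) / (((2 * 0 + 1 : ℕ)) : ℝ)) = 0 := by simp
  rw [h5, abs_le]
  constructor <;> linarith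

/-- summation over divisors -/
theorem div_switch (F : ℕ → ℕ → ℝ) (X : ℕ) : ∑ n ∈ Icc 1 X, ∑ d ∈ n.divisors, F d (n / d) =
    ∑ d ∈ Icc 1 X, ∑ m ∈ Icc 1 (X / d), F d m := by
  rw [sum_sigma', sum_sigma']
  refine sum_bij' (fun x _ => ⟨x.2, x.1 / x.2⟩) (fun x _ => ⟨x.1 * x.2, x.1⟩) ?_ ?_ ?_ ?_ ?_
  · rintro ⟨n, d⟩ h
    rw [mem_sigma, mem_Icc, Nat.mem_divisors] at h
    obtain ⟨⟨h1, h2⟩, h3, h4⟩ := h
    simp only at h1 h2 h3 h4
    have hd := Nat.pos_of_dvd_of_pos h3 h1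
    rw [mem_sigma, mem_Icc, mem_Icc]
    refine ⟨⟨hd, (Nat.le_of_dvd h1 h3).trans h2⟩, Nat.div_pos (Nat.le_of_dvd h1 h3) hd, Nat.div_le_div_right h2⟩
  · rintro ⟨d, m⟩ h
    rw [mem_sigma, mem_Icc, mem_Icc] at h
    obtain ⟨⟨h1, h2⟩, h3, h4⟩ := h
    simp only at h1 h2 h3 h4
    rw [mem_sigma, mem_Icc, Nat.mem_divisors]
    refine ⟨⟨Nat.mul_pos h1 h3, ?_⟩, dvd_mul_right _ _, (Nat.mul_pos h1 h3).ne'⟩
    rw [Nat.le_div_iff_mul_le h1] at h4
    rw [mul_comm]
    exact h4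
  · rintro ⟨n, d⟩ h
    rw [mem_sigma, mem_Icc, Nat.mem_divisors] at h
    obtain ⟨⟨h1, h2⟩, h3, h4⟩ := h
    simp only [Sigma.mk.injEq, heq_eq_eq, and_true]
    exact Nat.mul_div_cancel' h3
  · rintro ⟨d, m⟩ h
    rw [mem_sigma, mem_Icc, mem_Icc] at h
    obtain ⟨⟨h1, h2⟩, h3, h4⟩ := h
    simp only [Sigma.mk.injEq, heq_eq_eq, true_and]
    exact Nat.mul_div_cancel_left _ h1
  · rintro ⟨n, d⟩ h
    rfl

theorem psi_bound : ∃ C : ℝ, 0 < C ∧ ∀ X : ℕ, ∑ d ∈ Icc 1 X, ArithmeticFunction.vonMangoldt d ≤ C * X := by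
  refine ⟨Real.log 4 + 4, by positivity, fun X => ?_⟩
  have h := Chebyshev.psi_le_const_mul_self (x := (X : ℝ)) (Nat.cast_nonneg X)
  refine le_trans (le_of_eq ?_) h
  unfold Chebyshev.psi
  rw [Nat.floor_natCast]
  rfl

/-- **Mertens for the character.** -/
theorem mert_chi : ∃ C : ℝ, 0 < C ∧ ∀ X : ℕ, |∑ d ∈ Icc 1 X, cc d * (ArithmeticFunction.vonMangoldt d / d)| ≤ C := by
  obtain ⟨C, hC, hpsi⟩ := psi_bound
  refine ⟨(2 + C) * 2, by positivity, fun X => ?_⟩
  obtain ⟨V, hV⟩ : ∃ V : ℝ, V = ∑ d ∈ Icc 1 X, cc d * (ArithmeticFunction.vonMangoldt d / d) := ⟨_, rfl⟩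
  rw [← hV]
  have h1 := log_sum_bound X
  have h2 : ∑ n ∈ Icc 1 X, cc n * (Real.log n / n) =
      ∑ d ∈ Icc 1 X, cc d * (ArithmeticFunction.vonMangoldt d / d) * SL (X / d) := by
    have e1 : ∀ n ∈ Icc 1 X, cc n * (Real.log n / n) = ∑ d ∈ n.divisors,
        (fun d m : ℕ => cc d * (ArithmeticFunction.vonMangoldt d / d) * (cc m * (1 / (m : ℝ)))) d (n / d) := by
      intro n hn
      rw [mem_Icc] at hn
      rw [← ArithmeticFunction.vonMangoldt_sum, sum_div, mul_sum]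
      apply sum_congr rfl
      intro d hd
      rw [Nat.mem_divisors] at hd
      obtain ⟨m, rfl⟩ := hd.1
      have hd0 : 0 < d := Nat.pos_of_dvd_of_pos hd.1 hn.1
      have hm0 : 0 < m := Nat.pos_of_ne_zero (by rintro rfl; simp at hn)
      rw [Nat.mul_div_cancel_left _ hd0, cc_mul]
      push_cast
      field_simp
    refine (sum_congr rfl e1).trans ((div_switch (fun d m : ℕ => cc d * (ArithmeticFunction.vonMangoldt d / d) *
      (cc m * (1 / (m : ℝ)))) X).trans ?_)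
    apply sum_congr rfl
    intro d _
    rw [← mul_sum]
    rfl
  have h3 : |V * (Real.pi / 4)| ≤ 2 + C := by
    have e : V * (Real.pi / 4) = ∑ n ∈ Icc 1 X, cc n * (Real.log n / n) -
        ∑ d ∈ Icc 1 X, cc d * (ArithmeticFunction.vonMangoldt d / d) * (SL (X / d) - Real.pi / 4) := by
      rw [h2, hV, sum_mul, ← sum_sub_distrib]
      apply sum_congr rfl
      intro d _
      ring
    rw [e]
    refine (abs_sub _ _).trans (add_le_add h1 ?_)
    refine (abs_sum_le_sum_abs _ _).trans ?_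
    have h4 : ∀ d ∈ Icc 1 X, |cc d * (ArithmeticFunction.vonMangoldt d / d) * (SL (X / d) - Real.pi / 4)| ≤
        ArithmeticFunction.vonMangoldt d * (1 / X) := by
      intro d hd
      rw [mem_Icc] at hd
      have hd0 : (0 : ℝ) < d := by exact_mod_cast hd.1
      have hX0 : (0 : ℝ) < X := by exact_mod_cast hd.1.trans hd.2
      have hL : 0 ≤ (ArithmeticFunction.vonMangoldt d : ℝ) := ArithmeticFunction.vonMangoldt_nonneg
      rw [abs_mul, abs_mul, abs_of_nonneg (div_nonneg hL hd0.le)]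
      have h5 := SL_bound (X / d)
      have h6 : 1 / (((X / d : ℕ) : ℝ) + 1) ≤ d / X := by
        rw [div_le_div_iff₀ (by positivity) hX0, one_mul]
        have h7 : X < d * (X / d + 1) := Nat.lt_mul_div_succ X hd.1
        have h8 : (X : ℝ) ≤ d * (((X / d : ℕ) : ℝ) + 1) := by exact_mod_cast h7.le
        exact h8
      calc |cc d| * (ArithmeticFunction.vonMangoldt d / d) * |SL (X / d) - Real.pi / 4| ≤
            1 * (ArithmeticFunction.vonMangoldt d / d) * (d / X) := by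
              apply mul_le_mul _ (h5.trans h6) (abs_nonneg _) (by positivity)
              exact mul_le_mul_of_nonneg_right (abs_cc d) (div_nonneg hL hd0.le)
        _ = _ := by field_simp
    refine (sum_le_sum h4).trans ?_
    rw [← sum_mul]
    rcases Nat.eq_zero_or_pos X with hX | hX
    · subst hX; simp [hC.le]
    · have hX0 : (0 : ℝ) < X := by exact_mod_cast hX
      calc _ ≤ C * X * (1 / X) := mul_le_mul_of_nonneg_right (hpsi X) (by positivity)
        _ = C := by field_simp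
  rw [abs_mul, abs_of_pos (by positivity : (0 : ℝ) < Real.pi / 4)] at h3
  have h9 : (1 / 2 : ℝ) ≤ Real.pi / 4 := by linarith [Real.pi_gt_three]
  nlinarith [abs_nonneg V]

end Pool.Agent.K4H50.HL
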