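import Pool.Agent.K4H50.HL.B9

/-!
# The constant
-/

set_option autoImplicit false

namespace Pool.Agent.K4H50.HL

open Finset Filter Topology ArithmeticFunction

/-- the sum of `k(n) / n` -/
noncomputable def KK : ℝ := ∑' n, kn n

theorem kn_euler : Tendsto (fun N : ℕ => ∏ p ∈ N.primesBelow, kp p) atTop (𝓝 KK) := by
  have h := EulerProduct.eulerProduct (f := kn) kn_one (fun {m n} h => kn_mul h) kn_summable kn_zero
  refine h.congr (fun N => prod_congr rfl (fun p hp => ?_))
  exact kn_tsum p (Nat.prime_of_mem_primesBelow hp)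

theorem cases4 {p : ℕ} (hp : p.Prime) : p % 4 = 1 ∨ p = 2 ∨ p % 4 = 3 := by
  rcases hp.eq_two_or_odd with h | h
  · right; left; exact h
  · omega

theorem kp_one {p : ℕ} (hp : p.Prime) (h : p % 4 = 1) : kp p = (1 + 1 / ((p : ℝ) - 2)) * (1 - 1 / p) := by
  have h5 : (5 : ℝ) ≤ p := by
    have h1 := hp.one_lt
    exact_mod_cast (by omega : 5 ≤ p)
  have h2 : (p : ℝ) - 2 ≠ 0 := by linarith
  have h3 : (p : ℝ) ≠ 0 := by linarith
  unfold kp phk bet
  rw [if_pos h, if_pos rfl, if_pos h, if_neg (by norm_num), if_pos rfl]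
  field_simp
  ring

theorem kp_two : kp 2 = 1 := by
  unfold kp phk
  norm_num

theorem kp_three {p : ℕ} (h : p % 4 = 3) : kp p = 1 - 1 / (p : ℝ) ^ 2 := by
  unfold kp phk
  rw [if_neg (by omega), if_neg (by omega), if_neg (by omega), if_neg (by omega), if_neg (by omega), if_pos rfl]
  ring

theorem kp_ge {p : ℕ} (hp : p.Prime) : 1 - 1 / (p : ℝ) ^ 2 ≤ kp p := by
  have hp0 : (0 : ℝ) < p := by exact_mod_cast hp.pos
  rcases cases4 hp with h | h | h
  · have h5 : (5 : ℝ) ≤ p := by
      have h1 := hp.one_lt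
      exact_mod_cast (by omega : 5 ≤ p)
    rw [kp_one hp h]
    have h2 : (0 : ℝ) < p - 2 := by linarith
    have e : (1 + 1 / ((p : ℝ) - 2)) * (1 - 1 / p) = 1 + 1 / (p * (p - 2)) := by
      field_simp
      ring
    rw [e]
    have a1 : 0 ≤ 1 / ((p : ℝ) * (p - 2)) := by positivity
    have a2 : 0 ≤ 1 / (p : ℝ) ^ 2 := by positivity
    linarith
  · subst h
    rw [kp_two]
    norm_num
  · rw [kp_three h]

theorem K_ge (N : ℕ) : 1 / 2 ≤ ∏ p ∈ N.primesBelow, kp p := by
  have h1 : ∀ N : ℕ, 1 / 2 * (1 + 1 / ((N : ℝ) + 1)) ≤ ∏ n ∈ range (N + 2), (if 2 ≤ n then 1 - 1 / (n : ℝ) ^ 2 else 1) := by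
    intro N
    induction N with
    | zero =>
      rw [prod_range_succ, prod_range_succ]
      norm_num
    | succ N ih =>
      rw [prod_range_succ, if_pos (by omega)]
      have hN : (0 : ℝ) ≤ N := Nat.cast_nonneg N
      have h3 : (0 : ℝ) ≤ 1 - 1 / ((N + 2 : ℕ) : ℝ) ^ 2 := by
        rw [sub_nonneg, div_le_one (by positivity)]
        push_cast
        nlinarith
      refine le_trans (le_of_eq ?_) (mul_le_mul_of_nonneg_right ih h3)
      push_cast
      field_simp
      ring
  have h2 : 1 / 2 ≤ ∏ n ∈ range (N + 2), (if 2 ≤ n then 1 - 1 / (n : ℝ) ^ 2 else 1) := by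
    refine le_trans ?_ (h1 N)
    have : 0 ≤ 1 / ((N : ℝ) + 1) := by positivity
    linarith
  refine h2.trans ?_
  have hfac : ∀ n : ℕ, 0 ≤ (if 2 ≤ n then 1 - 1 / (n : ℝ) ^ 2 else 1) ∧ (if 2 ≤ n then 1 - 1 / (n : ℝ) ^ 2 else 1) ≤ 1 := by
    intro n
    split_ifs with h
    · have : (2 : ℝ) ≤ n := by exact_mod_cast h
      constructor
      · rw [sub_nonneg, div_le_one (by positivity)]; nlinarith
      · have : 0 ≤ 1 / (n : ℝ) ^ 2 := by positivity
        linarith
    · norm_num
  have hsub : N.primesBelow ⊆ range (N + 2) := by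
    intro p hp
    have := Nat.lt_of_mem_primesBelow hp
    rw [mem_range]; omega
  calc ∏ n ∈ range (N + 2), (if 2 ≤ n then 1 - 1 / (n : ℝ) ^ 2 else 1) ≤
        ∏ n ∈ N.primesBelow, (if 2 ≤ n then 1 - 1 / (n : ℝ) ^ 2 else 1) := by
          rw [← prod_sdiff hsub]
          apply mul_le_of_le_one_left (prod_nonneg fun n _ => (hfac n).1)
          exact prod_le_one (fun n _ => (hfac n).1) (fun n _ => (hfac n).2)
    _ ≤ _ := by
          apply Finset.prod_le_prod (fun n _ => (hfac n).1)
          intro p hp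
          have hpp := Nat.prime_of_mem_primesBelow hp
          rw [if_pos hpp.two_le]
          exact kp_ge hpp

theorem KK_ge : 1 / 2 ≤ KK := ge_of_tendsto kn_euler (Eventually.of_forall K_ge)

/-- the partial products of the constant of the problem -/
noncomputable def CN (N : ℕ) : ℝ := ∏ p ∈ (range N).filter (fun p => p.Prime ∧ p ≠ 2),
          (1 - ((ZMod.χ₄ (p : ZMod 4) : ℤ) : ℝ) / ((p : ℝ) - 1))

theorem CN_id (N : ℕ) : (∏ p ∈ N.primesBelow, kp p) * CN N *
    (∏ p ∈ N.primesBelow, (1 - cc p * (1 / (p : ℝ)))⁻¹) = 1 := by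
  have e : CN N = ∏ p ∈ N.primesBelow, (if p ≠ 2 then 1 - cc p / ((p : ℝ) - 1) else 1) := by
    unfold CN
    rw [← filter_filter, prod_filter]
    rfl
  rw [e, ← prod_mul_distrib, ← prod_mul_distrib]
  apply prod_eq_one
  intro p hp
  have hpp := Nat.prime_of_mem_primesBelow hp
  have hp0 : (0 : ℝ) < p := by exact_mod_cast hpp.pos
  rcases cases4 hpp with h | h | h
  · have h5 : (5 : ℝ) ≤ p := by
      have h1 := hpp.one_lt
      exact_mod_cast (by omega : 5 ≤ p)
    rw [kp_one hpp h, if_pos (by omega), cc_mod_one h]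
    have h2 : (p : ℝ) - 2 ≠ 0 := by linarith
    have h3 : (p : ℝ) - 1 ≠ 0 := by linarith
    have h4 : (p : ℝ) ≠ 0 := by linarith
    field_simp
    ring
  · subst h
    rw [kp_two, if_neg (by simp), cc_even (by norm_num)]
    norm_num
  · have h5 : (3 : ℝ) ≤ p := by exact_mod_cast (by omega : 3 ≤ p)
    rw [kp_three h, if_pos (by omega), cc_mod_three h]
    have h3 : (p : ℝ) - 1 ≠ 0 := by linarith
    have h4 : (p : ℝ) ≠ 0 := by linarith
    have h6 : (p : ℝ) + 1 ≠ 0 := by linarith
    field_simp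
    ring

/-- the constant of the problem -/
noncomputable def CC : ℝ := (KK * (Real.pi / 4))⁻¹

theorem CC_pos : 0 < CC := by
  unfold CC
  have := KK_ge
  positivity

theorem CN_lim : Tendsto CN atTop (𝓝 CC) := by
  have h1 := (kn_euler.mul euler_one).inv₀ (by have := KK_ge; positivity : KK * (Real.pi / 4) ≠ 0)
  refine h1.congr (fun N => ?_)
  have h2 := CN_id N
  have h3 : (∏ p ∈ N.primesBelow, kp p) ≠ 0 := by have := K_ge N; positivity
  have h4 : (∏ p ∈ N.primesBelow, (1 - cc p * (1 / (p : ℝ)))⁻¹) ≠ 0 := by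
    intro h; rw [h, mul_zero] at h2; exact zero_ne_one h2
  rw [inv_eq_iff_eq_inv]
  apply eq_inv_of_mul_eq_one_left
  rw [mul_right_comm]
  exact h2

theorem F_lim : Tendsto (fun A : ℕ => (∑ a ∈ Icc 1 A, mkf phf a / a) / Real.log A) atTop (𝓝 (CC⁻¹)) := by
  have hval : CC⁻¹ = ∑' n, kn n * (Real.pi / 4) := by
    unfold CC
    rw [inv_inv, tsum_mul_right]
    rfl
  rw [hval]
  have h1 : ∀ A : ℕ, (∑ a ∈ Icc 1 A, mkf phf a / a) / Real.log A =
      ∑' n, (if n ∈ Icc 1 A then kn n * (Gra (A / n) / Real.log A) else 0) := by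
    intro A
    rw [F_sum, sum_div, tsum_eq_sum (s := Icc 1 A) (fun n hn => if_neg hn)]
    apply sum_congr rfl
    intro n hn
    rw [if_pos hn]
    unfold kn
    ring
  simp_rw [h1]
  have hlogt : Tendsto (fun A : ℕ => Real.log (A : ℝ)) atTop atTop :=
    Real.tendsto_log_atTop.comp tendsto_natCast_atTop_atTop
  refine tendsto_tsum_of_dominated_convergence (bound := fun n => ‖kn n‖ * 3) (kn_summable.mul_right 3) ?_ ?_
  · intro n
    rcases Nat.eq_zero_or_pos n with rfl | hn
    · rw [kn_zero, zero_mul]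
      simp
    · have hn0 : (0 : ℝ) < n := by exact_mod_cast hn
      have h2 : Tendsto (fun A : ℕ => Gra (A / n) / Real.log A) atTop (𝓝 (Real.pi / 4)) := by
        rw [tendsto_iff_dist_tendsto_zero]
        have h3 : Tendsto (fun A : ℕ => (2 + Real.log (2 * n)) / Real.log A) atTop (𝓝 0) :=
          hlogt.const_div_atTop _
        refine squeeze_zero' (Eventually.of_forall fun _ => dist_nonneg) ?_ h3
        filter_upwards [eventually_ge_atTop n, hlogt.eventually_ge_atTop 1] with A hA hlA
        have hlA0 : 0 < Real.log (A : ℝ) := by linarith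
        have hy1 : 1 ≤ A / n := Nat.div_pos hA hn
        have hyr : (1 : ℝ) ≤ ((A / n : ℕ) : ℝ) := by exact_mod_cast hy1
        have hA0 : (0 : ℝ) < A := by exact_mod_cast (lt_of_lt_of_le hn hA)
        have h4 := Gra_bound (A / n) hy1
        have h5 : Real.log ((A / n : ℕ) : ℝ) ≤ Real.log A := by
          apply Real.log_le_log (by linarith)
          exact_mod_cast Nat.div_le_self A n
        have h6 : Real.log A ≤ Real.log ((A / n : ℕ) : ℝ) + Real.log (2 * n) := by
          rw [← Real.log_mul (by linarith) (by positivity)]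
          apply Real.log_le_log hA0
          have h7 : A < n * (A / n + 1) := Nat.lt_mul_div_succ A hn
          have h8 : (A : ℝ) < n * (((A / n : ℕ) : ℝ) + 1) := by exact_mod_cast h7
          nlinarith
        have hpi : Real.pi / 4 ≤ 1 := by linarith [Real.pi_le_four]
        have hpi0 : 0 ≤ Real.pi / 4 := by positivity
        have h9 : |Gra (A / n) - Real.pi / 4 * Real.log A| ≤ 2 + Real.log (2 * n) := by
          have h10 := abs_le.1 h4
          rw [abs_le]
          constructor <;> nlinarith [h10.1, h10.2]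
        rw [Real.dist_eq]
        have e : Gra (A / n) / Real.log A - Real.pi / 4 = (Gra (A / n) - Real.pi / 4 * Real.log A) / Real.log A := by
          field_simp
        rw [e, abs_div, abs_of_pos hlA0]
        exact div_le_div_of_nonneg_right h9 hlA0.le
      refine (h2.const_mul (kn n)).congr' ?_
      filter_upwards [eventually_ge_atTop n] with A hA
      rw [if_pos (mem_Icc.2 ⟨hn, hA⟩)]
  · filter_upwards [hlogt.eventually_ge_atTop 1] with A hlA
    intro n
    split_ifs with hn
    · rw [mem_Icc] at hn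
      rw [norm_mul]
      apply mul_le_mul_of_nonneg_left _ (norm_nonneg _)
      have hy1 : 1 ≤ A / n := Nat.div_pos hn.2 hn.1
      have hyr : (1 : ℝ) ≤ ((A / n : ℕ) : ℝ) := by exact_mod_cast hy1
      have h4 := abs_le.1 (Gra_bound (A / n) hy1)
      have h5 : Real.log ((A / n : ℕ) : ℝ) ≤ Real.log A := by
        apply Real.log_le_log (by linarith)
        exact_mod_cast Nat.div_le_self A n
      have h6 : 0 ≤ Real.log ((A / n : ℕ) : ℝ) := Real.log_nonneg hyr
      have hpi : Real.pi / 4 ≤ 1 := by linarith [Real.pi_le_four]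
      have hpi0 : 0 ≤ Real.pi / 4 := by positivity
      rw [Real.norm_eq_abs, abs_div, abs_of_nonneg (by linarith : (0 : ℝ) ≤ Real.log A), div_le_iff₀ (by linarith), abs_le]
      constructor <;> nlinarith [h4.1, h4.2]
    · rw [norm_zero]; positivity

end Pool.Agent.K4H50.HL
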