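import Pool.Agent.K4H50.HL.A6

/-!
# The upper bound sieve for one quadratic polynomial
-/

set_option autoImplicit false

namespace Pool.Agent.K4H50.HL

open Finset Filter

/-- the residues `t` with `p ∣ (a t + b) ^ 2 + 1` -/
def Omt (a b p : ℕ) : Finset ℕ := if p ∣ a then ∅ else (range p).filter (fun t => p ∣ (a * t + b) ^ 2 + 1)

theorem Omt_card (a b p : ℕ) (hp : p.Prime) (hpa : ¬ p ∣ a) : (Omt a b p).card = rh p := by
  haveI : Fact p.Prime := ⟨hp⟩
  have ha0 : (a : ZMod p) ≠ 0 := by rwa [Ne, ZMod.natCast_eq_zero_iff]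
  unfold Omt rh
  rw [if_neg hpa]
  apply le_antisymm
  · apply card_le_card_of_injOn (fun t => (a * t + b) % p)
    · intro t ht
      rw [mem_coe, mem_filter, mem_range] at ht
      rw [mem_coe, mem_filter, mem_range]
      refine ⟨Nat.mod_lt _ hp.pos, ?_⟩
      rw [← ZMod.natCast_eq_zero_iff] at ht ⊢
      have := ht.2
      push_cast at this ⊢
      rw [ZMod.natCast_mod]
      push_cast
      exact this
    · intro t ht s hs hts
      rw [mem_coe, mem_filter, mem_range] at ht hs
      have h1 : ((a * t + b : ℕ) : ZMod p) = ((a * s + b : ℕ) : ZMod p) := (ZMod.natCast_eq_natCast_iff' _ _ p).2 hts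
      push_cast at h1
      have h2 : (t : ZMod p) = s := mul_left_cancel₀ ha0 (add_right_cancel h1)
      have h3 := (ZMod.natCast_eq_natCast_iff' t s p).1 h2
      rwa [Nat.mod_eq_of_lt ht.1, Nat.mod_eq_of_lt hs.1] at h3
  · apply card_le_card_of_injOn (fun x : ℕ => (((x : ZMod p) - b) * (a : ZMod p)⁻¹).val)
    · intro x hx
      rw [mem_coe, mem_filter, mem_range] at hx
      rw [mem_coe, mem_filter, mem_range]
      refine ⟨ZMod.val_lt _, ?_⟩
      rw [← ZMod.natCast_eq_zero_iff] at hx ⊢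
      have := hx.2
      push_cast at this ⊢
      rw [ZMod.natCast_zmod_val]
      have e : (a : ZMod p) * (((x : ZMod p) - b) * (a : ZMod p)⁻¹) + b = x := by
        field_simp
        ring
      rw [e]
      exact this
    · intro x hx y hy hxy
      rw [mem_coe, mem_filter, mem_range] at hx hy
      have h1 := ZMod.val_injective p hxy
      have h2 : ((x : ZMod p) - b) = ((y : ZMod p) - b) := mul_right_cancel₀ (inv_ne_zero ha0) h1
      have h3 : (x : ZMod p) = y := sub_left_injective h2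
      have h4 := (ZMod.natCast_eq_natCast_iff' x y p).1 h3
      rwa [Nat.mod_eq_of_lt hx.1, Nat.mod_eq_of_lt hy.1] at h4

theorem Omt_card_le (a b p : ℕ) (hp : p.Prime) : (Omt a b p).card ≤ 2 := by
  by_cases h : p ∣ a
  · unfold Omt; rw [if_pos h]; simp
  · rw [Omt_card a b p hp h]; exact rh_le p hp

/-- the product over the primes dividing `a` -/
noncomputable def h4 (a : ℕ) : ℝ := ∏ p ∈ a.primeFactors, (1 + 4 / (p : ℝ))

theorem h4_ge (a : ℕ) : 1 ≤ h4 a := by
  unfold h4
  apply prod_induction (fun p : ℕ => 1 + 4 / (p : ℝ)) (fun x => 1 ≤ x)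
  · intro x y hx hy
    nlinarith
  · exact le_rfl
  · intro p _
    have : 0 ≤ 4 / (p : ℝ) := by positivity
    linarith

theorem prod_Omt (a b z0 J : ℕ) (ha : 0 < a) (hz0 : 3 ≤ z0) :
    ∏ p ∈ PZ z0 J, (1 - ((Omt a b p).card : ℝ) * (1 / (p : ℝ))) ≤
      (∏ p ∈ PZ z0 J, (1 - (rh p : ℝ) / p)) * h4 a := by
  have h1 : ∏ p ∈ (PZ z0 J).filter (fun p => p ∣ a), (1 + 4 / (p : ℝ)) ≤ h4 a := by
    unfold h4
    have hsub : (PZ z0 J).filter (fun p => p ∣ a) ⊆ a.primeFactors := by
      intro p hp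
      unfold PZ at hp
      rw [mem_filter, mem_filter] at hp
      rw [Nat.mem_primeFactors]
      exact ⟨hp.1.2.1, hp.2, ha.ne'⟩
    rw [← prod_sdiff hsub]
    have hge : ∀ T : Finset ℕ, 1 ≤ ∏ p ∈ T, (1 + 4 / (p : ℝ)) := by
      intro T
      apply prod_induction (fun p : ℕ => 1 + 4 / (p : ℝ)) (fun x => 1 ≤ x)
      · intro x y hx hy
        nlinarith
      · exact le_rfl
      · intro p _
        have : 0 ≤ 4 / (p : ℝ) := by positivity
        linarith
    exact le_mul_of_one_le_left (by linarith [hge ((PZ z0 J).filter (fun p => p ∣ a))]) (hge _)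
  have hpos : ∀ p ∈ PZ z0 J, 0 ≤ 1 - (rh p : ℝ) / p := by
    intro p hp
    unfold PZ at hp
    have hpp := (mem_filter.1 hp).2.1
    have h3 : (rh p : ℝ) ≤ 2 := by exact_mod_cast rh_le p hpp
    have h4 : (2 : ℝ) ≤ p := by exact_mod_cast hpp.two_le
    have : (rh p : ℝ) / p ≤ 1 := by rw [div_le_one (by linarith)]; linarith
    linarith
  refine le_trans ?_ (mul_le_mul_of_nonneg_left h1 (prod_nonneg hpos))
  rw [prod_filter, ← prod_mul_distrib]
  apply Finset.prod_le_prod
  · intro p hp
    unfold PZ at hp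
    have hpp := (mem_filter.1 hp).2.1
    have h3 : ((Omt a b p).card : ℝ) ≤ 2 := by exact_mod_cast Omt_card_le a b p hpp
    have h4 : (2 : ℝ) ≤ p := by exact_mod_cast hpp.two_le
    have : ((Omt a b p).card : ℝ) * (1 / p) ≤ 1 := by
      rw [mul_one_div, div_le_one (by linarith)]; linarith
    linarith
  · intro p hp
    unfold PZ at hp
    have hpp := (mem_filter.1 hp).2.1
    have hpz := (mem_filter.1 hp).2.2
    have h3 : (rh p : ℝ) ≤ 2 := by exact_mod_cast rh_le p hpp
    have h4 : (4 : ℝ) ≤ p := by exact_mod_cast (by omega : 4 ≤ p)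
    by_cases hpa : p ∣ a
    · rw [if_pos hpa]
      have h5 : Omt a b p = ∅ := by unfold Omt; rw [if_pos hpa]
      rw [h5, card_empty, Nat.cast_zero, zero_mul, sub_zero]
      have h6 : (rh p : ℝ) / p ≤ 2 / p := by gcongr
      have h7 : (1 - 2 / (p : ℝ)) * (1 + 4 / p) ≤ (1 - (rh p : ℝ) / p) * (1 + 4 / p) := by
        apply mul_le_mul_of_nonneg_right _ (by positivity)
        linarith
      refine le_trans ?_ h7
      have h8 : (1 - 2 / (p : ℝ)) * (1 + 4 / p) = 1 + 2 * ((p : ℝ) - 4) / p ^ 2 := by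
        field_simp
        ring
      rw [h8]
      have : 0 ≤ 2 * ((p : ℝ) - 4) / p ^ 2 := by
        apply div_nonneg _ (by positivity)
        linarith
      linarith
    · rw [if_neg hpa, mul_one, Omt_card a b p hpp hpa, mul_one_div]

/-- the number of the `n ≤ X`, `n ≡ b` modulo `a`, with `(n ^ 2 + 1) / a` prime -/
def TT (X a b : ℕ) : ℕ := ((Icc 1 X).filter (fun n => n % a = b ∧ ((n ^ 2 + 1) / a).Prime)).card

theorem range_mod (M e ρ : ℕ) (he : 0 < e) :
    |((((range M).filter (fun t => t ≡ ρ [MOD e])).card : ℕ) : ℝ) - (M : ℝ) / e| ≤ 1 := by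
  have h := Nat.count_modEq_card M he ρ
  rw [Nat.count_eq_card_filter_range] at h
  rw [h]
  have he0 : (0 : ℝ) < e := by exact_mod_cast he
  have h1 : ((M / e : ℕ) : ℝ) ≤ (M : ℝ) / e := Nat.cast_div_le
  have h2 : (M : ℝ) / e < ((M / e : ℕ) : ℝ) + 1 := by
    rw [div_lt_iff₀ he0]
    have := Nat.lt_div_mul_add (a := M) he
    have h3 : M < (M / e + 1) * e := by rw [add_mul, one_mul]; exact this
    exact_mod_cast h3
  push_cast
  rw [abs_le]
  split_ifs
  · push_cast; constructor <;> linarith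
  · push_cast; constructor <;> linarith

theorem sieve_t : ∃ C0 : ℕ, 1 ≤ C0 ∧ ∀ (b0 J z0 : ℕ) (P : Finset ℕ), C0 * 3 ≤ b0 → C0 * 3 ≤ z0 →
    (∀ p ∈ P, p.Prime ∧ z0 < p ∧ p ≤ 2 ^ 2 ^ J) → ∀ (a b M : ℕ), 0 < a →
    ((((range M).filter (fun t => ∀ p ∈ P, t % p ∉ Omt a b p)).card : ℕ) : ℝ) ≤
      2 * ((M : ℝ) * ∏ p ∈ P, (1 - ((Omt a b p).card : ℝ) * (1 / (p : ℝ)))) +
      ((J : ℝ) + 2) * ((((2 ^ 2 ^ J) ^ (C0 * b0) : ℕ) : ℝ)) ^ 2 := by
  obtain ⟨C0, hC0, H⟩ := Pool.Agent.TH423.SH.fll
  refine ⟨C0, hC0, ?_⟩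
  intro b0 J z0 P hb hz hP a b M ha
  have hprod0 : 0 ≤ ∏ p ∈ P, (1 - ((Omt a b p).card : ℝ) * (1 / (p : ℝ))) := by
    apply prod_nonneg
    intro p hp
    have h3 : ((Omt a b p).card : ℝ) ≤ 2 := by exact_mod_cast Omt_card_le a b p (hP p hp).1
    have h4 : (2 : ℝ) ≤ p := by exact_mod_cast (hP p hp).1.two_le
    have h5 : ((Omt a b p).card : ℝ) * (1 / (p : ℝ)) ≤ 1 := by
      rw [mul_one_div, div_le_one (by linarith)]
      linarith
    linarith
  have hmain := H 2 b0 J z0 P (fun p => 1 / (p : ℝ)) (fun p => Omt a b p) hb hz hP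
    (fun p hp => Omt_card_le a b p (hP p hp).1)
    (fun p hp => by
      have h2 : (1 : ℝ) < p := by exact_mod_cast (hP p hp).1.one_lt
      refine ⟨by positivity, ?_⟩
      apply one_div_le_one_div_of_le (by linarith) (by linarith))
    (range M) (fun _ => 1) (M : ℝ) (fun _ => 1)
    (fun n _ => zero_le_one) (by positivity) (fun _ => zero_le_one) (by
      intro T hTP _ c hc
      have hTp : ∀ p ∈ T, p.Prime := fun p hp => (hP p (hTP hp)).1
      obtain ⟨e, he⟩ : ∃ e, e = ∏ p ∈ T, p := ⟨_, rfl⟩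
      have he0 : 0 < e := by rw [he]; exact prod_pos fun p hp => (hTp p hp).pos
      obtain ⟨ρ, hρ⟩ := crt_fin T hTp c
      have hg1 : ∏ p ∈ T, (1 / (p : ℝ)) = 1 / (e : ℝ) := by
        rw [he]
        push_cast
        rw [prod_div_distrib, prod_const_one]
      rw [hg1, sum_const, nsmul_eq_mul, mul_one, mul_one_div]
      have hfe : (range M).filter (fun n => ∀ p ∈ T, n % p = c p) = (range M).filter (fun t => t ≡ ρ [MOD e]) := by
        apply filter_congr
        intro t _
        have hlt : ∀ p ∈ T, c p < p := by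
          intro p hp
          have h3 := hc p hp
          unfold Omt at h3
          split_ifs at h3
          · exact absurd h3 (notMem_empty _)
          · exact mem_range.1 (mem_filter.1 h3).1
        rw [← Int.natCast_modEq_iff, Int.modEq_iff_dvd, he, prod_dvd_int T hTp]
        constructor
        · intro h p hp
          rw [← Int.modEq_iff_dvd, Int.natCast_modEq_iff]
          have h5 : t ≡ c p [MOD p] := by
            unfold Nat.ModEq
            rw [h p hp, Nat.mod_eq_of_lt (hlt p hp)]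
          exact h5.trans (hρ p hp).symm
        · intro h p hp
          have h6 := h p hp
          rw [← Int.modEq_iff_dvd, Int.natCast_modEq_iff] at h6
          have h7 := h6.trans (hρ p hp)
          unfold Nat.ModEq at h7
          rwa [Nat.mod_eq_of_lt (hlt p hp)] at h7
      rw [hfe]
      exact range_mod M e ρ he0)
  have h2 := (abs_le.1 hmain).2
  obtain ⟨Z, hZ⟩ : ∃ Z : ℕ, Z = (2 ^ 2 ^ J) ^ (C0 * b0) := ⟨_, rfl⟩
  have herrs : ∑ T ∈ P.powerset.filter (fun T : Finset ℕ => ∏ p ∈ T, p ≤ (2 ^ 2 ^ J) ^ (C0 * b0)),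
            ((2 : ℕ) : ℝ) ^ T.card * 1 ≤ (Z : ℝ) ^ 2 := by
    have hterm : ∀ T ∈ P.powerset.filter (fun T : Finset ℕ => ∏ p ∈ T, p ≤ (2 ^ 2 ^ J) ^ (C0 * b0)),
        ((2 : ℕ) : ℝ) ^ T.card * 1 ≤ Z := by
      intro T hT
      rw [mem_filter, mem_powerset, ← hZ] at hT
      have h3 : 2 ^ T.card ≤ ∏ p ∈ T, p := by
        rw [← prod_const]
        exact prod_le_prod' fun p hp => (hP p (hT.1 hp)).1.two_le
      rw [mul_one]
      exact_mod_cast h3.trans hT.2
    have hcardT : (P.powerset.filter (fun T : Finset ℕ => ∏ p ∈ T, p ≤ (2 ^ 2 ^ J) ^ (C0 * b0))).card ≤ Z := by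
      calc _ ≤ (Icc 1 Z).card := by
            apply card_le_card_of_injOn (fun T => ∏ p ∈ T, p)
            · intro T hT
              rw [mem_coe, mem_filter, mem_powerset, ← hZ] at hT
              rw [mem_coe, mem_Icc]
              exact ⟨prod_pos fun p hp => (hP p (hT.1 hp)).1.pos, hT.2⟩
            · intro T hT T' hT' h
              rw [mem_coe, mem_filter, mem_powerset] at hT hT'
              have e1 : ∀ U : Finset ℕ, U ⊆ P → (∏ p ∈ U, p).primeFactors = U := by
                intro U hU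
                exact Nat.primeFactors_prod fun p hp => (hP p (hU hp)).1
              have h' : ∏ p ∈ T, p = ∏ p ∈ T', p := h
              rw [← e1 T hT.1, ← e1 T' hT'.1, h']
        _ = Z := by simp
    refine (sum_le_sum hterm).trans ?_
    rw [sum_const, nsmul_eq_mul, sq]
    exact mul_le_mul_of_nonneg_right (by exact_mod_cast hcardT) (by positivity)
  rw [← hZ]
  have h6 := mul_le_mul_of_nonneg_left herrs (show (0 : ℝ) ≤ (J : ℝ) + 2 by positivity)
  rw [sum_const, nsmul_eq_mul, mul_one] at h2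
  push_cast at h2 h6 ⊢
  have h7 : (1 / 2 : ℝ) ^ b0 ≤ 1 := pow_le_one₀ (by norm_num) (by norm_num)
  have h8 : (1 / 2 : ℝ) ^ b0 * ((M : ℝ) * ∏ p ∈ P, (1 - ((Omt a b p).card : ℝ) * (1 / (p : ℝ)))) ≤
      1 * ((M : ℝ) * ∏ p ∈ P, (1 - ((Omt a b p).card : ℝ) * (1 / (p : ℝ)))) :=
    mul_le_mul_of_nonneg_right h7 (mul_nonneg (Nat.cast_nonneg _) hprod0)
  linarith

theorem TT_le_sieve (X a b z : ℕ) (P : Finset ℕ) (ha : 0 < a) (hab : a ∣ b ^ 2 + 1)
    (hP : ∀ p ∈ P, p.Prime ∧ p ≤ z) :
    TT X a b ≤ (z + 1) + ((range (X / a + 1)).filter (fun t => ∀ p ∈ P, t % p ∉ Omt a b p)).card := by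
  unfold TT
  have h1 : ((Icc 1 X).filter (fun n => n % a = b ∧ ((n ^ 2 + 1) / a).Prime)).card ≤
      (range (z + 1) ∪ (range (X / a + 1)).filter (fun t => ∀ p ∈ P, t % p ∉ Omt a b p)).card := by
    apply card_le_card_of_injOn (fun n => n / a)
    · intro n hn
      rw [mem_coe, mem_filter, mem_Icc] at hn
      obtain ⟨⟨hn1, hnX⟩, hnb, hnp⟩ := hn
      show n / a ∈ ((range (z + 1) ∪ (range (X / a + 1)).filter (fun t => ∀ p ∈ P, t % p ∉ Omt a b p) : Finset ℕ) : Set ℕ)
      rw [mem_coe, mem_union, mem_range, mem_filter, mem_range]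
      by_cases hz : n / a < z + 1
      · left; exact hz
      · right
        have hna : n = a * (n / a) + b := by
          have := Nat.div_add_mod n a
          rw [hnb] at this
          exact this.symm
        have han : a ∣ n ^ 2 + 1 := by
          have h5 : n ≡ b [MOD a] := by
            rw [← hnb]; exact (Nat.mod_modEq n a).symm
          exact (((h5.pow 2).add_right 1).dvd_iff (dvd_refl a)).2 hab
        obtain ⟨q, hq⟩ := han
        rw [hq, Nat.mul_div_cancel_left q ha] at hnp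
        refine ⟨by have := Nat.div_le_div_right (c := a) hnX; omega, ?_⟩
        intro p hp hmem
        unfold Omt at hmem
        split_ifs at hmem with hpa
        · exact absurd hmem (notMem_empty _)
        · rw [mem_filter] at hmem
          obtain ⟨hpp, hpz⟩ := hP p hp
          have h3 : p ∣ n ^ 2 + 1 := by
            have h4 := hmem.2
            have h5 : a * (n / a % p) + b ≡ a * (n / a) + b [MOD p] :=
              ((Nat.mod_modEq (n / a) p).mul_left a).add_right b
            have h6 := (((h5.pow 2).add_right 1).dvd_iff (dvd_refl p)).1 h4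
            rwa [← hna] at h6
          rw [hq] at h3
          have h7 : p ∣ q := (hpp.dvd_mul.1 h3).resolve_left hpa
          have h8 : p = q := (Nat.prime_dvd_prime_iff_eq hpp hnp).1 h7
          have h9 : z + 1 ≤ n / a := by omega
          have h10 : a * (z + 1) ≤ n := by
            calc a * (z + 1) ≤ a * (n / a) := Nat.mul_le_mul_left a h9
              _ ≤ n := Nat.mul_div_le n a
          have h11 : a * q ≤ a * z := Nat.mul_le_mul_left a (by omega)
          have h12 : a * (z + 1) * (a * (z + 1)) ≤ n * n := Nat.mul_le_mul h10 h10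
          have h13 : n * n + 1 = a * q := by rw [← hq]; ring
          nlinarith [Nat.zero_le (a * z), Nat.mul_le_mul ha (le_refl (z + 1)), Nat.mul_le_mul (Nat.mul_le_mul ha (le_refl (z + 1))) (le_refl (a * (z + 1)))]
    · intro n hn m hm hnm
      rw [mem_coe, mem_filter] at hn hm
      have h3 := Nat.div_add_mod n a
      have h4 := Nat.div_add_mod m a
      have h5 : n / a = m / a := hnm
      rw [hn.2.1] at h3
      rw [hm.2.1, ← h5] at h4
      omega
  refine h1.trans ((card_union_le _ _).trans ?_)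
  rw [card_range]

end Pool.Agent.K4H50.HL
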