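import Pool.Agent.K4H50.HL.B10
import Pool.Agent.K4H50.HL.B5

/-!
# The sums over the pairs `(a, b)`
-/

set_option autoImplicit false

namespace Pool.Agent.K4H50.HL

open Finset Filter Topology ArithmeticFunction

theorem rh_mul_le (m n : ℕ) (hm : 0 < m) (hn : 0 < n) (h : m.Coprime n) : rh (m * n) ≤ rh m * rh n := by
  unfold rh
  rw [← card_product]
  apply card_le_card_of_injOn (fun x => (x % m, x % n))
  · intro x hx
    rw [mem_coe, mem_filter, mem_range] at hx
    rw [mem_coe, mem_product, mem_filter, mem_filter, mem_range, mem_range]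
    have key : ∀ d, d ∣ m * n → d ∣ (x % d) ^ 2 + 1 := by
      intro d hd
      exact ((((Nat.mod_modEq x d).pow 2).add_right 1).dvd_iff (dvd_refl d)).2 (hd.trans hx.2)
    exact ⟨⟨Nat.mod_lt _ hm, key m (dvd_mul_right _ _)⟩, Nat.mod_lt _ hn, key n (dvd_mul_left _ _)⟩
  · intro x hx y hy hxy
    rw [mem_coe, mem_filter, mem_range] at hx hy
    have h1 : x ≡ y [MOD m] := (Prod.ext_iff.1 hxy).1
    have h2 : x ≡ y [MOD n] := (Prod.ext_iff.1 hxy).2
    have h3 : x ≡ y [MOD m * n] := (Nat.modEq_and_modEq_iff_modEq_mul h).1 ⟨h1, h2⟩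
    unfold Nat.ModEq at h3
    rwa [Nat.mod_eq_of_lt hx.1, Nat.mod_eq_of_lt hy.1] at h3

theorem rh_three {p : ℕ} (hp : p.Prime) (h : p % 4 = 3) (k : ℕ) (hk : 0 < k) : rh (p ^ k) = 0 := by
  have h1 : (rh p : ℝ) = 0 := by rw [rh_eq p hp, cc_mod_three h]; ring
  have h2 : rh p = 0 := by exact_mod_cast h1
  unfold rh at h2 ⊢
  rw [card_eq_zero, filter_eq_empty_iff] at h2 ⊢
  intro x _ hd
  have h3 : p ∣ x ^ 2 + 1 := (dvd_pow_self p hk.ne').trans hd
  exact h2 (mem_range.2 (Nat.mod_lt x hp.pos))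
    (((((Nat.mod_modEq x p).pow 2).add_right 1).dvd_iff (dvd_refl p)).2 h3)

theorem rh_four (k : ℕ) (hk : 2 ≤ k) : rh (2 ^ k) = 0 := by
  unfold rh
  rw [card_eq_zero, filter_eq_empty_iff]
  intro x _ hd
  have h4 : 4 ∣ x ^ 2 + 1 := (pow_dvd_pow 2 hk).trans hd
  rcases Nat.even_or_odd' x with ⟨j, hj | hj⟩
  · rw [hj] at h4
    have : (2 * j) ^ 2 = 4 * j ^ 2 := by ring
    omega
  · rw [hj] at h4
    have : (2 * j + 1) ^ 2 = 4 * (j ^ 2 + j) + 1 := by ring
    omega

theorem rh_two : rh 2 = 1 := by decide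

theorem rh_gen (g : ℕ → ℝ) (φ : ℕ → ℕ → ℝ) (hg : ∀ p : ℕ, p.Prime → 0 ≤ g p)
    (h : ∀ p k : ℕ, p.Prime → 0 < k → (rh (p ^ k) : ℝ) * g p ≤ φ p k) (a : ℕ) :
    0 < a → (rh a : ℝ) * ∏ p ∈ a.primeFactors, g p ≤ mkf φ a := by
  induction a using Nat.recOnPosPrimePosCoprime with
  | prime_pow p k hp hk =>
    intro _
    rw [Nat.primeFactors_prime_pow hk.ne' hp, prod_singleton, mkf_pp φ p k hp hk.ne']
    exact h p k hp hk
  | zero => intro h0; omega
  | one =>
    intro _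
    rw [(mkf_mul φ).1, Nat.primeFactors_one, prod_empty, mul_one]
    have : rh 1 = 1 := by decide
    rw [this]; norm_num
  | coprime a b ha hb hab iha ihb =>
    intro _
    have h1 := iha (by omega)
    have h2 := ihb (by omega)
    rw [hab.primeFactors_mul, prod_union hab.disjoint_primeFactors, (mkf_mul φ).map_mul_of_coprime hab]
    have hpos : ∀ c : ℕ, 0 ≤ ∏ p ∈ c.primeFactors, g p :=
      fun c => prod_nonneg fun p hp => hg p (Nat.prime_of_mem_primeFactors hp)
    have h3 : (rh (a * b) : ℝ) ≤ rh a * rh b := by exact_mod_cast rh_mul_le a b (by omega) (by omega) hab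
    have h4 : 0 ≤ (rh a : ℝ) * ∏ p ∈ a.primeFactors, g p := mul_nonneg (Nat.cast_nonneg _) (hpos a)
    have h5 : 0 ≤ (rh b : ℝ) * ∏ p ∈ b.primeFactors, g p := mul_nonneg (Nat.cast_nonneg _) (hpos b)
    calc (rh (a * b) : ℝ) * ((∏ p ∈ a.primeFactors, g p) * ∏ p ∈ b.primeFactors, g p) ≤
          (rh a * rh b) * ((∏ p ∈ a.primeFactors, g p) * ∏ p ∈ b.primeFactors, g p) :=
            mul_le_mul_of_nonneg_right h3 (mul_nonneg (hpos a) (hpos b))
      _ = ((rh a : ℝ) * ∏ p ∈ a.primeFactors, g p) * ((rh b : ℝ) * ∏ p ∈ b.primeFactors, g p) := by ring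
      _ ≤ _ := mul_le_mul h1 h2 h5 (h4.trans h1)

/-- the local factors of the constants -/
noncomputable def gg (p : ℕ) : ℝ := if p = 2 then 2 else ((p : ℝ) - 1) / ((p : ℝ) - 2)

/-- the factor `h(a)` -/
noncomputable def hh (a : ℕ) : ℝ := ∏ p ∈ a.primeFactors, gg p

theorem gg_ge (p : ℕ) (hp : p.Prime) : 1 ≤ gg p := by
  unfold gg
  split_ifs with h
  · norm_num
  · have h3 : (3 : ℝ) ≤ p := by
      have := hp.two_le
      exact_mod_cast (by omega : 3 ≤ p)
    rw [le_div_iff₀ (by linarith)]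
    linarith

theorem hh_ge (a : ℕ) : 1 ≤ hh a := by
  unfold hh
  have : ∀ s : Finset ℕ, (∀ p ∈ s, p.Prime) → 1 ≤ ∏ p ∈ s, gg p := by
    intro s
    induction s using Finset.induction_on with
    | empty => intro _; simp
    | insert p s hps ih =>
      intro h
      rw [prod_insert hps]
      have h1 := gg_ge p (h p (mem_insert_self _ _))
      have h2 := ih (fun q hq => h q (mem_insert_of_mem hq))
      nlinarith
  exact this _ (fun p hp => Nat.prime_of_mem_primeFactors hp)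

theorem rh_hh (a : ℕ) (ha : 0 < a) : (rh a : ℝ) * hh a ≤ mkf phf a := by
  refine rh_gen gg phf (fun p hp => by linarith [gg_ge p hp]) ?_ a ha
  intro p k hp hk
  unfold gg phf bet
  rcases cases4 hp with h | h | h
  · rw [if_neg (by omega), if_pos h]
    have h2 : (rh (p ^ k) : ℝ) ≤ 2 := by exact_mod_cast rh_pp _ (hp.isPrimePow.pow hk.ne')
    have h5 : (5 : ℝ) ≤ p := by
      have h1 := hp.one_lt
      exact_mod_cast (by omega : 5 ≤ p)
    apply mul_le_mul_of_nonneg_right h2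
    apply div_nonneg <;> linarith
  · subst h
    rw [if_pos rfl, if_neg (by norm_num)]
    rcases Nat.lt_or_ge k 2 with hk2 | hk2
    · have : k = 1 := by omega
      subst this
      rw [pow_one, rh_two, if_pos ⟨rfl, rfl⟩]
      norm_num
    · rw [rh_four k hk2, if_neg (by omega)]
      norm_num
  · rw [rh_three hp h k hk, if_neg (by omega), if_neg (by omega), if_neg (by omega)]
    simp

/-- **The sum over the pairs.** -/
theorem sum_rh_hh (η : ℝ) (hη : 0 < η) : ∀ᶠ A : ℕ in atTop,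
    CC * ∑ a ∈ Icc 1 A, (rh a : ℝ) * hh a / a ≤ (1 + η) * Real.log A := by
  have h1 := F_lim
  have hC := CC_pos
  have h2 : CC⁻¹ < CC⁻¹ * (1 + η) := by
    have : 0 < CC⁻¹ := inv_pos.2 hC
    nlinarith
  filter_upwards [h1.eventually_lt_const h2, eventually_ge_atTop 2] with A hA hA2
  have hl : 0 < Real.log (A : ℝ) := Real.log_pos (by exact_mod_cast (by omega : 1 < A))
  rw [div_lt_iff₀ hl] at hA
  have h3 : ∑ a ∈ Icc 1 A, (rh a : ℝ) * hh a / a ≤ ∑ a ∈ Icc 1 A, mkf phf a / a := by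
    apply sum_le_sum
    intro a ha
    rw [mem_Icc] at ha
    apply div_le_div_of_nonneg_right (rh_hh a ha.1) (Nat.cast_nonneg _)
  calc CC * ∑ a ∈ Icc 1 A, (rh a : ℝ) * hh a / a ≤ CC * (CC⁻¹ * (1 + η) * Real.log A) :=
        mul_le_mul_of_nonneg_left (h3.trans hA.le) hC.le
    _ = (1 + η) * Real.log A := by field_simp

end Pool.Agent.K4H50.HL
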