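import Pool.Agent.K4H50.HL.B11

/-!
# The second moment over the pairs `(a, b)`
-/

set_option autoImplicit false

namespace Pool.Agent.K4H50.HL

open Finset Filter Topology ArithmeticFunction

/-- Euler products bound partial sums -/
theorem euler_bound (u : ℕ → ℝ) (hu : ∀ n, 0 ≤ u n) (h1 : u 1 = 1)
    (hm : ∀ {m n : ℕ}, m.Coprime n → u (m * n) = u m * u n)
    (hs : ∀ {p : ℕ}, p.Prime → Summable (fun e => u (p ^ e))) (A : ℕ) :
    ∑ n ∈ Icc 1 A, u n ≤ ∏ p ∈ (range (A + 1)).filter Nat.Prime, ∑' e : ℕ, u (p ^ e) := by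
  have h2 := (EulerProduct.summable_and_hasSum_factoredNumbers_prod_filter_prime_tsum
    (f := u) h1 hm (fun {p} hp => by
      refine (hs hp).congr (fun e => ?_)
      rw [Real.norm_of_nonneg (hu _)]) (range (A + 1))).2
  have h5 : HasSum ((Nat.factoredNumbers (range (A + 1))).indicator u)
      (∏ p ∈ (range (A + 1)).filter Nat.Prime, ∑' e : ℕ, u (p ^ e)) :=
    (hasSum_subtype_iff_indicator (f := u) (s := Nat.factoredNumbers (range (A + 1)))).1 h2
  have h6 : ∑ x ∈ Icc 1 A, u x ≤ ∑ x ∈ Icc 1 A, (Nat.factoredNumbers (range (A + 1))).indicator u x := by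
    apply sum_le_sum
    intro x hx
    rw [mem_Icc] at hx
    rw [Set.indicator_of_mem]
    rw [Nat.mem_factoredNumbers_iff_forall_le]
    refine ⟨by omega, ?_⟩
    intro q hq _ _
    rw [mem_range]
    omega
  refine h6.trans ?_
  exact sum_le_hasSum _ (fun n _ => Set.indicator_nonneg (fun n _ => hu n) n) h5

/-- the values at the prime powers -/
noncomputable def phg (p k : ℕ) : ℝ := if p % 4 = 1 then 2 * (1 + 4 / (p : ℝ)) ^ 2 else if p = 2 ∧ k = 1 then 9 else 0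

/-- the constants -/
noncomputable def cg (p : ℕ) : ℝ := if p % 4 = 1 then 2 * (1 + 4 / (p : ℝ)) ^ 2 else if p = 2 then 9 * 2 else 0

theorem phg_nonneg (p k : ℕ) : 0 ≤ phg p k := by
  unfold phg
  split_ifs <;> positivity

theorem cg_nonneg (p : ℕ) : 0 ≤ cg p := by
  unfold cg
  split_ifs <;> positivity

theorem mkf_nonneg (φ : ℕ → ℕ → ℝ) (h : ∀ p k, 0 ≤ φ p k) (n : ℕ) : 0 ≤ mkf φ n := by
  rcases Nat.eq_zero_or_pos n with rfl | hn
  · rw [ArithmeticFunction.map_zero]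
  · rw [mkf_apply φ n hn.ne']
    exact prod_nonneg fun p _ => h p _

theorem rh_h4 (a : ℕ) (ha : 0 < a) : (rh a : ℝ) * h4 a ^ 2 ≤ mkf phg a := by
  have e : h4 a ^ 2 = ∏ p ∈ a.primeFactors, (1 + 4 / (p : ℝ)) ^ 2 := by
    unfold h4
    rw [prod_pow]
  rw [e]
  refine rh_gen (fun p => (1 + 4 / (p : ℝ)) ^ 2) phg (fun p _ => by positivity) ?_ a ha
  intro p k hp hk
  unfold phg
  rcases cases4 hp with h | h | h
  · rw [if_pos h]
    have h2 : (rh (p ^ k) : ℝ) ≤ 2 := by exact_mod_cast rh_pp _ (hp.isPrimePow.pow hk.ne')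
    exact mul_le_mul_of_nonneg_right h2 (by positivity)
  · subst h
    rw [if_neg (by norm_num)]
    rcases Nat.lt_or_ge k 2 with hk2 | hk2
    · have : k = 1 := by omega
      subst this
      rw [pow_one, rh_two, if_pos ⟨rfl, rfl⟩]
      norm_num
    · rw [rh_four k hk2, if_neg (by omega)]
      norm_num
  · rw [rh_three hp h k hk, if_neg (by omega), if_neg (by omega)]
    simp

theorem loc_le (p : ℕ) (hp : p.Prime) (e : ℕ) : mkf phg (p ^ (e + 1)) / ((p ^ (e + 1) : ℕ) : ℝ) ≤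
    cg p * (1 / (p : ℝ)) * (1 / (p : ℝ)) ^ e := by
  have hp0 : (0 : ℝ) < p := by exact_mod_cast hp.pos
  rw [mkf_pp phg p (e + 1) hp (by omega)]
  have h1 : cg p * (1 / (p : ℝ)) * (1 / (p : ℝ)) ^ e = cg p / ((p ^ (e + 1) : ℕ) : ℝ) := by
    push_cast
    rw [pow_succ, one_div, inv_pow]
    field_simp
  rw [h1]
  apply div_le_div_of_nonneg_right _ (Nat.cast_nonneg _)
  unfold phg cg
  split_ifs with h2 h3 h4 h5
  · exact le_rfl
  · norm_num
  · exact absurd h3.1 h4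
  · norm_num
  · exact le_rfl

theorem loc_sum (p : ℕ) (hp : p.Prime) :
    Summable (fun e : ℕ => mkf phg (p ^ e) / ((p ^ e : ℕ) : ℝ)) ∧
    ∑' e : ℕ, mkf phg (p ^ e) / ((p ^ e : ℕ) : ℝ) ≤ Real.exp ((rh p : ℝ) / p + 40 * ((p : ℝ) ^ 2)⁻¹) := by
  have hp0 : (0 : ℝ) < p := by exact_mod_cast hp.pos
  have hp2 : (2 : ℝ) ≤ p := by exact_mod_cast hp.two_le
  have hr : (1 : ℝ) / p < 1 := by rw [div_lt_one hp0]; linarith
  have hgeo := (hasSum_geometric_of_lt_one (by positivity : (0 : ℝ) ≤ 1 / p) hr).mul_left (cg p * (1 / (p : ℝ)))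
  have hnn : ∀ e : ℕ, 0 ≤ mkf phg (p ^ e) / ((p ^ e : ℕ) : ℝ) :=
    fun e => div_nonneg (mkf_nonneg phg phg_nonneg _) (Nat.cast_nonneg _)
  have hs1 : Summable (fun e : ℕ => mkf phg (p ^ (e + 1)) / ((p ^ (e + 1) : ℕ) : ℝ)) :=
    Summable.of_nonneg_of_le (fun e => hnn _) (loc_le p hp) hgeo.summable
  have hs : Summable (fun e : ℕ => mkf phg (p ^ e) / ((p ^ e : ℕ) : ℝ)) :=
    (summable_nat_add_iff 1).1 hs1
  refine ⟨hs, ?_⟩
  rw [hs.tsum_eq_zero_add]
  have h1 : ∑' e : ℕ, mkf phg (p ^ (e + 1)) / ((p ^ (e + 1) : ℕ) : ℝ) ≤ cg p * (1 / (p : ℝ)) * (1 - 1 / (p : ℝ))⁻¹ := by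
    rw [← hgeo.tsum_eq]
    exact hs1.tsum_le_tsum (loc_le p hp) hgeo.summable
  have h2 : cg p * (1 / (p : ℝ)) * (1 - 1 / (p : ℝ))⁻¹ = cg p / (p - 1) := by
    have : (p : ℝ) - 1 ≠ 0 := by linarith
    field_simp
  have h3 : cg p / ((p : ℝ) - 1) ≤ (rh p : ℝ) / p + 40 * ((p : ℝ) ^ 2)⁻¹ + (if p = 2 then 10 else 0) := by
    rw [rh_eq p hp]
    unfold cg
    rcases cases4 hp with h | h | h
    · have h5 : (5 : ℝ) ≤ p := by
        have h1 := hp.one_lt
        exact_mod_cast (by omega : 5 ≤ p)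
      rw [if_pos h, cc_mod_one h, if_neg (by omega), add_zero]
      have e1 : 2 * (1 + 4 / (p : ℝ)) ^ 2 / (p - 1) = 2 * (p + 4) ^ 2 / (p ^ 2 * (p - 1)) := by
        have : (p : ℝ) - 1 ≠ 0 := by linarith
        field_simp
      have e2 : (1 + 1) / (p : ℝ) + 40 * ((p : ℝ) ^ 2)⁻¹ = (2 * p + 40) / p ^ 2 := by
        field_simp
        ring
      rw [e1, e2, div_le_div_iff₀ (by have : (0 : ℝ) < p - 1 := by linarith
                                      positivity) (by positivity)]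
      have h6 : 2 * ((p : ℝ) + 4) ^ 2 ≤ (2 * p + 40) * (p - 1) := by nlinarith
      calc 2 * ((p : ℝ) + 4) ^ 2 * p ^ 2 ≤ (2 * p + 40) * (p - 1) * p ^ 2 := mul_le_mul_of_nonneg_right h6 (by positivity)
        _ = _ := by ring
    · subst h
      rw [if_neg (by norm_num), if_pos rfl, if_pos rfl, cc_even (by norm_num)]
      norm_num
    · rw [if_neg (by omega), if_neg (by omega), if_neg (by omega), cc_mod_three h]
      norm_num
  have h4 : mkf phg (p ^ 0) / ((p ^ 0 : ℕ) : ℝ) = 1 := by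
    rw [pow_zero, (mkf_mul phg).1]; norm_num
  rw [h4]
  by_cases hp2' : p = 2
  · subst hp2'
    have h6 : (1 : ℝ) + cg 2 / ((2 : ℕ) - 1) ≤ 19 := by
      unfold cg
      norm_num
    have h7 : (19 : ℝ) ≤ Real.exp ((rh 2 : ℝ) / (2 : ℕ) + 40 * (((2 : ℕ) : ℝ) ^ 2)⁻¹) := by
      rw [rh_two]
      have h8 : Real.exp 3 ≤ Real.exp (((1 : ℕ) : ℝ) / (2 : ℕ) + 40 * (((2 : ℕ) : ℝ) ^ 2)⁻¹) := by
        apply Real.exp_le_exp.2; norm_num
      have h9 : (19 : ℝ) ≤ Real.exp 3 := by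
        have h10 : (2.7 : ℝ) ≤ Real.exp 1 := by have := Real.exp_one_gt_d9; linarith
        have h11 : Real.exp 3 = Real.exp 1 ^ 3 := by rw [← Real.exp_nat_mul]; norm_num
        rw [h11]
        calc (19 : ℝ) ≤ 2.7 ^ 3 := by norm_num
          _ ≤ _ := pow_le_pow_left₀ (by norm_num) h10 3
      linarith
    rw [h2] at h1
    linarith
  · rw [if_neg hp2', add_zero] at h3
    have h5 := Real.add_one_le_exp ((rh p : ℝ) / p + 40 * ((p : ℝ) ^ 2)⁻¹)
    rw [h2] at h1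
    linarith

/-- **The second moment.** -/
theorem sum_rh_h4 : ∃ C : ℝ, 0 < C ∧ ∀ A : ℕ, 3 ≤ A →
    ∑ a ∈ Icc 1 A, (rh a : ℝ) * h4 a ^ 2 / a ≤ C * Real.log A := by
  obtain ⟨C1, hC0, hC1⟩ := Pool.Agent.H474R2.GE.mertens_rho (Polynomial.X ^ 2 + 1 : Polynomial ℤ) irr_sq
    (by rw [deg_sq]; norm_num)
  have hsq : Summable (fun n : ℕ => 40 * ((n : ℝ) ^ 2)⁻¹) :=
    (Real.summable_nat_pow_inv.2 (by norm_num)).mul_left 40
  obtain ⟨S, hS⟩ : ∃ S : ℝ, S = ∑' n : ℕ, 40 * ((n : ℝ) ^ 2)⁻¹ := ⟨_, rfl⟩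
  refine ⟨Real.exp (C1 + S), Real.exp_pos _, ?_⟩
  intro A hA
  have hAr : (3 : ℝ) ≤ A := by exact_mod_cast hA
  have h1 : ∑ a ∈ Icc 1 A, (rh a : ℝ) * h4 a ^ 2 / a ≤ ∑ a ∈ Icc 1 A, mkf phg a / a := by
    apply sum_le_sum
    intro a ha
    rw [mem_Icc] at ha
    exact div_le_div_of_nonneg_right (rh_h4 a ha.1) (Nat.cast_nonneg _)
  refine h1.trans ?_
  have h2 := euler_bound (fun n => mkf phg n / n) (fun n => div_nonneg (mkf_nonneg phg phg_nonneg _) (Nat.cast_nonneg _))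
    (by rw [(mkf_mul phg).1]; norm_num) (fun {m n} h => by
      rw [(mkf_mul phg).map_mul_of_coprime h]
      push_cast
      rw [mul_div_mul_comm]) (fun {p} hp => (loc_sum p hp).1) A
  refine h2.trans ?_
  have h3 : ∏ p ∈ (range (A + 1)).filter Nat.Prime, ∑' e : ℕ, mkf phg (p ^ e) / ((p ^ e : ℕ) : ℝ) ≤
      ∏ p ∈ (range (A + 1)).filter Nat.Prime, Real.exp ((rh p : ℝ) / p + 40 * ((p : ℝ) ^ 2)⁻¹) := by
    apply Finset.prod_le_prod
    · intro p _
      exact tsum_nonneg fun e => div_nonneg (mkf_nonneg phg phg_nonneg _) (Nat.cast_nonneg _)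
    · intro p hp
      exact (loc_sum p (mem_filter.1 hp).2).2
  refine h3.trans ?_
  rw [← Real.exp_sum, sum_add_distrib]
  have h4 : ∑ p ∈ (range (A + 1)).filter Nat.Prime, 40 * ((p : ℝ) ^ 2)⁻¹ ≤ S := by
    rw [hS]
    exact hsq.sum_le_tsum _ (fun n _ => by positivity)
  have h5 : ∑ p ∈ (range (A + 1)).filter Nat.Prime, (rh p : ℝ) / p ≤ Real.log (Real.log A) + C1 := by
    have h6 := (abs_le.1 (hC1 A hAr)).2
    unfold Pool.Agent.H474R2.PG.Sg Pool.Agent.H474R2.PG.PR at h6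
    rw [Nat.floor_natCast] at h6
    have e : (range (A + 1)).filter Nat.Prime = (Icc 1 A).filter Nat.Prime := by
      ext p
      rw [mem_filter, mem_filter, mem_range, mem_Icc]
      constructor
      · rintro ⟨h7, h8⟩
        have := h8.one_lt
        exact ⟨⟨by omega, by omega⟩, h8⟩
      · rintro ⟨h7, h8⟩
        exact ⟨by omega, h8⟩
    rw [e]
    have e2 : ∑ p ∈ (Icc 1 A).filter Nat.Prime, (rh p : ℝ) / p =
        ∑ p ∈ (Icc 1 A).filter Nat.Prime,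
          (Pool.Agent.H474R2.PG.rho (Polynomial.X ^ 2 + 1 : Polynomial ℤ) p : ℝ) / p :=
      sum_congr rfl (fun p _ => by rw [rho_rh])
    rw [e2]
    linarith
  have hl : 0 < Real.log (A : ℝ) := Real.log_pos (by linarith)
  calc Real.exp (∑ p ∈ (range (A + 1)).filter Nat.Prime, (rh p : ℝ) / p +
        ∑ p ∈ (range (A + 1)).filter Nat.Prime, 40 * ((p : ℝ) ^ 2)⁻¹) ≤
        Real.exp ((C1 + S) + Real.log (Real.log A)) := by
          apply Real.exp_le_exp.2; linarith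
    _ = Real.exp (C1 + S) * Real.log A := by rw [Real.exp_add, Real.exp_log hl]

end Pool.Agent.K4H50.HL
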