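import Pool.Agent.K4H50.HL.B3
import Pool.Agent.K4H50.HL.A9

/-!
# The prime factors beyond `X ^ (1 + δ)`
-/

set_option autoImplicit false

namespace Pool.Agent.K4H50.HL

open Finset Filter Topology

theorem NP_eq (X Y : ℕ) : NP X Y = ∑ p ∈ (Ioc Y (2 * Y)).filter Nat.Prime, NN p X := by
  unfold NP NN
  rw [← card_sigma]
  apply card_bij' (fun x _ => (⟨x.2, x.1⟩ : (_ : ℕ) × ℕ)) (fun x _ => (x.2, x.1))
  · intro x hx
    rw [mem_filter, mem_product] at hx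
    rw [mem_sigma, mem_filter, mem_filter]
    exact ⟨⟨hx.1.2, hx.2.1⟩, hx.1.1, hx.2.2⟩
  · intro x hx
    rw [mem_sigma, mem_filter, mem_filter] at hx
    rw [mem_filter, mem_product]
    exact ⟨⟨hx.2.1, hx.1.1⟩, hx.1.2, hx.2.2⟩
  · intro x _; rfl
  · intro x _; rfl

theorem SP_mono (X : ℕ) {Z Z' : ℕ} (h : Z ≤ Z') : SP X Z ≤ SP X Z' := by
  unfold SP
  apply sum_le_sum_of_subset_of_nonneg
  · exact filter_subset_filter _ (Ioc_subset_Ioc_right h)
  · intro p _ _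
    exact mul_nonneg (Real.log_natCast_nonneg _) (Nat.cast_nonneg _)

theorem SP_add (X Z Z' : ℕ) (h1 : X ≤ Z) (h2 : Z ≤ Z') : SP X Z' = SP X Z +
    ∑ p ∈ (Ioc Z Z').filter Nat.Prime, Real.log p * (NN p X : ℝ) := by
  unfold SP
  have e : (Ioc X Z').filter Nat.Prime = (Ioc X Z).filter Nat.Prime ∪ (Ioc Z Z').filter Nat.Prime := by
    rw [← filter_union]
    congr 1
    exact (Ioc_union_Ioc_eq_Ioc h1 h2).symm
  have hdisj : Disjoint ((Ioc X Z).filter Nat.Prime) ((Ioc Z Z').filter Nat.Prime) := by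
    rw [disjoint_left]
    intro d hd1 hd2
    rw [mem_filter, mem_Ioc] at hd1 hd2
    omega
  rw [e, sum_union hdisj]

theorem SP_dyadic : ∃ B : ℝ, 0 < B ∧ ∀ᶠ X : ℕ in atTop, ∀ j : ℕ, (2 : ℝ) ^ j ≤ (X : ℝ) ^ (1 / 100 : ℝ) →
    SP X (2 ^ j * X) ≤ B * j * X := by
  obtain ⟨B, hB, H⟩ := hooley
  refine ⟨2 * B, by positivity, ?_⟩
  filter_upwards [H, eventually_ge_atTop 3] with X hX hX3
  have hX0 : (0 : ℝ) < X := by exact_mod_cast (by omega : 0 < X)
  have hX1 : (1 : ℝ) < X := by exact_mod_cast (by omega : 1 < X)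
  have hL : 0 < Real.log X := Real.log_pos hX1
  intro j
  induction j with
  | zero =>
    intro _
    unfold SP
    simp
  | succ j ih =>
    intro hj
    have hjle : (2 : ℝ) ^ j ≤ (X : ℝ) ^ (1 / 100 : ℝ) := by
      refine le_trans ?_ hj
      exact pow_le_pow_right₀ (by norm_num) (by omega)
    have h1 := ih hjle
    have hp1 : X ≤ 2 ^ j * X := Nat.le_mul_of_pos_left _ (by positivity)
    have hp2 : 2 ^ j * X ≤ 2 ^ (j + 1) * X := by rw [pow_succ]; nlinarith [Nat.zero_le (2 ^ j * X)]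
    have e2 : 2 ^ (j + 1) * X = 2 * (2 ^ j * X) := by rw [pow_succ]; ring
    rw [SP_add X (2 ^ j * X) (2 ^ (j + 1) * X) hp1 hp2, e2]
    have hcast : (((2 ^ j * X : ℕ)) : ℝ) ≤ (X : ℝ) ^ (101 / 100 : ℝ) := by
      have e3 : (X : ℝ) ^ (101 / 100 : ℝ) = (X : ℝ) ^ (1 / 100 : ℝ) * X := by
        have : (101 / 100 : ℝ) = 1 / 100 + 1 := by norm_num
        rw [this, Real.rpow_add hX0, Real.rpow_one]
      rw [e3]
      push_cast
      exact mul_le_mul_of_nonneg_right hjle hX0.le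
    have h2 := hX (2 ^ j * X) hp1 hcast
    have h3 : ∑ p ∈ (Ioc (2 ^ j * X) (2 * (2 ^ j * X))).filter Nat.Prime, Real.log p * (NN p X : ℝ) ≤
        (2 * Real.log X) * (NP X (2 ^ j * X) : ℝ) := by
      rw [NP_eq]
      push_cast
      rw [mul_sum]
      apply sum_le_sum
      intro p hp
      rw [mem_filter, mem_Ioc] at hp
      apply mul_le_mul_of_nonneg_right _ (Nat.cast_nonneg _)
      have hp0 : (0 : ℝ) < p := by exact_mod_cast hp.2.pos
      have h4 : (p : ℝ) ≤ (X : ℝ) ^ 2 := by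
        have h5 : (p : ℝ) ≤ 2 ^ (j + 1) * X := by
          have := hp.1.2
          rw [← e2] at this
          exact_mod_cast this
        have h6 : (X : ℝ) ^ (1 / 100 : ℝ) ≤ X := by
          calc (X : ℝ) ^ (1 / 100 : ℝ) ≤ (X : ℝ) ^ (1 : ℝ) := Real.rpow_le_rpow_of_exponent_le hX1.le (by norm_num)
            _ = X := Real.rpow_one _
        nlinarith
      calc Real.log p ≤ Real.log ((X : ℝ) ^ 2) := Real.log_le_log hp0 h4
        _ = 2 * Real.log X := by rw [Real.log_pow]; push_cast; ring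
    have h5 : (2 * Real.log X) * (NP X (2 ^ j * X) : ℝ) ≤ (2 * Real.log X) * (B * X / Real.log X) :=
      mul_le_mul_of_nonneg_left h2 (by positivity)
    have e4 : (2 * Real.log X) * (B * X / Real.log X) = 2 * B * X := by field_simp
    push_cast
    push_cast at h1
    linarith

/-- **The sum over the primes between `X` and `X ^ (1 + δ)`.** -/
theorem SP_small : ∃ B : ℝ, 0 < B ∧ ∀ δ : ℝ, 0 < δ → δ ≤ 1 / 200 → ∀ᶠ X : ℕ in atTop, ∀ Z : ℕ,
    (Z : ℝ) ≤ (X : ℝ) ^ (1 + δ) → SP X Z ≤ B * δ * (X * Real.log X) := by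
  obtain ⟨B, hB, H⟩ := SP_dyadic
  refine ⟨4 * B, by positivity, ?_⟩
  intro δ hδ hδ2
  have h1 : ∀ᶠ X : ℕ in atTop, 200 / δ ≤ Real.log X :=
    (Real.tendsto_log_atTop.comp tendsto_natCast_atTop_atTop).eventually_ge_atTop _
  filter_upwards [H, eventually_ge_atTop 3, h1] with X hX hX3 hlog
  have hX0 : (0 : ℝ) < X := by exact_mod_cast (by omega : 0 < X)
  have hX1 : (1 : ℝ) < X := by exact_mod_cast (by omega : 1 < X)
  obtain ⟨L, hL⟩ : ∃ L, L = Real.log (X : ℝ) := ⟨_, rfl⟩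
  have hL0 : 0 < L := by rw [hL]; exact Real.log_pos hX1
  rw [← hL] at hlog ⊢
  have hδL : 200 ≤ δ * L := by
    rw [div_le_iff₀ hδ] at hlog
    linarith
  intro Z hZ
  have hl2 : 0 < Real.log 2 := Real.log_pos (by norm_num)
  have hl2a : (1 / 2 : ℝ) ≤ Real.log 2 := by have := Real.log_two_gt_d9; linarith
  have hl2b : Real.log 2 ≤ 1 := by have := Real.log_two_lt_d9; linarith
  obtain ⟨j, hj⟩ : ∃ j : ℕ, j = ⌈δ * L / Real.log 2⌉₊ := ⟨_, rfl⟩
  have hjge : δ * L / Real.log 2 ≤ j := by rw [hj]; exact Nat.le_ceil _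
  have hjle : (j : ℝ) < δ * L / Real.log 2 + 1 := by rw [hj]; exact Nat.ceil_lt_add_one (by positivity)
  have e1 : (X : ℝ) ^ δ = Real.exp (δ * L) := by
    rw [Real.rpow_def_of_pos hX0, ← hL, mul_comm]
  have e2 : (2 : ℝ) ^ j = Real.exp (j * Real.log 2) := by
    rw [Real.exp_nat_mul, Real.exp_log (by norm_num)]
  have e3 : (X : ℝ) ^ (1 / 100 : ℝ) = Real.exp (L / 100) := by
    rw [Real.rpow_def_of_pos hX0, ← hL]
    congr 1
    ring
  have hZj : Z ≤ 2 ^ j * X := by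
    have h5 : (Z : ℝ) ≤ ((2 ^ j * X : ℕ) : ℝ) := by
      push_cast
      refine hZ.trans ?_
      rw [Real.rpow_add hX0, Real.rpow_one, mul_comm]
      apply mul_le_mul_of_nonneg_right _ hX0.le
      rw [e1, e2]
      apply Real.exp_le_exp.2
      rw [div_le_iff₀ hl2] at hjge
      exact hjge
    exact_mod_cast h5
  have h6 : (2 : ℝ) ^ j ≤ (X : ℝ) ^ (1 / 100 : ℝ) := by
    rw [e2, e3]
    apply Real.exp_le_exp.2
    have h7 : (j : ℝ) * Real.log 2 ≤ δ * L + Real.log 2 := by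
      have := mul_le_mul_of_nonneg_right hjle.le hl2.le
      rwa [add_mul, div_mul_cancel₀ _ hl2.ne', one_mul] at this
    have h8 : δ * L ≤ 1 / 200 * L := mul_le_mul_of_nonneg_right hδ2 hL0.le
    nlinarith
  refine (SP_mono X hZj).trans ((hX j h6).trans ?_)
  have h9 : (j : ℝ) ≤ 4 * (δ * L) := by
    have h10 : δ * L / Real.log 2 ≤ 2 * (δ * L) := by
      rw [div_le_iff₀ hl2]
      nlinarith
    linarith
  calc B * j * X ≤ B * (4 * (δ * L)) * X := by gcongr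
    _ = _ := by ring

/-- **The large primes**: there are many `p > X ^ (1 + δ)`. -/
theorem SP_large : ∃ B : ℝ, 0 < B ∧ ∀ δ : ℝ, 0 < δ → δ ≤ 1 / 200 → ∀ᶠ X : ℕ in atTop, ∀ Z : ℕ,
    X ≤ Z → (Z : ℝ) ≤ (X : ℝ) ^ (1 + δ) → (1 - B * δ) * (X * Real.log X) ≤
      ∑ p ∈ (Ioc Z (X ^ 2 + 1)).filter Nat.Prime, Real.log p * (NN p X : ℝ) := by
  obtain ⟨B, hB, H⟩ := SP_small
  obtain ⟨C, hC, hcheb⟩ := cheb
  refine ⟨B + 1, by positivity, ?_⟩
  intro δ hδ hδ2
  have h1 : ∀ᶠ X : ℕ in atTop, C / δ ≤ Real.log X :=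
    (Real.tendsto_log_atTop.comp tendsto_natCast_atTop_atTop).eventually_ge_atTop _
  filter_upwards [H δ hδ hδ2, eventually_ge_atTop 3, h1] with X hX hX3 hlog
  intro Z hXZ hZ
  have hX0 : (0 : ℝ) < X := by exact_mod_cast (by omega : 0 < X)
  have hX1 : (1 : ℝ) ≤ X := by exact_mod_cast (by omega : 1 ≤ X)
  have hZ2 : Z ≤ X ^ 2 + 1 := by
    have : (Z : ℝ) ≤ ((X ^ 2 + 1 : ℕ) : ℝ) := by
      refine hZ.trans ?_
      push_cast
      calc (X : ℝ) ^ (1 + δ) ≤ (X : ℝ) ^ (2 : ℝ) := Real.rpow_le_rpow_of_exponent_le hX1 (by linarith)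
        _ = (X : ℝ) ^ 2 := by norm_num
        _ ≤ _ := by linarith
    exact_mod_cast this
  have h2 := hX Z hZ
  have h3 := (abs_le.1 (hcheb X (by omega))).1
  rw [SP_add X Z (X ^ 2 + 1) hXZ hZ2] at h3
  have h4 : C * X ≤ δ * (X * Real.log X) := by
    rw [div_le_iff₀ hδ] at hlog
    nlinarith
  linarith

end Pool.Agent.K4H50.HL
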