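import Pool.Agent.K4H50.HL.B5

/-!
# The upper bound for one quadratic polynomial
-/

set_option autoImplicit false

namespace Pool.Agent.K4H50.HL

open Finset Filter

theorem log_small2 (s : ℝ) (hs : 0 < s) (M : ℝ) : ∀ᶠ X : ℕ in atTop, M ≤ Real.log X ∧
    3 * Real.log X ^ 2 ≤ (X : ℝ) ^ s := by
  have h1 : ∀ᶠ X : ℕ in atTop, M ≤ Real.log X :=
    (Real.tendsto_log_atTop.comp tendsto_natCast_atTop_atTop).eventually_ge_atTop M
  have h2 := (isLittleO_log_rpow_rpow_atTop (s := s) (2 : ℝ) hs).bound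
    (show (0 : ℝ) < 1 / 3 by norm_num)
  have h3 := tendsto_natCast_atTop_atTop.eventually (h2.and (eventually_ge_atTop (1 : ℝ)))
  filter_upwards [h1, h3] with X hX hX3
  refine ⟨hX, ?_⟩
  obtain ⟨h4, h5⟩ := hX3
  have h6 : 0 ≤ Real.log (X : ℝ) := Real.log_nonneg h5
  rw [Real.norm_of_nonneg (by positivity), Real.norm_of_nonneg (by positivity)] at h4
  have h7 : Real.log (X : ℝ) ^ (2 : ℝ) = Real.log X ^ 2 := by
    rw [← Real.rpow_natCast]; norm_num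
  rw [h7] at h4
  linarith

theorem TT_upper : ∀ δ : ℝ, 0 < δ → δ ≤ 1 → ∃ C : ℝ, 0 < C ∧ ∀ᶠ X : ℕ in atTop, ∀ a b : ℕ, 1 ≤ a →
    (a : ℝ) ≤ (X : ℝ) ^ (1 - δ) → a ∣ b ^ 2 + 1 →
    (TT X a b : ℝ) ≤ C * h4 a * (X / (a * Real.log X)) := by
  intro δ hδ hδ1
  obtain ⟨C0, hC0, hsieve⟩ := sieve_t
  obtain ⟨C1, hC1, hV⟩ := V_le
  obtain ⟨b0, hb0⟩ : ∃ b0, b0 = C0 * 3 := ⟨_, rfl⟩
  have hb1 : 1 ≤ b0 := by omega
  have hC0r : (1 : ℝ) ≤ C0 := by exact_mod_cast hC0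
  have hbr : (1 : ℝ) ≤ b0 := by exact_mod_cast hb1
  obtain ⟨D, hD⟩ : ∃ D : ℝ, D = 8 * (C0 * b0) / δ := ⟨_, rfl⟩
  have hCb : (1 : ℝ) ≤ (C0 : ℝ) * b0 := by nlinarith
  have hD1 : 8 ≤ D := by
    rw [hD, le_div_iff₀ hδ]
    nlinarith
  refine ⟨16 * Real.exp (C1 + b0) * D + 1, by positivity, ?_⟩
  filter_upwards [log_small2 (δ / 8) (by positivity) (4 * D), eventually_ge_atTop 3] with X hX hX3
  obtain ⟨hL, hXL⟩ := hX
  have hXr : (3 : ℝ) ≤ X := by exact_mod_cast hX3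
  have hX0 : (0 : ℝ) < X := by linarith
  obtain ⟨L, hLdef⟩ : ∃ L : ℝ, L = Real.log X := ⟨_, rfl⟩
  obtain ⟨t, ht⟩ : ∃ t : ℝ, t = (X : ℝ) ^ (δ / 8) := ⟨_, rfl⟩
  rw [← hLdef] at hL hXL ⊢
  rw [← ht] at hXL
  have hL7 : 32 ≤ L := by linarith
  have hL0 : 0 < L := by linarith
  have ht1 : 1 ≤ t := by rw [ht]; exact Real.one_le_rpow (by linarith) (by positivity)
  -- the parameter `J`
  obtain ⟨m, hm⟩ : ∃ m : ℕ, m = ⌊L / D⌋₊ := ⟨_, rfl⟩
  have hmle : (m : ℝ) ≤ L / D := by rw [hm]; exact Nat.floor_le (by positivity)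
  have hmge : L / D - 1 < m := by
    have := Nat.lt_floor_add_one (L / D)
    rw [← hm] at this
    linarith
  have hLD : 4 ≤ L / D := by rw [le_div_iff₀ (by linarith)]; linarith
  have hm2 : 2 ≤ m := by
    have : (2 : ℝ) < m := by linarith
    exact_mod_cast this.le
  obtain ⟨J, hJ⟩ : ∃ J : ℕ, J = Nat.log 2 m := ⟨_, rfl⟩
  have hJ1 : 1 ≤ J := by
    rw [hJ]
    exact (Nat.le_log_iff_pow_le (by norm_num) (by omega)).2 (by omega)
  have hJm : 2 ^ J ≤ m := by rw [hJ]; exact Nat.pow_log_le_self 2 (by omega)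
  have hJm2 : m < 2 ^ (J + 1) := by rw [hJ]; exact Nat.lt_pow_succ_log_self (by norm_num) m
  have hJmr : (2 : ℝ) ^ J ≤ m := by exact_mod_cast hJm
  have h2J : L / (4 * D) ≤ (2 : ℝ) ^ J := by
    have h1 : (m : ℝ) < 2 ^ (J + 1) := by exact_mod_cast hJm2
    have h2 : L / (4 * D) = (L / D) / 4 := by field_simp
    rw [h2]
    rw [pow_succ] at h1
    linarith
  have hJL : (J : ℝ) + 2 ≤ L := by
    have h1 : J < 2 ^ J := Nat.lt_two_pow_self
    have h2 : (J : ℝ) < 2 ^ J := by exact_mod_cast h1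
    have h3 : L / D ≤ L / 8 := by gcongr
    linarith
  -- `Z ≤ t`
  obtain ⟨Z, hZ⟩ : ∃ Z : ℕ, Z = (2 ^ 2 ^ J) ^ (C0 * b0) := ⟨_, rfl⟩
  have hZ1 : 1 ≤ Z := by rw [hZ]; exact Nat.one_le_pow _ _ (by positivity)
  have hZr : (1 : ℝ) ≤ Z := by exact_mod_cast hZ1
  have hZt : (Z : ℝ) ≤ t := by
    have h1 : Real.log Z ≤ Real.log t := by
      have e1 : Real.log Z = (C0 * b0) * (2 ^ J * Real.log 2) := by
        rw [hZ]; push_cast; rw [Real.log_pow, Real.log_pow]; push_cast; ring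
      have e2 : Real.log t = δ * L / 8 := by
        rw [ht, Real.log_rpow hX0, ← hLdef]; ring
      rw [e1, e2]
      have h2 : Real.log 2 ≤ 1 := by have := Real.log_two_lt_d9; linarith
      have h3 : (2 : ℝ) ^ J * Real.log 2 ≤ L / D := by
        calc (2 : ℝ) ^ J * Real.log 2 ≤ (2 : ℝ) ^ J * 1 := mul_le_mul_of_nonneg_left h2 (by positivity)
          _ ≤ L / D := by linarith
      calc ((C0 : ℝ) * b0) * (2 ^ J * Real.log 2) ≤ ((C0 : ℝ) * b0) * (L / D) :=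
            mul_le_mul_of_nonneg_left h3 (by positivity)
        _ = δ * L / 8 := by rw [hD]; field_simp
    exact (Real.log_le_log_iff (by linarith) (by linarith)).1 h1
  have hz : 2 ^ 2 ^ J ≤ Z := by
    rw [hZ]
    exact Nat.le_self_pow (by positivity) _
  have hzr : (((2 ^ 2 ^ J : ℕ)) : ℝ) ≤ t := by
    have : (((2 ^ 2 ^ J : ℕ)) : ℝ) ≤ Z := by exact_mod_cast hz
    linarith
  intro a b ha haX hab
  have har : (1 : ℝ) ≤ a := by exact_mod_cast ha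
  have hPZ : ∀ p ∈ PZ b0 J, p.Prime ∧ b0 < p ∧ p ≤ 2 ^ 2 ^ J := by
    intro p hp
    unfold PZ at hp
    rw [mem_filter, mem_Icc] at hp
    exact ⟨hp.2.1, hp.2.2, hp.1.2⟩
  have h1 := TT_le_sieve X a b (2 ^ 2 ^ J) (PZ b0 J) ha hab (fun p hp => ⟨(hPZ p hp).1, (hPZ p hp).2.2⟩)
  have h2 := hsieve b0 J b0 (PZ b0 J) (by omega) (by omega) hPZ a b (X / a + 1) ha
  rw [← hZ] at h2
  have h3 : ∏ p ∈ PZ b0 J, (1 - ((Omt a b p).card : ℝ) * (1 / (p : ℝ))) ≤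
      (4 * D * Real.exp (C1 + b0) / L) * h4 a := by
    refine (prod_Omt a b b0 J ha (by omega)).trans ?_
    apply mul_le_mul_of_nonneg_right _ (by linarith [h4_ge a])
    refine (hV b0 J hJ1).trans ?_
    have hpos : (0 : ℝ) < L / (4 * D) := by positivity
    calc Real.exp (C1 + b0) / 2 ^ J ≤ Real.exp (C1 + b0) / (L / (4 * D)) := by gcongr
      _ = _ := by field_simp
  -- `X / a ≥ t ^ 8`
  have hXa : t ^ 8 ≤ X / a := by
    rw [le_div_iff₀ (by linarith)]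
    have e1 : t ^ 8 = (X : ℝ) ^ δ := by
      rw [ht, ← Real.rpow_natCast, ← Real.rpow_mul hX0.le]
      congr 1
      push_cast; ring
    have e2 : (X : ℝ) = (X : ℝ) ^ δ * (X : ℝ) ^ (1 - δ) := by
      rw [← Real.rpow_add hX0]
      have : δ + (1 - δ) = 1 := by ring
      rw [this, Real.rpow_one]
    calc t ^ 8 * a ≤ (X : ℝ) ^ δ * (X : ℝ) ^ (1 - δ) := by
          rw [e1]; exact mul_le_mul_of_nonneg_left haX (by positivity)
      _ = X := e2.symm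
  have hXa1 : 1 ≤ (X : ℝ) / a := le_trans (one_le_pow₀ ht1) hXa
  have hM : (((X / a + 1 : ℕ)) : ℝ) ≤ 2 * (X / a) := by
    push_cast
    have : ((X / a : ℕ) : ℝ) ≤ (X : ℝ) / a := Nat.cast_div_le
    linarith
  have h4' := h4_ge a
  have h5 : (TT X a b : ℝ) ≤ (2 ^ 2 ^ J : ℕ) + 1 +
      (2 * ((((X / a + 1 : ℕ)) : ℝ) * ∏ p ∈ PZ b0 J, (1 - ((Omt a b p).card : ℝ) * (1 / (p : ℝ)))) +
      ((J : ℝ) + 2) * (Z : ℝ) ^ 2) := by
    have h6 : (TT X a b : ℝ) ≤ ((2 ^ 2 ^ J : ℕ) + 1 : ℝ) +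
      ((((range (X / a + 1)).filter (fun t => ∀ p ∈ PZ b0 J, t % p ∉ Omt a b p)).card : ℕ) : ℝ) := by
      exact_mod_cast h1
    linarith
  have h7 : 2 * ((((X / a + 1 : ℕ)) : ℝ) * ∏ p ∈ PZ b0 J, (1 - ((Omt a b p).card : ℝ) * (1 / (p : ℝ)))) ≤
      16 * Real.exp (C1 + b0) * D * h4 a * (X / (a * L)) := by
    calc 2 * ((((X / a + 1 : ℕ)) : ℝ) * ∏ p ∈ PZ b0 J, (1 - ((Omt a b p).card : ℝ) * (1 / (p : ℝ)))) ≤
          2 * ((2 * (X / a)) * ((4 * D * Real.exp (C1 + b0) / L) * h4 a)) := by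
            apply mul_le_mul_of_nonneg_left _ (by norm_num)
            apply mul_le_mul hM h3 _ (by positivity)
            apply prod_nonneg
            intro p hp
            have h3 : ((Omt a b p).card : ℝ) ≤ 2 := by exact_mod_cast Omt_card_le a b p (hPZ p hp).1
            have h4 : (2 : ℝ) ≤ p := by exact_mod_cast (hPZ p hp).1.two_le
            have h5 : ((Omt a b p).card : ℝ) * (1 / (p : ℝ)) ≤ 1 := by
              rw [mul_one_div, div_le_one (by linarith)]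
              linarith
            linarith
      _ = _ := by field_simp; ring
  have h8 : ((2 ^ 2 ^ J : ℕ) : ℝ) + 1 + ((J : ℝ) + 2) * (Z : ℝ) ^ 2 ≤ h4 a * (X / (a * L)) := by
    have h9 : ((2 ^ 2 ^ J : ℕ) : ℝ) + 1 + ((J : ℝ) + 2) * (Z : ℝ) ^ 2 ≤ t + t + L * t ^ 2 := by
      gcongr
    have h10 : t + t + L * t ^ 2 ≤ 3 * L * t ^ 2 := by nlinarith
    have h11 : 3 * L * t ^ 2 ≤ t ^ 3 / L := by
      rw [le_div_iff₀ hL0]
      calc 3 * L * t ^ 2 * L = (3 * L ^ 2) * t ^ 2 := by ring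
        _ ≤ t * t ^ 2 := mul_le_mul_of_nonneg_right hXL (by positivity)
        _ = t ^ 3 := by ring
    have h12 : t ^ 3 / L ≤ (X / a) / L := by
      apply div_le_div_of_nonneg_right _ hL0.le
      exact (pow_le_pow_right₀ ht1 (by norm_num)).trans hXa
    have h13 : (X : ℝ) / a / L = X / (a * L) := by rw [div_div]
    have h14 : (X : ℝ) / (a * L) ≤ h4 a * (X / (a * L)) := le_mul_of_one_le_left (by positivity) h4'
    linarith
  have h15 : (16 * Real.exp (C1 + b0) * D + 1) * h4 a * (X / (a * L)) =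
      16 * Real.exp (C1 + b0) * D * h4 a * (X / (a * L)) + h4 a * (X / (a * L)) := by ring
  rw [h15]
  linarith

end Pool.Agent.K4H50.HL
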