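import Pool.Agent.K4H50.HL.B12
import Pool.Agent.K4H50.HL.B6
import Pool.Agent.K4H50.HL.B4

/-!
# The sum over the pairs
-/

set_option autoImplicit false

namespace Pool.Agent.K4H50.HL

open Finset Filter Topology

/-- the pairs `(a, b)` with `0 ≤ b < a ≤ A` and `a ∣ b ^ 2 + 1` -/
def PPr (A : ℕ) : Finset (ℕ × ℕ) := ((Icc 1 A) ×ˢ (range A)).filter (fun x => x.2 < x.1 ∧ x.1 ∣ x.2 ^ 2 + 1)

theorem pair_sum (A : ℕ) (F : ℕ → ℕ → ℝ) : ∑ x ∈ PPr A, F x.1 x.2 =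
    ∑ a ∈ Icc 1 A, ∑ b ∈ (range a).filter (fun b => a ∣ b ^ 2 + 1), F a b := by
  unfold PPr
  rw [sum_filter, sum_product]
  apply sum_congr rfl
  intro a ha
  rw [mem_Icc] at ha
  rw [← sum_filter]
  apply sum_congr _ (fun _ _ => rfl)
  ext b
  rw [mem_filter, mem_filter, mem_range, mem_range]
  constructor
  · rintro ⟨_, h2, h3⟩
    exact ⟨h2, h3⟩
  · rintro ⟨h2, h3⟩
    exact ⟨by omega, h2, h3⟩

theorem pair_sum_one (A : ℕ) (F : ℕ → ℝ) : ∑ x ∈ PPr A, F x.1 = ∑ a ∈ Icc 1 A, (rh a : ℝ) * F a := by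
  rw [pair_sum A (fun a _ => F a)]
  apply sum_congr rfl
  intro a _
  rw [sum_const, nsmul_eq_mul]
  rfl

theorem mem_PPr {A : ℕ} {x : ℕ × ℕ} : x ∈ PPr A ↔ (1 ≤ x.1 ∧ x.1 ≤ A) ∧ x.2 < x.1 ∧ x.1 ∣ x.2 ^ 2 + 1 := by
  unfold PPr
  rw [mem_filter, mem_product, mem_Icc, mem_range]
  constructor
  · rintro ⟨⟨h1, _⟩, h3, h4⟩
    exact ⟨h1, h3, h4⟩
  · rintro ⟨h1, h3, h4⟩
    exact ⟨⟨h1, by omega⟩, h3, h4⟩

/-- the large primes are values of the polynomials of the family -/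
theorem SP_le_pairs (X Z A : ℕ) (hA : ∀ a p n : ℕ, Z < p → n ≤ X → a * p = n ^ 2 + 1 → a ≤ A) :
    ∑ p ∈ (Ioc Z (X ^ 2 + 1)).filter Nat.Prime, Real.log p * (NN p X : ℝ) ≤
      ∑ x ∈ PPr A, (TT X x.1 x.2 : ℝ) * Real.log (((X : ℝ) ^ 2 + 1) / x.1) := by
  have h1 : ∑ p ∈ (Ioc Z (X ^ 2 + 1)).filter Nat.Prime, Real.log p * (NN p X : ℝ) =
      ∑ y ∈ ((Ioc Z (X ^ 2 + 1)).filter Nat.Prime).sigma (fun p => (Icc 1 X).filter (fun n => p ∣ n ^ 2 + 1)),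
        Real.log (y.1 : ℝ) := by
    rw [sum_sigma]
    apply sum_congr rfl
    intro p _
    dsimp only
    rw [sum_const, nsmul_eq_mul, mul_comm]
    rfl
  have h2 : ∑ x ∈ PPr A, (TT X x.1 x.2 : ℝ) * Real.log (((X : ℝ) ^ 2 + 1) / x.1) =
      ∑ y ∈ (PPr A).sigma (fun x => (Icc 1 X).filter (fun n => n % x.1 = x.2 ∧ ((n ^ 2 + 1) / x.1).Prime)),
        Real.log (((X : ℝ) ^ 2 + 1) / y.1.1) := by
    rw [sum_sigma]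
    apply sum_congr rfl
    intro x _
    dsimp only
    rw [sum_const, nsmul_eq_mul]
    rfl
  rw [h1, h2]
  obtain ⟨f, hf⟩ : ∃ f : ((_ : ℕ) × ℕ) → ((_ : ℕ × ℕ) × ℕ),
      f = fun y => ⟨((y.2 ^ 2 + 1) / y.1, y.2 % ((y.2 ^ 2 + 1) / y.1)), y.2⟩ := ⟨_, rfl⟩
  have hkey : ∀ y ∈ ((Ioc Z (X ^ 2 + 1)).filter Nat.Prime).sigma (fun p => (Icc 1 X).filter (fun n => p ∣ n ^ 2 + 1)),
      0 < (y.2 ^ 2 + 1) / y.1 ∧ (y.2 ^ 2 + 1) / y.1 * y.1 = y.2 ^ 2 + 1 ∧ y.1.Prime ∧ Z < y.1 ∧ 1 ≤ y.2 ∧ y.2 ≤ X := by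
    rintro ⟨p, n⟩ hy
    rw [mem_sigma, mem_filter, mem_filter, mem_Ioc, mem_Icc] at hy
    obtain ⟨⟨⟨h3, h4⟩, h5⟩, ⟨h6, h7⟩, h8⟩ := hy
    exact ⟨Nat.div_pos (Nat.le_of_dvd (by positivity) h8) h5.pos, Nat.div_mul_cancel h8, h5, h3, h6, h7⟩
  have hmaps : ∀ y ∈ ((Ioc Z (X ^ 2 + 1)).filter Nat.Prime).sigma (fun p => (Icc 1 X).filter (fun n => p ∣ n ^ 2 + 1)),
      f y ∈ (PPr A).sigma (fun x => (Icc 1 X).filter (fun n => n % x.1 = x.2 ∧ ((n ^ 2 + 1) / x.1).Prime)) := by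
    rintro ⟨p, n⟩ hy
    obtain ⟨h3, h4, h5, h6, h7, h8⟩ := hkey _ hy
    simp only at h3 h4 h5 h6 h7 h8
    obtain ⟨a, ha⟩ : ∃ a, a = (n ^ 2 + 1) / p := ⟨_, rfl⟩
    rw [← ha] at h3 h4
    have e : f ⟨p, n⟩ = ⟨(a, n % a), n⟩ := by rw [hf, ha]
    have hd : a ∣ (n % a) ^ 2 + 1 :=
      ((((Nat.mod_modEq n a).pow 2).add_right 1).dvd_iff (dvd_refl a)).2 ⟨p, h4.symm⟩
    have hpr : ((n ^ 2 + 1) / a).Prime := by
      rw [← h4, Nat.mul_div_cancel_left _ h3]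
      exact h5
    rw [e, mem_sigma, mem_PPr, mem_filter, mem_Icc]
    exact ⟨⟨⟨h3, hA a p n h6 h8 h4⟩, Nat.mod_lt _ h3, hd⟩, ⟨h7, h8⟩, rfl, hpr⟩
  have hinj : Set.InjOn f (((Ioc Z (X ^ 2 + 1)).filter Nat.Prime).sigma
      (fun p => (Icc 1 X).filter (fun n => p ∣ n ^ 2 + 1)) : Finset ((_ : ℕ) × ℕ)) := by
    rintro ⟨p, n⟩ hy ⟨q, m⟩ hz hyz
    obtain ⟨h3, h4, -⟩ := hkey _ hy
    obtain ⟨h5, h6, -⟩ := hkey _ hz
    simp only at h3 h4 h5 h6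
    rw [hf] at hyz
    simp only [Sigma.mk.injEq, Prod.mk.injEq, heq_eq_eq] at hyz
    obtain ⟨⟨h7, _⟩, h8⟩ := hyz
    subst h8
    have h6' : (n ^ 2 + 1) / p * q = n ^ 2 + 1 := by
      rw [h7]; exact h6
    have h9 : p = q := Nat.eq_of_mul_eq_mul_left h3 (h4.trans h6'.symm)
    rw [h9]
  have hle : ∀ y ∈ ((Ioc Z (X ^ 2 + 1)).filter Nat.Prime).sigma (fun p => (Icc 1 X).filter (fun n => p ∣ n ^ 2 + 1)),
      Real.log (y.1 : ℝ) ≤ Real.log (((X : ℝ) ^ 2 + 1) / (f y).1.1) := by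
    rintro ⟨p, n⟩ hy
    obtain ⟨h3, h4, h5, h6, h7, h8⟩ := hkey _ hy
    simp only at h3 h4 h5 h6 h7 h8
    obtain ⟨a, ha⟩ : ∃ a, a = (n ^ 2 + 1) / p := ⟨_, rfl⟩
    rw [← ha] at h3 h4
    rw [hf]
    simp only
    rw [← ha]
    have ha0 : (0 : ℝ) < a := by exact_mod_cast h3
    have hp0 : (0 : ℝ) < p := by exact_mod_cast h5.pos
    apply Real.log_le_log hp0
    rw [le_div_iff₀ ha0]
    have h9 : (a : ℝ) * p = (n : ℝ) ^ 2 + 1 := by exact_mod_cast h4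
    have h10 : (n : ℝ) ≤ X := by exact_mod_cast h8
    have h11 : (0 : ℝ) ≤ n := Nat.cast_nonneg n
    nlinarith
  refine (sum_le_sum hle).trans ?_
  rw [← sum_image (f := fun z : ((_ : ℕ × ℕ) × ℕ) => Real.log (((X : ℝ) ^ 2 + 1) / z.1.1)) hinj]
  apply sum_le_sum_of_subset_of_nonneg
  · intro z hz
    rw [mem_image] at hz
    obtain ⟨y, hy, rfl⟩ := hz
    exact hmaps y hy
  · rintro ⟨x, n⟩ hz _
    rw [mem_sigma, mem_PPr, mem_filter, mem_Icc] at hz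
    obtain ⟨⟨⟨h3, _⟩, _, h6⟩, ⟨h7, h8⟩, h9, h10⟩ := hz
    simp only at h3 h6 h7 h8 h9 h10 ⊢
    -- `x.1 ≤ n ^ 2 + 1`
    have h11 : x.1 ≤ n ^ 2 + 1 := by
      by_contra hlt
      push Not at hlt
      rw [Nat.div_eq_of_lt hlt] at h10
      exact absurd h10 (by norm_num)
    apply Real.log_nonneg
    have hx0 : (0 : ℝ) < x.1 := by exact_mod_cast h3
    rw [le_div_iff₀ hx0, one_mul]
    have h12 : (x.1 : ℝ) ≤ (n : ℝ) ^ 2 + 1 := by exact_mod_cast h11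
    have h13 : (n : ℝ) ≤ X := by exact_mod_cast h8
    have h14 : (0 : ℝ) ≤ n := Nat.cast_nonneg n
    nlinarith

end Pool.Agent.K4H50.HL
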