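import Pool.Agent.K4H50.HL.B13

/-!
# The lower bound for a positive proportion of the family
-/

set_option autoImplicit false

namespace Pool.Agent.K4H50.HL

open Finset Filter Topology

/-- the predicted number -/
noncomputable def pred (X a : ℕ) : ℝ := CC * hh a * (((X : ℝ) / a) / Real.log ((X : ℝ) ^ 2 / a))

open Classical in
/-- the good pairs -/
noncomputable def Good (ε δ : ℝ) (X : ℕ) : Finset (ℕ × ℕ) := (PPr X).filter (fun x =>
  (X : ℝ) ^ δ ≤ x.1 ∧ (x.1 : ℝ) ≤ (X : ℝ) ^ (1 - δ) ∧ (1 - ε) * pred X x.1 ≤ TT X x.1 x.2)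

theorem cauchy_pairs (G : Finset (ℕ × ℕ)) (hG : ∀ x ∈ G, 1 ≤ x.1) (h : ℕ → ℝ) :
    (∑ x ∈ G, h x.1 / x.1) ^ 2 ≤ (∑ x ∈ G, h x.1 ^ 2 / x.1) * ∑ x ∈ G, 1 / (x.1 : ℝ) := by
  have h1 := Finset.sum_mul_sq_le_sq_mul_sq G (fun x => h x.1 / Real.sqrt x.1) (fun x => 1 / Real.sqrt x.1)
  have e1 : ∑ x ∈ G, h x.1 / Real.sqrt x.1 * (1 / Real.sqrt x.1) = ∑ x ∈ G, h x.1 / x.1 := by
    apply sum_congr rfl
    intro x hx
    have hx0 : (0 : ℝ) < x.1 := by exact_mod_cast hG x hx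
    rw [div_mul_div_comm, mul_one, Real.mul_self_sqrt hx0.le]
  have e2 : ∑ x ∈ G, (h x.1 / Real.sqrt x.1) ^ 2 = ∑ x ∈ G, h x.1 ^ 2 / x.1 := by
    apply sum_congr rfl
    intro x hx
    have hx0 : (0 : ℝ) < x.1 := by exact_mod_cast hG x hx
    rw [div_pow, Real.sq_sqrt hx0.le]
  have e3 : ∑ x ∈ G, (1 / Real.sqrt x.1) ^ 2 = ∑ x ∈ G, 1 / (x.1 : ℝ) := by
    apply sum_congr rfl
    intro x hx
    have hx0 : (0 : ℝ) < x.1 := by exact_mod_cast hG x hx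
    rw [div_pow, Real.sq_sqrt hx0.le, one_pow]
  rwa [e1, e2, e3] at h1

theorem main_lower (ε : ℝ) (hε : 0 < ε) (hε1 : ε < 1) : ∃ δ κ : ℝ, 0 < δ ∧ δ ≤ 1 / 400 ∧ 0 < κ ∧
    ∀ᶠ X : ℕ in atTop, κ * Real.log X ≤ ∑ x ∈ Good ε δ X, 1 / (x.1 : ℝ) := by
  classical
  obtain ⟨B, hB, hSP⟩ := SP_large
  obtain ⟨C1, hC1, hT1⟩ := TT_upper (1 / 2) (by norm_num) (by norm_num)
  obtain ⟨C2, hC2, hS2⟩ := sum_rh_h4
  obtain ⟨δ, hδdef⟩ : ∃ δ : ℝ, δ = min (1 / 400) (ε / (8 * B + 12 * (C1 * C2))) := ⟨_, rfl⟩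
  have hδ0 : 0 < δ := by rw [hδdef]; positivity
  have hδ4 : δ ≤ 1 / 400 := by rw [hδdef]; exact min_le_left _ _
  have hδε : (2 * B + 3 * (C1 * C2)) * δ ≤ ε / 4 := by
    have h1 : δ ≤ ε / (8 * B + 12 * (C1 * C2)) := by rw [hδdef]; exact min_le_right _ _
    rw [le_div_iff₀ (by positivity)] at h1
    linarith
  obtain ⟨Cd, hCd, hTd⟩ := TT_upper δ hδ0 (by linarith)
  obtain ⟨η, hη⟩ : ∃ η : ℝ, η = ε / 12 := ⟨_, rfl⟩
  have hη0 : 0 < η := by rw [hη]; positivity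
  have hη1 : η ≤ 1 := by rw [hη]; linarith
  refine ⟨δ, (ε / (6 * Cd)) ^ 2 / C2, hδ0, hδ4, by positivity, ?_⟩
  have hXr : Tendsto (fun X : ℕ => (X : ℝ)) atTop atTop := tendsto_natCast_atTop_atTop
  have hA1 : Tendsto (fun X : ℕ => ⌊(X : ℝ) ^ (1 - δ)⌋₊) atTop atTop :=
    tendsto_nat_floor_atTop.comp ((tendsto_rpow_atTop (by linarith)).comp hXr)
  have hpow : ∀ᶠ X : ℕ in atTop, 3 ≤ (X : ℝ) ^ δ :=
    ((tendsto_rpow_atTop hδ0).comp hXr).eventually_ge_atTop 3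
  have hlogt : Tendsto (fun A : ℕ => Real.log (A : ℝ)) atTop atTop :=
    Real.tendsto_log_atTop.comp tendsto_natCast_atTop_atTop
  filter_upwards [hSP (2 * δ) (by positivity) (by linarith), hT1, hTd, hA1.eventually (sum_rh_hh η hη0), hpow,
    hlogt.eventually_ge_atTop (1 / η), eventually_ge_atTop 3] with X gSP gT1 gTd ghh gpow glog gX3
  have hX3 : (3 : ℝ) ≤ X := by exact_mod_cast gX3
  have hX0 : (0 : ℝ) < X := by linarith
  have hX1 : (1 : ℝ) ≤ X := by linarith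
  obtain ⟨L, hL⟩ : ∃ L, L = Real.log (X : ℝ) := ⟨_, rfl⟩
  rw [← hL] at glog gSP
  have hL1 : 1 ≤ L := by
    have : 1 ≤ 1 / η := by rw [le_div_iff₀ hη0]; linarith
    linarith
  have hηL : 1 ≤ η * L := by
    rw [div_le_iff₀ hη0] at glog
    linarith
  obtain ⟨A, hA⟩ : ∃ A, A = ⌊(X : ℝ) ^ (1 - δ)⌋₊ := ⟨_, rfl⟩
  rw [← hA] at ghh
  have hAle : (A : ℝ) ≤ (X : ℝ) ^ (1 - δ) := by rw [hA]; exact Nat.floor_le (by positivity)
  have hXpow : (X : ℝ) ^ (1 - δ) ≤ X := by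
    calc (X : ℝ) ^ (1 - δ) ≤ (X : ℝ) ^ (1 : ℝ) := Real.rpow_le_rpow_of_exponent_le hX1 (by linarith)
      _ = X := Real.rpow_one _
  have hAX : A ≤ X := by exact_mod_cast hAle.trans hXpow
  obtain ⟨Z, hZ⟩ : ∃ Z, Z = ⌊(X : ℝ) ^ (1 + 2 * δ)⌋₊ := ⟨_, rfl⟩
  have hZle : (Z : ℝ) ≤ (X : ℝ) ^ (1 + 2 * δ) := by rw [hZ]; exact Nat.floor_le (by positivity)
  have hZge : (X : ℝ) ^ (1 + 2 * δ) < Z + 1 := by rw [hZ]; exact Nat.lt_floor_add_one _
  have hXZ : X ≤ Z := by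
    rw [hZ]
    apply Nat.le_floor
    calc (X : ℝ) = (X : ℝ) ^ (1 : ℝ) := (Real.rpow_one _).symm
      _ ≤ _ := Real.rpow_le_rpow_of_exponent_le hX1 (by linarith)
  have h1 := gSP Z hXZ hZle
  have hcond : ∀ a p n : ℕ, Z < p → n ≤ X → a * p = n ^ 2 + 1 → a ≤ A := by
    intro a p n hp hn hap
    rw [hA]
    apply Nat.le_floor
    have hp1 : (Z : ℝ) + 1 ≤ p := by exact_mod_cast hp
    have hn1 : (n : ℝ) ≤ X := by exact_mod_cast hn
    have hn0 : (0 : ℝ) ≤ n := Nat.cast_nonneg n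
    have hap' : (a : ℝ) * p = (n : ℝ) ^ 2 + 1 := by exact_mod_cast hap
    have ha0 : (0 : ℝ) ≤ a := Nat.cast_nonneg a
    have h3 : (a : ℝ) * (X : ℝ) ^ (1 + 2 * δ) ≤ 2 * (X : ℝ) ^ 2 := by nlinarith
    have e1 : (X : ℝ) ^ 2 = (X : ℝ) ^ (1 - 2 * δ) * (X : ℝ) ^ (1 + 2 * δ) := by
      rw [← Real.rpow_add hX0, ← Real.rpow_natCast]
      congr 1
      push_cast; ring
    have hpos : 0 < (X : ℝ) ^ (1 + 2 * δ) := by positivity
    have h4 : (a : ℝ) ≤ 2 * (X : ℝ) ^ (1 - 2 * δ) := by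
      rw [e1, ← mul_assoc] at h3
      exact le_of_mul_le_mul_right h3 hpos
    have e2 : (X : ℝ) ^ (1 - δ) = (X : ℝ) ^ δ * (X : ℝ) ^ (1 - 2 * δ) := by
      rw [← Real.rpow_add hX0]
      congr 1
      ring
    rw [e2]
    have hpos2 : 0 < (X : ℝ) ^ (1 - 2 * δ) := by positivity
    nlinarith
  have h2 := h1.trans (SP_le_pairs X Z A hcond)
  -- logarithms
  have hlog1 : ∀ a : ℕ, 1 ≤ a → a ≤ X → Real.log (((X : ℝ) ^ 2 + 1) / a) ≤ 3 * L ∧
      Real.log (((X : ℝ) ^ 2 + 1) / a) ≤ (1 + η) * Real.log ((X : ℝ) ^ 2 / a) ∧ L ≤ Real.log ((X : ℝ) ^ 2 / a) := by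
    intro a ha haX
    have ha1 : (1 : ℝ) ≤ a := by exact_mod_cast ha
    have haX' : (a : ℝ) ≤ X := by exact_mod_cast haX
    have hb : L ≤ Real.log ((X : ℝ) ^ 2 / a) := by
      rw [hL]
      apply Real.log_le_log hX0
      rw [le_div_iff₀ (by linarith)]
      nlinarith
    refine ⟨?_, ?_, hb⟩
    · have h3 : Real.log (((X : ℝ) ^ 2 + 1) / a) ≤ Real.log ((X : ℝ) ^ 3) := by
        apply Real.log_le_log (by positivity)
        rw [div_le_iff₀ (by linarith)]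
        have h4 : (X : ℝ) ^ 2 + 1 ≤ X ^ 3 := by nlinarith [sq_nonneg (X : ℝ)]
        nlinarith [pow_pos hX0 3]
      rw [Real.log_pow, ← hL] at h3
      push_cast at h3
      exact h3
    · have e3 : ((X : ℝ) ^ 2 + 1) / a = ((X : ℝ) ^ 2 / a) * (1 + 1 / X ^ 2) := by
        field_simp
      rw [e3, Real.log_mul (by positivity) (by positivity)]
      have h4 : Real.log (1 + 1 / (X : ℝ) ^ 2) ≤ 1 / (X : ℝ) ^ 2 := by
        have := Real.log_le_sub_one_of_pos (show (0 : ℝ) < 1 + 1 / (X : ℝ) ^ 2 by positivity)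
        linarith
      have h5 : 1 / (X : ℝ) ^ 2 ≤ 1 := by
        rw [div_le_one (by positivity)]; nlinarith
      nlinarith
  -- the term of a pair
  obtain ⟨F, hF⟩ : ∃ F : ℕ × ℕ → ℝ, F = fun x => (TT X x.1 x.2 : ℝ) * Real.log (((X : ℝ) ^ 2 + 1) / x.1) := ⟨_, rfl⟩
  have hF2 : ∑ x ∈ PPr A, (TT X x.1 x.2 : ℝ) * Real.log (((X : ℝ) ^ 2 + 1) / x.1) = ∑ x ∈ PPr A, F x := by rw [hF]
  rw [hF2] at h2
  have hsplit : ∑ x ∈ PPr A, F x = ∑ x ∈ (PPr A).filter (fun x => (x.1 : ℝ) < (X : ℝ) ^ δ), F x +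
      (∑ x ∈ ((PPr A).filter (fun x => ¬ (x.1 : ℝ) < (X : ℝ) ^ δ)).filter (fun x => (1 - ε) * pred X x.1 ≤ TT X x.1 x.2), F x +
      ∑ x ∈ ((PPr A).filter (fun x => ¬ (x.1 : ℝ) < (X : ℝ) ^ δ)).filter (fun x => ¬ (1 - ε) * pred X x.1 ≤ TT X x.1 x.2), F x) := by
    rw [sum_filter_add_sum_filter_not, sum_filter_add_sum_filter_not]
  -- small a
  obtain ⟨A1, hA1'⟩ : ∃ A1, A1 = ⌊(X : ℝ) ^ δ⌋₊ := ⟨_, rfl⟩
  have hA1le : (A1 : ℝ) ≤ (X : ℝ) ^ δ := by rw [hA1']; exact Nat.floor_le (by positivity)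
  have hA13 : 3 ≤ A1 := by
    rw [hA1']
    apply Nat.le_floor
    push_cast
    exact gpow
  have hlA1 : Real.log A1 ≤ δ * L := by
    have : Real.log A1 ≤ Real.log ((X : ℝ) ^ δ) :=
      Real.log_le_log (by exact_mod_cast (by omega : 0 < A1)) hA1le
    rwa [Real.log_rpow hX0, ← hL] at this
  have hsmall : ∑ x ∈ (PPr A).filter (fun x => (x.1 : ℝ) < (X : ℝ) ^ δ), F x ≤ 3 * (C1 * C2) * δ * (X * L) := by
    have h3 : ∑ x ∈ (PPr A).filter (fun x => (x.1 : ℝ) < (X : ℝ) ^ δ), F x ≤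
        ∑ x ∈ PPr A1, (3 * C1 * X) * (h4 x.1 ^ 2 / x.1) := by
      have h4' : ∀ x ∈ (PPr A).filter (fun x => (x.1 : ℝ) < (X : ℝ) ^ δ), F x ≤ (3 * C1 * X) * (h4 x.1 ^ 2 / x.1) := by
        intro x hx
        rw [mem_filter, mem_PPr] at hx
        obtain ⟨⟨⟨h5, h6⟩, h7, h8⟩, h9⟩ := hx
        have hx0 : (0 : ℝ) < x.1 := by exact_mod_cast h5
        have h10 : (x.1 : ℝ) ≤ (X : ℝ) ^ (1 - (1 / 2 : ℝ)) :=
          h9.le.trans (Real.rpow_le_rpow_of_exponent_le hX1 (by linarith))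
        have h11 := gT1 x.1 x.2 h5 h10 h8
        rw [← hL] at h11
        have h12 := (hlog1 x.1 h5 (h6.trans hAX)).1
        rw [hF]
        simp only
        have hh4 := h4_ge x.1
        calc (TT X x.1 x.2 : ℝ) * Real.log (((X : ℝ) ^ 2 + 1) / x.1) ≤ (TT X x.1 x.2 : ℝ) * (3 * L) :=
              mul_le_mul_of_nonneg_left h12 (Nat.cast_nonneg _)
          _ ≤ (C1 * h4 x.1 * (X / (x.1 * L))) * (3 * L) := mul_le_mul_of_nonneg_right h11 (by linarith)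
          _ = (3 * C1 * X) * (h4 x.1 / x.1) := by field_simp
          _ ≤ _ := by
              apply mul_le_mul_of_nonneg_left _ (by positivity)
              apply div_le_div_of_nonneg_right _ hx0.le
              nlinarith
      refine (sum_le_sum h4').trans ?_
      apply sum_le_sum_of_subset_of_nonneg
      · intro x hx
        rw [mem_filter, mem_PPr] at hx
        rw [mem_PPr]
        refine ⟨⟨hx.1.1.1, ?_⟩, hx.1.2⟩
        rw [hA1']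
        exact Nat.le_floor hx.2.le
      · intro x _ _
        positivity
    have h5 : ∑ x ∈ PPr A1, (3 * C1 * X) * (h4 x.1 ^ 2 / x.1) = (3 * C1 * X) *
        ∑ a ∈ Icc 1 A1, (rh a : ℝ) * h4 a ^ 2 / a := by
      rw [← mul_sum, pair_sum_one A1 (fun a => h4 a ^ 2 / a)]
      congr 1
      apply sum_congr rfl
      intro a _
      ring
    rw [h5] at h3
    refine h3.trans ?_
    calc (3 * C1 * X) * ∑ a ∈ Icc 1 A1, (rh a : ℝ) * h4 a ^ 2 / a ≤ (3 * C1 * X) * (C2 * Real.log A1) :=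
          mul_le_mul_of_nonneg_left (hS2 A1 hA13) (by positivity)
      _ ≤ (3 * C1 * X) * (C2 * (δ * L)) := by gcongr
      _ = _ := by ring
  -- bad pairs
  have hbad : ∑ x ∈ ((PPr A).filter (fun x => ¬ (x.1 : ℝ) < (X : ℝ) ^ δ)).filter
      (fun x => ¬ (1 - ε) * pred X x.1 ≤ TT X x.1 x.2), F x ≤ (1 - ε) * (1 + η) * ((1 + η) * (X * L)) := by
    have h3 : ∑ x ∈ ((PPr A).filter (fun x => ¬ (x.1 : ℝ) < (X : ℝ) ^ δ)).filter
      (fun x => ¬ (1 - ε) * pred X x.1 ≤ TT X x.1 x.2), F x ≤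
        ∑ x ∈ PPr A, ((1 - ε) * (1 + η) * X) * (CC * (hh x.1 / x.1)) := by
      have h4' : ∀ x ∈ ((PPr A).filter (fun x => ¬ (x.1 : ℝ) < (X : ℝ) ^ δ)).filter
          (fun x => ¬ (1 - ε) * pred X x.1 ≤ TT X x.1 x.2), F x ≤ ((1 - ε) * (1 + η) * X) * (CC * (hh x.1 / x.1)) := by
        intro x hx
        rw [mem_filter, mem_filter, mem_PPr] at hx
        obtain ⟨⟨⟨⟨h5, h6⟩, h7, h8⟩, h9⟩, h10⟩ := hx
        push Not at h10
        have hx0 : (0 : ℝ) < x.1 := by exact_mod_cast h5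
        obtain ⟨-, h12, h13⟩ := hlog1 x.1 h5 (h6.trans hAX)
        have hlp : 0 < Real.log ((X : ℝ) ^ 2 / x.1) := by linarith
        rw [hF]
        simp only
        have hhp : 0 ≤ hh x.1 := by have := hh_ge x.1; linarith
        have hCC := CC_pos
        calc (TT X x.1 x.2 : ℝ) * Real.log (((X : ℝ) ^ 2 + 1) / x.1) ≤
              (TT X x.1 x.2 : ℝ) * ((1 + η) * Real.log ((X : ℝ) ^ 2 / x.1)) :=
              mul_le_mul_of_nonneg_left h12 (Nat.cast_nonneg _)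
          _ ≤ ((1 - ε) * pred X x.1) * ((1 + η) * Real.log ((X : ℝ) ^ 2 / x.1)) :=
              mul_le_mul_of_nonneg_right h10.le (by positivity)
          _ = _ := by
              unfold pred
              field_simp
      refine (sum_le_sum h4').trans ?_
      apply sum_le_sum_of_subset_of_nonneg
      · intro x hx
        exact (mem_filter.1 (mem_filter.1 hx).1).1
      · intro x _ _
        have hhp : 0 ≤ hh x.1 := by have := hh_ge x.1; linarith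
        have hCC := CC_pos
        have : 0 ≤ 1 - ε := by linarith
        positivity
    refine h3.trans ?_
    rw [← mul_sum, ← mul_sum, pair_sum_one A (fun a => hh a / a)]
    have e4 : ∑ a ∈ Icc 1 A, (rh a : ℝ) * (hh a / a) = ∑ a ∈ Icc 1 A, (rh a : ℝ) * hh a / a :=
      sum_congr rfl (fun a _ => by ring)
    rw [e4]
    have hlA : Real.log (A : ℝ) ≤ L := by
      rw [hL]
      rcases Nat.eq_zero_or_pos A with h0 | h0
      · rw [h0, Nat.cast_zero, Real.log_zero, ← hL]; linarith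
      · exact Real.log_le_log (by exact_mod_cast h0) (by exact_mod_cast hAX)
    have h6 : CC * ∑ a ∈ Icc 1 A, (rh a : ℝ) * hh a / a ≤ (1 + η) * L :=
      ghh.trans (mul_le_mul_of_nonneg_left hlA (by linarith))
    have h7 : 0 ≤ (1 - ε) * (1 + η) * X := by
      have : 0 ≤ 1 - ε := by linarith
      positivity
    calc (1 - ε) * (1 + η) * X * (CC * ∑ a ∈ Icc 1 A, (rh a : ℝ) * hh a / a) ≤
          (1 - ε) * (1 + η) * X * ((1 + η) * L) := mul_le_mul_of_nonneg_left h6 h7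
      _ = _ := by ring
  -- good pairs
  have hsub : ((PPr A).filter (fun x => ¬ (x.1 : ℝ) < (X : ℝ) ^ δ)).filter (fun x => (1 - ε) * pred X x.1 ≤ TT X x.1 x.2) ⊆
      Good ε δ X := by
    intro x hx
    rw [mem_filter, mem_filter, mem_PPr] at hx
    unfold Good
    rw [mem_filter, mem_PPr]
    obtain ⟨⟨⟨⟨h5, h6⟩, h7, h8⟩, h9⟩, h10⟩ := hx
    push Not at h9
    refine ⟨⟨⟨h5, h6.trans hAX⟩, h7, h8⟩, h9, ?_, h10⟩
    have : (x.1 : ℝ) ≤ A := by exact_mod_cast h6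
    exact this.trans hAle
  have hgood : ∑ x ∈ ((PPr A).filter (fun x => ¬ (x.1 : ℝ) < (X : ℝ) ^ δ)).filter
      (fun x => (1 - ε) * pred X x.1 ≤ TT X x.1 x.2), F x ≤ (3 * Cd * X) * ∑ x ∈ Good ε δ X, h4 x.1 / x.1 := by
    rw [mul_sum]
    refine le_trans (sum_le_sum (g := fun x => (3 * Cd * X) * (h4 x.1 / x.1)) ?_)
      (sum_le_sum_of_subset_of_nonneg hsub ?_)
    · intro x hx
      have hxG := hsub hx
      unfold Good at hxG
      rw [mem_filter, mem_PPr] at hxG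
      obtain ⟨⟨⟨h5, h6⟩, h7, h8⟩, h9, h10, h11⟩ := hxG
      have hx0 : (0 : ℝ) < x.1 := by exact_mod_cast h5
      have h13 := gTd x.1 x.2 h5 h10 h8
      rw [← hL] at h13
      have h12 := (hlog1 x.1 h5 h6).1
      rw [hF]
      simp only
      calc (TT X x.1 x.2 : ℝ) * Real.log (((X : ℝ) ^ 2 + 1) / x.1) ≤ (TT X x.1 x.2 : ℝ) * (3 * L) :=
            mul_le_mul_of_nonneg_left h12 (Nat.cast_nonneg _)
        _ ≤ (Cd * h4 x.1 * (X / (x.1 * L))) * (3 * L) := mul_le_mul_of_nonneg_right h13 (by linarith)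
        _ = (3 * Cd * X) * (h4 x.1 / x.1) := by field_simp
    · intro x _ _
      have := h4_ge x.1
      positivity
  -- conclusion
  have hmain : ε / 2 * (X * L) ≤ (3 * Cd * X) * ∑ x ∈ Good ε δ X, h4 x.1 / x.1 := by
    have hXL : 0 ≤ (X : ℝ) * L := by positivity
    have a1 : (1 - ε) * (1 + η) * ((1 + η) * (X * L)) ≤ (1 - ε + ε / 4) * (X * L) := by
      have a2 : (1 + η) * (1 + η) ≤ 1 + 3 * η := by nlinarith
      have a3 : (1 - ε) * ((1 + η) * (1 + η)) ≤ (1 - ε) * (1 + 3 * η) :=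
        mul_le_mul_of_nonneg_left a2 (by linarith)
      have a4 : (1 - ε) * (1 + 3 * η) ≤ 1 - ε + ε / 4 := by
        rw [hη]; nlinarith
      calc (1 - ε) * (1 + η) * ((1 + η) * (X * L)) = ((1 - ε) * ((1 + η) * (1 + η))) * (X * L) := by ring
        _ ≤ _ := mul_le_mul_of_nonneg_right (a3.trans a4) hXL
    have a5 : (2 * B + 3 * (C1 * C2)) * δ * (X * L) ≤ ε / 4 * (X * L) := mul_le_mul_of_nonneg_right hδε hXL
    have a6 : (1 - B * (2 * δ)) * (X * L) ≤ ∑ x ∈ PPr A, F x := h2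
    rw [hsplit] at a6
    nlinarith
  have hlow : ε / (6 * Cd) * L ≤ ∑ x ∈ Good ε δ X, h4 x.1 / x.1 := by
    have b1 : (3 * Cd * X) * (ε / (6 * Cd) * L) ≤ (3 * Cd * X) * ∑ x ∈ Good ε δ X, h4 x.1 / x.1 := by
      refine le_trans (le_of_eq ?_) hmain
      field_simp
      ring
    exact le_of_mul_le_mul_left b1 (by positivity)
  have hG1 : ∀ x ∈ Good ε δ X, 1 ≤ x.1 := by
    intro x hx
    unfold Good at hx
    rw [mem_filter, mem_PPr] at hx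
    exact hx.1.1.1
  have hc := cauchy_pairs (Good ε δ X) hG1 h4
  have hsec : ∑ x ∈ Good ε δ X, h4 x.1 ^ 2 / x.1 ≤ C2 * L := by
    have b1 : ∑ x ∈ Good ε δ X, h4 x.1 ^ 2 / x.1 ≤ ∑ x ∈ PPr X, h4 x.1 ^ 2 / x.1 := by
      apply sum_le_sum_of_subset_of_nonneg
      · intro x hx
        unfold Good at hx
        exact (mem_filter.1 hx).1
      · intro x _ _; positivity
    rw [pair_sum_one X (fun a => h4 a ^ 2 / a)] at b1
    have e5 : ∑ a ∈ Icc 1 X, (rh a : ℝ) * (h4 a ^ 2 / a) = ∑ a ∈ Icc 1 X, (rh a : ℝ) * h4 a ^ 2 / a :=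
      sum_congr rfl (fun a _ => by ring)
    rw [e5] at b1
    have b2 := hS2 X gX3
    rw [← hL] at b2
    exact b1.trans b2
  have hsum0 : 0 ≤ ∑ x ∈ Good ε δ X, 1 / (x.1 : ℝ) := sum_nonneg fun x _ => by positivity
  have hfin : (ε / (6 * Cd) * L) ^ 2 ≤ (C2 * L) * ∑ x ∈ Good ε δ X, 1 / (x.1 : ℝ) := by
    have b3 : 0 ≤ ε / (6 * Cd) * L := by positivity
    calc (ε / (6 * Cd) * L) ^ 2 ≤ (∑ x ∈ Good ε δ X, h4 x.1 / x.1) ^ 2 := pow_le_pow_left₀ b3 hlow 2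
      _ ≤ _ := hc
      _ ≤ _ := mul_le_mul_of_nonneg_right hsec hsum0
  rw [← hL]
  have hL0 : 0 < L := by linarith
  have e6 : (ε / (6 * Cd)) ^ 2 / C2 * L = (ε / (6 * Cd) * L) ^ 2 / (C2 * L) := by
    field_simp
  rw [e6, div_le_iff₀ (by positivity)]
  linarith

end Pool.Agent.K4H50.HL
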