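import Pool.Agent.K4H50.HL.B14

/-!
# The exact sum over the pairs
-/

set_option autoImplicit false

namespace Pool.Agent.K4H50.HL

open Finset Filter Topology ArithmeticFunction

theorem rh_mul (m n : ℕ) (hm : 0 < m) (hn : 0 < n) (h : m.Coprime n) : rh (m * n) = rh m * rh n := by
  apply le_antisymm (rh_mul_le m n hm hn h)
  unfold rh
  rw [← card_product]
  apply card_le_card_of_injOn (fun x : ℕ × ℕ => ((Nat.chineseRemainder h x.1 x.2 : { k // k ≡ x.1 [MOD m] ∧ k ≡ x.2 [MOD n] }) : ℕ))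
  · rintro ⟨x, y⟩ hx
    rw [mem_coe, mem_product, mem_filter, mem_filter] at hx
    rw [mem_coe, mem_filter, mem_range]
    obtain ⟨⟨h1, h2⟩, h3, h4⟩ := hx
    refine ⟨Nat.chineseRemainder_lt_mul h x y hm.ne' hn.ne', ?_⟩
    have h5 := (Nat.chineseRemainder h x y).2
    apply h.mul_dvd_of_dvd_of_dvd
    · exact (((h5.1.pow 2).add_right 1).dvd_iff (dvd_refl m)).2 h2
    · exact (((h5.2.pow 2).add_right 1).dvd_iff (dvd_refl n)).2 h4
  · rintro ⟨x, y⟩ hx ⟨x', y'⟩ hx' heq
    rw [mem_coe, mem_product, mem_filter, mem_filter, mem_range, mem_range] at hx hx'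
    obtain ⟨⟨h1, h2⟩, h3, h4⟩ := hx
    obtain ⟨⟨h1', h2'⟩, h3', h4'⟩ := hx'
    have h5 := (Nat.chineseRemainder h x y).2
    have h6 := (Nat.chineseRemainder h x' y').2
    simp only at heq
    rw [← heq] at h6
    have h7 : x ≡ x' [MOD m] := h5.1.symm.trans h6.1
    have h8 : y ≡ y' [MOD n] := h5.2.symm.trans h6.2
    unfold Nat.ModEq at h7 h8
    simp only at h1 h3 h1' h3'
    rw [Nat.mod_eq_of_lt h1, Nat.mod_eq_of_lt h1'] at h7
    rw [Nat.mod_eq_of_lt h3, Nat.mod_eq_of_lt h3'] at h8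
    rw [h7, h8]

/-- Hensel -/
theorem root_pp {p : ℕ} (hp : p.Prime) (h : p % 4 = 1) (k : ℕ) : ∃ x : ℕ, p ^ (k + 1) ∣ x ^ 2 + 1 := by
  haveI : Fact p.Prime := ⟨hp⟩
  induction k with
  | zero =>
    have h1 : (rh p : ℝ) = 2 := by rw [rh_eq p hp, cc_mod_one h]; norm_num
    have h2 : rh p = 2 := by exact_mod_cast h1
    unfold rh at h2
    have h3 : ((range p).filter (fun x => p ∣ x ^ 2 + 1)).Nonempty := by
      rw [← card_pos]; omega
    obtain ⟨x, hx⟩ := h3
    rw [zero_add, pow_one]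
    exact ⟨x, (mem_filter.1 hx).2⟩
  | succ k ih =>
    obtain ⟨x, c, hc⟩ := ih
    have hpx : ¬ p ∣ x := by
      intro hd
      have h1 : p ∣ x ^ 2 + 1 := (dvd_pow_self p (by omega)).trans ⟨c, hc⟩
      have h2 : p ∣ 1 := (Nat.dvd_add_right (dvd_pow hd (by norm_num))).1 h1
      exact hp.one_lt.ne' (Nat.dvd_one.1 h2)
    have hx0 : (x : ZMod p) ≠ 0 := by rwa [Ne, ZMod.natCast_eq_zero_iff]
    have h20 : (2 : ZMod p) ≠ 0 := by
      have h3 : ¬ p ∣ 2 := by
        intro hd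
        have := Nat.le_of_dvd (by norm_num) hd
        have := hp.two_le
        omega
      have h4 : ((2 : ℕ) : ZMod p) ≠ 0 := by rwa [Ne, ZMod.natCast_eq_zero_iff]
      exact_mod_cast h4
    obtain ⟨t, ht⟩ : ∃ t : ℕ, t = (-(c : ZMod p) * (2 * (x : ZMod p))⁻¹).val := ⟨_, rfl⟩
    have ht2 : (t : ZMod p) = -(c : ZMod p) * (2 * (x : ZMod p))⁻¹ := by rw [ht, ZMod.natCast_zmod_val]
    have h5 : p ∣ c + 2 * x * t + p ^ (k + 1) * t ^ 2 := by
      rw [← ZMod.natCast_eq_zero_iff]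
      push_cast
      rw [ht2, ZMod.natCast_self]
      have h6 : (2 : ZMod p) * (x : ZMod p) ≠ 0 := mul_ne_zero h20 hx0
      have h7 : (2 : ZMod p) * (x : ZMod p) * (-(c : ZMod p) * (2 * (x : ZMod p))⁻¹) = -(c : ZMod p) := by
        field_simp
      rw [h7, zero_pow (by omega)]
      ring
    refine ⟨x + p ^ (k + 1) * t, ?_⟩
    have e : (x + p ^ (k + 1) * t) ^ 2 + 1 = p ^ (k + 1) * (c + 2 * x * t + p ^ (k + 1) * t ^ 2) := by
      have : (x + p ^ (k + 1) * t) ^ 2 + 1 = (x ^ 2 + 1) + p ^ (k + 1) * (2 * x * t + p ^ (k + 1) * t ^ 2) := by ring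
      rw [this, hc]; ring
    rw [e, pow_succ p (k + 1)]
    exact mul_dvd_mul_left _ h5

theorem rh_one {p : ℕ} (hp : p.Prime) (h : p % 4 = 1) (k : ℕ) (hk : 0 < k) : rh (p ^ k) = 2 := by
  apply le_antisymm (rh_pp _ (hp.isPrimePow.pow hk.ne'))
  obtain ⟨j, rfl⟩ : ∃ j, k = j + 1 := ⟨k - 1, by omega⟩
  obtain ⟨x, hx⟩ := root_pp hp h j
  obtain ⟨q, hq⟩ : ∃ q, q = p ^ (j + 1) := ⟨_, rfl⟩
  rw [← hq] at hx ⊢
  have hodd : q % 2 = 1 := by
    rw [hq]
    have h1 : Odd p := by rw [Nat.odd_iff]; omega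
    exact Nat.odd_iff.1 h1.pow
  have hq1 : 1 < q := by
    rw [hq]; exact Nat.one_lt_pow (by omega) hp.one_lt
  obtain ⟨y, hy⟩ : ∃ y, y = x % q := ⟨_, rfl⟩
  have hyq : y < q := by rw [hy]; exact Nat.mod_lt _ (by omega)
  have hyd : q ∣ y ^ 2 + 1 := by
    rw [hy]
    exact ((((Nat.mod_modEq x q).pow 2).add_right 1).dvd_iff (dvd_refl q)).2 hx
  have hy0 : 0 < y := by
    rcases Nat.eq_zero_or_pos y with h0 | h0
    · rw [h0] at hyd
      have := Nat.dvd_one.1 (by simpa using hyd)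
      omega
    · exact h0
  have hzd : q ∣ (q - y) ^ 2 + 1 := by
    have h1 : ((q : ℕ) : ℤ) ∣ (((q - y) ^ 2 + 1 : ℕ) : ℤ) := by
      push_cast [Nat.cast_sub hyq.le]
      have h2 : ((q : ℕ) : ℤ) ∣ (((y ^ 2 + 1 : ℕ)) : ℤ) := Int.natCast_dvd_natCast.2 hyd
      push_cast at h2
      have e : ((q : ℤ) - y) ^ 2 + 1 = q * (q - 2 * y) + (y ^ 2 + 1) := by ring
      rw [e]
      exact dvd_add (dvd_mul_right _ _) h2
    exact Int.natCast_dvd_natCast.1 h1
  have hsub : ({y, q - y} : Finset ℕ) ⊆ (range q).filter (fun x => q ∣ x ^ 2 + 1) := by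
    intro z hz
    rw [mem_insert, mem_singleton] at hz
    rw [mem_filter, mem_range]
    rcases hz with rfl | rfl
    · exact ⟨hyq, hyd⟩
    · exact ⟨by omega, hzd⟩
  have hcard : ({y, q - y} : Finset ℕ).card = 2 := card_pair (by omega)
  have h9 := card_le_card hsub
  rw [hcard] at h9
  exact h9

theorem rh_hh_eq (a : ℕ) : 0 < a → (rh a : ℝ) * hh a = mkf phf a := by
  induction a using Nat.recOnPosPrimePosCoprime with
  | prime_pow p k hp hk =>
    intro _
    unfold hh
    rw [Nat.primeFactors_prime_pow hk.ne' hp, prod_singleton, mkf_pp phf p k hp hk.ne']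
    unfold gg phf bet
    rcases cases4 hp with h | h | h
    · rw [if_neg (by omega), if_pos h, rh_one hp h k hk]
      norm_num
    · subst h
      rw [if_pos rfl, if_neg (by norm_num)]
      rcases Nat.lt_or_ge k 2 with hk2 | hk2
      · have : k = 1 := by omega
        subst this
        rw [pow_one, rh_two, if_pos ⟨rfl, rfl⟩]
        norm_num
      · rw [rh_four k hk2, if_neg (by omega)]
        norm_num
    · rw [rh_three hp h k hk, if_neg (by omega), if_neg (by omega), if_neg (by omega)]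
      simp
  | zero => intro h0; omega
  | one =>
    intro _
    unfold hh
    rw [(mkf_mul phf).1, Nat.primeFactors_one, prod_empty, mul_one]
    have : rh 1 = 1 := by decide
    rw [this]; norm_num
  | coprime a b ha hb hab iha ihb =>
    intro _
    have h1 := iha (by omega)
    have h2 := ihb (by omega)
    rw [(mkf_mul phf).map_mul_of_coprime hab, ← h1, ← h2, rh_mul a b (by omega) (by omega) hab]
    unfold hh
    rw [hab.primeFactors_mul, prod_union hab.disjoint_primeFactors]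
    push_cast
    ring

/-- **The sum over the pairs, exactly.** -/
theorem sum_lim : Tendsto (fun A : ℕ => (CC * ∑ a ∈ Icc 1 A, (rh a : ℝ) * hh a / a) / Real.log A) atTop (𝓝 1) := by
  have h1 := F_lim.const_mul CC
  rw [mul_inv_cancel₀ CC_pos.ne'] at h1
  refine h1.congr (fun A => ?_)
  rw [mul_div_assoc]
  congr 2
  apply sum_congr rfl
  intro a ha
  rw [mem_Icc] at ha
  rw [rh_hh_eq a ha.1]

theorem hh_le_h4 (a : ℕ) : hh a ≤ h4 a := by
  unfold hh h4
  apply Finset.prod_le_prod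
  · intro p hp
    have := gg_ge p (Nat.prime_of_mem_primeFactors hp)
    linarith
  · intro p hp
    have hpp := Nat.prime_of_mem_primeFactors hp
    unfold gg
    split_ifs with h
    · subst h; norm_num
    · have h3 : (3 : ℝ) ≤ p := by
        have := hpp.two_le
        exact_mod_cast (by omega : 3 ≤ p)
      rw [div_le_iff₀ (by linarith)]
      have e : (1 + 4 / (p : ℝ)) * (p - 2) = p - 1 + (3 * p - 8) / p + (4 * 0) := by
        field_simp
        ring
      rw [e]
      have : 0 ≤ (3 * (p : ℝ) - 8) / p := by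
        apply div_nonneg <;> linarith
      linarith

end Pool.Agent.K4H50.HL
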