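import Pool.Agent.K4H50.HL.B15

/-!
# The average over the family
-/

set_option autoImplicit false

namespace Pool.Agent.K4H50.HL

open Finset Filter Topology

/-- `∑ log p` over the prime values `p = (n ^ 2 + 1) / a`, `n ≡ b` modulo `a`, `n ≤ X` -/
noncomputable def th (X a b : ℕ) : ℝ :=
  ∑ n ∈ (Icc 1 X).filter (fun n => n % a = b ∧ ((n ^ 2 + 1) / a).Prime), Real.log (((n ^ 2 + 1) / a : ℕ) : ℝ)

theorem th_nonneg (X a b : ℕ) : 0 ≤ th X a b := sum_nonneg fun _ _ => Real.log_natCast_nonneg _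

theorem th_le (X a b : ℕ) (ha : 0 < a) (hab : a ∣ b ^ 2 + 1) : th X a b ≤ (TT X a b : ℝ) * Real.log (((X : ℝ) ^ 2 + 1) / a) := by
  unfold th TT
  rw [← nsmul_eq_mul, ← sum_const]
  apply sum_le_sum
  intro n hn
  rw [mem_filter, mem_Icc] at hn
  obtain ⟨⟨h1, h2⟩, h3, h4⟩ := hn
  have ha0 : (0 : ℝ) < a := by exact_mod_cast ha
  have hd : a ∣ n ^ 2 + 1 := by
    have h5 : n ≡ b [MOD a] := by rw [← h3]; exact (Nat.mod_modEq n a).symm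
    exact (((h5.pow 2).add_right 1).dvd_iff (dvd_refl a)).2 hab
  obtain ⟨q, hq⟩ := hd
  rw [hq, Nat.mul_div_cancel_left q ha] at h4 ⊢
  apply Real.log_le_log (by exact_mod_cast h4.pos)
  rw [le_div_iff₀ ha0]
  have h9 : (n : ℝ) ^ 2 + 1 = a * q := by exact_mod_cast hq
  have h10 : (n : ℝ) ≤ X := by exact_mod_cast h2
  have h11 : (0 : ℝ) ≤ n := Nat.cast_nonneg n
  nlinarith

/-- the large primes are values of the polynomials of the family -/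
theorem SP_le_th (X Z A : ℕ) (hA : ∀ a p n : ℕ, Z < p → n ≤ X → a * p = n ^ 2 + 1 → a ≤ A) :
    ∑ p ∈ (Ioc Z (X ^ 2 + 1)).filter Nat.Prime, Real.log p * (NN p X : ℝ) ≤ ∑ x ∈ PPr A, th X x.1 x.2 := by
  have h1 : ∑ p ∈ (Ioc Z (X ^ 2 + 1)).filter Nat.Prime, Real.log p * (NN p X : ℝ) =
      ∑ y ∈ ((Ioc Z (X ^ 2 + 1)).filter Nat.Prime).sigma (fun p => (Icc 1 X).filter (fun n => p ∣ n ^ 2 + 1)),
        Real.log (y.1 : ℝ) := by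
    rw [sum_sigma]
    apply sum_congr rfl
    intro p _
    dsimp only
    rw [sum_const, nsmul_eq_mul, mul_comm]
    rfl
  have h2 : ∑ x ∈ PPr A, th X x.1 x.2 =
      ∑ y ∈ (PPr A).sigma (fun x => (Icc 1 X).filter (fun n => n % x.1 = x.2 ∧ ((n ^ 2 + 1) / x.1).Prime)),
        Real.log (((y.2 ^ 2 + 1) / y.1.1 : ℕ) : ℝ) := by
    rw [sum_sigma]
    rfl
  rw [h1, h2]
  obtain ⟨f, hf⟩ : ∃ f : ((_ : ℕ) × ℕ) → ((_ : ℕ × ℕ) × ℕ),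
      f = fun y => ⟨((y.2 ^ 2 + 1) / y.1, y.2 % ((y.2 ^ 2 + 1) / y.1)), y.2⟩ := ⟨_, rfl⟩
  have hkey : ∀ y ∈ ((Ioc Z (X ^ 2 + 1)).filter Nat.Prime).sigma (fun p => (Icc 1 X).filter (fun n => p ∣ n ^ 2 + 1)),
      0 < (y.2 ^ 2 + 1) / y.1 ∧ (y.2 ^ 2 + 1) / y.1 * y.1 = y.2 ^ 2 + 1 ∧ y.1.Prime ∧ Z < y.1 ∧ 1 ≤ y.2 ∧ y.2 ≤ X := by
    rintro ⟨p, n⟩ hy
    rw [mem_sigma, mem_filter, mem_filter, mem_Ioc, mem_Icc] at hy
    obtain ⟨⟨⟨h3, h4⟩, h5⟩, ⟨h6, h7⟩, h8⟩ := hy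
    exact ⟨Nat.div_pos (Nat.le_of_dvd (by positivity) h8) h5.pos, Nat.div_mul_cancel h8, h5, h3, h6, h7⟩
  have hmaps : ∀ y ∈ ((Ioc Z (X ^ 2 + 1)).filter Nat.Prime).sigma (fun p => (Icc 1 X).filter (fun n => p ∣ n ^ 2 + 1)),
      f y ∈ (PPr A).sigma (fun x => (Icc 1 X).filter (fun n => n % x.1 = x.2 ∧ ((n ^ 2 + 1) / x.1).Prime)) ∧
      Real.log (y.1 : ℝ) = Real.log ((((f y).2 ^ 2 + 1) / (f y).1.1 : ℕ) : ℝ) := by
    rintro ⟨p, n⟩ hy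
    obtain ⟨h3, h4, h5, h6, h7, h8⟩ := hkey _ hy
    simp only at h3 h4 h5 h6 h7 h8
    obtain ⟨a, ha⟩ : ∃ a, a = (n ^ 2 + 1) / p := ⟨_, rfl⟩
    rw [← ha] at h3 h4
    have e : f ⟨p, n⟩ = ⟨(a, n % a), n⟩ := by rw [hf, ha]
    have hd : a ∣ (n % a) ^ 2 + 1 :=
      ((((Nat.mod_modEq n a).pow 2).add_right 1).dvd_iff (dvd_refl a)).2 ⟨p, h4.symm⟩
    have hq : (n ^ 2 + 1) / a = p := by
      rw [← h4, Nat.mul_div_cancel_left _ h3]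
    rw [e, mem_sigma, mem_PPr, mem_filter, mem_Icc]
    refine ⟨⟨⟨⟨h3, hA a p n h6 h8 h4⟩, Nat.mod_lt _ h3, hd⟩, ⟨h7, h8⟩, rfl, ?_⟩, ?_⟩
    · show ((n ^ 2 + 1) / a).Prime
      rw [hq]; exact h5
    · show Real.log (p : ℝ) = Real.log (((n ^ 2 + 1) / a : ℕ) : ℝ)
      rw [hq]
  have hinj : Set.InjOn f (((Ioc Z (X ^ 2 + 1)).filter Nat.Prime).sigma
      (fun p => (Icc 1 X).filter (fun n => p ∣ n ^ 2 + 1)) : Finset ((_ : ℕ) × ℕ)) := by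
    rintro ⟨p, n⟩ hy ⟨q, m⟩ hz hyz
    obtain ⟨h3, h4, -⟩ := hkey _ hy
    obtain ⟨h5, h6, -⟩ := hkey _ hz
    simp only at h3 h4 h5 h6
    rw [hf] at hyz
    simp only [Sigma.mk.injEq, Prod.mk.injEq, heq_eq_eq] at hyz
    obtain ⟨⟨h7, _⟩, h8⟩ := hyz
    subst h8
    have h6' : (n ^ 2 + 1) / p * q = n ^ 2 + 1 := by
      rw [h7]; exact h6
    have h9 : p = q := Nat.eq_of_mul_eq_mul_left h3 (h4.trans h6'.symm)
    rw [h9]
  rw [sum_congr rfl (fun y hy => (hmaps y hy).2),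
    ← sum_image (f := fun z : ((_ : ℕ × ℕ) × ℕ) => Real.log (((z.2 ^ 2 + 1) / z.1.1 : ℕ) : ℝ)) hinj]
  apply sum_le_sum_of_subset_of_nonneg
  · intro z hz
    rw [mem_image] at hz
    obtain ⟨y, hy, rfl⟩ := hz
    exact (hmaps y hy).1
  · intro z _ _
    exact Real.log_natCast_nonneg _

/-- the prime values are large primes, except for few small `n` -/
theorem th_le_SP (X A N1 : ℕ) (hA : ∀ a p n : ℕ, a ≤ A → a * p = n ^ 2 + 1 → p ≤ X → n ≤ N1) :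
    ∑ x ∈ PPr A, th X x.1 x.2 ≤ SP X (X ^ 2 + 1) + ∑ n ∈ Icc 1 N1, Real.log ((n ^ 2 + 1 : ℕ) : ℝ) := by
  have h2 : ∑ x ∈ PPr A, th X x.1 x.2 =
      ∑ y ∈ (PPr A).sigma (fun x => (Icc 1 X).filter (fun n => n % x.1 = x.2 ∧ ((n ^ 2 + 1) / x.1).Prime)),
        Real.log (((y.2 ^ 2 + 1) / y.1.1 : ℕ) : ℝ) := by
    rw [sum_sigma]
    rfl
  obtain ⟨V, hV⟩ : ∃ V : Finset ((_ : ℕ × ℕ) × ℕ), V = (PPr A).sigma (fun x : ℕ × ℕ =>
      (Icc 1 X).filter (fun n : ℕ => n % x.1 = x.2 ∧ Nat.Prime ((n ^ 2 + 1) / x.1))) := ⟨_, rfl⟩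
  rw [h2, ← hV]
  have hkey : ∀ y ∈ V, 0 < y.1.1 ∧ y.1.1 ≤ A ∧ y.1.1 * ((y.2 ^ 2 + 1) / y.1.1) = y.2 ^ 2 + 1 ∧
      ((y.2 ^ 2 + 1) / y.1.1).Prime ∧ 1 ≤ y.2 ∧ y.2 ≤ X ∧ y.2 % y.1.1 = y.1.2 := by
    rintro ⟨⟨a, b⟩, n⟩ hy
    rw [hV, mem_sigma, mem_PPr, mem_filter, mem_Icc] at hy
    obtain ⟨⟨⟨h3, h4⟩, h5, h6⟩, ⟨h7, h8⟩, h9, h10⟩ := hy
    simp only at h3 h4 h5 h6 h7 h8 h9 h10 ⊢
    have hd : a ∣ n ^ 2 + 1 := by
      have h5 : n ≡ b [MOD a] := by rw [← h9]; exact (Nat.mod_modEq n a).symm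
      exact (((h5.pow 2).add_right 1).dvd_iff (dvd_refl a)).2 h6
    exact ⟨h3, h4, Nat.mul_div_cancel' hd, h10, h7, h8, h9⟩
  rw [← sum_filter_add_sum_filter_not V (fun y => X < (y.2 ^ 2 + 1) / y.1.1)]
  apply add_le_add
  · -- the large primes
    have h1 : SP X (X ^ 2 + 1) =
        ∑ y ∈ ((Ioc X (X ^ 2 + 1)).filter Nat.Prime).sigma (fun p => (Icc 1 X).filter (fun n => p ∣ n ^ 2 + 1)),
          Real.log (y.1 : ℝ) := by
      unfold SP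
      rw [sum_sigma]
      apply sum_congr rfl
      intro p _
      dsimp only
      rw [sum_const, nsmul_eq_mul, mul_comm]
      rfl
    rw [h1]
    obtain ⟨g, hg⟩ : ∃ g : ((_ : ℕ × ℕ) × ℕ) → ((_ : ℕ) × ℕ), g = fun y => ⟨(y.2 ^ 2 + 1) / y.1.1, y.2⟩ := ⟨_, rfl⟩
    have hinj : Set.InjOn g ((V.filter (fun y => X < (y.2 ^ 2 + 1) / y.1.1)) : Finset ((_ : ℕ × ℕ) × ℕ)) := by
      rintro ⟨⟨a, b⟩, n⟩ hy ⟨⟨a', b'⟩, n'⟩ hy' heq
      rw [mem_coe, mem_filter] at hy hy'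
      obtain ⟨h3, -, h4, h5, -, -, h6⟩ := hkey _ hy.1
      obtain ⟨h3', -, h4', h5', -, -, h6'⟩ := hkey _ hy'.1
      simp only at h3 h4 h5 h6 h3' h4' h5' h6'
      rw [hg] at heq
      simp only [Sigma.mk.injEq, heq_eq_eq] at heq
      obtain ⟨h7, h8⟩ := heq
      subst h8
      rw [h7] at h4 h5
      have h9 : a = a' := Nat.eq_of_mul_eq_mul_right h5.pos (h4.trans h4'.symm)
      subst h9
      rw [← h6, ← h6']
    have he : ∀ y ∈ V.filter (fun y => X < (y.2 ^ 2 + 1) / y.1.1), Real.log (((y.2 ^ 2 + 1) / y.1.1 : ℕ) : ℝ) =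
        (fun z : (_ : ℕ) × ℕ => Real.log (z.1 : ℝ)) (g y) := by
      intro y _
      rw [hg]
    rw [sum_congr rfl he, ← sum_image (f := fun z : (_ : ℕ) × ℕ => Real.log (z.1 : ℝ)) hinj]
    apply sum_le_sum_of_subset_of_nonneg
    · intro z hz
      rw [mem_image] at hz
      obtain ⟨⟨⟨a, b⟩, n⟩, hy, rfl⟩ := hz
      rw [mem_filter] at hy
      obtain ⟨h3, -, h4, h5, h6, h7, -⟩ := hkey _ hy.1
      have h8 := hy.2
      simp only at h3 h4 h5 h6 h7 h8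
      rw [hg, mem_sigma, mem_filter, mem_filter, mem_Ioc, mem_Icc]
      simp only
      refine ⟨⟨⟨h8, ?_⟩, h5⟩, ⟨h6, h7⟩, ⟨a, by rw [mul_comm]; exact h4.symm⟩⟩
      refine (Nat.div_le_self _ _).trans ?_
      have := Nat.pow_le_pow_left h7 2
      omega
    · intro z _ _
      exact Real.log_natCast_nonneg _
  · -- the small ones
    have h1 : ∑ y ∈ (Icc 1 N1).sigma (fun n => (n ^ 2 + 1).primeFactors), Real.log (y.2 : ℝ) ≤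
        ∑ n ∈ Icc 1 N1, Real.log ((n ^ 2 + 1 : ℕ) : ℝ) := by
      rw [sum_sigma]
      apply sum_le_sum
      intro n _
      dsimp only
      rw [← Real.log_prod (fun p hp => by
        have := (Nat.prime_of_mem_primeFactors hp).ne_zero
        exact_mod_cast this)]
      have h2 : (∏ p ∈ (n ^ 2 + 1).primeFactors, p) ≤ n ^ 2 + 1 :=
        Nat.le_of_dvd (by positivity) (Nat.prod_primeFactors_dvd _)
      apply Real.log_le_log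
      · apply prod_pos
        intro p hp
        exact_mod_cast (Nat.prime_of_mem_primeFactors hp).pos
      · have h3 : (((∏ p ∈ (n ^ 2 + 1).primeFactors, p) : ℕ) : ℝ) ≤ ((n ^ 2 + 1 : ℕ) : ℝ) := Nat.cast_le.2 h2
        rw [Nat.cast_prod] at h3
        exact h3
    refine le_trans ?_ h1
    obtain ⟨g, hg⟩ : ∃ g : ((_ : ℕ × ℕ) × ℕ) → ((_ : ℕ) × ℕ), g = fun y => ⟨y.2, (y.2 ^ 2 + 1) / y.1.1⟩ := ⟨_, rfl⟩
    have hinj : Set.InjOn g ((V.filter (fun y => ¬ X < (y.2 ^ 2 + 1) / y.1.1)) : Finset ((_ : ℕ × ℕ) × ℕ)) := by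
      rintro ⟨⟨a, b⟩, n⟩ hy ⟨⟨a', b'⟩, n'⟩ hy' heq
      rw [mem_coe, mem_filter] at hy hy'
      obtain ⟨h3, -, h4, h5, -, -, h6⟩ := hkey _ hy.1
      obtain ⟨h3', -, h4', h5', -, -, h6'⟩ := hkey _ hy'.1
      simp only at h3 h4 h5 h6 h3' h4' h5' h6'
      rw [hg] at heq
      simp only [Sigma.mk.injEq, heq_eq_eq] at heq
      obtain ⟨h8, h7⟩ := heq
      subst h8
      rw [h7] at h4 h5
      have h9 : a = a' := Nat.eq_of_mul_eq_mul_right h5.pos (h4.trans h4'.symm)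
      subst h9
      rw [← h6, ← h6']
    have he : ∀ y ∈ V.filter (fun y => ¬ X < (y.2 ^ 2 + 1) / y.1.1), Real.log (((y.2 ^ 2 + 1) / y.1.1 : ℕ) : ℝ) =
        (fun z : (_ : ℕ) × ℕ => Real.log (z.2 : ℝ)) (g y) := by
      intro y _
      rw [hg]
    rw [sum_congr rfl he, ← sum_image (f := fun z : (_ : ℕ) × ℕ => Real.log (z.2 : ℝ)) hinj]
    apply sum_le_sum_of_subset_of_nonneg
    · intro z hz
      rw [mem_image] at hz
      obtain ⟨⟨⟨a, b⟩, n⟩, hy, rfl⟩ := hz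
      rw [mem_filter] at hy
      obtain ⟨h3, h33, h4, h5, h6, h7, -⟩ := hkey _ hy.1
      have h8 := hy.2
      simp only at h3 h33 h4 h5 h6 h7 h8
      rw [hg, mem_sigma, mem_Icc, Nat.mem_primeFactors]
      simp only
      exact ⟨⟨h6, hA a _ n h33 h4 (by omega)⟩, h5, ⟨a, by rw [mul_comm]; exact h4.symm⟩, by positivity⟩
    · intro z _ _
      exact Real.log_natCast_nonneg _

end Pool.Agent.K4H50.HL
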