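import Pool.Agent.K4H50.HL.B16

/-!
# The average over the family: the two asymptotics
-/

set_option autoImplicit false

namespace Pool.Agent.K4H50.HL

open Finset Filter Topology

open Classical in
/-- the pairs with `X ^ δ ≤ a ≤ X ^ (1 - δ)` -/
noncomputable def Fam (δ : ℝ) (X : ℕ) : Finset (ℕ × ℕ) := (PPr X).filter (fun x =>
  (X : ℝ) ^ δ ≤ x.1 ∧ (x.1 : ℝ) ≤ (X : ℝ) ^ (1 - δ))

/-- the small `a` -/
theorem small_bound : ∃ C : ℝ, 0 < C ∧ ∀ δ : ℝ, 0 < δ → δ ≤ 1 / 400 → ∀ᶠ X : ℕ in atTop, ∀ A : ℕ, A ≤ X →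
    ∑ x ∈ (PPr A).filter (fun x => (x.1 : ℝ) < (X : ℝ) ^ δ), th X x.1 x.2 ≤ C * δ * (X * Real.log X) := by
  classical
  obtain ⟨C1, hC1, hT1⟩ := TT_upper (1 / 2) (by norm_num) (by norm_num)
  obtain ⟨C2, hC2, hS2⟩ := sum_rh_h4
  refine ⟨3 * (C1 * C2), by positivity, ?_⟩
  intro δ hδ0 hδ4
  have hXr : Tendsto (fun X : ℕ => (X : ℝ)) atTop atTop := tendsto_natCast_atTop_atTop
  have hpow : ∀ᶠ X : ℕ in atTop, 3 ≤ (X : ℝ) ^ δ :=
    ((tendsto_rpow_atTop hδ0).comp hXr).eventually_ge_atTop 3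
  filter_upwards [hT1, hpow, eventually_ge_atTop 3] with X gT1 gpow gX3
  have hX3 : (3 : ℝ) ≤ X := by exact_mod_cast gX3
  have hX0 : (0 : ℝ) < X := by linarith
  have hX1 : (1 : ℝ) ≤ X := by linarith
  obtain ⟨L, hL⟩ : ∃ L, L = Real.log (X : ℝ) := ⟨_, rfl⟩
  have hL0 : 0 < L := by rw [hL]; exact Real.log_pos (by linarith)
  rw [← hL]
  intro A hAX
  obtain ⟨A1, hA1'⟩ : ∃ A1, A1 = ⌊(X : ℝ) ^ δ⌋₊ := ⟨_, rfl⟩
  have hA1le : (A1 : ℝ) ≤ (X : ℝ) ^ δ := by rw [hA1']; exact Nat.floor_le (by positivity)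
  have hA13 : 3 ≤ A1 := by
    rw [hA1']
    apply Nat.le_floor
    push_cast
    exact gpow
  have hlA1 : Real.log A1 ≤ δ * L := by
    have : Real.log A1 ≤ Real.log ((X : ℝ) ^ δ) :=
      Real.log_le_log (by exact_mod_cast (by omega : 0 < A1)) hA1le
    rwa [Real.log_rpow hX0, ← hL] at this
  have h3 : ∑ x ∈ (PPr A).filter (fun x => (x.1 : ℝ) < (X : ℝ) ^ δ), th X x.1 x.2 ≤
      ∑ x ∈ PPr A1, (3 * C1 * X) * (h4 x.1 ^ 2 / x.1) := by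
    have h4' : ∀ x ∈ (PPr A).filter (fun x => (x.1 : ℝ) < (X : ℝ) ^ δ), th X x.1 x.2 ≤
        (3 * C1 * X) * (h4 x.1 ^ 2 / x.1) := by
      intro x hx
      rw [mem_filter, mem_PPr] at hx
      obtain ⟨⟨⟨h5, h6⟩, h7, h8⟩, h9⟩ := hx
      have hx0 : (0 : ℝ) < x.1 := by exact_mod_cast h5
      have hx1 : (1 : ℝ) ≤ x.1 := by exact_mod_cast h5
      have h10 : (x.1 : ℝ) ≤ (X : ℝ) ^ (1 - (1 / 2 : ℝ)) :=
        h9.le.trans (Real.rpow_le_rpow_of_exponent_le hX1 (by linarith))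
      have h11 := gT1 x.1 x.2 h5 h10 h8
      rw [← hL] at h11
      have h12 : Real.log (((X : ℝ) ^ 2 + 1) / x.1) ≤ 3 * L := by
        have h3 : Real.log (((X : ℝ) ^ 2 + 1) / x.1) ≤ Real.log ((X : ℝ) ^ 3) := by
          apply Real.log_le_log (by positivity)
          rw [div_le_iff₀ (by linarith)]
          have h4 : (X : ℝ) ^ 2 + 1 ≤ X ^ 3 := by nlinarith [sq_nonneg (X : ℝ)]
          nlinarith [pow_pos hX0 3]
        rw [Real.log_pow, ← hL] at h3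
        push_cast at h3
        exact h3
      have hh4 := h4_ge x.1
      calc th X x.1 x.2 ≤ (TT X x.1 x.2 : ℝ) * Real.log (((X : ℝ) ^ 2 + 1) / x.1) := th_le X x.1 x.2 h5 h8
        _ ≤ (TT X x.1 x.2 : ℝ) * (3 * L) := mul_le_mul_of_nonneg_left h12 (Nat.cast_nonneg _)
        _ ≤ (C1 * h4 x.1 * (X / (x.1 * L))) * (3 * L) := mul_le_mul_of_nonneg_right h11 (by linarith)
        _ = (3 * C1 * X) * (h4 x.1 / x.1) := by field_simp
        _ ≤ _ := by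
            apply mul_le_mul_of_nonneg_left _ (by positivity)
            apply div_le_div_of_nonneg_right _ hx0.le
            nlinarith
    refine (sum_le_sum h4').trans ?_
    apply sum_le_sum_of_subset_of_nonneg
    · intro x hx
      rw [mem_filter, mem_PPr] at hx
      rw [mem_PPr]
      refine ⟨⟨hx.1.1.1, ?_⟩, hx.1.2⟩
      rw [hA1']
      exact Nat.le_floor hx.2.le
    · intro x _ _
      positivity
  have h5 : ∑ x ∈ PPr A1, (3 * C1 * X) * (h4 x.1 ^ 2 / x.1) = (3 * C1 * X) *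
      ∑ a ∈ Icc 1 A1, (rh a : ℝ) * h4 a ^ 2 / a := by
    rw [← mul_sum, pair_sum_one A1 (fun a => h4 a ^ 2 / a)]
    congr 1
    apply sum_congr rfl
    intro a _
    ring
  rw [h5] at h3
  refine h3.trans ?_
  calc (3 * C1 * X) * ∑ a ∈ Icc 1 A1, (rh a : ℝ) * h4 a ^ 2 / a ≤ (3 * C1 * X) * (C2 * Real.log A1) :=
        mul_le_mul_of_nonneg_left (hS2 A1 hA13) (by positivity)
    _ ≤ (3 * C1 * X) * (C2 * (δ * L)) := by gcongr
    _ = _ := by ring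

theorem Fam_eq (δ : ℝ) (hδ : 0 ≤ δ) (X : ℕ) (hX : 1 ≤ X) : Fam δ X =
    (PPr ⌊(X : ℝ) ^ (1 - δ)⌋₊).filter (fun x => ¬ (x.1 : ℝ) < (X : ℝ) ^ δ) := by
  classical
  have hX1 : (1 : ℝ) ≤ X := by exact_mod_cast hX
  ext x
  unfold Fam
  rw [mem_filter, mem_filter, mem_PPr, mem_PPr, not_lt]
  constructor
  · rintro ⟨⟨⟨h1, h2⟩, h3⟩, h4, h5⟩
    exact ⟨⟨⟨h1, Nat.le_floor h5⟩, h3⟩, h4⟩
  · rintro ⟨⟨⟨h1, h2⟩, h3⟩, h4⟩
    have h5 : (x.1 : ℝ) ≤ (X : ℝ) ^ (1 - δ) := (Nat.le_floor_iff (by positivity)).1 h2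
    refine ⟨⟨⟨h1, ?_⟩, h3⟩, h4, h5⟩
    have h6 : (X : ℝ) ^ (1 - δ) ≤ X := by
      calc (X : ℝ) ^ (1 - δ) ≤ (X : ℝ) ^ (1 : ℝ) := Real.rpow_le_rpow_of_exponent_le hX1 (by linarith)
        _ = X := Real.rpow_one _
    exact_mod_cast h5.trans h6

/-- **The average of the prime values.** -/
theorem avg_th (ε : ℝ) (hε : 0 < ε) : ∃ δ0 : ℝ, 0 < δ0 ∧ δ0 ≤ 1 / 400 ∧ ∀ δ : ℝ, 0 < δ → δ ≤ δ0 →
    ∀ᶠ X : ℕ in atTop, |∑ x ∈ Fam δ X, th X x.1 x.2 - X * Real.log X| ≤ ε * (X * Real.log X) := by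
  classical
  obtain ⟨B, hB, hSP⟩ := SP_large
  obtain ⟨C, hC, hcheb⟩ := cheb
  obtain ⟨D, hD, hsm⟩ := small_bound
  obtain ⟨δ0, hδ0def⟩ : ∃ δ0 : ℝ, δ0 = min (1 / 400) (ε / (2 * B + D)) := ⟨_, rfl⟩
  refine ⟨δ0, by rw [hδ0def]; positivity, by rw [hδ0def]; exact min_le_left _ _, ?_⟩
  intro δ hδ hδle
  have hδ4 : δ ≤ 1 / 400 := hδle.trans (by rw [hδ0def]; exact min_le_left _ _)
  have hδε : (2 * B + D) * δ ≤ ε := by
    have h1 : δ ≤ ε / (2 * B + D) := hδle.trans (by rw [hδ0def]; exact min_le_right _ _)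
    rw [le_div_iff₀ (by positivity)] at h1
    linarith
  have hXr : Tendsto (fun X : ℕ => (X : ℝ)) atTop atTop := tendsto_natCast_atTop_atTop
  have hpow : ∀ᶠ X : ℕ in atTop, 3 ≤ (X : ℝ) ^ δ :=
    ((tendsto_rpow_atTop hδ).comp hXr).eventually_ge_atTop 3
  have hpow2 : ∀ᶠ X : ℕ in atTop, 6 / ε ≤ (X : ℝ) ^ (δ / 2) :=
    ((tendsto_rpow_atTop (by positivity)).comp hXr).eventually_ge_atTop _
  have hlogt : Tendsto (fun A : ℕ => Real.log (A : ℝ)) atTop atTop :=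
    Real.tendsto_log_atTop.comp tendsto_natCast_atTop_atTop
  filter_upwards [hSP (2 * δ) (by positivity) (by linarith), hsm δ hδ hδ4, hpow, hpow2,
    hlogt.eventually_ge_atTop (2 * C / ε), eventually_ge_atTop 3] with X gSP gsm gpow gpow2 glog gX3
  have hX3 : (3 : ℝ) ≤ X := by exact_mod_cast gX3
  have hX0 : (0 : ℝ) < X := by linarith
  have hX1 : (1 : ℝ) ≤ X := by linarith
  obtain ⟨L, hL⟩ : ∃ L, L = Real.log (X : ℝ) := ⟨_, rfl⟩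
  have hL0 : 0 < L := by rw [hL]; exact Real.log_pos (by linarith)
  have gcheb := hcheb X (by omega)
  rw [← hL] at glog gSP gsm gcheb ⊢
  obtain ⟨A, hA⟩ : ∃ A, A = ⌊(X : ℝ) ^ (1 - δ)⌋₊ := ⟨_, rfl⟩
  have hAle : (A : ℝ) ≤ (X : ℝ) ^ (1 - δ) := by rw [hA]; exact Nat.floor_le (by positivity)
  have hXpow : (X : ℝ) ^ (1 - δ) ≤ X := by
    calc (X : ℝ) ^ (1 - δ) ≤ (X : ℝ) ^ (1 : ℝ) := Real.rpow_le_rpow_of_exponent_le hX1 (by linarith)
      _ = X := Real.rpow_one _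
  have hAX : A ≤ X := by exact_mod_cast hAle.trans hXpow
  obtain ⟨Z, hZ⟩ : ∃ Z, Z = ⌊(X : ℝ) ^ (1 + 2 * δ)⌋₊ := ⟨_, rfl⟩
  have hZle : (Z : ℝ) ≤ (X : ℝ) ^ (1 + 2 * δ) := by rw [hZ]; exact Nat.floor_le (by positivity)
  have hZge : (X : ℝ) ^ (1 + 2 * δ) < Z + 1 := by rw [hZ]; exact Nat.lt_floor_add_one _
  have hXZ : X ≤ Z := by
    rw [hZ]
    apply Nat.le_floor
    calc (X : ℝ) = (X : ℝ) ^ (1 : ℝ) := (Real.rpow_one _).symm
      _ ≤ _ := Real.rpow_le_rpow_of_exponent_le hX1 (by linarith)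
  have h1 := gSP Z hXZ hZle
  have hcond : ∀ a p n : ℕ, Z < p → n ≤ X → a * p = n ^ 2 + 1 → a ≤ A := by
    intro a p n hp hn hap
    rw [hA]
    apply Nat.le_floor
    have hp1 : (Z : ℝ) + 1 ≤ p := by exact_mod_cast hp
    have hn1 : (n : ℝ) ≤ X := by exact_mod_cast hn
    have hn0 : (0 : ℝ) ≤ n := Nat.cast_nonneg n
    have hap' : (a : ℝ) * p = (n : ℝ) ^ 2 + 1 := by exact_mod_cast hap
    have ha0 : (0 : ℝ) ≤ a := Nat.cast_nonneg a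
    have h3 : (a : ℝ) * (X : ℝ) ^ (1 + 2 * δ) ≤ 2 * (X : ℝ) ^ 2 := by nlinarith
    have e1 : (X : ℝ) ^ 2 = (X : ℝ) ^ (1 - 2 * δ) * (X : ℝ) ^ (1 + 2 * δ) := by
      rw [← Real.rpow_add hX0, ← Real.rpow_natCast]
      congr 1
      push_cast; ring
    have hpos : 0 < (X : ℝ) ^ (1 + 2 * δ) := by positivity
    have h4 : (a : ℝ) ≤ 2 * (X : ℝ) ^ (1 - 2 * δ) := by
      rw [e1, ← mul_assoc] at h3
      exact le_of_mul_le_mul_right h3 hpos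
    have e2 : (X : ℝ) ^ (1 - δ) = (X : ℝ) ^ δ * (X : ℝ) ^ (1 - 2 * δ) := by
      rw [← Real.rpow_add hX0]
      congr 1
      ring
    rw [e2]
    have hpos2 : 0 < (X : ℝ) ^ (1 - 2 * δ) := by positivity
    nlinarith
  have h2 := h1.trans (SP_le_th X Z A hcond)
  have hfam : ∑ x ∈ Fam δ X, th X x.1 x.2 = ∑ x ∈ (PPr A).filter (fun x => ¬ (x.1 : ℝ) < (X : ℝ) ^ δ), th X x.1 x.2 := by
    rw [Fam_eq δ hδ.le X (by omega), hA]
  have hsplit : ∑ x ∈ PPr A, th X x.1 x.2 = ∑ x ∈ (PPr A).filter (fun x => (x.1 : ℝ) < (X : ℝ) ^ δ), th X x.1 x.2 +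
      ∑ x ∈ (PPr A).filter (fun x => ¬ (x.1 : ℝ) < (X : ℝ) ^ δ), th X x.1 x.2 := by
    rw [sum_filter_add_sum_filter_not]
  have h3 := gsm A hAX
  -- the upper bound
  obtain ⟨N1, hN1⟩ : ∃ N1, N1 = ⌊(X : ℝ) ^ (1 - δ / 2)⌋₊ := ⟨_, rfl⟩
  have hN1le : (N1 : ℝ) ≤ (X : ℝ) ^ (1 - δ / 2) := by rw [hN1]; exact Nat.floor_le (by positivity)
  have hcond2 : ∀ a p n : ℕ, a ≤ A → a * p = n ^ 2 + 1 → p ≤ X → n ≤ N1 := by
    intro a p n ha hap hp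
    rw [hN1]
    apply Nat.le_floor
    have hap' : (a : ℝ) * p = (n : ℝ) ^ 2 + 1 := by exact_mod_cast hap
    have ha1 : (a : ℝ) ≤ (X : ℝ) ^ (1 - δ) := le_trans (by exact_mod_cast ha) hAle
    have hp1 : (p : ℝ) ≤ X := by exact_mod_cast hp
    have h4 : (a : ℝ) * p ≤ (X : ℝ) ^ (1 - δ) * X := by
      apply mul_le_mul ha1 hp1 (Nat.cast_nonneg _) (by positivity)
    have e1 : (X : ℝ) ^ (1 - δ) * X = ((X : ℝ) ^ (1 - δ / 2)) ^ 2 := by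
      rw [← Real.rpow_natCast ((X : ℝ) ^ (1 - δ / 2)) 2, ← Real.rpow_mul hX0.le]
      nth_rewrite 2 [← Real.rpow_one (X : ℝ)]
      rw [← Real.rpow_add hX0]
      congr 1
      push_cast; ring
    rw [e1, hap'] at h4
    have hpos : 0 ≤ (X : ℝ) ^ (1 - δ / 2) := by positivity
    have h5 : (n : ℝ) ^ 2 ≤ ((X : ℝ) ^ (1 - δ / 2)) ^ 2 := by linarith
    exact le_of_sq_le_sq h5 hpos
  have h4 := th_le_SP X A N1 hcond2
  have h5 : ∑ n ∈ Icc 1 N1, Real.log ((n ^ 2 + 1 : ℕ) : ℝ) ≤ ε / 2 * (X * L) := by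
    have hN1X : (N1 : ℝ) ≤ X := by
      refine hN1le.trans ?_
      calc (X : ℝ) ^ (1 - δ / 2) ≤ (X : ℝ) ^ (1 : ℝ) := Real.rpow_le_rpow_of_exponent_le hX1 (by linarith)
        _ = X := Real.rpow_one _
    have h6 : ∀ n ∈ Icc 1 N1, Real.log ((n ^ 2 + 1 : ℕ) : ℝ) ≤ 3 * L := by
      intro n hn
      rw [mem_Icc] at hn
      have hn1 : (n : ℝ) ≤ X := le_trans (by exact_mod_cast hn.2) hN1X
      have hn0 : (0 : ℝ) ≤ n := Nat.cast_nonneg n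
      have h7 : Real.log ((n ^ 2 + 1 : ℕ) : ℝ) ≤ Real.log ((X : ℝ) ^ 3) := by
        apply Real.log_le_log (by positivity)
        push_cast
        nlinarith [sq_nonneg (X : ℝ)]
      rw [Real.log_pow, ← hL] at h7
      push_cast at h7 ⊢
      exact h7
    have h8 := sum_le_sum h6
    rw [sum_const, Nat.card_Icc, Nat.add_sub_cancel, nsmul_eq_mul] at h8
    refine h8.trans ?_
    have e1 : (X : ℝ) ^ (1 - δ / 2) * (X : ℝ) ^ (δ / 2) = X := by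
      rw [← Real.rpow_add hX0]
      have : 1 - δ / 2 + δ / 2 = 1 := by ring
      rw [this, Real.rpow_one]
    have h9 : (X : ℝ) ^ (1 - δ / 2) * 6 ≤ ε * X := by
      have h10 : 6 ≤ ε * (X : ℝ) ^ (δ / 2) := by
        rw [div_le_iff₀ hε] at gpow2
        linarith
      calc (X : ℝ) ^ (1 - δ / 2) * 6 ≤ (X : ℝ) ^ (1 - δ / 2) * (ε * (X : ℝ) ^ (δ / 2)) :=
            mul_le_mul_of_nonneg_left h10 (by positivity)
        _ = ε * ((X : ℝ) ^ (1 - δ / 2) * (X : ℝ) ^ (δ / 2)) := by ring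
        _ = ε * X := by rw [e1]
    calc (N1 : ℝ) * (3 * L) ≤ (X : ℝ) ^ (1 - δ / 2) * (3 * L) := mul_le_mul_of_nonneg_right hN1le (by positivity)
      _ = ((X : ℝ) ^ (1 - δ / 2) * 6) * (L / 2) := by ring
      _ ≤ (ε * X) * (L / 2) := mul_le_mul_of_nonneg_right h9 (by positivity)
      _ = _ := by ring
  have h6 : C * X ≤ ε / 2 * (X * L) := by
    rw [div_le_iff₀ hε] at glog
    nlinarith
  have hsmall0 : 0 ≤ ∑ x ∈ (PPr A).filter (fun x => (x.1 : ℝ) < (X : ℝ) ^ δ), th X x.1 x.2 :=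
    sum_nonneg fun x _ => th_nonneg _ _ _
  have h7 := (abs_le.1 gcheb).2
  have h8 : (2 * B + D) * δ * (X * L) ≤ ε * (X * L) := mul_le_mul_of_nonneg_right hδε (by positivity)
  rw [hfam, abs_le]
  constructor
  · nlinarith
  · nlinarith

/-- **The average of the predictions.** -/
theorem avg_pred (ε : ℝ) (hε : 0 < ε) : ∃ δ0 : ℝ, 0 < δ0 ∧ δ0 ≤ 1 / 400 ∧ ∀ δ : ℝ, 0 < δ → δ ≤ δ0 →
    ∀ᶠ X : ℕ in atTop, |∑ x ∈ Fam δ X, CC * hh x.1 * ((X : ℝ) / x.1) - X * Real.log X| ≤ ε * (X * Real.log X) := by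
  classical
  obtain ⟨η, hη⟩ : ∃ η : ℝ, η = min 1 (ε / 8) := ⟨_, rfl⟩
  have hη0 : 0 < η := by rw [hη]; positivity
  have hη1 : η ≤ 1 := by rw [hη]; exact min_le_left _ _
  have hηε : η ≤ ε / 8 := by rw [hη]; exact min_le_right _ _
  refine ⟨min (1 / 400) (ε / 8), by positivity, min_le_left _ _, ?_⟩
  intro δ hδ hδle
  have hδ4 : δ ≤ 1 / 400 := hδle.trans (min_le_left _ _)
  have hδε : δ ≤ ε / 8 := hδle.trans (min_le_right _ _)
  have hXr : Tendsto (fun X : ℕ => (X : ℝ)) atTop atTop := tendsto_natCast_atTop_atTop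
  have hA1 : Tendsto (fun X : ℕ => ⌊(X : ℝ) ^ (1 - δ)⌋₊) atTop atTop :=
    tendsto_nat_floor_atTop.comp ((tendsto_rpow_atTop (by linarith)).comp hXr)
  have hA2 : Tendsto (fun X : ℕ => ⌊(X : ℝ) ^ δ⌋₊) atTop atTop :=
    tendsto_nat_floor_atTop.comp ((tendsto_rpow_atTop hδ).comp hXr)
  have hlogt : Tendsto (fun A : ℕ => Real.log (A : ℝ)) atTop atTop :=
    Real.tendsto_log_atTop.comp tendsto_natCast_atTop_atTop
  have hev : ∀ᶠ A : ℕ in atTop, |CC * ∑ a ∈ Icc 1 A, (rh a : ℝ) * hh a / a - Real.log A| ≤ η * Real.log A := by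
    have h1 := (Metric.tendsto_nhds.1 sum_lim) η hη0
    filter_upwards [h1, eventually_ge_atTop 2] with A hA hA2
    have hl : 0 < Real.log (A : ℝ) := Real.log_pos (by exact_mod_cast (by omega : 1 < A))
    rw [Real.dist_eq] at hA
    have e : CC * ∑ a ∈ Icc 1 A, (rh a : ℝ) * hh a / a - Real.log A =
        ((CC * ∑ a ∈ Icc 1 A, (rh a : ℝ) * hh a / a) / Real.log A - 1) * Real.log A := by
      field_simp
    rw [e, abs_mul, abs_of_pos hl]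
    exact mul_le_mul_of_nonneg_right hA.le hl.le
  filter_upwards [hA1.eventually hev, hA2.eventually hev, hlogt.eventually_ge_atTop (8 / ε), eventually_ge_atTop 3]
    with X g1 g2 glog gX3
  have hX3 : (3 : ℝ) ≤ X := by exact_mod_cast gX3
  have hX0 : (0 : ℝ) < X := by linarith
  have hX1 : (1 : ℝ) ≤ X := by linarith
  obtain ⟨L, hL⟩ : ∃ L, L = Real.log (X : ℝ) := ⟨_, rfl⟩
  have hL0 : 0 < L := by rw [hL]; exact Real.log_pos (by linarith)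
  rw [← hL] at glog ⊢
  have hεL : 8 ≤ ε * L := by
    rw [div_le_iff₀ hε] at glog
    linarith
  obtain ⟨A, hA⟩ : ∃ A, A = ⌊(X : ℝ) ^ (1 - δ)⌋₊ := ⟨_, rfl⟩
  obtain ⟨A1, hA1'⟩ : ∃ A1, A1 = ⌊(X : ℝ) ^ δ⌋₊ := ⟨_, rfl⟩
  rw [← hA] at g1
  rw [← hA1'] at g2
  have hAle : (A : ℝ) ≤ (X : ℝ) ^ (1 - δ) := by rw [hA]; exact Nat.floor_le (by positivity)
  have hAge : (X : ℝ) ^ (1 - δ) < A + 1 := by rw [hA]; exact Nat.lt_floor_add_one _
  have hA1le : (A1 : ℝ) ≤ (X : ℝ) ^ δ := by rw [hA1']; exact Nat.floor_le (by positivity)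
  have hApow1 : 1 ≤ (X : ℝ) ^ (1 - δ) := Real.one_le_rpow hX1 (by linarith)
  have hA11 : 1 ≤ A := by rw [hA]; exact Nat.le_floor (by push_cast; exact hApow1)
  have hA1r : (1 : ℝ) ≤ A := by exact_mod_cast hA11
  have hA1one : 1 ≤ A1 := by
    rw [hA1']; exact Nat.le_floor (by push_cast; exact Real.one_le_rpow hX1 hδ.le)
  have hlA_up : Real.log (A : ℝ) ≤ (1 - δ) * L := by
    have := Real.log_le_log (by linarith : (0 : ℝ) < A) hAle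
    rwa [Real.log_rpow hX0, ← hL] at this
  have hlA_lo : (1 - δ) * L - 1 ≤ Real.log (A : ℝ) := by
    have h1 : (X : ℝ) ^ (1 - δ) ≤ 2 * A := by linarith
    have h2 := Real.log_le_log (by positivity) h1
    rw [Real.log_rpow hX0, ← hL, Real.log_mul (by norm_num) (by linarith)] at h2
    have h3 : Real.log 2 ≤ 2 - 1 := Real.log_le_sub_one_of_pos (by norm_num)
    linarith
  have hlA1 : Real.log (A1 : ℝ) ≤ δ * L := by
    have := Real.log_le_log (by exact_mod_cast (by omega : 0 < A1) : (0 : ℝ) < A1) hA1le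
    rwa [Real.log_rpow hX0, ← hL] at this
  have hlA10 : 0 ≤ Real.log (A1 : ℝ) := Real.log_natCast_nonneg A1
  have hlA0 : 0 ≤ Real.log (A : ℝ) := Real.log_natCast_nonneg A
  have hCC := CC_pos
  -- the sums
  have e1 : ∀ M : ℕ, ∑ x ∈ PPr M, CC * hh x.1 * ((X : ℝ) / x.1) = X * (CC * ∑ a ∈ Icc 1 M, (rh a : ℝ) * hh a / a) := by
    intro M
    rw [pair_sum_one M (fun a => CC * hh a * ((X : ℝ) / a)), mul_sum, mul_sum]
    apply sum_congr rfl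
    intro a _
    ring
  have hnn : ∀ x : ℕ × ℕ, 0 ≤ CC * hh x.1 * ((X : ℝ) / x.1) := by
    intro x
    have := hh_ge x.1
    positivity
  have hfam : ∑ x ∈ Fam δ X, CC * hh x.1 * ((X : ℝ) / x.1) =
      ∑ x ∈ (PPr A).filter (fun x => ¬ (x.1 : ℝ) < (X : ℝ) ^ δ), CC * hh x.1 * ((X : ℝ) / x.1) := by
    rw [Fam_eq δ hδ.le X (by omega), hA]
  have hsplit : ∑ x ∈ PPr A, CC * hh x.1 * ((X : ℝ) / x.1) =
      ∑ x ∈ (PPr A).filter (fun x => (x.1 : ℝ) < (X : ℝ) ^ δ), CC * hh x.1 * ((X : ℝ) / x.1) +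
      ∑ x ∈ (PPr A).filter (fun x => ¬ (x.1 : ℝ) < (X : ℝ) ^ δ), CC * hh x.1 * ((X : ℝ) / x.1) := by
    rw [sum_filter_add_sum_filter_not]
  have hsm : ∑ x ∈ (PPr A).filter (fun x => (x.1 : ℝ) < (X : ℝ) ^ δ), CC * hh x.1 * ((X : ℝ) / x.1) ≤
      ∑ x ∈ PPr A1, CC * hh x.1 * ((X : ℝ) / x.1) := by
    apply sum_le_sum_of_subset_of_nonneg
    · intro x hx
      rw [mem_filter, mem_PPr] at hx
      rw [mem_PPr]
      refine ⟨⟨hx.1.1.1, ?_⟩, hx.1.2⟩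
      rw [hA1']
      exact Nat.le_floor hx.2.le
    · intro x _ _
      exact hnn x
  have hsm0 : 0 ≤ ∑ x ∈ (PPr A).filter (fun x => (x.1 : ℝ) < (X : ℝ) ^ δ), CC * hh x.1 * ((X : ℝ) / x.1) :=
    sum_nonneg fun x _ => hnn x
  rw [e1] at hsplit hsm
  have a1 := abs_le.1 g1
  have a2 := abs_le.1 g2
  obtain ⟨S1, hS1⟩ : ∃ S1, S1 = CC * ∑ a ∈ Icc 1 A, (rh a : ℝ) * hh a / a := ⟨_, rfl⟩
  obtain ⟨S2, hS2⟩ : ∃ S2, S2 = CC * ∑ a ∈ Icc 1 A1, (rh a : ℝ) * hh a / a := ⟨_, rfl⟩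
  rw [← hS1] at hsplit a1
  rw [← hS2] at hsm a2
  have b1 : S1 ≤ (1 + η) * L := by nlinarith [a1.2]
  have b2 : (1 - η) * ((1 - δ) * L - 1) ≤ S1 := by nlinarith [a1.1]
  have b3 : S2 ≤ (1 + η) * (δ * L) := by nlinarith [a2.2]
  have b4 : (1 - ε) * L ≤ S1 - S2 := by
    have c1 : (1 - η) * ((1 - δ) * L - 1) ≥ (1 - η - δ) * L - 1 := by
      have : 0 ≤ η * (δ * L) := by positivity
      nlinarith
    have c2 : (1 + η) * (δ * L) ≤ 2 * (δ * L) := mul_le_mul_of_nonneg_right (by linarith) (by positivity)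
    nlinarith
  have c3 : (X : ℝ) * S1 ≤ X * ((1 + η) * L) := mul_le_mul_of_nonneg_left b1 hX0.le
  have c4 : η * (X * L) ≤ ε * (X * L) := mul_le_mul_of_nonneg_right (by linarith) (by positivity)
  have c5 : (X : ℝ) * ((1 - ε) * L) ≤ X * (S1 - S2) := mul_le_mul_of_nonneg_left b4 hX0.le
  rw [hfam, abs_le]
  constructor
  · linarith
  · linarith

end Pool.Agent.K4H50.HL
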