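import Pool.Agent.K4H50.HL.B17

/-!
# The upper bound for a positive proportion of the family
-/

set_option autoImplicit false

namespace Pool.Agent.K4H50.HL

open Finset Filter Topology

theorem th_ge (X a b N : ℕ) (ha : 0 < a) (hb : b < a) (hab : a ∣ b ^ 2 + 1)
    (hlog : 0 ≤ Real.log (((N : ℝ) + 1) ^ 2 / a)) :
    ((TT X a b : ℝ) - ((N : ℝ) / a + 1)) * Real.log (((N : ℝ) + 1) ^ 2 / a) ≤ th X a b := by
  have ha0 : (0 : ℝ) < a := by exact_mod_cast ha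
  obtain ⟨S, hS⟩ : ∃ S : Finset ℕ, S = (Icc 1 X).filter (fun n => n % a = b ∧ Nat.Prime ((n ^ 2 + 1) / a)) := ⟨_, rfl⟩
  have h1 : (TT X a b : ℝ) = ((S.filter (fun n => n ≤ N)).card : ℝ) + ((S.filter (fun n => ¬ n ≤ N)).card : ℝ) := by
    have : TT X a b = S.card := by rw [hS]; rfl
    rw [this, ← card_filter_add_card_filter_not (s := S) (fun n => n ≤ N)]
    push_cast
    rfl
  have h2 : ((S.filter (fun n => n ≤ N)).card : ℝ) ≤ (N : ℝ) / a + 1 := by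
    have h3 := (abs_le.1 (card_mod N a b ha)).2
    have h4 : (S.filter (fun n => n ≤ N)).card ≤ ((Icc 1 N).filter (fun n => n ≡ b [MOD a])).card := by
      apply card_le_card
      intro n hn
      rw [hS, mem_filter, mem_filter, mem_Icc] at hn
      rw [mem_filter, mem_Icc]
      refine ⟨⟨hn.1.1.1, hn.2⟩, ?_⟩
      unfold Nat.ModEq
      rw [hn.1.2.1, Nat.mod_eq_of_lt hb]
    have h5 : ((S.filter (fun n => n ≤ N)).card : ℝ) ≤ (((Icc 1 N).filter (fun n => n ≡ b [MOD a])).card : ℝ) := by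
      exact_mod_cast h4
    linarith
  have h3 : ((S.filter (fun n => ¬ n ≤ N)).card : ℝ) * Real.log (((N : ℝ) + 1) ^ 2 / a) ≤ th X a b := by
    rw [← nsmul_eq_mul, ← sum_const]
    have h4 : ∑ n ∈ S.filter (fun n => ¬ n ≤ N), Real.log (((N : ℝ) + 1) ^ 2 / a) ≤
        ∑ n ∈ S.filter (fun n => ¬ n ≤ N), Real.log (((n ^ 2 + 1) / a : ℕ) : ℝ) := by
      apply sum_le_sum
      intro n hn
      rw [hS, mem_filter, mem_filter, mem_Icc] at hn
      obtain ⟨⟨⟨h5, h6⟩, h7, h8⟩, h9⟩ := hn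
      have hd : a ∣ n ^ 2 + 1 := by
        have h5 : n ≡ b [MOD a] := by rw [← h7]; exact (Nat.mod_modEq n a).symm
        exact (((h5.pow 2).add_right 1).dvd_iff (dvd_refl a)).2 hab
      obtain ⟨q, hq⟩ := hd
      rw [hq, Nat.mul_div_cancel_left q ha] at h8 ⊢
      have hq' : (n : ℝ) ^ 2 + 1 = a * q := by exact_mod_cast hq
      have hn1 : (N : ℝ) + 1 ≤ n := by exact_mod_cast (by omega : N + 1 ≤ n)
      have hN0 : (0 : ℝ) ≤ N := Nat.cast_nonneg N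
      apply Real.log_le_log (by positivity)
      rw [div_le_iff₀ ha0]
      nlinarith
    refine h4.trans ?_
    unfold th
    rw [← hS]
    apply sum_le_sum_of_subset_of_nonneg (filter_subset _ _)
    intro n _ _
    exact Real.log_natCast_nonneg _
  rw [h1]
  refine le_trans ?_ h3
  apply mul_le_mul_of_nonneg_right _ hlog
  linarith

open Classical in
/-- the pairs with few primes -/
noncomputable def Poor (ε δ : ℝ) (X : ℕ) : Finset (ℕ × ℕ) := (PPr X).filter (fun x =>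
  (X : ℝ) ^ δ ≤ x.1 ∧ (x.1 : ℝ) ≤ (X : ℝ) ^ (1 - δ) ∧ (TT X x.1 x.2 : ℝ) ≤ (1 + ε) * pred X x.1)

theorem main_upper (ε : ℝ) (hε : 0 < ε) (hε1 : ε ≤ 1) : ∃ δ κ : ℝ, 0 < δ ∧ δ ≤ 1 / 400 ∧ 0 < κ ∧
    ∀ᶠ X : ℕ in atTop, κ * Real.log X ≤ ∑ x ∈ Poor ε δ X, 1 / (x.1 : ℝ) := by
  classical
  obtain ⟨C2, hC2, hS2⟩ := sum_rh_h4
  obtain ⟨δ1, hδ1, hδ14, havg1⟩ := avg_th (ε / 16) (by positivity)
  obtain ⟨δ2, hδ2, hδ24, havg2⟩ := avg_pred (ε / 16) (by positivity)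
  obtain ⟨δ, hδdef⟩ : ∃ δ : ℝ, δ = min δ1 δ2 := ⟨_, rfl⟩
  have hδ0 : 0 < δ := by rw [hδdef]; positivity
  have hδ4 : δ ≤ 1 / 400 := by rw [hδdef]; exact (min_le_left _ _).trans hδ14
  have hCC := CC_pos
  obtain ⟨σ, hσ⟩ : ∃ σ : ℝ, σ = ε / 32 := ⟨_, rfl⟩
  have hσ0 : 0 < σ := by rw [hσ]; positivity
  refine ⟨δ, (ε / (8 * CC)) ^ 2 / C2, hδ0, hδ4, by positivity, ?_⟩
  filter_upwards [havg1 δ hδ0 (by rw [hδdef]; exact min_le_left _ _), havg2 δ hδ0 (by rw [hδdef]; exact min_le_right _ _),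
    log_small2 σ hσ0 (32 / (3 * (ε * CC))), log_small2 δ hδ0 (32 / (3 * (ε * CC))), eventually_ge_atTop 3]
    with X g1 g2 g3 g4 gX3
  have hX3 : (3 : ℝ) ≤ X := by exact_mod_cast gX3
  have hX0 : (0 : ℝ) < X := by linarith
  have hX1 : (1 : ℝ) ≤ X := by linarith
  obtain ⟨L, hL⟩ : ∃ L, L = Real.log (X : ℝ) := ⟨_, rfl⟩
  have hL0 : 0 < L := by rw [hL]; exact Real.log_pos (by linarith)
  rw [← hL] at g1 g2 g3 g4 ⊢
  have hεC : 0 < ε * CC := by positivity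
  have hbig : 32 * L ≤ ε * CC * (3 * L ^ 2) := by
    have h1 := g3.1
    rw [div_le_iff₀ (by positivity)] at h1
    nlinarith
  have hbσ : 32 * L ≤ ε * CC * (X : ℝ) ^ σ := hbig.trans (mul_le_mul_of_nonneg_left g3.2 hεC.le)
  have hbδ : 32 * L ≤ ε * CC * (X : ℝ) ^ δ := hbig.trans (mul_le_mul_of_nonneg_left g4.2 hεC.le)
  obtain ⟨N, hN⟩ : ∃ N, N = ⌊(X : ℝ) ^ (1 - σ)⌋₊ := ⟨_, rfl⟩
  have hNle : (N : ℝ) ≤ (X : ℝ) ^ (1 - σ) := by rw [hN]; exact Nat.floor_le (by positivity)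
  have hNge : (X : ℝ) ^ (1 - σ) < N + 1 := by rw [hN]; exact Nat.lt_floor_add_one _
  have hXσ : (X : ℝ) ^ (1 - σ) * (X : ℝ) ^ σ = X := by
    rw [← Real.rpow_add hX0]
    have : 1 - σ + σ = 1 := by ring
    rw [this, Real.rpow_one]
  have hXδ : (X : ℝ) ^ (1 - δ) * (X : ℝ) ^ δ = X := by
    rw [← Real.rpow_add hX0]
    have : 1 - δ + δ = 1 := by ring
    rw [this, Real.rpow_one]
  -- splitting the family
  have hsplit : ∀ F : ℕ × ℕ → ℝ, ∑ x ∈ Fam δ X, F x =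
      ∑ x ∈ (Fam δ X).filter (fun x => (TT X x.1 x.2 : ℝ) ≤ (1 + ε) * pred X x.1), F x +
      ∑ x ∈ (Fam δ X).filter (fun x => ¬ (TT X x.1 x.2 : ℝ) ≤ (1 + ε) * pred X x.1), F x := by
    intro F
    rw [sum_filter_add_sum_filter_not]
  have hPoor : (Fam δ X).filter (fun x => (TT X x.1 x.2 : ℝ) ≤ (1 + ε) * pred X x.1) = Poor ε δ X := by
    unfold Fam Poor
    rw [filter_filter]
    apply filter_congr
    intro x _
    rw [and_assoc]
  have hE0 : ∀ x : ℕ × ℕ, 0 ≤ CC * hh x.1 * ((X : ℝ) / x.1) := by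
    intro x
    have := hh_ge x.1
    positivity
  have hbad : ∀ x ∈ (Fam δ X).filter (fun x => ¬ (TT X x.1 x.2 : ℝ) ≤ (1 + ε) * pred X x.1),
      (1 + ε / 2) * (CC * hh x.1 * ((X : ℝ) / x.1)) ≤ th X x.1 x.2 := by
    intro x hx
    rw [mem_filter] at hx
    obtain ⟨h1, h2⟩ := hx
    unfold Fam at h1
    rw [mem_filter, mem_PPr] at h1
    obtain ⟨⟨⟨h3, h4⟩, h5, h6⟩, h7, h8⟩ := h1
    push Not at h2
    have hx1 : (1 : ℝ) ≤ x.1 := by exact_mod_cast h3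
    have hx0 : (0 : ℝ) < x.1 := by linarith
    have hxX : (x.1 : ℝ) ≤ X := by exact_mod_cast h4
    have hhh := hh_ge x.1
    obtain ⟨ℓ, hℓ⟩ : ∃ ℓ, ℓ = Real.log ((X : ℝ) ^ 2 / x.1) := ⟨_, rfl⟩
    have hℓL : L ≤ ℓ := by
      rw [hL, hℓ]
      apply Real.log_le_log hX0
      rw [le_div_iff₀ hx0]
      nlinarith
    have hℓ2 : ℓ ≤ 2 * L := by
      have : Real.log ((X : ℝ) ^ 2 / x.1) ≤ Real.log ((X : ℝ) ^ 2) := by
        apply Real.log_le_log (by positivity)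
        exact div_le_self (by positivity) hx1
      rw [Real.log_pow, ← hL, ← hℓ] at this
      push_cast at this
      exact this
    have hℓ0 : 0 < ℓ := by linarith
    obtain ⟨E, hE⟩ : ∃ E, E = CC * hh x.1 * ((X : ℝ) / x.1) := ⟨_, rfl⟩
    have hEpos : 0 < E := by rw [hE]; positivity
    have hpred : pred X x.1 = E / ℓ := by
      unfold pred
      rw [hE, hℓ]
      ring
    rw [hpred] at h2
    rw [← hE]
    -- the logarithm
    have hlogN : (1 - 2 * σ) * ℓ ≤ Real.log (((N : ℝ) + 1) ^ 2 / x.1) := by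
      have h9 : Real.log (((X : ℝ) ^ (1 - σ)) ^ 2 / x.1) ≤ Real.log (((N : ℝ) + 1) ^ 2 / x.1) := by
        apply Real.log_le_log (by positivity)
        apply div_le_div_of_nonneg_right _ hx0.le
        exact pow_le_pow_left₀ (by positivity) hNge.le 2
      have h10 : Real.log (((X : ℝ) ^ (1 - σ)) ^ 2 / x.1) = 2 * ((1 - σ) * L) - Real.log x.1 := by
        rw [Real.log_div (by positivity) (by linarith), Real.log_pow, Real.log_rpow hX0, ← hL]
        push_cast; ring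
      have h11 : ℓ = 2 * L - Real.log x.1 := by
        rw [hℓ, Real.log_div (by positivity) (by linarith), Real.log_pow, ← hL]
        push_cast; ring
      rw [h10] at h9
      nlinarith
    have hσ1 : 0 ≤ 1 - 2 * σ := by rw [hσ]; linarith
    have hl0 : 0 ≤ Real.log (((N : ℝ) + 1) ^ 2 / x.1) := le_trans (by positivity) hlogN
    have h12 := th_ge X x.1 x.2 N h3 h5 h6 hl0
    -- the small terms
    have h13 : (N : ℝ) / x.1 + 1 ≤ ε / 8 * (E / ℓ) := by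
      have hElow : CC * ((X : ℝ) / x.1) / (2 * L) ≤ E / ℓ := by
        rw [hE]
        apply div_le_div₀ (by positivity) _ hℓ0 hℓ2
        nlinarith [mul_pos hCC (div_pos hX0 hx0)]
      have h14 : (N : ℝ) / x.1 ≤ ε / 16 * (CC * ((X : ℝ) / x.1) / (2 * L)) := by
        have h15 : (X : ℝ) ^ (1 - σ) * (32 * L) ≤ ε * CC * X := by
          calc (X : ℝ) ^ (1 - σ) * (32 * L) ≤ (X : ℝ) ^ (1 - σ) * (ε * CC * (X : ℝ) ^ σ) :=
                mul_le_mul_of_nonneg_left hbσ (by positivity)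
            _ = ε * CC * ((X : ℝ) ^ (1 - σ) * (X : ℝ) ^ σ) := by ring
            _ = ε * CC * X := by rw [hXσ]
        have h16 : (N : ℝ) * (32 * L) ≤ ε * CC * X := (mul_le_mul_of_nonneg_right hNle (by positivity)).trans h15
        have e1 : ε / 16 * (CC * ((X : ℝ) / x.1) / (2 * L)) = (ε * CC * X) / (32 * L) / x.1 := by
          field_simp
          ring
        rw [e1]
        apply div_le_div_of_nonneg_right _ hx0.le
        rw [le_div_iff₀ (by positivity)]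
        exact h16
      have h17 : 1 ≤ ε / 16 * (CC * ((X : ℝ) / x.1) / (2 * L)) := by
        have h18 : (X : ℝ) ^ δ ≤ X / x.1 := by
          rw [le_div_iff₀ hx0]
          calc (X : ℝ) ^ δ * x.1 ≤ (X : ℝ) ^ δ * (X : ℝ) ^ (1 - δ) := mul_le_mul_of_nonneg_left h8 (by positivity)
            _ = X := by rw [mul_comm]; exact hXδ
        have e1 : ε / 16 * (CC * ((X : ℝ) / x.1) / (2 * L)) = (ε * CC * (X / x.1)) / (32 * L) := by
          field_simp
          ring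
        rw [e1, le_div_iff₀ (by positivity), one_mul]
        exact hbδ.trans (mul_le_mul_of_nonneg_left h18 hεC.le)
      have h19 : ε / 16 * (CC * ((X : ℝ) / x.1) / (2 * L)) ≤ ε / 16 * (E / ℓ) :=
        mul_le_mul_of_nonneg_left hElow (by positivity)
      linarith
    have hEl : 0 < E / ℓ := by positivity
    have h20 : (1 + 7 * ε / 8) * (E / ℓ) ≤ (TT X x.1 x.2 : ℝ) - ((N : ℝ) / x.1 + 1) := by
      have e2 : (1 + 7 * ε / 8) * (E / ℓ) = (1 + ε) * (E / ℓ) - ε / 8 * (E / ℓ) := by ring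
      rw [e2]
      linarith
    have h21 : ((1 + 7 * ε / 8) * (E / ℓ)) * ((1 - 2 * σ) * ℓ) ≤ th X x.1 x.2 := by
      refine le_trans ?_ h12
      apply mul_le_mul h20 hlogN (by positivity)
      exact le_trans (by positivity) h20
    refine le_trans ?_ h21
    have e3 : ((1 + 7 * ε / 8) * (E / ℓ)) * ((1 - 2 * σ) * ℓ) = ((1 + 7 * ε / 8) * (1 - ε / 16)) * E := by
      rw [hσ]
      field_simp
      ring
    rw [e3]
    apply mul_le_mul_of_nonneg_right _ hEpos.le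
    nlinarith
  -- the sums
  have s1 : (1 + ε / 2) * ∑ x ∈ (Fam δ X).filter (fun x => ¬ (TT X x.1 x.2 : ℝ) ≤ (1 + ε) * pred X x.1),
      CC * hh x.1 * ((X : ℝ) / x.1) ≤ (1 + ε / 16) * (X * L) := by
    rw [mul_sum]
    refine (sum_le_sum hbad).trans ?_
    have h1 : ∑ x ∈ (Fam δ X).filter (fun x => ¬ (TT X x.1 x.2 : ℝ) ≤ (1 + ε) * pred X x.1), th X x.1 x.2 ≤
        ∑ x ∈ Fam δ X, th X x.1 x.2 :=
      sum_le_sum_of_subset_of_nonneg (filter_subset _ _) (fun x _ _ => th_nonneg _ _ _)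
    have h2 := (abs_le.1 g1).2
    linarith
  have s2 := (abs_le.1 g2).1
  rw [hsplit, hPoor] at s2
  obtain ⟨Sb, hSb⟩ : ∃ Sb, Sb = ∑ x ∈ (Fam δ X).filter (fun x => ¬ (TT X x.1 x.2 : ℝ) ≤ (1 + ε) * pred X x.1),
      CC * hh x.1 * ((X : ℝ) / x.1) := ⟨_, rfl⟩
  rw [← hSb] at s1 s2
  have hXL : 0 < (X : ℝ) * L := by positivity
  have s3 : ε / 8 * (X * L) ≤ ∑ x ∈ Poor ε δ X, CC * hh x.1 * ((X : ℝ) / x.1) := by
    have s4 : Sb ≤ (1 - 3 * ε / 16) * (X * L) := by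
      have s5 : (1 + ε / 16) * (X * L) ≤ (1 + ε / 2) * ((1 - 3 * ε / 16) * (X * L)) := by
        have s51 : 1 + ε / 16 ≤ (1 + ε / 2) * (1 - 3 * ε / 16) := by nlinarith
        have s52 := mul_le_mul_of_nonneg_right s51 hXL.le
        linarith
      have s6 := s1.trans s5
      exact le_of_mul_le_mul_left s6 (by positivity)
    linarith
  have s7 : ∑ x ∈ Poor ε δ X, CC * hh x.1 * ((X : ℝ) / x.1) = CC * X * ∑ x ∈ Poor ε δ X, hh x.1 / x.1 := by
    rw [mul_sum]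
    apply sum_congr rfl
    intro x _
    ring
  have hlow : ε / (8 * CC) * L ≤ ∑ x ∈ Poor ε δ X, hh x.1 / x.1 := by
    rw [s7] at s3
    have b1 : (CC * X) * (ε / (8 * CC) * L) ≤ (CC * X) * ∑ x ∈ Poor ε δ X, hh x.1 / x.1 := by
      refine le_trans (le_of_eq ?_) s3
      field_simp
    exact le_of_mul_le_mul_left b1 (by positivity)
  have hG1 : ∀ x ∈ Poor ε δ X, 1 ≤ x.1 := by
    intro x hx
    unfold Poor at hx
    rw [mem_filter, mem_PPr] at hx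
    exact hx.1.1.1
  have hc := cauchy_pairs (Poor ε δ X) hG1 hh
  have hsec : ∑ x ∈ Poor ε δ X, hh x.1 ^ 2 / x.1 ≤ C2 * L := by
    have b0 : ∑ x ∈ Poor ε δ X, hh x.1 ^ 2 / x.1 ≤ ∑ x ∈ Poor ε δ X, h4 x.1 ^ 2 / x.1 := by
      apply sum_le_sum
      intro x _
      apply div_le_div_of_nonneg_right _ (Nat.cast_nonneg _)
      exact pow_le_pow_left₀ (by linarith [hh_ge x.1]) (hh_le_h4 x.1) 2
    have b1 : ∑ x ∈ Poor ε δ X, h4 x.1 ^ 2 / x.1 ≤ ∑ x ∈ PPr X, h4 x.1 ^ 2 / x.1 := by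
      apply sum_le_sum_of_subset_of_nonneg
      · intro x hx
        unfold Poor at hx
        exact (mem_filter.1 hx).1
      · intro x _ _; positivity
    rw [pair_sum_one X (fun a => h4 a ^ 2 / a)] at b1
    have e5 : ∑ a ∈ Icc 1 X, (rh a : ℝ) * (h4 a ^ 2 / a) = ∑ a ∈ Icc 1 X, (rh a : ℝ) * h4 a ^ 2 / a :=
      sum_congr rfl (fun a _ => by ring)
    rw [e5] at b1
    have b2 := hS2 X gX3
    rw [← hL] at b2
    exact b0.trans (b1.trans b2)
  have hsum0 : 0 ≤ ∑ x ∈ Poor ε δ X, 1 / (x.1 : ℝ) := sum_nonneg fun x _ => by positivity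
  have hfin : (ε / (8 * CC) * L) ^ 2 ≤ (C2 * L) * ∑ x ∈ Poor ε δ X, 1 / (x.1 : ℝ) := by
    have b3 : 0 ≤ ε / (8 * CC) * L := by positivity
    calc (ε / (8 * CC) * L) ^ 2 ≤ (∑ x ∈ Poor ε δ X, hh x.1 / x.1) ^ 2 := pow_le_pow_left₀ b3 hlow 2
      _ ≤ _ := hc
      _ ≤ _ := mul_le_mul_of_nonneg_right hsec hsum0
  have e6 : (ε / (8 * CC)) ^ 2 / C2 * L = (ε / (8 * CC) * L) ^ 2 / (C2 * L) := by
    field_simp
  rw [e6, div_le_iff₀ (by positivity)]
  linarith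

end Pool.Agent.K4H50.HL
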