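import Pool.Agent.K4H50.HL.A4
import Pool.Agent.K4H50.HL.B1
import Pool.Agent.Helper559.Mertens

/-!
# Mertens for the roots of `x ^ 2 + 1`
-/

set_option autoImplicit false

namespace Pool.Agent.K4H50.HL

open Finset Filter Topology

theorem rh_eq (p : ℕ) (hp : p.Prime) : (rh p : ℝ) = 1 + cc p := by
  rcases eq_or_ne p 2 with rfl | h2
  · have e : rh 2 = 1 := by decide
    rw [e, cc_even (by norm_num)]; norm_num
  haveI : Fact p.Prime := ⟨hp⟩
  have h := legendreSym.card_sqrts p h2 (-1)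
  rw [legendreSym.at_neg_one h2] at h
  have hc : rh p = (({x : ZMod p | x ^ 2 = ((-1 : ℤ) : ZMod p)} : Set (ZMod p)).toFinset).card := by
    unfold rh
    have key : ∀ x : ℕ, p ∣ x ^ 2 + 1 ↔ (x : ZMod p) ^ 2 = ((-1 : ℤ) : ZMod p) := by
      intro x
      rw [← ZMod.natCast_eq_zero_iff]
      push_cast
      rw [eq_neg_iff_add_eq_zero]
    refine card_bij (fun (x : ℕ) _ => (x : ZMod p)) ?_ ?_ ?_
    · intro x hx
      rw [mem_filter] at hx
      rw [Set.mem_toFinset]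
      exact (key x).1 hx.2
    · intro x hx y hy hxy
      rw [mem_filter, mem_range] at hx hy
      have := (ZMod.natCast_eq_natCast_iff' x y p).1 hxy
      rwa [Nat.mod_eq_of_lt hx.1, Nat.mod_eq_of_lt hy.1] at this
    · intro z hz
      rw [Set.mem_toFinset] at hz
      refine ⟨z.val, ?_, ZMod.natCast_zmod_val z⟩
      rw [mem_filter, mem_range]
      refine ⟨ZMod.val_lt z, (key _).2 ?_⟩
      rw [ZMod.natCast_zmod_val]
      exact hz
  rw [← hc] at h
  unfold cc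
  have h' : ((rh p : ℤ) : ℝ) = ((ZMod.χ₄ (p : ZMod 4) + 1 : ℤ) : ℝ) := by rw [h]
  push_cast at h'
  rw [h']
  ring

theorem npr_summable : Summable (fun n : ℕ => (if n.Prime then 0 else
    (ArithmeticFunction.vonMangoldt n) / (n : ℝ))) := by
  have h := ArithmeticFunction.vonMangoldt.summable_residueClass_non_primes_div (q := 1) (0 : ZMod 1)
  refine h.congr fun n => ?_
  have e : ArithmeticFunction.vonMangoldt.residueClass (0 : ZMod 1) n =
      ArithmeticFunction.vonMangoldt n := by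
    unfold ArithmeticFunction.vonMangoldt.residueClass
    rw [Set.indicator_of_mem]
    exact Subsingleton.elim _ _
  split_ifs
  · simp
  · rw [e]

theorem npr_nonneg (n : ℕ) : 0 ≤ (if n.Prime then 0 else
    (ArithmeticFunction.vonMangoldt n) / (n : ℝ)) := by
  split_ifs
  · exact le_rfl
  · exact div_nonneg ArithmeticFunction.vonMangoldt_nonneg (Nat.cast_nonneg _)

theorem npr_le : ∃ C : ℝ, 0 < C ∧ ∀ s : Finset ℕ, ∑ n ∈ s, (if n.Prime then 0 else
    (ArithmeticFunction.vonMangoldt n) / (n : ℝ)) ≤ C := by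
  refine ⟨(∑' n : ℕ, (if n.Prime then 0 else
    (ArithmeticFunction.vonMangoldt n) / (n : ℝ))) + 1, ?_, fun s => ?_⟩
  · have h0 : 0 ≤ ∑' n : ℕ, (if n.Prime then 0 else
      (ArithmeticFunction.vonMangoldt n) / (n : ℝ)) := tsum_nonneg npr_nonneg
    linarith
  · have := npr_summable.sum_le_tsum s (fun n _ => npr_nonneg n)
    linarith

/-- **Mertens for the roots of `x ^ 2 + 1`.** -/
theorem mert_rh : ∃ C : ℝ, 0 < C ∧ ∀ X : ℕ, 1 ≤ X →
    |∑ p ∈ (Icc 1 X).filter Nat.Prime, (rh p : ℝ) * (Real.log p / p) - Real.log X| ≤ C := by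
  obtain ⟨C1, hC1, h1⟩ := mert_chi
  obtain ⟨C2, hC2, h2⟩ := npr_le
  refine ⟨C1 + C2 + 7, by positivity, fun X hX => ?_⟩
  have hl4 : Real.log 4 ≤ 7 := by
    have := Real.log_le_sub_one_of_pos (show (0 : ℝ) < 4 by norm_num)
    linarith
  have e1 : ∑ p ∈ (Icc 1 X).filter Nat.Prime, (rh p : ℝ) * (Real.log p / p) =
      Pool.Agent.Helper559.A1 X + ∑ d ∈ Icc 1 X, cc d * (ArithmeticFunction.vonMangoldt d / d) -
        ∑ d ∈ Icc 1 X, cc d * (if d.Prime then 0 else (ArithmeticFunction.vonMangoldt d) / (d : ℝ)) := by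
    rw [add_sub_assoc, ← sum_sub_distrib]
    unfold Pool.Agent.Helper559.A1
    rw [sum_filter, sum_filter, ← sum_add_distrib]
    apply sum_congr rfl
    intro d _
    split_ifs with hd
    · rw [rh_eq d hd, ArithmeticFunction.vonMangoldt_apply_prime hd]
      ring
    · ring
  have h3 : |∑ d ∈ Icc 1 X, cc d * (if d.Prime then 0 else (ArithmeticFunction.vonMangoldt d) / (d : ℝ))| ≤ C2 := by
    refine (abs_sum_le_sum_abs _ _).trans ((sum_le_sum fun d _ => ?_).trans (h2 (Icc 1 X)))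
    rw [abs_mul, abs_of_nonneg (npr_nonneg d)]
    exact mul_le_of_le_one_left (npr_nonneg d) (abs_cc d)
  have h4 := Pool.Agent.Helper559.A1_le X hX
  have h5 := Pool.Agent.Helper559.le_A1 X hX
  have h6 := abs_le.1 (h1 X)
  have h7 := abs_le.1 h3
  rw [e1, abs_le]
  constructor <;> linarith [h6.1, h6.2, h7.1, h7.2]

/-- the number of `n ≤ X` with `d ∣ n ^ 2 + 1` -/
def NN (d X : ℕ) : ℕ := ((Icc 1 X).filter (fun n => d ∣ n ^ 2 + 1)).card

theorem card_mod (X d x : ℕ) (hd : 0 < d) :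
    |((((Icc 1 X).filter (fun n => n ≡ x [MOD d])).card : ℕ) : ℝ) - (X : ℝ) / d| ≤ 1 := by
  have h := Nat.Ioc_filter_modEq_card 0 X hd x
  have e : Ioc 0 X = Icc 1 X := by ext n; rw [mem_Ioc, mem_Icc]; omega
  rw [e] at h
  obtain ⟨N, hN⟩ : ∃ N, N = ((Icc 1 X).filter (fun n => n ≡ x [MOD d])).card := ⟨_, rfl⟩
  rw [← hN] at h ⊢
  have hd0 : (0 : ℚ) < d := by exact_mod_cast hd
  have f1 := Int.floor_le (((X : ℚ) - x) / d)
  have f2 := Int.lt_floor_add_one (((X : ℚ) - x) / d)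
  have f3 := Int.floor_le ((((0 : ℕ) : ℚ) - x) / d)
  have f4 := Int.lt_floor_add_one ((((0 : ℕ) : ℚ) - x) / d)
  have hX0 : (0 : ℚ) ≤ (X : ℚ) / d := by positivity
  have e1 : ((X : ℚ) - x) / d - (((0 : ℕ) : ℚ) - x) / d = (X : ℚ) / d := by
    push_cast; ring
  have hNq : ((N : ℤ) : ℚ) = ((max (⌊((X : ℚ) - x) / d⌋ - ⌊(((0 : ℕ) : ℚ) - x) / d⌋) 0 : ℤ) : ℚ) := by
    exact_mod_cast h
  push_cast at hNq
  have hQ : |(N : ℚ) - (X : ℚ) / d| ≤ 1 := by
    rw [hNq, abs_le]
    push_cast at f1 f2 f3 f4 e1 ⊢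
    rcases le_total (0 : ℚ) ((⌊((X : ℚ) - x) / d⌋ : ℚ) - (⌊((0 : ℚ) - x) / d⌋ : ℚ)) with hm | hm
    · rw [max_eq_left hm]
      constructor <;> linarith
    · rw [max_eq_right hm]
      constructor <;> linarith
  have : ((|(N : ℚ) - (X : ℚ) / d| : ℚ) : ℝ) ≤ ((1 : ℚ) : ℝ) := by exact_mod_cast hQ
  push_cast at this
  exact this

theorem NN_sub (d X : ℕ) (hd : 0 < d) : |(NN d X : ℝ) - (rh d : ℝ) * ((X : ℝ) / d)| ≤ rh d := by
  have e : NN d X = ∑ x ∈ (range d).filter (fun x => d ∣ x ^ 2 + 1),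
      ((Icc 1 X).filter (fun n => n ≡ x [MOD d])).card := by
    unfold NN
    rw [← card_biUnion]
    · congr 1
      ext n
      rw [mem_filter, mem_biUnion]
      constructor
      · rintro ⟨h1, h2⟩
        refine ⟨n % d, ?_, ?_⟩
        · rw [mem_filter, mem_range]
          refine ⟨Nat.mod_lt _ hd, ?_⟩
          have : n % d ≡ n [MOD d] := Nat.mod_modEq n d
          have h3 : (n % d) ^ 2 + 1 ≡ n ^ 2 + 1 [MOD d] := (this.pow 2).add_right 1
          exact (h3.dvd_iff (dvd_refl d)).2 h2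
        · rw [mem_filter]
          exact ⟨h1, (Nat.mod_modEq n d).symm⟩
      · rintro ⟨x, hx, hn⟩
        rw [mem_filter] at hx hn
        refine ⟨hn.1, ?_⟩
        have h3 : n ^ 2 + 1 ≡ x ^ 2 + 1 [MOD d] := (hn.2.pow 2).add_right 1
        exact (h3.dvd_iff (dvd_refl d)).2 hx.2
    · intro x hx y hy hxy
      simp only [coe_filter, mem_range, Set.mem_setOf_eq] at hx hy
      rw [Function.onFun, disjoint_left]
      intro n hn1 hn2
      rw [mem_filter] at hn1 hn2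
      have : x ≡ y [MOD d] := hn1.2.symm.trans hn2.2
      exact hxy (by have h5 := this; unfold Nat.ModEq at h5; rwa [Nat.mod_eq_of_lt hx.1, Nat.mod_eq_of_lt hy.1] at h5)
  rw [e]
  unfold rh
  push_cast
  have e2 : ((((range d).filter (fun x => d ∣ x ^ 2 + 1)).card : ℕ) : ℝ) * ((X : ℝ) / d) =
      ∑ x ∈ (range d).filter (fun x => d ∣ x ^ 2 + 1), ((X : ℝ) / d) := by
    rw [sum_const, nsmul_eq_mul]
  rw [e2, ← sum_sub_distrib]
  refine (abs_sum_le_sum_abs _ _).trans ((sum_le_sum fun x _ => card_mod X d x hd).trans (le_of_eq ?_))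
  rw [sum_const, nsmul_eq_mul, mul_one]

theorem rh_pp (d : ℕ) (hd : IsPrimePow d) : rh d ≤ 2 := by
  obtain ⟨p, k, hp, hk, rfl⟩ := hd
  have hpp : p.Prime := hp.nat_prime
  have hp1 : (p : ℤ) ≠ 1 := by exact_mod_cast hpp.one_lt.ne'
  have hdpos : 0 < p ^ k := pow_pos hpp.pos k
  rcases ((range (p ^ k)).filter (fun x => p ^ k ∣ x ^ 2 + 1)).eq_empty_or_nonempty with h | ⟨x0, hx0⟩
  · unfold rh
    rw [h]; simp
  rw [mem_filter, mem_range] at hx0
  rcases eq_or_ne p 2 with rfl | h2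
  · -- the prime two
    rcases Nat.lt_or_ge k 2 with hk2 | hk2
    · have : k = 1 := by omega
      subst this
      exact rh_le _ (by simpa using Nat.prime_two)
    · exfalso
      have h4 : 4 ∣ x0 ^ 2 + 1 := by
        refine dvd_trans ?_ hx0.2
        exact pow_dvd_pow 2 hk2
      rcases Nat.even_or_odd' x0 with ⟨j, hj | hj⟩
      · rw [hj] at h4
        have : (2 * j) ^ 2 = 4 * j ^ 2 := by ring
        omega
      · rw [hj] at h4
        have : (2 * j + 1) ^ 2 = 4 * (j ^ 2 + j) + 1 := by ring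
        omega
  have hsub : (range (p ^ k)).filter (fun x => p ^ k ∣ x ^ 2 + 1) ⊆ {x0, p ^ k - x0} := by
    intro y hy
    rw [mem_filter, mem_range] at hy
    have h7 : ((p : ℤ) ^ k) ∣ ((y : ℤ) - x0) * ((y : ℤ) + x0) := by
      have e : ((y : ℤ) - x0) * ((y : ℤ) + x0) = ((y ^ 2 + 1 : ℕ) : ℤ) - ((x0 ^ 2 + 1 : ℕ) : ℤ) := by
        push_cast; ring
      rw [e]
      have a1 : ((p ^ k : ℕ) : ℤ) ∣ ((y ^ 2 + 1 : ℕ) : ℤ) := Int.natCast_dvd_natCast.2 hy.2
      have a2 : ((p ^ k : ℕ) : ℤ) ∣ ((x0 ^ 2 + 1 : ℕ) : ℤ) := Int.natCast_dvd_natCast.2 hx0.2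
      push_cast at a1 a2 ⊢
      exact dvd_sub a1 a2
    have hnot : ¬ ((p : ℤ) ∣ ((y : ℤ) - x0) ∧ (p : ℤ) ∣ ((y : ℤ) + x0)) := by
      rintro ⟨b1, b2⟩
      have b3 : (p : ℤ) ∣ 2 * x0 := by
        have := dvd_sub b2 b1
        have e : ((y : ℤ) + x0) - ((y : ℤ) - x0) = 2 * x0 := by ring
        rwa [e] at this
      have hpi := Nat.prime_iff_prime_int.1 hpp
      rcases hpi.dvd_or_dvd b3 with b4 | b4
      · have : p ∣ 2 := by exact_mod_cast b4
        exact h2 ((Nat.prime_dvd_prime_iff_eq hpp Nat.prime_two).1 this)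
      · have b5 : p ∣ x0 := by exact_mod_cast b4
        have b6 : p ∣ x0 ^ 2 + 1 := (dvd_pow_self p (by omega)).trans hx0.2
        have b7 : p ∣ 1 := (Nat.dvd_add_right (dvd_pow b5 (by norm_num))).1 b6
        exact hpp.one_lt.ne' (Nat.dvd_one.1 b7)
    have hpi := Nat.prime_iff_prime_int.1 hpp
    have h8 : ((p : ℤ) ^ k) ∣ ((y : ℤ) - x0) ∨ ((p : ℤ) ^ k) ∣ ((y : ℤ) + x0) := by
      by_cases hc : (p : ℤ) ∣ ((y : ℤ) - x0)
      · left
        have hc2 : ¬ (p : ℤ) ∣ ((y : ℤ) + x0) := fun h => hnot ⟨hc, h⟩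
        have : IsCoprime ((p : ℤ) ^ k) ((y : ℤ) + x0) := ((Prime.coprime_iff_not_dvd hpi).2 hc2).pow_left
        exact this.dvd_of_dvd_mul_right h7
      · right
        have : IsCoprime ((p : ℤ) ^ k) ((y : ℤ) - x0) := ((Prime.coprime_iff_not_dvd hpi).2 hc).pow_left
        exact this.dvd_of_dvd_mul_left h7
    rw [mem_insert, mem_singleton]
    obtain ⟨q, hq⟩ : ∃ q, q = p ^ k := ⟨_, rfl⟩
    have hq2 : ((p : ℤ) ^ k) = (q : ℤ) := by rw [hq]; push_cast; rfl
    have hx0q := hx0.1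
    have hyq := hy.1
    rw [hq2] at h8
    rw [← hq] at hx0q hyq hdpos ⊢
    rcases h8 with h8 | h8
    · left
      have := Int.eq_zero_of_abs_lt_dvd h8 (by rw [abs_lt]; omega)
      omega
    · right
      have h9 : q ∣ y + x0 := by exact_mod_cast h8
      obtain ⟨j, hj⟩ := h9
      have hx0' : 0 < x0 := by
        rcases Nat.eq_zero_or_pos x0 with h | h
        · subst h
          exfalso
          have b6 : p ∣ 0 ^ 2 + 1 := (dvd_pow_self p (by omega)).trans hx0.2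
          exact hpp.one_lt.ne' (Nat.dvd_one.1 (by simpa using b6))
        · exact h
      have hj1 : j = 1 := by
        rcases j with _ | _ | j
        · omega
        · rfl
        · exfalso
          have : q * (j + 1 + 1) = q * j + q + q := by ring
          nlinarith [Nat.zero_le (q * j)]
      subst hj1
      omega
  unfold rh
  exact (card_le_card hsub).trans card_le_two

end Pool.Agent.K4H50.HL
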