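import Pool.Agent.K4H50.HL.B2

/-!
# The large prime factors of `n ^ 2 + 1` (Chebyshev)
-/

set_option autoImplicit false

namespace Pool.Agent.K4H50.HL

open Finset Filter Topology

theorem log_fac (X : ℕ) : ∑ n ∈ Icc 1 X, Real.log (n : ℝ) = Real.log (X.factorial : ℝ) := by
  induction X with
  | zero => simp
  | succ X ih =>
    rw [sum_Icc_succ_top (by omega), ih, Nat.factorial_succ]
    push_cast
    rw [Real.log_mul (by positivity) (by positivity), add_comm]

theorem log_fac_ge (X : ℕ) (hX : 1 ≤ X) : (X : ℝ) * Real.log X - X ≤ ∑ n ∈ Icc 1 X, Real.log (n : ℝ) := by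
  rw [log_fac]
  have h := Real.pow_div_factorial_le_exp (X : ℝ) (Nat.cast_nonneg X) X
  have hX0 : (0 : ℝ) < X := by exact_mod_cast hX
  have hf : (0 : ℝ) < (X.factorial : ℝ) := by exact_mod_cast X.factorial_pos
  have h2 := Real.log_le_log (by positivity) h
  rw [Real.log_exp, Real.log_div (by positivity) (by positivity), Real.log_pow] at h2
  linarith

theorem log_sq_sum (X : ℕ) (hX : 1 ≤ X) :
    |∑ n ∈ Icc 1 X, Real.log ((n ^ 2 + 1 : ℕ) : ℝ) - 2 * ((X : ℝ) * Real.log X)| ≤ 2 * X := by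
  have hX0 : (1 : ℝ) ≤ X := by exact_mod_cast hX
  rw [abs_le]
  constructor
  · have h1 := log_fac_ge X hX
    have h2 : ∑ n ∈ Icc 1 X, 2 * Real.log (n : ℝ) ≤ ∑ n ∈ Icc 1 X, Real.log ((n ^ 2 + 1 : ℕ) : ℝ) := by
      apply sum_le_sum
      intro n hn
      rw [mem_Icc] at hn
      have hn0 : (1 : ℝ) ≤ n := by exact_mod_cast hn.1
      have : 2 * Real.log (n : ℝ) = Real.log ((n : ℝ) ^ 2) := by rw [Real.log_pow]; push_cast; ring
      rw [this]
      apply Real.log_le_log (by positivity)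
      push_cast
      linarith
    rw [← mul_sum] at h2
    linarith
  · have h2 : ∑ n ∈ Icc 1 X, Real.log ((n ^ 2 + 1 : ℕ) : ℝ) ≤ ∑ n ∈ Icc 1 X, (2 * Real.log (X : ℝ) + 1) := by
      apply sum_le_sum
      intro n hn
      rw [mem_Icc] at hn
      have hn0 : (1 : ℝ) ≤ n := by exact_mod_cast hn.1
      have hnX : (n : ℝ) ≤ X := by exact_mod_cast hn.2
      have h3 : Real.log ((n ^ 2 + 1 : ℕ) : ℝ) ≤ Real.log (2 * (X : ℝ) ^ 2) := by
        apply Real.log_le_log (by positivity)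
        push_cast
        nlinarith
      rw [Real.log_mul (by norm_num) (by positivity), Real.log_pow] at h3
      have h4 : Real.log 2 ≤ 2 - 1 := Real.log_le_sub_one_of_pos (by norm_num)
      push_cast at h3 ⊢
      linarith
    rw [sum_const, Nat.card_Icc, Nat.add_sub_cancel, nsmul_eq_mul] at h2
    linarith

theorem log_switch (X : ℕ) : ∑ n ∈ Icc 1 X, Real.log ((n ^ 2 + 1 : ℕ) : ℝ) =
    ∑ d ∈ Icc 1 (X ^ 2 + 1), ArithmeticFunction.vonMangoldt d * (NN d X : ℝ) := by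
  have e1 : ∀ n ∈ Icc 1 X, Real.log ((n ^ 2 + 1 : ℕ) : ℝ) =
      ∑ d ∈ Icc 1 (X ^ 2 + 1), if d ∣ n ^ 2 + 1 then ArithmeticFunction.vonMangoldt d else 0 := by
    intro n hn
    rw [mem_Icc] at hn
    rw [← ArithmeticFunction.vonMangoldt_sum, ← sum_filter]
    apply sum_congr _ (fun _ _ => rfl)
    ext d
    rw [Nat.mem_divisors, mem_filter, mem_Icc]
    constructor
    · rintro ⟨h1, h2⟩
      refine ⟨⟨Nat.pos_of_dvd_of_pos h1 (Nat.pos_of_ne_zero h2), ?_⟩, h1⟩
      refine (Nat.le_of_dvd (Nat.pos_of_ne_zero h2) h1).trans ?_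
      have := Nat.pow_le_pow_left hn.2 2
      omega
    · rintro ⟨h1, h2⟩
      exact ⟨h2, by positivity⟩
  rw [sum_congr rfl e1, sum_comm]
  apply sum_congr rfl
  intro d _
  unfold NN
  rw [← sum_filter, sum_const, nsmul_eq_mul, mul_comm]

/-- the large primes -/
noncomputable def SP (X Z : ℕ) : ℝ := ∑ p ∈ (Ioc X Z).filter Nat.Prime, Real.log p * (NN p X : ℝ)

theorem theta_nat (X : ℕ) : ∑ p ∈ (Icc 1 X).filter Nat.Prime, Real.log p = Chebyshev.theta (X : ℝ) := by
  unfold Chebyshev.theta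
  rw [Nat.floor_natCast]
  rfl

theorem psi_nat (X : ℕ) : ∑ d ∈ Icc 1 X, ArithmeticFunction.vonMangoldt d = Chebyshev.psi (X : ℝ) := by
  unfold Chebyshev.psi
  rw [Nat.floor_natCast]
  rfl

theorem npr_psi : ∃ C : ℝ, 0 < C ∧ ∀ X : ℕ, ∑ d ∈ Icc 1 X, (if d.Prime then 0 else
    ArithmeticFunction.vonMangoldt d) ≤ C * √X := by
  obtain ⟨C, hC⟩ := Chebyshev.psi_sub_theta_le_mul_sqrt
  refine ⟨max C 1, by positivity, fun X => ?_⟩
  have h := hC (X : ℝ)
  rw [← theta_nat, ← psi_nat, sum_filter, ← sum_sub_distrib] at h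
  refine le_trans (le_of_eq ?_) (h.trans (mul_le_mul_of_nonneg_right (le_max_left _ _) (Real.sqrt_nonneg _)))
  apply sum_congr rfl
  intro d _
  split_ifs with hd
  · rw [ArithmeticFunction.vonMangoldt_apply_prime hd]; ring
  · ring

/-- **Chebyshev**: the large prime factors of `n ^ 2 + 1`, `n ≤ X`. -/
theorem cheb : ∃ C : ℝ, 0 < C ∧ ∀ X : ℕ, 1 ≤ X → |SP X (X ^ 2 + 1) - (X : ℝ) * Real.log X| ≤ C * X := by
  obtain ⟨C1, hC1, h1⟩ := mert_rh
  obtain ⟨C2, hC2, h2⟩ := npr_le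
  obtain ⟨C3, hC3, h3⟩ := npr_psi
  refine ⟨2 + C1 + (2 * Real.log 4) + (2 * C2 + 4 * C3), by positivity, fun X hX => ?_⟩
  have hX0 : (1 : ℝ) ≤ X := by exact_mod_cast hX
  have hS := log_sq_sum X hX
  -- splitting
  have hsplit : ∑ d ∈ Icc 1 (X ^ 2 + 1), ArithmeticFunction.vonMangoldt d * (NN d X : ℝ) =
      ∑ p ∈ (Icc 1 X).filter Nat.Prime, Real.log p * (NN p X : ℝ) + SP X (X ^ 2 + 1) +
      ∑ d ∈ Icc 1 (X ^ 2 + 1), (if d.Prime then 0 else ArithmeticFunction.vonMangoldt d) * (NN d X : ℝ) := by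
    have hXX : X ≤ X ^ 2 + 1 := by nlinarith
    have e : (Icc 1 (X ^ 2 + 1)).filter Nat.Prime = (Icc 1 X).filter Nat.Prime ∪ (Ioc X (X ^ 2 + 1)).filter Nat.Prime := by
      rw [← filter_union]
      congr 1
      ext d
      rw [mem_union, mem_Icc, mem_Icc, mem_Ioc]
      omega
    have hdisj : Disjoint ((Icc 1 X).filter Nat.Prime) ((Ioc X (X ^ 2 + 1)).filter Nat.Prime) := by
      rw [disjoint_left]
      intro d hd1 hd2
      rw [mem_filter, mem_Icc] at hd1
      rw [mem_filter, mem_Ioc] at hd2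
      omega
    unfold SP
    rw [← sum_union hdisj, ← e, sum_filter, ← sum_add_distrib]
    apply sum_congr rfl
    intro d _
    split_ifs with hd
    · rw [ArithmeticFunction.vonMangoldt_apply_prime hd]; ring
    · ring
  -- the small primes
  have hsmall : |∑ p ∈ (Icc 1 X).filter Nat.Prime, Real.log p * (NN p X : ℝ) -
      X * ∑ p ∈ (Icc 1 X).filter Nat.Prime, (rh p : ℝ) * (Real.log p / p)| ≤ (2 * Real.log 4) * X := by
    rw [mul_sum, ← sum_sub_distrib]
    refine (abs_sum_le_sum_abs _ _).trans ?_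
    have h4 : ∀ p ∈ (Icc 1 X).filter Nat.Prime, |Real.log p * (NN p X : ℝ) - X * ((rh p : ℝ) * (Real.log p / p))| ≤
        2 * Real.log p := by
      intro p hp
      rw [mem_filter, mem_Icc] at hp
      have hl : 0 ≤ Real.log (p : ℝ) := Real.log_natCast_nonneg _
      have e : Real.log p * (NN p X : ℝ) - X * ((rh p : ℝ) * (Real.log p / p)) =
          Real.log p * ((NN p X : ℝ) - (rh p : ℝ) * ((X : ℝ) / p)) := by ring
      rw [e, abs_mul, abs_of_nonneg hl, mul_comm]
      apply mul_le_mul_of_nonneg_right _ hl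
      refine (NN_sub p X hp.2.pos).trans ?_
      exact_mod_cast rh_le p hp.2
    refine (sum_le_sum h4).trans ?_
    rw [← mul_sum, theta_nat]
    have := Chebyshev.theta_le_log4_mul_x (x := (X : ℝ)) (by positivity)
    nlinarith
  -- the prime powers
  have hpp : ∑ d ∈ Icc 1 (X ^ 2 + 1), (if d.Prime then 0 else ArithmeticFunction.vonMangoldt d) * (NN d X : ℝ) ≤
      (2 * C2 + 4 * C3) * X := by
    have h4 : ∀ d ∈ Icc 1 (X ^ 2 + 1), (if d.Prime then 0 else ArithmeticFunction.vonMangoldt d) * (NN d X : ℝ) ≤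
        2 * X * (if d.Prime then 0 else (ArithmeticFunction.vonMangoldt d) / (d : ℝ)) +
          2 * (if d.Prime then 0 else ArithmeticFunction.vonMangoldt d) := by
      intro d hd
      rw [mem_Icc] at hd
      split_ifs with hp
      · simp
      · by_cases hpow : IsPrimePow d
        · have a1 := (abs_le.1 (NN_sub d X hd.1)).2
          have a2 : (rh d : ℝ) ≤ 2 := by exact_mod_cast rh_pp d hpow
          have a3 : (0 : ℝ) ≤ (X : ℝ) / d := by positivity
          have a4 : (NN d X : ℝ) ≤ 2 * ((X : ℝ) / d) + 2 := by nlinarith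
          have a5 : 0 ≤ (ArithmeticFunction.vonMangoldt d : ℝ) := ArithmeticFunction.vonMangoldt_nonneg
          calc (ArithmeticFunction.vonMangoldt d : ℝ) * (NN d X : ℝ) ≤
              ArithmeticFunction.vonMangoldt d * (2 * ((X : ℝ) / d) + 2) := mul_le_mul_of_nonneg_left a4 a5
            _ = _ := by ring
        · have : (ArithmeticFunction.vonMangoldt d : ℝ) = 0 := by
            rw [ArithmeticFunction.vonMangoldt_eq_zero_iff]; exact hpow
          rw [this]; simp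
    refine (sum_le_sum h4).trans ?_
    rw [sum_add_distrib, ← mul_sum, ← mul_sum]
    have h5 := h2 (Icc 1 (X ^ 2 + 1))
    have h6 := h3 (X ^ 2 + 1)
    have h7 : √(((X ^ 2 + 1 : ℕ)) : ℝ) ≤ 2 * X := by
      rw [Real.sqrt_le_left (by positivity)]
      push_cast
      nlinarith
    have h8 : C3 * √(((X ^ 2 + 1 : ℕ)) : ℝ) ≤ C3 * (2 * X) := mul_le_mul_of_nonneg_left h7 hC3.le
    nlinarith
  have hpp0 : 0 ≤ ∑ d ∈ Icc 1 (X ^ 2 + 1), (if d.Prime then 0 else ArithmeticFunction.vonMangoldt d) * (NN d X : ℝ) := by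
    apply sum_nonneg
    intro d _
    apply mul_nonneg _ (Nat.cast_nonneg _)
    split_ifs
    · exact le_rfl
    · exact ArithmeticFunction.vonMangoldt_nonneg
  rw [log_switch, hsplit] at hS
  have hM := abs_le.1 (h1 X hX)
  have hs1 := abs_le.1 hS
  have hs2 := abs_le.1 hsmall
  have hM1 : (X : ℝ) * (∑ p ∈ (Icc 1 X).filter Nat.Prime, (rh p : ℝ) * (Real.log p / p)) ≤ X * (Real.log X + C1) :=
    mul_le_mul_of_nonneg_left (by linarith [hM.2]) (by linarith)
  have hM2 : (X : ℝ) * (Real.log X - C1) ≤ (X : ℝ) * (∑ p ∈ (Icc 1 X).filter Nat.Prime, (rh p : ℝ) * (Real.log p / p)) :=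
    mul_le_mul_of_nonneg_left (by linarith [hM.1]) (by linarith)
  have hl4 : 0 ≤ Real.log 4 := Real.log_nonneg (by norm_num)
  rw [abs_le]
  constructor
  · nlinarith [hs1.1, hs1.2, hs2.1, hs2.2]
  · nlinarith [hs1.1, hs1.2, hs2.1, hs2.2]

end Pool.Agent.K4H50.HL
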