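import Pool.Agent.K4H50.HL.B2

/-!
# The Euler product of the character modulo `4` at `1`
-/

set_option autoImplicit false

namespace Pool.Agent.K4H50.HL

open Finset Filter Topology

/-- Abel's inequality -/
theorem abel_ineq (b w : ℕ → ℝ) (K : ℝ) (hanti : Antitone w) (h0 : ∀ n, 0 ≤ w n)
    (hK : ∀ n, |∑ i ∈ range n, b i| ≤ K) (N : ℕ) : |∑ i ∈ range N, b i * w i| ≤ K * w 0 := by
  have id : ∀ N, ∑ i ∈ range N, b i * w i = (∑ i ∈ range N, b i) * w N +
      ∑ i ∈ range N, (∑ j ∈ range (i + 1), b j) * (w i - w (i + 1)) := by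
    intro N
    induction N with
    | zero => simp
    | succ N ih =>
      rw [sum_range_succ, ih, sum_range_succ (fun i => (∑ j ∈ range (i + 1), b j) * (w i - w (i + 1))),
        sum_range_succ b N]
      ring
  rw [id N]
  have tele : ∑ i ∈ range N, (w i - w (i + 1)) = w 0 - w N := sum_range_sub' w N
  have h1 : |(∑ i ∈ range N, b i) * w N| ≤ K * w N := by
    rw [abs_mul, abs_of_nonneg (h0 N)]
    exact mul_le_mul_of_nonneg_right (hK N) (h0 N)
  have h2 : |∑ i ∈ range N, (∑ j ∈ range (i + 1), b j) * (w i - w (i + 1))| ≤ K * (w 0 - w N) := by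
    refine (abs_sum_le_sum_abs _ _).trans ?_
    rw [← tele, mul_sum]
    apply sum_le_sum
    intro i _
    have h3 : 0 ≤ w i - w (i + 1) := by have := hanti (Nat.le_succ i); linarith
    rw [abs_mul, abs_of_nonneg h3]
    exact mul_le_mul_of_nonneg_right (hK _) h3
  refine (abs_add_le _ _).trans ?_
  linarith

/-- Abel's limit theorem -/
theorem abel_lim (b : ℕ → ℝ) (B : ℝ) (hB : Tendsto (fun n => ∑ i ∈ range n, b i) atTop (𝓝 B))
    (w : ℝ → ℕ → ℝ) (hanti : ∀ ε, 0 < ε → Antitone (w ε)) (h0 : ∀ ε n, 0 ≤ w ε n) (h1 : ∀ ε, 0 < ε → ∀ n, w ε n ≤ 1)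
    (hlim : ∀ n, Tendsto (fun ε => w ε n) (𝓝[>] 0) (𝓝 1)) (T : ℝ → ℝ)
    (hT : ∀ ε, 0 < ε → Tendsto (fun n => ∑ i ∈ range n, b i * w ε i) atTop (𝓝 (T ε))) :
    Tendsto T (𝓝[>] 0) (𝓝 B) := by
  rw [Metric.tendsto_nhds]
  intro η hη
  have hη5 : 0 < η / 5 := by positivity
  obtain ⟨N0, hN0⟩ := (Metric.tendsto_atTop.1 hB) (η / 5) hη5
  have hb : ∀ n, |∑ i ∈ range n, b (N0 + i)| ≤ 2 * (η / 5) := by
    intro n
    have e : ∑ i ∈ range n, b (N0 + i) = ∑ i ∈ range (N0 + n), b i - ∑ i ∈ range N0, b i := by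
      rw [sum_range_add]; ring
    rw [e]
    have h3 := hN0 (N0 + n) (by omega)
    have h4 := hN0 N0 le_rfl
    rw [Real.dist_eq] at h3 h4
    have h5 := abs_lt.1 h3
    have h6 := abs_lt.1 h4
    rw [abs_le]
    constructor <;> linarith [h5.1, h5.2, h6.1, h6.2]
  have htail : ∀ ε, 0 < ε → |T ε - ∑ i ∈ range N0, b i * w ε i| ≤ 2 * (η / 5) := by
    intro ε hε
    have h2 : ∀ n, |∑ i ∈ range (N0 + n), b i * w ε i - ∑ i ∈ range N0, b i * w ε i| ≤ 2 * (η / 5) := by
      intro n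
      rw [sum_range_add, add_sub_cancel_left]
      have h3 := abel_ineq (fun i => b (N0 + i)) (fun i => w ε (N0 + i)) (2 * (η / 5))
        (fun i j hij => hanti ε hε (by omega)) (fun i => h0 ε _) hb n
      refine h3.trans ?_
      have := h1 ε hε (N0 + 0)
      nlinarith
    have h3 : Tendsto (fun n => ∑ i ∈ range (N0 + n), b i * w ε i) atTop (𝓝 (T ε)) := by
      have := (hT ε hε).comp (tendsto_add_atTop_nat N0)
      refine this.congr (fun n => ?_)
      simp only [Function.comp, add_comm]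
    have h4 := (h3.sub_const (∑ i ∈ range N0, b i * w ε i)).abs
    exact le_of_tendsto h4 (Eventually.of_forall h2)
  have hfin : Tendsto (fun ε => ∑ i ∈ range N0, b i * w ε i) (𝓝[>] 0) (𝓝 (∑ i ∈ range N0, b i)) := by
    have : Tendsto (fun ε => ∑ i ∈ range N0, b i * w ε i) (𝓝[>] 0) (𝓝 (∑ i ∈ range N0, b i * 1)) :=
      tendsto_finsetSum _ (fun i _ => (hlim i).const_mul (b i))
    simpa using this
  rw [Metric.tendsto_nhds] at hfin
  filter_upwards [hfin (η / 5) hη5, self_mem_nhdsWithin] with ε h5 hε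
  have h6 := htail ε hε
  have h7 := hN0 N0 le_rfl
  rw [Real.dist_eq] at h5 h7 ⊢
  have a1 := abs_lt.1 h5
  have a2 := abs_le.1 h6
  have a3 := abs_lt.1 h7
  rw [abs_lt]
  constructor <;> linarith [a1.1, a1.2, a2.1, a2.2, a3.1, a3.2]

/-- the weights -/
noncomputable def ww (ε : ℝ) (n : ℕ) : ℝ := (max (n : ℝ) 1) ^ (-ε)

theorem ww_anti (ε : ℝ) (hε : 0 < ε) : Antitone (ww ε) := by
  intro n m h
  unfold ww
  exact Real.rpow_le_rpow_of_nonpos (by positivity) (max_le_max_right 1 (by exact_mod_cast h)) (by linarith)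

theorem ww_nonneg (ε : ℝ) (n : ℕ) : 0 ≤ ww ε n := by
  unfold ww; positivity

theorem ww_le (ε : ℝ) (hε : 0 < ε) (n : ℕ) : ww ε n ≤ 1 :=
  Real.rpow_le_one_of_one_le_of_nonpos (le_max_right _ _) (by linarith)

theorem ww_lim (n : ℕ) : Tendsto (fun ε => ww ε n) (𝓝[>] 0) (𝓝 1) := by
  have h : Continuous (fun ε : ℝ => ww ε n) := by
    unfold ww
    exact (Real.continuous_const_rpow (by positivity)).comp continuous_neg
  have h2 := h.tendsto 0
  have e : ww 0 n = 1 := by unfold ww; simp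
  rw [e] at h2
  exact h2.mono_left nhdsWithin_le_nhds

theorem ww_mul (ε : ℝ) (n : ℕ) (hn : 1 ≤ n) : 1 / (n : ℝ) * ww ε n = (n : ℝ) ^ (-(1 + ε)) := by
  unfold ww
  have hn1 : (1 : ℝ) ≤ n := by exact_mod_cast hn
  rw [max_eq_left hn1, neg_add, Real.rpow_add (by linarith), Real.rpow_neg_one, one_div]

/-- the completely multiplicative function `χ(n) n ^ (-(1 + ε))` -/
noncomputable def fE (ε : ℝ) (hε : 0 < ε) : ℕ →*₀ ℝ where
  toFun n := cc n * (n : ℝ) ^ (-(1 + ε))
  map_zero' := by rw [cc_even (by norm_num), zero_mul]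
  map_one' := by
    have : cc 1 = 1 := by have := cc_odd 0; simpa using this
    rw [this]; simp
  map_mul' m n := by
    rw [cc_mul]
    push_cast
    rw [Real.mul_rpow (Nat.cast_nonneg _) (Nat.cast_nonneg _)]
    ring

theorem fE_apply (ε : ℝ) (hε : 0 < ε) (n : ℕ) : fE ε hε n = cc n * (n : ℝ) ^ (-(1 + ε)) := rfl

theorem fE_eq (ε : ℝ) (hε : 0 < ε) (n : ℕ) : fE ε hε n = cc n * (1 / (n : ℝ)) * ww ε n := by
  rw [fE_apply]
  rcases Nat.eq_zero_or_pos n with rfl | hn
  · rw [cc_even (by norm_num)]; simp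
  · rw [mul_assoc, ww_mul ε n hn]

theorem fE_abs (ε : ℝ) (hε : 0 < ε) (n : ℕ) : |fE ε hε n| ≤ (n : ℝ) ^ (-(1 + ε)) := by
  rw [fE_apply, abs_mul, abs_of_nonneg (by positivity : (0 : ℝ) ≤ (n : ℝ) ^ (-(1 + ε)))]
  exact mul_le_of_le_one_left (by positivity) (abs_cc n)

theorem fE_summable (ε : ℝ) (hε : 0 < ε) : Summable (fun n => ‖fE ε hε n‖) := by
  have h : Summable (fun n : ℕ => (n : ℝ) ^ (-(1 + ε))) := by
    rw [Real.summable_nat_rpow]; linarith
  refine Summable.of_nonneg_of_le (fun n => norm_nonneg _) (fun n => ?_) h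
  rw [Real.norm_eq_abs]
  exact fE_abs ε hε n

theorem L_lim : Tendsto (fun n => ∑ i ∈ range n, cc i * (1 / (i : ℝ))) atTop (𝓝 (Real.pi / 4)) := by
  have h1 : Tendsto SL atTop (𝓝 (Real.pi / 4)) := by
    rw [tendsto_iff_dist_tendsto_zero]
    have h2 : Tendsto (fun y : ℕ => 1 / ((y : ℝ) + 1)) atTop (𝓝 0) := tendsto_one_div_add_atTop_nhds_zero_nat
    refine squeeze_zero (fun y => dist_nonneg) (fun y => ?_) h2
    rw [Real.dist_eq]
    exact SL_bound y
  rw [← tendsto_add_atTop_iff_nat 1]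
  refine h1.congr (fun n => ?_)
  unfold SL
  rw [sum_range_succ', cc_even (by norm_num : 0 % 2 = 0), zero_mul, add_zero]
  have e : Icc 1 n = Ico 1 (n + 1) := by ext; rw [mem_Icc, mem_Ico]; omega
  rw [e, sum_Ico_eq_sum_range]
  apply sum_congr rfl
  intro i _
  rw [add_comm 1 i]

/-- the series `L(1 + ε, χ)` tends to `π / 4` -/
theorem TL_lim (T : ℝ → ℝ) (hT : ∀ ε (hε : 0 < ε), T ε = ∑' n, fE ε hε n) :
    Tendsto T (𝓝[>] 0) (𝓝 (Real.pi / 4)) := by
  refine abel_lim (fun i => cc i * (1 / (i : ℝ))) _ L_lim ww ww_anti ww_nonneg ww_le ww_lim T ?_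
  intro ε hε
  rw [hT ε hε]
  have h := (fE_summable ε hε).of_norm.hasSum.tendsto_sum_nat
  refine h.congr (fun n => ?_)
  apply sum_congr rfl
  intro i _
  exact fE_eq ε hε i

/-- the primes -/
noncomputable def bp (n : ℕ) : ℝ := if n.Prime then cc n * (1 / (n : ℝ)) else 0

theorem bp_conv : ∃ E : ℝ, Tendsto (fun n => ∑ i ∈ range n, bp i) atTop (𝓝 E) := by
  obtain ⟨C1, hC1, h1⟩ := mert_chi
  obtain ⟨C2, hC2, h2⟩ := npr_le
  have hz : ∀ n, ‖∑ i ∈ range n, (if i.Prime then cc i * (Real.log i / i) else 0)‖ ≤ C1 + C2 := by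
    intro n
    rw [Real.norm_eq_abs]
    rcases Nat.eq_zero_or_pos n with rfl | hn
    · simp; positivity
    obtain ⟨m, rfl⟩ : ∃ m, n = m + 1 := ⟨n - 1, by omega⟩
    have e1 : ∑ i ∈ range (m + 1), (if i.Prime then cc i * (Real.log i / i) else 0) =
        ∑ d ∈ Icc 1 m, cc d * (ArithmeticFunction.vonMangoldt d / d) -
        ∑ d ∈ Icc 1 m, cc d * (if d.Prime then 0 else (ArithmeticFunction.vonMangoldt d) / (d : ℝ)) := by
      rw [← sum_sub_distrib, sum_range_succ']
      rw [if_neg (by norm_num : ¬ (0 : ℕ).Prime), add_zero]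
      have e : Icc 1 m = Ico 1 (m + 1) := by ext; rw [mem_Icc, mem_Ico]; omega
      rw [e, sum_Ico_eq_sum_range]
      apply sum_congr rfl
      intro i _
      rw [add_comm 1 i]
      split_ifs with hd
      · rw [ArithmeticFunction.vonMangoldt_apply_prime hd]
        ring
      · ring
    have h3 : |∑ d ∈ Icc 1 m, cc d * (if d.Prime then 0 else (ArithmeticFunction.vonMangoldt d) / (d : ℝ))| ≤ C2 := by
      refine (abs_sum_le_sum_abs _ _).trans ((sum_le_sum fun d _ => ?_).trans (h2 (Icc 1 m)))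
      rw [abs_mul, abs_of_nonneg (npr_nonneg d)]
      exact mul_le_of_le_one_left (npr_nonneg d) (abs_cc d)
    rw [e1]
    exact (abs_sub _ _).trans (add_le_add (h1 m) h3)
  have hanti : Antitone (fun n : ℕ => 1 / Real.log (max (n : ℝ) 2)) := by
    intro n m h
    have h3 : (1 : ℝ) < max (n : ℝ) 2 := lt_of_lt_of_le (by norm_num) (le_max_right _ _)
    apply one_div_le_one_div_of_le (Real.log_pos h3)
    apply Real.log_le_log (by linarith)
    exact max_le_max_right 2 (by exact_mod_cast h)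
  have hto : Tendsto (fun n : ℕ => 1 / Real.log (max (n : ℝ) 2)) atTop (𝓝 0) := by
    have h3 : Tendsto (fun n : ℕ => Real.log (max (n : ℝ) 2)) atTop atTop := by
      apply Real.tendsto_log_atTop.comp
      exact tendsto_atTop_mono (fun n => le_max_left _ _) tendsto_natCast_atTop_atTop
    refine h3.inv_tendsto_atTop.congr (fun n => ?_)
    rw [Pi.inv_apply, one_div]
  obtain ⟨E, hE⟩ := cauchySeq_tendsto_of_complete
    (Antitone.cauchySeq_series_mul_of_tendsto_zero_of_bounded hanti hto hz)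
  refine ⟨E, hE.congr (fun n => ?_)⟩
  apply sum_congr rfl
  intro i _
  unfold bp
  split_ifs with hi
  · have h2i : (2 : ℝ) ≤ i := by exact_mod_cast hi.two_le
    rw [max_eq_left h2i, smul_eq_mul]
    have : 0 < Real.log (i : ℝ) := Real.log_pos (by linarith)
    field_simp
  · simp

/-- the remainder of the logarithm -/
noncomputable def rr (u : ℝ) : ℝ := -Real.log (1 - u) - u

theorem rr_le (u : ℝ) (hu : |u| ≤ 1 / 2) : |rr u| ≤ 2 * u ^ 2 := by
  have h := Real.abs_log_sub_add_sum_range_le (x := u) (by linarith) 1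
  simp only [range_one, sum_singleton, zero_add, pow_one, Nat.cast_zero, div_one] at h
  have e : rr u = -(u + Real.log (1 - u)) := by unfold rr; ring
  rw [e, abs_neg]
  refine h.trans ?_
  rw [div_le_iff₀ (by linarith)]
  have : |u| ^ (1 + 1) = u ^ 2 := by norm_num
  rw [this]
  nlinarith [sq_nonneg u]

theorem rr_cont (u : ℝ) (hu : u < 1) : ContinuousAt rr u := by
  unfold rr
  apply ContinuousAt.sub _ continuousAt_id
  apply ContinuousAt.neg
  apply ContinuousAt.log
  · fun_prop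
  · linarith

theorem fac_exp (u : ℝ) (hu : |u| ≤ 1 / 2) : (1 - u)⁻¹ = Real.exp (u + rr u) := by
  have h := (abs_le.1 hu).2
  unfold rr
  rw [show u + (-Real.log (1 - u) - u) = -Real.log (1 - u) by ring, Real.exp_neg, Real.exp_log (by linarith)]

theorem prod_exp (u : ℕ → ℝ) (hu : ∀ p : ℕ, p.Prime → |u p| ≤ 1 / 2) (N : ℕ) :
    ∏ p ∈ N.primesBelow, (1 - u p)⁻¹ =
      Real.exp (∑ n ∈ range N, (if n.Prime then u n else 0) + ∑ n ∈ range N, (if n.Prime then rr (u n) else 0)) := by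
  rw [← sum_add_distrib, Real.exp_sum]
  unfold Nat.primesBelow
  rw [prod_filter]
  apply prod_congr rfl
  intro n _
  split_ifs with hn
  · exact fac_exp _ (hu n hn)
  · simp

theorem up_le (p : ℕ) (hp : p.Prime) : |cc p * (1 / (p : ℝ))| ≤ 1 / p := by
  rw [abs_mul, abs_of_nonneg (by positivity : (0 : ℝ) ≤ 1 / p)]
  exact mul_le_of_le_one_left (by positivity) (abs_cc p)

theorem half_le (p : ℕ) (hp : p.Prime) : 1 / (p : ℝ) ≤ 1 / 2 := by
  apply one_div_le_one_div_of_le (by norm_num)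
  exact_mod_cast hp.two_le

/-- **The Euler product at `1`.** -/
theorem euler_one : Tendsto (fun N : ℕ => ∏ p ∈ N.primesBelow, (1 - cc p * (1 / (p : ℝ)))⁻¹) atTop
    (𝓝 (Real.pi / 4)) := by
  obtain ⟨E, hE⟩ := bp_conv
  have hsq : Summable (fun n : ℕ => 2 * ((n : ℝ) ^ 2)⁻¹) :=
    (Real.summable_nat_pow_inv.2 (by norm_num)).mul_left 2
  -- the remainder at `0`
  have hbd : ∀ (c : ℝ) (n : ℕ), n.Prime → |c| ≤ 1 / n → |rr c| ≤ 2 * ((n : ℝ) ^ 2)⁻¹ := by
    intro c n hn hc
    refine (rr_le c (hc.trans (half_le n hn))).trans ?_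
    apply mul_le_mul_of_nonneg_left _ (by norm_num)
    rw [← sq_abs]
    calc |c| ^ 2 ≤ (1 / (n : ℝ)) ^ 2 := pow_le_pow_left₀ (abs_nonneg _) hc 2
      _ = _ := by rw [one_div, inv_pow]
  have hR0s : Summable (fun n : ℕ => if n.Prime then rr (cc n * (1 / (n : ℝ))) else 0) := by
    refine Summable.of_norm_bounded hsq (fun n => ?_)
    rw [Real.norm_eq_abs]
    split_ifs with hn
    · exact hbd _ n hn (up_le n hn)
    · rw [abs_zero]; positivity
  -- for `ε > 0`
  have hfle : ∀ ε (hε : 0 < ε) (p : ℕ), p.Prime → |fE ε hε p| ≤ 1 / p := by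
    intro ε hε p hp
    refine (fE_abs ε hε p).trans ?_
    rw [← ww_mul ε p hp.one_lt.le]
    exact mul_le_of_le_one_right (by positivity) (ww_le ε hε p)
  obtain ⟨T, hT⟩ : ∃ T : ℝ → ℝ, T = fun ε => if hε : 0 < ε then ∑' n, fE ε hε n else 0 := ⟨_, rfl⟩
  have hT2 : ∀ ε (hε : 0 < ε), T ε = ∑' n, fE ε hε n := by
    intro ε hε
    rw [hT]; simp only [dif_pos hε]
  obtain ⟨S, hS⟩ : ∃ S : ℝ → ℝ, S = fun ε => if hε : 0 < ε then ∑' n : ℕ, (if n.Prime then fE ε hε n else 0) else 0 :=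
    ⟨_, rfl⟩
  have hS2 : ∀ ε (hε : 0 < ε), S ε = ∑' n : ℕ, (if n.Prime then fE ε hε n else 0) := by
    intro ε hε
    rw [hS]; simp only [dif_pos hε]
  have hSs : ∀ ε (hε : 0 < ε), Summable (fun n : ℕ => if n.Prime then fE ε hε n else 0) := by
    intro ε hε
    refine Summable.of_norm_bounded (fE_summable ε hε) (fun n => ?_)
    split_ifs
    · exact le_rfl
    · simp
  obtain ⟨R, hR⟩ : ∃ R : ℝ → ℝ, R = fun ε => ∑' n : ℕ, (if n.Prime then rr (cc n * (1 / (n : ℝ)) * ww ε n) else 0) :=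
    ⟨_, rfl⟩
  have hRs : ∀ ε, 0 < ε → Summable (fun n : ℕ => if n.Prime then rr (cc n * (1 / (n : ℝ)) * ww ε n) else 0) := by
    intro ε hε
    refine Summable.of_norm_bounded hsq (fun n => ?_)
    rw [Real.norm_eq_abs]
    split_ifs with hn
    · apply hbd _ n hn
      rw [← fE_eq ε hε]
      exact hfle ε hε n hn
    · rw [abs_zero]; positivity
  -- the identity
  have hid : ∀ ε, 0 < ε → T ε = Real.exp (S ε + R ε) := by
    intro ε hε
    have h1 := EulerProduct.eulerProduct_completely_multiplicative (fE_summable ε hε)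
    rw [← hT2 ε hε] at h1
    have h2 : Tendsto (fun N : ℕ => Real.exp (∑ n ∈ range N, (if n.Prime then fE ε hε n else 0) +
        ∑ n ∈ range N, (if n.Prime then rr (fE ε hε n) else 0))) atTop (𝓝 (Real.exp (S ε + R ε))) := by
      apply (Real.continuous_exp.tendsto _).comp
      apply Tendsto.add
      · rw [hS2 ε hε]
        exact (hSs ε hε).hasSum.tendsto_sum_nat
      · have h3 := (hRs ε hε).hasSum.tendsto_sum_nat
        rw [hR]
        refine h3.congr (fun N => sum_congr rfl (fun n _ => ?_))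
        rw [fE_eq ε hε n]
    refine tendsto_nhds_unique h1 (h2.congr (fun N => ?_))
    exact (prod_exp (fun n => fE ε hε n) (fun p hp => (hfle ε hε p hp).trans (half_le p hp)) N).symm
  -- the limits
  have hTl : Tendsto T (𝓝[>] 0) (𝓝 (Real.pi / 4)) := TL_lim T hT2
  have hSl : Tendsto S (𝓝[>] 0) (𝓝 E) := by
    refine abel_lim bp _ hE ww ww_anti ww_nonneg ww_le ww_lim S ?_
    intro ε hε
    rw [hS2 ε hε]
    refine (hSs ε hε).hasSum.tendsto_sum_nat.congr (fun N => sum_congr rfl (fun n _ => ?_))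
    unfold bp
    split_ifs
    · exact fE_eq ε hε n
    · simp
  obtain ⟨R0, hR0⟩ : ∃ R0 : ℝ, R0 = ∑' n : ℕ, (if n.Prime then rr (cc n * (1 / (n : ℝ))) else 0) := ⟨_, rfl⟩
  have hRl : Tendsto R (𝓝[>] 0) (𝓝 R0) := by
    rw [hR, hR0]
    refine tendsto_tsum_of_dominated_convergence hsq ?_ ?_
    · intro n
      by_cases hn : n.Prime
      · simp only [if_pos hn]
        have h1 : Tendsto (fun ε => cc n * (1 / (n : ℝ)) * ww ε n) (𝓝[>] 0) (𝓝 (cc n * (1 / (n : ℝ)) * 1)) :=
          (ww_lim n).const_mul _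
        rw [mul_one] at h1
        have h2 : cc n * (1 / (n : ℝ)) < 1 := by
          have := (abs_le.1 ((up_le n hn).trans (half_le n hn))).2
          linarith
        exact (rr_cont _ h2).tendsto.comp h1
      · simp only [if_neg hn]
        exact tendsto_const_nhds
    · filter_upwards [self_mem_nhdsWithin] with ε hε
      intro n
      rw [Real.norm_eq_abs]
      split_ifs with hn
      · apply hbd _ n hn
        rw [← fE_eq ε hε]
        exact hfle ε hε n hn
      · rw [abs_zero]; positivity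
  have hval : Real.pi / 4 = Real.exp (E + R0) := by
    have h1 : Tendsto (fun ε => Real.exp (S ε + R ε)) (𝓝[>] 0) (𝓝 (Real.exp (E + R0))) :=
      (Real.continuous_exp.tendsto _).comp (hSl.add hRl)
    refine tendsto_nhds_unique hTl (h1.congr' ?_)
    filter_upwards [self_mem_nhdsWithin] with ε hε
    exact (hid ε hε).symm
  rw [hval]
  have h2 : Tendsto (fun N : ℕ => Real.exp (∑ n ∈ range N, (if n.Prime then cc n * (1 / (n : ℝ)) else 0) +
      ∑ n ∈ range N, (if n.Prime then rr (cc n * (1 / (n : ℝ))) else 0))) atTop (𝓝 (Real.exp (E + R0))) := by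
    apply (Real.continuous_exp.tendsto _).comp
    apply Tendsto.add
    · exact hE
    · rw [hR0]
      exact hR0s.hasSum.tendsto_sum_nat
  refine h2.congr (fun N => ?_)
  exact (prod_exp (fun n => cc n * (1 / (n : ℝ))) (fun p hp => (up_le p hp).trans (half_le p hp)) N).symm

end Pool.Agent.K4H50.HL
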