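import Pool.Agent.K4H50.HL.B7

/-!
# A multiplicative function
-/

set_option autoImplicit false

namespace Pool.Agent.K4H50.HL

open Finset Filter Topology ArithmeticFunction

/-- the multiplicative function with the given values at the prime powers -/
noncomputable def mkf (φ : ℕ → ℕ → ℝ) : ArithmeticFunction ℝ :=
  ⟨fun n => if n = 0 then 0 else n.factorization.prod φ, by simp⟩

theorem mkf_apply (φ : ℕ → ℕ → ℝ) (n : ℕ) (hn : n ≠ 0) : mkf φ n = n.factorization.prod φ := by
  show (if n = 0 then 0 else n.factorization.prod φ) = _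
  rw [if_neg hn]

theorem mkf_mul (φ : ℕ → ℕ → ℝ) : (mkf φ).IsMultiplicative := by
  rw [IsMultiplicative.iff_ne_zero]
  refine ⟨by rw [mkf_apply φ 1 one_ne_zero, Nat.factorization_one, Finsupp.prod_zero_index], ?_⟩
  intro m n hm hn h
  rw [mkf_apply φ _ (mul_ne_zero hm hn), mkf_apply φ m hm, mkf_apply φ n hn, Nat.factorization_mul hm hn]
  apply Finsupp.prod_add_index_of_disjoint
  rw [Nat.support_factorization, Nat.support_factorization]
  exact h.disjoint_primeFactors

theorem mkf_pp (φ : ℕ → ℕ → ℝ) (p k : ℕ) (hp : p.Prime) (hk : k ≠ 0) : mkf φ (p ^ k) = φ p k := by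
  rw [mkf_apply φ _ (pow_ne_zero _ hp.ne_zero), hp.factorization_pow]
  have h : (Finsupp.single p k).support = {p} := Finsupp.support_single_ne_zero p hk
  unfold Finsupp.prod
  rw [h, prod_singleton, Finsupp.single_eq_same]

/-- `(p - 1) / (p - 2)` -/
noncomputable def bet (p : ℕ) : ℝ := ((p : ℝ) - 1) / ((p : ℝ) - 2)

/-- the values of `f` -/
noncomputable def phf (p k : ℕ) : ℝ := if p % 4 = 1 then 2 * bet p else if p = 2 ∧ k = 1 then 2 else 0

/-- the values of `k` -/
noncomputable def phk (p k : ℕ) : ℝ :=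
  if p % 4 = 1 then (if k = 1 then 2 * bet p - 2 else if k = 2 then -(2 * bet p - 1) else 0)
  else if p = 2 then (if k = 1 then 1 else if k = 2 then -2 else 0)
  else (if k = 2 then -1 else 0)

/-- the character as an arithmetic function -/
noncomputable def ca : ArithmeticFunction ℝ := ⟨fun n => cc n, cc_even (by norm_num)⟩

theorem ca_apply (n : ℕ) : ca n = cc n := rfl

theorem cc_one : cc 1 = 1 := by have := cc_odd 0; simpa using this

theorem ca_mul : ca.IsMultiplicative := by
  rw [IsMultiplicative.iff_ne_zero]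
  refine ⟨by rw [ca_apply, cc_one], ?_⟩
  intro m n _ _ _
  exact cc_mul m n

theorem cc_pow (p k : ℕ) : cc (p ^ k) = cc p ^ k := by
  induction k with
  | zero => rw [pow_zero, pow_zero, cc_one]
  | succ k ih => rw [pow_succ, cc_mul, ih, pow_succ]

theorem cc_mod_one {p : ℕ} (h : p % 4 = 1) : cc p = 1 := by
  obtain ⟨i, hi⟩ : ∃ i, p = 2 * (2 * i) + 1 := ⟨p / 4, by omega⟩
  rw [hi, cc_odd]; simp

theorem cc_mod_three {p : ℕ} (h : p % 4 = 3) : cc p = -1 := by
  obtain ⟨i, hi⟩ : ∃ i, p = 2 * (2 * i + 1) + 1 := ⟨p / 4, by omega⟩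
  rw [hi, cc_odd]; simp [pow_succ]

/-- `1 * χ` -/
noncomputable def ra : ArithmeticFunction ℝ := (↑(zeta : ArithmeticFunction ℕ) : ArithmeticFunction ℝ) * ca

theorem ra_mul : ra.IsMultiplicative := by
  unfold ra
  exact isMultiplicative_zeta.natCast.mul ca_mul

theorem ra_apply (n : ℕ) : ra n = ∑ d ∈ n.divisors, cc d := by
  unfold ra
  rw [coe_zeta_mul_apply]
  rfl

theorem ra_pp (p m : ℕ) (hp : p.Prime) : ra (p ^ m) = ∑ l ∈ range (m + 1), cc p ^ l := by
  rw [ra_apply, Nat.sum_divisors_prime_pow hp]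
  apply sum_congr rfl
  intro l _
  exact cc_pow p l

/-- **the convolution identity** -/
theorem conv : mkf phf = mkf phk * ra := by
  rw [IsMultiplicative.eq_iff_eq_on_prime_powers _ (mkf_mul phf) _ ((mkf_mul phk).mul ra_mul)]
  intro p j hp
  rcases Nat.eq_zero_or_pos j with rfl | hj
  · rw [pow_zero, (mkf_mul phf).1, ((mkf_mul phk).mul ra_mul).1]
  rw [mkf_pp phf p j hp hj.ne', mul_apply, Nat.sum_divisorsAntidiagonal (fun x y => mkf phk x * ra y),
    Nat.sum_divisors_prime_pow hp]
  have e1 : ∀ x ∈ range (j + 1), mkf phk (p ^ x) * ra (p ^ j / p ^ x) = mkf phk (p ^ x) * ra (p ^ (j - x)) := by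
    intro x hx
    rw [mem_range] at hx
    rw [Nat.pow_div (by omega) hp.pos]
  rw [sum_congr rfl e1]
  have hR : ∀ m, ra (p ^ (m + 1)) = ra (p ^ m) + cc p ^ (m + 1) := by
    intro m
    rw [ra_pp p _ hp, ra_pp p _ hp, sum_range_succ]
  have hR0 : ra (p ^ 0) = 1 := by rw [ra_pp p 0 hp]; simp
  rcases Nat.lt_or_ge j 2 with hj2 | hj2
  · have : j = 1 := by omega
    subst this
    have e6 : ra (p ^ 1) = 1 + cc p := by
      have := hR 0
      rw [hR0, zero_add, pow_one] at this
      rw [pow_one, this, pow_one]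
    have e7 : ra 1 = 1 := ra_mul.1
    rw [sum_range_succ, sum_range_succ, range_zero, sum_empty, zero_add, mkf_pp phk p 1 hp one_ne_zero,
      pow_zero, (mkf_mul phk).1, one_mul, Nat.sub_zero, e6, e7, mul_one]
    unfold phf phk
    rcases (show p % 4 = 1 ∨ p = 2 ∨ p % 4 = 3 by
      rcases hp.eq_two_or_odd with h | h
      · right; left; exact h
      · omega) with h | h | h
    · rw [if_pos h, if_pos h, if_pos rfl, cc_mod_one h]; ring
    · subst h
      rw [cc_even (by norm_num)]
      norm_num
    · rw [if_neg (by omega), if_neg (by omega), if_neg (by omega), if_neg (by omega), if_neg (by omega),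
        cc_mod_three h]
      ring
  · obtain ⟨i, rfl⟩ : ∃ i, j = i + 2 := ⟨j - 2, by omega⟩
    have e2 : ∑ x ∈ range (i + 2 + 1), mkf phk (p ^ x) * ra (p ^ (i + 2 - x)) =
        ∑ x ∈ range 3, mkf phk (p ^ x) * ra (p ^ (i + 2 - x)) := by
      symm
      apply sum_subset
      · intro x hx
        rw [mem_range] at hx ⊢
        omega
      · intro x _ hx
        rw [mem_range] at hx
        rw [mkf_pp phk p x hp (by omega)]
        have : phk p x = 0 := by
          unfold phk
          split_ifs <;> first | rfl | omega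
        rw [this, zero_mul]
    rw [e2, sum_range_succ, sum_range_succ, sum_range_succ, range_zero, sum_empty, zero_add,
      mkf_pp phk p 1 hp one_ne_zero, mkf_pp phk p 2 hp two_ne_zero, pow_zero, (mkf_mul phk).1, one_mul]
    have e3 : i + 2 - 1 = i + 1 := by omega
    have e4 : i + 2 - 2 = i := by omega
    rw [Nat.sub_zero, e3, e4, hR (i + 1), hR i]
    unfold phf phk
    rcases (show p % 4 = 1 ∨ p = 2 ∨ p % 4 = 3 by
      rcases hp.eq_two_or_odd with h | h
      · right; left; exact h
      · omega) with h | h | h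
    · have e5 : ra (p ^ i) = i + 1 := by
        rw [ra_pp p i hp, cc_mod_one h]
        simp
      rw [if_pos h, if_pos h, if_pos rfl, if_pos h, if_neg (by omega), if_pos rfl, e5, cc_mod_one h]
      ring
    · subst h
      have e5 : ra (2 ^ i) = 1 := by
        rw [ra_pp 2 i hp, cc_even (by norm_num), sum_range_succ', pow_zero]
        simp
      rw [e5, cc_even (by norm_num)]
      have h21 : ¬ i + 2 = 1 := by omega
      norm_num [h21]
    · rw [if_neg (by omega), if_neg (by omega), if_neg (by omega), if_neg (by omega), if_neg (by omega),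
        if_neg (by omega), if_neg (by omega), if_pos rfl, cc_mod_three h]
      ring

end Pool.Agent.K4H50.HL
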