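import Pool.Agent.K4H50.HL.B8

/-!
# The summatory function of `f(a) / a`
-/

set_option autoImplicit false

namespace Pool.Agent.K4H50.HL

open Finset Filter Topology ArithmeticFunction

/-- `∑ (1 * χ)(m) / m` -/
noncomputable def Gra (y : ℕ) : ℝ := ∑ m ∈ Icc 1 y, ra m / m

theorem Gra_eq (y : ℕ) : Gra y = ∑ e ∈ Icc 1 y, (1 / (e : ℝ)) * SL (y / e) := by
  have e1 : ∀ n ∈ Icc 1 y, ra n / n = ∑ d ∈ n.divisors,
      (fun d m : ℕ => (1 / (d : ℝ)) * (cc m * (1 / (m : ℝ)))) d (n / d) := by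
    intro n hn
    rw [mem_Icc] at hn
    rw [ra_apply, ← Nat.sum_div_divisors n cc, sum_div]
    apply sum_congr rfl
    intro d hd
    rw [Nat.mem_divisors] at hd
    obtain ⟨m, rfl⟩ := hd.1
    have hd0 : 0 < d := Nat.pos_of_dvd_of_pos hd.1 hn.1
    have hm0 : 0 < m := Nat.pos_of_ne_zero (by rintro rfl; simp at hn)
    rw [Nat.mul_div_cancel_left _ hd0]
    push_cast
    field_simp
  unfold Gra
  refine (sum_congr rfl e1).trans ((div_switch (fun d m : ℕ => (1 / (d : ℝ)) * (cc m * (1 / (m : ℝ)))) y).trans ?_)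
  apply sum_congr rfl
  intro d _
  rw [← mul_sum]
  rfl

theorem harm_bound (y : ℕ) (hy : 1 ≤ y) : |∑ e ∈ Icc 1 y, (1 / (e : ℝ)) - Real.log y| ≤ 1 := by
  have h1 := log_add_one_le_harmonic y
  have h2 := harmonic_le_one_add_log y
  have e : ((harmonic y : ℚ) : ℝ) = ∑ e ∈ Icc 1 y, (1 / (e : ℝ)) := by
    rw [harmonic_eq_sum_Icc]
    push_cast
    apply sum_congr rfl
    intro i _
    rw [one_div]
  rw [e] at h1 h2
  have h3 : Real.log (y : ℝ) ≤ Real.log ((y + 1 : ℕ) : ℝ) := by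
    apply Real.log_le_log (by exact_mod_cast hy)
    push_cast; linarith
  rw [abs_le]
  constructor <;> linarith

theorem Gra_bound (y : ℕ) (hy : 1 ≤ y) : |Gra y - Real.pi / 4 * Real.log y| ≤ 2 := by
  have hy0 : (0 : ℝ) < y := by exact_mod_cast hy
  have h1 : |Gra y - Real.pi / 4 * ∑ e ∈ Icc 1 y, (1 / (e : ℝ))| ≤ 1 := by
    rw [Gra_eq, mul_sum, ← sum_sub_distrib]
    refine (abs_sum_le_sum_abs _ _).trans ?_
    have h2 : ∀ e ∈ Icc 1 y, |1 / (e : ℝ) * SL (y / e) - Real.pi / 4 * (1 / (e : ℝ))| ≤ 1 / y := by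
      intro e he
      rw [mem_Icc] at he
      have he0 : (0 : ℝ) < e := by exact_mod_cast he.1
      have h3 : 1 / (e : ℝ) * SL (y / e) - Real.pi / 4 * (1 / (e : ℝ)) = 1 / (e : ℝ) * (SL (y / e) - Real.pi / 4) := by ring
      rw [h3, abs_mul, abs_of_nonneg (by positivity : (0 : ℝ) ≤ 1 / e)]
      have h5 := SL_bound (y / e)
      have h6 : 1 / (((y / e : ℕ) : ℝ) + 1) ≤ e / y := by
        rw [div_le_div_iff₀ (by positivity) hy0, one_mul]
        have h7 : y < e * (y / e + 1) := Nat.lt_mul_div_succ y he.1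
        exact_mod_cast h7.le
      calc 1 / (e : ℝ) * |SL (y / e) - Real.pi / 4| ≤ 1 / e * (e / y) :=
            mul_le_mul_of_nonneg_left (h5.trans h6) (by positivity)
        _ = 1 / y := by field_simp
    refine (sum_le_sum h2).trans ?_
    rw [sum_const, Nat.card_Icc, Nat.add_sub_cancel, nsmul_eq_mul]
    exact le_of_eq (by field_simp)
  have h2 := harm_bound y hy
  have hpi : |Real.pi / 4| ≤ 1 := by
    rw [abs_of_pos (by positivity)]
    linarith [Real.pi_le_four]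
  have h3 : |Real.pi / 4 * (∑ e ∈ Icc 1 y, (1 / (e : ℝ)) - Real.log y)| ≤ 1 := by
    rw [abs_mul]
    calc |Real.pi / 4| * |∑ e ∈ Icc 1 y, (1 / (e : ℝ)) - Real.log y| ≤ 1 * 1 :=
          mul_le_mul hpi h2 (abs_nonneg _) (by norm_num)
      _ = 1 := by norm_num
  have e : Gra y - Real.pi / 4 * Real.log y = (Gra y - Real.pi / 4 * ∑ e ∈ Icc 1 y, (1 / (e : ℝ))) +
      Real.pi / 4 * (∑ e ∈ Icc 1 y, (1 / (e : ℝ)) - Real.log y) := by ring
  rw [e]
  refine (abs_add_le _ _).trans ?_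
  linarith

theorem F_sum (A : ℕ) : ∑ a ∈ Icc 1 A, mkf phf a / a = ∑ n ∈ Icc 1 A, (mkf phk n / n) * Gra (A / n) := by
  have e1 : ∀ n ∈ Icc 1 A, mkf phf n / n = ∑ d ∈ n.divisors,
      (fun d m : ℕ => (mkf phk d / d) * (ra m / (m : ℝ))) d (n / d) := by
    intro n hn
    rw [mem_Icc] at hn
    rw [conv, mul_apply, Nat.sum_divisorsAntidiagonal (fun x y => mkf phk x * ra y), sum_div]
    apply sum_congr rfl
    intro d hd
    rw [Nat.mem_divisors] at hd
    obtain ⟨m, rfl⟩ := hd.1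
    have hd0 : 0 < d := Nat.pos_of_dvd_of_pos hd.1 hn.1
    have hm0 : 0 < m := Nat.pos_of_ne_zero (by rintro rfl; simp at hn)
    rw [Nat.mul_div_cancel_left _ hd0]
    push_cast
    field_simp
  refine (sum_congr rfl e1).trans ((div_switch (fun d m : ℕ => (mkf phk d / d) * (ra m / (m : ℝ))) A).trans ?_)
  apply sum_congr rfl
  intro d _
  rw [← mul_sum]
  rfl

/-- `k(n) / n` -/
noncomputable def kn (n : ℕ) : ℝ := mkf phk n / n

theorem kn_zero : kn 0 = 0 := by unfold kn; simp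

theorem kn_one : kn 1 = 1 := by unfold kn; rw [(mkf_mul phk).1]; simp

theorem kn_mul {m n : ℕ} (h : m.Coprime n) : kn (m * n) = kn m * kn n := by
  unfold kn
  rw [(mkf_mul phk).map_mul_of_coprime h]
  push_cast
  rw [mul_div_mul_comm]

theorem kn_pp (p e : ℕ) (hp : p.Prime) (he : 3 ≤ e) : kn (p ^ e) = 0 := by
  unfold kn
  rw [mkf_pp phk p e hp (by omega)]
  have : phk p e = 0 := by
    unfold phk
    split_ifs <;> first | rfl | omega
  rw [this, zero_div]

/-- the local factors -/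
noncomputable def kp (p : ℕ) : ℝ := 1 + phk p 1 / p + phk p 2 / (p : ℝ) ^ 2

theorem kn_p0 (p : ℕ) : kn (p ^ 0) = 1 := by rw [pow_zero, kn_one]

theorem kn_p1 (p : ℕ) (hp : p.Prime) : kn (p ^ 1) = phk p 1 / p := by
  unfold kn
  rw [mkf_pp phk p 1 hp one_ne_zero, pow_one]

theorem kn_p2 (p : ℕ) (hp : p.Prime) : kn (p ^ 2) = phk p 2 / (p : ℝ) ^ 2 := by
  unfold kn
  rw [mkf_pp phk p 2 hp two_ne_zero]
  push_cast
  rfl

theorem kn_tsum (p : ℕ) (hp : p.Prime) : ∑' e : ℕ, kn (p ^ e) = kp p := by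
  rw [tsum_eq_sum (s := range 3) (fun e he => kn_pp p e hp (by rw [mem_range] at he; omega))]
  rw [sum_range_succ, sum_range_succ, sum_range_succ, range_zero, sum_empty, zero_add, kn_p0, kn_p1 p hp, kn_p2 p hp]
  rfl

theorem kn_tsum_abs (p : ℕ) (hp : p.Prime) : ∑' e : ℕ, |kn (p ^ e)| ≤ 1 + 6 * ((p : ℝ) ^ 2)⁻¹ := by
  rw [tsum_eq_sum (s := range 3) (fun e he => by rw [kn_pp p e hp (by rw [mem_range] at he; omega), abs_zero])]
  rw [sum_range_succ, sum_range_succ, sum_range_succ, range_zero, sum_empty, zero_add, kn_p0, kn_p1 p hp, kn_p2 p hp,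
    abs_one]
  have hp0 : (0 : ℝ) < p := by exact_mod_cast hp.pos
  rcases (show p % 4 = 1 ∨ p = 2 ∨ p % 4 = 3 by
      rcases hp.eq_two_or_odd with h | h
      · right; left; exact h
      · omega) with h | h | h
  · have h5 : (5 : ℝ) ≤ p := by
      have h1 := hp.one_lt
      exact_mod_cast (by omega : 5 ≤ p)
    have e1 : phk p 1 = 2 / ((p : ℝ) - 2) := by
      unfold phk bet
      rw [if_pos h, if_pos rfl]
      have : (p : ℝ) - 2 ≠ 0 := by linarith
      field_simp
      ring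
    have e2 : phk p 2 = -((p : ℝ) / ((p : ℝ) - 2)) := by
      unfold phk bet
      rw [if_pos h, if_neg (by norm_num), if_pos rfl]
      have : (p : ℝ) - 2 ≠ 0 := by linarith
      field_simp
      ring
    have hp2 : (0 : ℝ) < p - 2 := by linarith
    rw [e1, e2, abs_of_nonneg (by positivity : (0 : ℝ) ≤ 2 / ((p : ℝ) - 2) / p), abs_div, abs_neg,
      abs_of_nonneg (by positivity : (0 : ℝ) ≤ (p : ℝ) / (p - 2)), abs_of_nonneg (by positivity : (0 : ℝ) ≤ (p : ℝ) ^ 2)]
    have e3 : 2 / ((p : ℝ) - 2) / p ≤ 4 * ((p : ℝ) ^ 2)⁻¹ := by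
      rw [div_div, ← div_eq_mul_inv, div_le_div_iff₀ (by positivity) (by positivity)]
      nlinarith
    have e4 : (p : ℝ) / (p - 2) / p ^ 2 ≤ 2 * ((p : ℝ) ^ 2)⁻¹ := by
      rw [div_div, ← div_eq_mul_inv, div_le_div_iff₀ (by positivity) (by positivity)]
      have : (p : ℝ) ≤ 2 * (p - 2) := by linarith
      nlinarith [sq_nonneg (p : ℝ)]
    linarith
  · subst h
    have e1 : phk 2 1 = 1 := by unfold phk; norm_num
    have e2 : phk 2 2 = -2 := by unfold phk; norm_num
    rw [e1, e2]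
    norm_num
  · have e1 : phk p 1 = 0 := by
      unfold phk
      rw [if_neg (by omega), if_neg (by omega), if_neg (by omega)]
    have e2 : phk p 2 = -1 := by
      unfold phk
      rw [if_neg (by omega), if_neg (by omega), if_pos rfl]
    rw [e1, e2, zero_div, abs_zero, abs_div, abs_neg, abs_one, abs_of_nonneg (by positivity : (0 : ℝ) ≤ (p : ℝ) ^ 2),
      one_div]
    have : 0 ≤ ((p : ℝ) ^ 2)⁻¹ := by positivity
    linarith

theorem kn_summable : Summable (fun n => ‖kn n‖) := by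
  have hsq : Summable (fun n : ℕ => 6 * ((n : ℝ) ^ 2)⁻¹) :=
    (Real.summable_nat_pow_inv.2 (by norm_num)).mul_left 6
  have h1 := fun s : Finset ℕ => (EulerProduct.summable_and_hasSum_factoredNumbers_prod_filter_prime_tsum
    (f := fun n => |kn n|) (by rw [kn_one, abs_one]) (fun {m n} h => by rw [kn_mul h, abs_mul]) (fun {p} hp => by
      apply summable_of_ne_finset_zero (s := range 3)
      intro e he
      rw [kn_pp p e hp (by rw [mem_range] at he; omega)]
      simp) s).2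
  refine summable_of_sum_le (c := Real.exp (∑' n : ℕ, 6 * ((n : ℝ) ^ 2)⁻¹)) (fun n => norm_nonneg _) (fun u => ?_)
  obtain ⟨N, hN⟩ : ∃ N, N = u.sup id := ⟨_, rfl⟩
  have h2 := h1 (range (N + 1))
  have h3 : ∏ p ∈ (range (N + 1)).filter Nat.Prime, ∑' e : ℕ, |kn (p ^ e)| ≤ Real.exp (∑' n : ℕ, 6 * ((n : ℝ) ^ 2)⁻¹) := by
    have h4 : ∏ p ∈ (range (N + 1)).filter Nat.Prime, ∑' e : ℕ, |kn (p ^ e)| ≤
        ∏ p ∈ (range (N + 1)).filter Nat.Prime, Real.exp (6 * ((p : ℝ) ^ 2)⁻¹) := by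
      apply Finset.prod_le_prod
      · intro p _
        exact tsum_nonneg fun e => abs_nonneg _
      · intro p hp
        refine (kn_tsum_abs p (mem_filter.1 hp).2).trans ?_
        have := Real.add_one_le_exp (6 * ((p : ℝ) ^ 2)⁻¹)
        linarith
    refine h4.trans ?_
    rw [← Real.exp_sum]
    apply Real.exp_le_exp.2
    exact hsq.sum_le_tsum _ (fun n _ => by positivity)
  refine le_trans ?_ h3
  have h5 : HasSum ((Nat.factoredNumbers (range (N + 1))).indicator (fun n => |kn n|))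
      (∏ p ∈ (range (N + 1)).filter Nat.Prime, ∑' e : ℕ, |kn (p ^ e)|) :=
    (hasSum_subtype_iff_indicator (f := fun n => |kn n|) (s := Nat.factoredNumbers (range (N + 1)))).1 h2
  have h6 : ∑ x ∈ u, ‖kn x‖ ≤ ∑ x ∈ u, (Nat.factoredNumbers (range (N + 1))).indicator (fun n => |kn n|) x := by
    apply sum_le_sum
    intro x hx
    rcases Nat.eq_zero_or_pos x with rfl | hx0
    · rw [kn_zero, norm_zero]
      apply Set.indicator_nonneg
      intro n _
      exact abs_nonneg _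
    · rw [Set.indicator_of_mem]
      · exact le_rfl
      · rw [Nat.mem_factoredNumbers_iff_forall_le]
        refine ⟨hx0.ne', ?_⟩
        intro q hq hqp hqx
        rw [mem_range]
        have : x ≤ N := by rw [hN]; exact le_sup (f := id) hx
        omega
  refine h6.trans ?_
  exact sum_le_hasSum u (fun n _ => Set.indicator_nonneg (fun n _ => abs_nonneg _) n) h5

end Pool.Agent.K4H50.HL
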