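import Pool.Agent.K4H50.HL.B14

/-!
# The polynomials of discriminant `-4`
-/

set_option autoImplicit false

namespace Pool.Agent.K4H50.HL

open Finset Filter Topology

/-- the number of the integers `t ≥ 0` with `a t + b ≤ X` for which `a t ^ 2 + 2 b t + (b ^ 2 + 1) / a` is prime -/
def PA (a b X : ℕ) : ℕ := ((range (X + 1)).filter (fun t : ℕ => a * t + b ≤ X ∧
  (a * t ^ 2 + 2 * b * t + (b ^ 2 + 1) / a).Prime)).card

theorem val_eq (a b t : ℕ) (ha : 0 < a) (hab : a ∣ b ^ 2 + 1) :
    ((a * t + b) ^ 2 + 1) / a = a * t ^ 2 + 2 * b * t + (b ^ 2 + 1) / a := by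
  obtain ⟨c, hc⟩ := hab
  rw [hc, Nat.mul_div_cancel_left c ha]
  have e : (a * t + b) ^ 2 + 1 = a * (a * t ^ 2 + 2 * b * t + c) := by
    have : (a * t + b) ^ 2 + 1 = a * (a * t ^ 2 + 2 * b * t) + (b ^ 2 + 1) := by ring
    rw [this, hc]; ring
  rw [e, Nat.mul_div_cancel_left _ ha]

theorem TT_eq (a b X : ℕ) (ha : 0 < a) (hb : b < a) (hab : a ∣ b ^ 2 + 1) : TT X a b = PA a b X := by
  unfold TT PA
  apply card_bij' (fun n _ => n / a) (fun t _ => a * t + b)
  · intro n hn
    rw [mem_filter, mem_Icc] at hn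
    obtain ⟨⟨h1, h2⟩, h3, h4⟩ := hn
    have h5 : a * (n / a) + b = n := by
      have := Nat.div_add_mod n a
      rwa [h3] at this
    rw [mem_filter, mem_range]
    refine ⟨?_, by omega, ?_⟩
    · have := Nat.div_le_self n a
      omega
    · rw [← val_eq a b (n / a) ha hab, h5]
      exact h4
  · intro t ht
    rw [mem_filter, mem_range] at ht
    obtain ⟨h1, h2, h3⟩ := ht
    rw [mem_filter, mem_Icc]
    refine ⟨⟨?_, h2⟩, ?_, ?_⟩
    · rcases Nat.eq_zero_or_pos (a * t + b) with h0 | h0
      · exfalso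
        have hb0 : b = 0 := by omega
        have ht0 : t = 0 := by
          rcases Nat.mul_eq_zero.1 (show a * t = 0 by omega) with h | h
          · omega
          · exact h
        subst hb0
        subst ht0
        have ha1 : a = 1 := Nat.dvd_one.1 (by simpa using hab)
        subst ha1
        exact absurd h3 (by norm_num)
      · exact h0
    · rw [Nat.mul_add_mod, Nat.mod_eq_of_lt hb]
    · rw [val_eq a b t ha hab]
      exact h3
  · intro n hn
    rw [mem_filter, mem_Icc] at hn
    have := Nat.div_add_mod n a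
    rw [hn.2.1] at this
    exact this
  · intro t _
    rw [Nat.mul_add_div ha, Nat.div_eq_of_lt hb, add_zero]

end Pool.Agent.K4H50.HL
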