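import Pool.Agent.K4H50.HL.C1
import Pool.Agent.K4H50.HL.B18

/-!
# The polynomials of discriminant `-4`: everything together
-/

set_option autoImplicit false

namespace Pool.Agent.K4H50.HL

open Finset Filter Topology

/-- the sum of `log p` over the prime values -/
noncomputable def LA (a b X : ℕ) : ℝ := ∑ t ∈ (range (X + 1)).filter (fun t : ℕ => a * t + b ≤ X ∧
  (a * t ^ 2 + 2 * b * t + (b ^ 2 + 1) / a).Prime), Real.log ((a * t ^ 2 + 2 * b * t + (b ^ 2 + 1) / a : ℕ) : ℝ)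

theorem th_eq (a b X : ℕ) (ha : 0 < a) (hb : b < a) (hab : a ∣ b ^ 2 + 1) : th X a b = LA a b X := by
  unfold th LA
  refine sum_bij' (fun n _ => n / a) (fun t _ => a * t + b) ?_ ?_ ?_ ?_ ?_
  · intro n hn
    rw [mem_filter, mem_Icc] at hn
    obtain ⟨⟨h1, h2⟩, h3, h4⟩ := hn
    have h5 : a * (n / a) + b = n := by
      have := Nat.div_add_mod n a
      rwa [h3] at this
    rw [mem_filter, mem_range]
    refine ⟨?_, by omega, ?_⟩
    · have := Nat.div_le_self n a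
      omega
    · rw [← val_eq a b (n / a) ha hab, h5]
      exact h4
  · intro t ht
    rw [mem_filter, mem_range] at ht
    obtain ⟨h1, h2, h3⟩ := ht
    rw [mem_filter, mem_Icc]
    refine ⟨⟨?_, h2⟩, ?_, ?_⟩
    · rcases Nat.eq_zero_or_pos (a * t + b) with h0 | h0
      · exfalso
        have hb0 : b = 0 := by omega
        have ht0 : t = 0 := by
          rcases Nat.mul_eq_zero.1 (show a * t = 0 by omega) with h | h
          · omega
          · exact h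
        subst hb0
        subst ht0
        have ha1 : a = 1 := Nat.dvd_one.1 (by simpa using hab)
        subst ha1
        exact absurd h3 (by norm_num)
      · exact h0
    · rw [Nat.mul_add_mod, Nat.mod_eq_of_lt hb]
    · rw [val_eq a b t ha hab]
      exact h3
  · intro n hn
    rw [mem_filter, mem_Icc] at hn
    have := Nat.div_add_mod n a
    rw [hn.2.1] at this
    exact this
  · intro t _
    rw [Nat.mul_add_div ha, Nat.div_eq_of_lt hb, add_zero]
  · intro n hn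
    rw [mem_filter, mem_Icc] at hn
    have h5 : a * (n / a) + b = n := by
      have := Nat.div_add_mod n a
      rwa [hn.2.1] at this
    rw [← val_eq a b (n / a) ha hab, h5]

theorem pred_nonneg (X a : ℕ) (ha : 1 ≤ a) (haX : a ≤ X) : 0 ≤ pred X a := by
  unfold pred
  have h6 := CC_pos
  have h7 : 1 ≤ hh a := hh_ge a
  have hx0 : (0 : ℝ) < a := by exact_mod_cast ha
  have hX0 : (1 : ℝ) ≤ X := by exact_mod_cast (by omega : 1 ≤ X)
  have hxX : (a : ℝ) ≤ X := by exact_mod_cast haX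
  have h8 : 0 ≤ Real.log ((X : ℝ) ^ 2 / a) := by
    apply Real.log_nonneg
    rw [le_div_iff₀ hx0]
    nlinarith
  positivity

/-- the two ranges are monotone in `δ` -/
theorem range_mono (X : ℕ) (hX : 1 ≤ X) (δ δ' : ℝ) (h : δ ≤ δ') (a : ℕ)
    (h1 : (X : ℝ) ^ δ' ≤ a) (h2 : (a : ℝ) ≤ (X : ℝ) ^ (1 - δ')) :
    (X : ℝ) ^ δ ≤ a ∧ (a : ℝ) ≤ (X : ℝ) ^ (1 - δ) := by
  have hX1 : (1 : ℝ) ≤ X := by exact_mod_cast hX
  exact ⟨(Real.rpow_le_rpow_of_exponent_le hX1 h).trans h1,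
    h2.trans (Real.rpow_le_rpow_of_exponent_le hX1 (by linarith))⟩

/-- **Everything together.** -/
theorem all (ε : ℝ) (hε : 0 < ε) : ∃ δ0 κ : ℝ, 0 < δ0 ∧ δ0 < 1 / 2 ∧ 0 < κ ∧ ∀ δ : ℝ, 0 < δ → δ ≤ δ0 →
    ∀ᶠ X : ℕ in atTop,
      |∑ x ∈ Fam δ X, th X x.1 x.2 - X * Real.log X| ≤ ε * (X * Real.log X) ∧
      |∑ x ∈ Fam δ X, CC * hh x.1 * ((X : ℝ) / x.1) - X * Real.log X| ≤ ε * (X * Real.log X) ∧
      κ * Real.log X ≤ ∑ x ∈ Good ε δ X, 1 / (x.1 : ℝ) ∧
      κ * Real.log X ≤ ∑ x ∈ Poor ε δ X, 1 / (x.1 : ℝ) := by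
  classical
  obtain ⟨δ1, hδ1, hδ14, g1⟩ := avg_th ε hε
  obtain ⟨δ2, hδ2, hδ24, g2⟩ := avg_pred ε hε
  obtain ⟨ε', hε'⟩ : ∃ ε' : ℝ, ε' = min ε (1 / 2) := ⟨_, rfl⟩
  have h0 : 0 < ε' := by rw [hε']; positivity
  have h12 : ε' ≤ 1 / 2 := by rw [hε']; exact min_le_right _ _
  have hle : ε' ≤ ε := by rw [hε']; exact min_le_left _ _
  obtain ⟨δ3, κ3, hδ3, hδ34, hκ3, g3⟩ := main_lower ε' h0 (by linarith)
  obtain ⟨δ4, κ4, hδ4, hδ44, hκ4, g4⟩ := main_upper ε' h0 (by linarith)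
  obtain ⟨δ0, hδ0⟩ : ∃ δ0 : ℝ, δ0 = min (min δ1 δ2) (min δ3 δ4) := ⟨_, rfl⟩
  have d1 : δ0 ≤ δ1 := by rw [hδ0]; exact (min_le_left _ _).trans (min_le_left _ _)
  have d2 : δ0 ≤ δ2 := by rw [hδ0]; exact (min_le_left _ _).trans (min_le_right _ _)
  have d3 : δ0 ≤ δ3 := by rw [hδ0]; exact (min_le_right _ _).trans (min_le_left _ _)
  have d4 : δ0 ≤ δ4 := by rw [hδ0]; exact (min_le_right _ _).trans (min_le_right _ _)
  refine ⟨δ0, min κ3 κ4, by rw [hδ0]; positivity, by linarith, by positivity, ?_⟩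
  intro δ hδ hδle
  filter_upwards [g1 δ hδ (hδle.trans d1), g2 δ hδ (hδle.trans d2), g3, g4, eventually_ge_atTop 2] with X e1 e2 e3 e4 hX2
  have hL : 0 ≤ Real.log (X : ℝ) := Real.log_natCast_nonneg X
  refine ⟨e1, e2, ?_, ?_⟩
  · refine (mul_le_mul_of_nonneg_right (min_le_left κ3 κ4) hL).trans (e3.trans ?_)
    apply sum_le_sum_of_subset_of_nonneg
    · intro x hx
      unfold Good at hx ⊢
      rw [mem_filter] at hx ⊢
      obtain ⟨h2, h3, h4, h5⟩ := hx
      obtain ⟨r1, r2⟩ := range_mono X (by omega) δ δ3 (hδle.trans d3) x.1 h3 h4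
      have hm := mem_PPr.1 h2
      refine ⟨h2, r1, r2, le_trans ?_ h5⟩
      exact mul_le_mul_of_nonneg_right (by linarith) (pred_nonneg X x.1 hm.1.1 hm.1.2)
    · intro x _ _
      positivity
  · refine (mul_le_mul_of_nonneg_right (min_le_right κ3 κ4) hL).trans (e4.trans ?_)
    apply sum_le_sum_of_subset_of_nonneg
    · intro x hx
      unfold Poor at hx ⊢
      rw [mem_filter] at hx ⊢
      obtain ⟨h2, h3, h4, h5⟩ := hx
      obtain ⟨r1, r2⟩ := range_mono X (by omega) δ δ4 (hδle.trans d4) x.1 h3 h4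
      have hm := mem_PPr.1 h2
      refine ⟨h2, r1, r2, h5.trans ?_⟩
      exact mul_le_mul_of_nonneg_right (by linarith) (pred_nonneg X x.1 hm.1.1 hm.1.2)
    · intro x _ _
      positivity

end Pool.Agent.K4H50.HL
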